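import Pool.Agent.Lib.H49M.Defs

/-!
# K4: the dimension of an irreducible Kemmer module
-/

set_option autoImplicit false
set_option linter.unusedSectionVars false
namespace Pool.Agent.H49M
open Module Pool.Agent.H53Toric

variable {K : Type*} [Field K] {V : Type*} [AddCommGroup V] [Module K V]

/-- The eigenspace of `s` for `c`. -/
def eig (s : Module.End K V) (c : K) : Submodule K V := LinearMap.ker (s - c • 1)

/-- The counting operator. -/
noncomputable def cnt (s : Module.End K V) {m : ℕ} (x y : Fin m → Module.End K V) : Module.End K V :=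
  (1 / 2 : K) • (1 - s) + ∑ i, (x i * y i + (1 / 2 : K) • (1 - s) - y i * x i)

/-- Auxiliary identities of K4a. -/
theorem K4a_xx [CharZero K] {s : Module.End K V} {m : ℕ} {x y : Fin m → Module.End K V}
    (h : Kemmer s x y) (i j : Fin m) : x i * x j = 0 := by
  have h1 : x i * x j = -(x i * x j) := by
    calc x i * x j = x i * (s * x j) := by rw [h.sx]
      _ = (x i * s) * x j := by rw [mul_assoc]
      _ = -(x i * x j) := by rw [h.xs, neg_mul]
  have h2 : (2 : K) • (x i * x j) = 0 := by
    rw [two_smul]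
    nth_rewrite 1 [h1]
    exact neg_add_cancel _
  exact (smul_eq_zero.mp h2).resolve_left two_ne_zero

/-- Exchange of the two families. -/
theorem K4a_swap {s : Module.End K V} {m : ℕ} {x y : Fin m → Module.End K V}
    (h : Kemmer s x y) : Kemmer (-s) y x where
  s_sq := by rw [neg_mul_neg, h.s_sq]
  sx := fun i => by rw [neg_mul, h.sy, neg_neg]
  xs := fun i => by rw [mul_neg, h.ys]
  sy := fun i => by rw [neg_mul, h.sx]
  ys := fun i => by rw [mul_neg, h.xs, neg_neg]
  r1 := h.r2
  r2 := h.r1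
  irr := fun W h1 h2 h3 => h.irr W h2 h1 fun w hw => by
    have := W.neg_mem (h3 w hw)
    simpa using this

theorem K4a_yy [CharZero K] {s : Module.End K V} {m : ℕ} {x y : Fin m → Module.End K V}
    (h : Kemmer s x y) (i j : Fin m) : y i * y j = 0 :=
  K4a_xx (K4a_swap h) i j

theorem K4a_xQ [CharZero K] {s : Module.End K V} {m : ℕ} {x y : Fin m → Module.End K V}
    (h : Kemmer s x y) (i : Fin m) : x i * ((1 / 2 : K) • (1 - s)) = x i := by
  rw [mul_smul_comm, mul_sub, mul_one, h.xs, sub_neg_eq_add, ← two_smul K, smul_smul]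
  norm_num

theorem K4a_Qx [CharZero K] {s : Module.End K V} {m : ℕ} {x y : Fin m → Module.End K V}
    (h : Kemmer s x y) (i : Fin m) : ((1 / 2 : K) • (1 - s)) * x i = 0 := by
  rw [smul_mul_assoc, sub_mul, one_mul, h.sx, sub_self, smul_zero]

theorem K4a_Qy [CharZero K] {s : Module.End K V} {m : ℕ} {x y : Fin m → Module.End K V}
    (h : Kemmer s x y) (i : Fin m) : ((1 / 2 : K) • (1 - s)) * y i = y i := by
  rw [smul_mul_assoc, sub_mul, one_mul, h.sy, sub_neg_eq_add, ← two_smul K, smul_smul]
  norm_num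

theorem K4a_yQ [CharZero K] {s : Module.End K V} {m : ℕ} {x y : Fin m → Module.End K V}
    (h : Kemmer s x y) (i : Fin m) : y i * ((1 / 2 : K) • (1 - s)) = 0 := by
  rw [mul_smul_comm, mul_sub, mul_one, h.ys, sub_self, smul_zero]

theorem K4a_xyx [CharZero K] {s : Module.End K V} {m : ℕ} {x y : Fin m → Module.End K V}
    (h : Kemmer s x y) (i : Fin m) : x i * y i * x i = x i := by
  have h1 := h.r1 i i i
  simp only [if_true] at h1
  have h2 : (2 : K) • (x i * y i * x i) = (2 : K) • x i := by
    rw [two_smul, two_smul]; exact h1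
  exact smul_right_injective _ (two_ne_zero : (2 : K) ≠ 0) h2

theorem K4a_yxy [CharZero K] {s : Module.End K V} {m : ℕ} {x y : Fin m → Module.End K V}
    (h : Kemmer s x y) (i : Fin m) : y i * x i * y i = y i :=
  K4a_xyx (K4a_swap h) i

/-- For different indices. -/
theorem K4a_ne1 [CharZero K] {s : Module.End K V} {m : ℕ} {x y : Fin m → Module.End K V}
    (h : Kemmer s x y) {i j : Fin m} (hij : i ≠ j) : x i * y i * x j + x j * y i * x i = x j := by
  have h1 := h.r1 i i j
  rw [if_pos rfl, if_neg (Ne.symm hij), add_zero] at h1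
  exact h1

theorem K4a_ne2 [CharZero K] {s : Module.End K V} {m : ℕ} {x y : Fin m → Module.End K V}
    (h : Kemmer s x y) {i j : Fin m} (hij : i ≠ j) : y i * x i * y j + y j * x i * y i = y j :=
  K4a_ne1 (K4a_swap h) hij

/-- `x i y j x i = 0` for `i ≠ j`. -/
theorem K4a_zero [CharZero K] {s : Module.End K V} {m : ℕ} {x y : Fin m → Module.End K V}
    (h : Kemmer s x y) {i j : Fin m} (hij : i ≠ j) : x i * y j * x i = 0 := by
  have h1 := h.r1 i j i
  rw [if_neg hij, add_zero, ← two_smul K] at h1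
  exact (smul_eq_zero.mp h1).resolve_left two_ne_zero

/-- The idempotents `c i`. -/
noncomputable def K4c (s : Module.End K V) {m : ℕ} (x y : Fin m → Module.End K V) (i : Fin m) :
    Module.End K V := x i * y i + (1 / 2 : K) • (1 - s) - y i * x i

theorem K4a_cx [CharZero K] {s : Module.End K V} {m : ℕ} {x y : Fin m → Module.End K V}
    (h : Kemmer s x y) (i : Fin m) : K4c s x y i * x i = x i := by
  rw [K4c, sub_mul, add_mul, K4a_xyx h, K4a_Qx h, mul_assoc, K4a_xx h]
  simp

theorem K4a_xc [CharZero K] {s : Module.End K V} {m : ℕ} {x y : Fin m → Module.End K V}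
    (h : Kemmer s x y) (i : Fin m) : x i * K4c s x y i = 0 := by
  rw [K4c, mul_sub, mul_add, K4a_xQ h, ← mul_assoc, ← mul_assoc, K4a_xx h, K4a_xyx h]
  simp

theorem K4a_cy [CharZero K] {s : Module.End K V} {m : ℕ} {x y : Fin m → Module.End K V}
    (h : Kemmer s x y) (i : Fin m) : K4c s x y i * y i = 0 := by
  rw [K4c, sub_mul, add_mul, K4a_yxy h, K4a_Qy h, mul_assoc, K4a_yy h]
  simp

theorem K4a_yc [CharZero K] {s : Module.End K V} {m : ℕ} {x y : Fin m → Module.End K V}
    (h : Kemmer s x y) (i : Fin m) : y i * K4c s x y i = y i := by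
  rw [K4c, mul_sub, mul_add, K4a_yQ h, ← mul_assoc, ← mul_assoc, K4a_yy h, K4a_yxy h]
  simp

theorem K4a_comx [CharZero K] {s : Module.End K V} {m : ℕ} {x y : Fin m → Module.End K V}
    (h : Kemmer s x y) {i j : Fin m} (hij : i ≠ j) : K4c s x y i * x j = x j * K4c s x y i := by
  have h1 := K4a_ne1 h hij
  have h2 : K4c s x y i * x j = x i * y i * x j := by
    rw [K4c, sub_mul, add_mul, K4a_Qx h, mul_assoc (y i), K4a_xx h]
    simp
  have h3 : x j * K4c s x y i = x j - x j * y i * x i := by
    rw [K4c, mul_sub, mul_add, K4a_xQ h, ← mul_assoc, ← mul_assoc, K4a_xx h]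
    simp
  rw [h2, h3, eq_sub_iff_add_eq, h1]

theorem K4a_comy [CharZero K] {s : Module.End K V} {m : ℕ} {x y : Fin m → Module.End K V}
    (h : Kemmer s x y) {i j : Fin m} (hij : i ≠ j) : K4c s x y i * y j = y j * K4c s x y i := by
  have h1 := K4a_ne2 h hij
  have h2 : K4c s x y i * y j = y j - y i * x i * y j := by
    rw [K4c, sub_mul, add_mul, K4a_Qy h, mul_assoc (x i), K4a_yy h]
    simp
  have h3 : y j * K4c s x y i = y j * x i * y i := by
    rw [K4c, mul_sub, mul_add, K4a_yQ h, ← mul_assoc, ← mul_assoc, K4a_yy h]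
    simp
  rw [h2, h3, sub_eq_iff_eq_add', h1]

theorem K4a_coms [CharZero K] {s : Module.End K V} {m : ℕ} {x y : Fin m → Module.End K V}
    (h : Kemmer s x y) (i : Fin m) : K4c s x y i * s = s * K4c s x y i := by
  have h1 : s * (1 - s) = (1 - s) * s := by noncomm_ring
  have h2 : x i * y i * s = s * (x i * y i) := by
    rw [mul_assoc, h.ys, ← mul_assoc, h.sx]
  have h3 : y i * x i * s = s * (y i * x i) := by
    rw [mul_assoc, h.xs, ← mul_assoc, h.sy]; simp
  rw [K4c, sub_mul, add_mul, mul_sub, mul_add, h2, h3, smul_mul_assoc, mul_smul_comm, h1]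

theorem K4a_idem [CharZero K] {s : Module.End K V} {m : ℕ} {x y : Fin m → Module.End K V}
    (h : Kemmer s x y) (i : Fin m) : K4c s x y i * K4c s x y i = K4c s x y i := by
  have hQ : ((1 / 2 : K) • (1 - s)) * ((1 / 2 : K) • (1 - s)) = (1 / 2 : K) • (1 - s) := by
    rw [smul_mul_smul_comm]
    have : (1 - s) * (1 - s) = (2 : K) • (1 - s) := by
      have e1 : (1 - s) * (1 - s) = 1 - s - s + s * s := by noncomm_ring
      rw [e1, h.s_sq, two_smul]; abel
    rw [this, smul_smul]; norm_num
  nth_rewrite 2 [K4c]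
  rw [mul_sub, mul_add, ← mul_assoc, K4a_cx h, ← mul_assoc, K4a_cy h, zero_mul, sub_zero, K4c,
    sub_mul, add_mul, hQ, mul_assoc (x i), K4a_yQ h, mul_assoc (y i), K4a_xQ h, mul_zero]
  abel

/-- The case `b = 0` of K4a. -/
theorem K4a_zero_case [CharZero K] {s : Module.End K V} {m : ℕ}
    {x y : Fin (m + 1) → Module.End K V}
    (h : Kemmer s x y) {W : Submodule K V}
    (hW : ∀ w ∈ W, K4c s x y 0 w = 0) (hW0 : W ≠ ⊥)
    (h1 : ∀ i, i ≠ 0 → ∀ w ∈ W, x i w ∈ W) (h2 : ∀ i, i ≠ 0 → ∀ w ∈ W, y i w ∈ W)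
    (h3 : ∀ w ∈ W, s w ∈ W) {v : V}
    (hv : K4c s x y 0 v = 0) : v ∈ W := by
  have ap : ∀ {A B : Module.End K V} (w : V), A = B → A w = B w := by
    intro A B w hAB; rw [hAB]
  set S : Set V := {u | u ∈ W ∨ (∃ w ∈ W, u = x 0 w) ∨
    (∃ j, j ≠ 0 ∧ ∃ w ∈ W, u = y j (x 0 w))} with hS
  set W' := Submodule.span K S with hW'
  have hWW : ∀ w ∈ W, w ∈ W' := fun w hw => Submodule.subset_span (Or.inl hw)
  have hX : ∀ w ∈ W, x 0 w ∈ W' := fun w hw =>
    Submodule.subset_span (Or.inr (Or.inl ⟨w, hw, rfl⟩))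
  have hY : ∀ j, j ≠ 0 → ∀ w ∈ W, y j (x 0 w) ∈ W' := fun j hj w hw =>
    Submodule.subset_span (Or.inr (Or.inr ⟨j, hj, w, hw, rfl⟩))
  have key : ∀ T : Module.End K V, (∀ u ∈ S, T u ∈ W') → ∀ u ∈ W', T u ∈ W' := by
    intro T hT u hu
    have : W' ≤ W'.comap T := Submodule.span_le.mpr hT
    exact this hu
  have sx : ∀ i, ∀ u ∈ W', x i u ∈ W' := by
    intro i
    apply key
    rintro u (hu | ⟨w, hw, rfl⟩ | ⟨j, hj, w, hw, rfl⟩)
    · by_cases hi : i = 0
      · rw [hi]; exact hX u hu
      · exact hWW _ (h1 i hi u hu)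
    · have e := ap w (K4a_xx h i 0)
      rw [Module.End.mul_apply] at e
      rw [e]; exact W'.zero_mem
    · by_cases hi : i = 0
      · rw [hi]
        have e := ap w (K4a_zero h (Ne.symm hj))
        rw [Module.End.mul_apply, Module.End.mul_apply] at e
        rw [e]; exact W'.zero_mem
      · have e := ap w (h.r1 i j 0)
        rw [if_neg (Ne.symm hj), add_zero] at e
        rw [LinearMap.add_apply, Module.End.mul_apply, Module.End.mul_apply,
          Module.End.mul_apply, Module.End.mul_apply] at e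
        rw [eq_sub_of_add_eq e]
        refine W'.sub_mem ?_ (hX _ (h2 j hj _ (h1 i hi w hw)))
        split
        · exact hX w hw
        · exact W'.zero_mem
  have sy : ∀ i, ∀ u ∈ W', y i u ∈ W' := by
    intro i
    apply key
    rintro u (hu | ⟨w, hw, rfl⟩ | ⟨j, hj, w, hw, rfl⟩)
    · by_cases hi : i = 0
      · rw [hi]
        have e := ap u (K4a_yc h 0)
        rw [Module.End.mul_apply, hW u hu, map_zero] at e
        rw [← e]; exact W'.zero_mem
      · exact hWW _ (h2 i hi u hu)
    · by_cases hi : i = 0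
      · rw [hi]
        have e1 : x 0 (y 0 w) = 0 := by
          have e := ap w (K4a_yc h 0)
          rw [Module.End.mul_apply, hW w hw, map_zero] at e
          rw [← e, map_zero]
        have e2 := hW w hw
        rw [K4c, LinearMap.sub_apply, LinearMap.add_apply, Module.End.mul_apply,
          Module.End.mul_apply, e1, zero_add, sub_eq_zero] at e2
        rw [← e2, LinearMap.smul_apply, LinearMap.sub_apply, Module.End.one_apply]
        exact W'.smul_mem _ (W'.sub_mem (hWW w hw) (hWW _ (h3 w hw)))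
      · exact hY i hi w hw
    · have e := ap (x 0 w) (K4a_yy h i j)
      rw [Module.End.mul_apply] at e
      rw [e]; exact W'.zero_mem
  have ss : ∀ u ∈ W', s u ∈ W' := by
    apply key
    rintro u (hu | ⟨w, hw, rfl⟩ | ⟨j, hj, w, hw, rfl⟩)
    · exact hWW _ (h3 u hu)
    · have e := ap w (h.sx 0)
      rw [Module.End.mul_apply] at e
      rw [e]; exact hX w hw
    · have e := ap (x 0 w) (h.sy j)
      rw [Module.End.mul_apply] at e
      rw [e]; exact W'.neg_mem (hY j hj w hw)
  have top : W' = ⊤ := by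
    refine (h.irr W' sx sy ss).resolve_left ?_
    intro hb
    obtain ⟨w, hw, hw0⟩ := Submodule.exists_mem_ne_zero_of_ne_bot hW0
    have := hWW w hw
    rw [hb, Submodule.mem_bot] at this
    exact hw0 this
  have last : ∀ u ∈ W', u - K4c s x y 0 u ∈ W := by
    have : W' ≤ W.comap (1 - K4c s x y 0) := by
      refine Submodule.span_le.mpr ?_
      rintro u (hu | ⟨w, hw, rfl⟩ | ⟨j, hj, w, hw, rfl⟩)
      · show (1 - K4c s x y 0) u ∈ W
        rw [LinearMap.sub_apply, hW u hu, sub_zero]; exact hu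
      · show (1 - K4c s x y 0) (x 0 w) ∈ W
        have e := ap w (K4a_cx h 0)
        rw [Module.End.mul_apply] at e
        rw [LinearMap.sub_apply, e, Module.End.one_apply, sub_self]; exact W.zero_mem
      · show (1 - K4c s x y 0) (y j (x 0 w)) ∈ W
        have e := ap w (K4a_cx h 0)
        have e2 := ap (x 0 w) (K4a_comy h (Ne.symm hj))
        rw [Module.End.mul_apply] at e e2
        rw [Module.End.mul_apply, e] at e2
        rw [LinearMap.sub_apply, e2, Module.End.one_apply, sub_self]; exact W.zero_mem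
    intro u hu
    have := this hu
    exact this
  have := last v (by rw [top]; trivial)
  rwa [hv, sub_zero] at this

theorem K4a_csum (s : Module.End K V) {m : ℕ} (x y : Fin m → Module.End K V) [CharZero K]
    (i : Fin m) : K4c (-s) y x i = 1 - K4c s x y i := by
  have e : (1 / 2 : K) • (1 - -s) = 1 - (1 / 2 : K) • (1 - s) := by
    rw [sub_neg_eq_add, eq_sub_iff_add_eq, ← smul_add]
    have : (1 + s + (1 - s)) = (2 : K) • (1 : Module.End K V) := by rw [two_smul]; abel
    rw [this, smul_smul]; norm_num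
  rw [K4c, K4c, e]; abel

/-- Chunk K4a: one step of the induction. Let `c₀ = x 0 y 0 + Q - y 0 x 0`, `Q = (1 - s)/2`. It is an
idempotent commuting with `s` and with `x i, y i`, `i ≥ 1` (by r1, r2: `x 0 y 0 x i = x i - x i y 0 x 0`,
etc.), `c₀ x 0 = x 0`, `x 0 c₀ = 0`, `c₀ y 0 = 0`, `y 0 c₀ = y 0`. Let `b` be `0` or `1` and
`U = ker (c₀ - b)`. If `U ≠ 0` then `U` is irreducible under `s, x i, y i`, `i ≥ 1`: let
`0 ≠ W ≤ U` be stable under these. Case `b = 0`: `W' = W + x 0 W + Σ_{j ≥ 1} y j x 0 W` is stable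
under everything: `y 0 W = y 0 c₀ W = 0`; `y 0 x 0 w = w` for `w ∈ W ∩ V₋` and `x 0 w = 0` for
`w ∈ W ∩ V₊` (`W` is the sum of these two as `s W ⊆ W`), since `y 0 x 0 = 1 - c₀` on `V₋`;
`x i x 0 = 0`, `x i y j x 0 = - x 0 y j x i + δ_ij x 0` (`i, j ≥ 1`), `x 0 y j x 0 = 0`
(`2 x 0 y j x 0 = 0` by r1), `y i y j = 0` (`y y' = y s y' = - y y'`). So `W' = V`, and applying
`1 - c₀` (which kills `x 0 W` and `y j x 0 W`, `j ≥ 1`) gives `W = U`. Case `b = 1`: symmetric
with `x 0` and `y 0` exchanged: `W' = W + y 0 W + Σ_{j ≥ 1} x j y 0 W`. -/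
theorem K4_step [CharZero K] {s : Module.End K V} {m : ℕ} {x y : Fin (m + 1) → Module.End K V}
    (h : Kemmer s x y) {b : K} (hb : b = 0 ∨ b = 1) {W : Submodule K V}
    (hW : ∀ w ∈ W, (x 0 * y 0 + (1 / 2 : K) • (1 - s) - y 0 * x 0) w = b • w) (hW0 : W ≠ ⊥)
    (h1 : ∀ i, i ≠ 0 → ∀ w ∈ W, x i w ∈ W) (h2 : ∀ i, i ≠ 0 → ∀ w ∈ W, y i w ∈ W)
    (h3 : ∀ w ∈ W, s w ∈ W) {v : V}
    (hv : (x 0 * y 0 + (1 / 2 : K) • (1 - s) - y 0 * x 0) v = b • v) : v ∈ W := by
  rcases hb with rfl | rfl
  · refine K4a_zero_case h (fun w hw => ?_) hW0 h1 h2 h3 ?_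
    · have := hW w hw
      rw [zero_smul] at this; exact this
    · rw [zero_smul] at hv; exact hv
  · refine K4a_zero_case (K4a_swap h) (fun w hw => ?_) hW0 h2 h1 (fun w hw => ?_) ?_
    · rw [K4a_csum, LinearMap.sub_apply, Module.End.one_apply, sub_eq_zero]
      have := hW w hw
      rw [one_smul] at this; exact this.symm
    · exact W.neg_mem (h3 w hw)
    · rw [K4a_csum, LinearMap.sub_apply, Module.End.one_apply, sub_eq_zero]
      rw [one_smul] at hv; exact hv.symm

/-- The two eigenspaces of the idempotent `c 0`. -/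
noncomputable def K4U (s : Module.End K V) {m : ℕ} (x y : Fin (m + 1) → Module.End K V) (b : K) :
    Submodule K V := LinearMap.ker (K4c s x y 0 - b • 1)

theorem K4b_memU {s : Module.End K V} {m : ℕ} {x y : Fin (m + 1) → Module.End K V} {b : K} {v : V} :
    v ∈ K4U s x y b ↔ K4c s x y 0 v = b • v := by
  rw [K4U, LinearMap.mem_ker, LinearMap.sub_apply, LinearMap.smul_apply, Module.End.one_apply,
    sub_eq_zero]

theorem K4b_stab {s : Module.End K V} {m : ℕ} {x y : Fin (m + 1) → Module.End K V} {b : K}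
    {T : Module.End K V} (hT : K4c s x y 0 * T = T * K4c s x y 0) {v : V}
    (hv : v ∈ K4U s x y b) : T v ∈ K4U s x y b := by
  rw [K4b_memU] at hv ⊢
  have e : K4c s x y 0 (T v) = T (K4c s x y 0 v) := by
    rw [← Module.End.mul_apply, hT, Module.End.mul_apply]
  rw [e, hv, map_smul]

theorem K4b_us [CharZero K] {s : Module.End K V} {m : ℕ} {x y : Fin (m + 1) → Module.End K V}
    (h : Kemmer s x y) (b : K) : ∀ v ∈ K4U s x y b, s v ∈ K4U s x y b :=
  fun _ hv => K4b_stab (K4a_coms h 0) hv

theorem K4b_ux [CharZero K] {s : Module.End K V} {m : ℕ} {x y : Fin (m + 1) → Module.End K V}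
    (h : Kemmer s x y) (b : K) (i : Fin m) : ∀ v ∈ K4U s x y b, x i.succ v ∈ K4U s x y b :=
  fun _ hv => K4b_stab (K4a_comx h (Fin.succ_ne_zero i).symm) hv

theorem K4b_uy [CharZero K] {s : Module.End K V} {m : ℕ} {x y : Fin (m + 1) → Module.End K V}
    (h : Kemmer s x y) (b : K) (i : Fin m) : ∀ v ∈ K4U s x y b, y i.succ v ∈ K4U s x y b :=
  fun _ hv => K4b_stab (K4a_comy h (Fin.succ_ne_zero i).symm) hv

/-- The restriction of a Kemmer system to an eigenspace of `c 0`. -/
theorem K4b_kemmer [CharZero K] {s : Module.End K V} {m : ℕ}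
    {x y : Fin (m + 1) → Module.End K V} (h : Kemmer s x y) {b : K} (hb : b = 0 ∨ b = 1) :
    Kemmer (LinearMap.restrict s (K4b_us h b))
      (fun i : Fin m => LinearMap.restrict (x i.succ) (K4b_ux h b i))
      (fun i : Fin m => LinearMap.restrict (y i.succ) (K4b_uy h b i)) where
  s_sq := by
    ext v
    have := congrArg (fun T : Module.End K V => T (v : V)) h.s_sq
    exact this
  sx := fun i => by
    ext v
    exact congrArg (fun T : Module.End K V => T (v : V)) (h.sx i.succ)
  xs := fun i => by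
    ext v
    exact congrArg (fun T : Module.End K V => T (v : V)) (h.xs i.succ)
  sy := fun i => by
    ext v
    exact congrArg (fun T : Module.End K V => T (v : V)) (h.sy i.succ)
  ys := fun i => by
    ext v
    exact congrArg (fun T : Module.End K V => T (v : V)) (h.ys i.succ)
  r1 := fun i j k => by
    ext v
    have := congrArg (fun T : Module.End K V => T (v : V)) (h.r1 i.succ j.succ k.succ)
    simp only [Fin.succ_inj] at this
    by_cases h1 : i = j <;> by_cases h2 : k = j <;> simp [h1, h2] at this ⊢ <;> exact this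
  r2 := fun i j k => by
    ext v
    have := congrArg (fun T : Module.End K V => T (v : V)) (h.r2 i.succ j.succ k.succ)
    simp only [Fin.succ_inj] at this
    by_cases h1 : i = j <;> by_cases h2 : k = j <;> simp [h1, h2] at this ⊢ <;> exact this
  irr := fun W h1 h2 h3 => by
    by_cases hW : W = ⊥
    · exact Or.inl hW
    · right
      rw [eq_top_iff]
      rintro ⟨v, hv⟩ -
      have hv' := K4b_memU.mp hv
      have : v ∈ W.map (K4U s x y b).subtype := by
        refine K4_step h hb (W := W.map (K4U s x y b).subtype) ?_ ?_ ?_ ?_ ?_ hv'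
        · rintro _ ⟨w, -, rfl⟩
          exact K4b_memU.mp w.2
        · intro h0
          apply hW
          rw [eq_bot_iff]
          intro w hw
          have h4 : (w : V) ∈ W.map (K4U s x y b).subtype := ⟨w, hw, rfl⟩
          rw [h0, Submodule.mem_bot] at h4
          exact Subtype.ext h4
        · intro i hi
          obtain ⟨j, rfl⟩ := Fin.exists_succ_eq.mpr hi
          rintro _ ⟨w, hw, rfl⟩
          exact ⟨_, h1 j w hw, rfl⟩
        · intro i hi
          obtain ⟨j, rfl⟩ := Fin.exists_succ_eq.mpr hi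
          rintro _ ⟨w, hw, rfl⟩
          exact ⟨_, h2 j w hw, rfl⟩
        · rintro _ ⟨w, hw, rfl⟩
          exact ⟨_, h3 w hw, rfl⟩
      obtain ⟨w, hw, hwv⟩ := this
      have : w = ⟨v, hv⟩ := Subtype.ext hwv
      rwa [← this]

/-- Dimensions of eigenspaces of `s` in the two parts. -/
theorem K4b_eig [CharZero K] [FiniteDimensional K V] {s : Module.End K V} {m : ℕ}
    {x y : Fin (m + 1) → Module.End K V} (h : Kemmer s x y) (t : K) :
    finrank K (eig s t) = finrank K (eig (LinearMap.restrict s (K4b_us h 0)) t) +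
      finrank K (eig (LinearMap.restrict s (K4b_us h 1)) t) := by
  have hc : ∀ b : K, finrank K (eig (LinearMap.restrict s (K4b_us h b)) t) =
      finrank K ((eig s t ⊓ K4U s x y b : Submodule K V)) := by
    intro b
    have e : eig (LinearMap.restrict s (K4b_us h b)) t =
        (eig s t ⊓ K4U s x y b).comap (K4U s x y b).subtype := by
      ext v
      rw [Submodule.mem_comap, Submodule.mem_inf, eig, eig, LinearMap.mem_ker, LinearMap.mem_ker]
      constructor
      · intro h1
        exact ⟨congrArg Subtype.val h1, v.2⟩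
      · rintro ⟨h1, -⟩
        exact Subtype.ext h1
    rw [e]
    exact LinearEquiv.finrank_eq (Submodule.comapSubtypeEquivOfLe inf_le_right)
  rw [hc, hc, ← Submodule.finrank_sup_add_finrank_inf_eq]
  have h1 : (eig s t ⊓ K4U s x y 0) ⊓ (eig s t ⊓ K4U s x y 1) = ⊥ := by
    rw [eq_bot_iff]
    rintro v ⟨⟨-, h1⟩, ⟨-, h2⟩⟩
    have h1' := K4b_memU.mp h1
    have h2' := K4b_memU.mp h2
    rw [h1', zero_smul, one_smul] at h2'
    exact h2'.symm
  have h2 : (eig s t ⊓ K4U s x y 0) ⊔ (eig s t ⊓ K4U s x y 1) = eig s t := by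
    apply le_antisymm (sup_le inf_le_left inf_le_left)
    intro v hv
    have hst : K4c s x y 0 v ∈ eig s t := by
      rw [eig, LinearMap.mem_ker, LinearMap.sub_apply, sub_eq_zero] at hv ⊢
      rw [← Module.End.mul_apply, ← K4a_coms h 0, Module.End.mul_apply, hv, LinearMap.smul_apply,
        LinearMap.smul_apply, map_smul, Module.End.one_apply, Module.End.one_apply]
    have hi : K4c s x y 0 (K4c s x y 0 v) = K4c s x y 0 v := by
      rw [← Module.End.mul_apply, K4a_idem h 0]
    rw [Submodule.mem_sup]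
    refine ⟨v - K4c s x y 0 v, ⟨(eig s t).sub_mem hv hst, ?_⟩, K4c s x y 0 v, ⟨hst, ?_⟩, by simp⟩
    · rw [SetLike.mem_coe, K4b_memU, map_sub, hi, sub_self, zero_smul]
    · rw [SetLike.mem_coe, K4b_memU, hi, one_smul]
  rw [h1, h2, finrank_bot, add_zero]

theorem K4b_line [FiniteDimensional K V] [Nontrivial V] {s : Module.End K V} {m : ℕ}
    {x y : Fin m → Module.End K V} (h : Kemmer s x y) {t : K} (hs : s = t • 1)
    (hx : ∀ i, x i = 0) (hy : ∀ i, y i = 0) : finrank K V = 1 := by
  obtain ⟨v, hv⟩ := exists_ne (0 : V)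
  have h1 : Submodule.span K {v} = ⊤ := by
    refine (h.irr _ ?_ ?_ ?_).resolve_left ?_
    · intro i w _; rw [hx i]; exact Submodule.zero_mem _
    · intro i w _; rw [hy i]; exact Submodule.zero_mem _
    · intro w hw; rw [hs]; exact Submodule.smul_mem _ _ hw
    · rw [Submodule.span_singleton_eq_bot]; exact hv
  have h2 := finrank_span_singleton (K := K) hv
  rw [h1, finrank_top] at h2
  exact h2

theorem K4b_eq (t : K) : finrank K (eig (t • (1 : Module.End K V)) t) = finrank K V := by
  rw [eig, sub_self, LinearMap.ker_zero, finrank_top]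

theorem K4b_ne {t t' : K} (h : t ≠ t') : finrank K (eig (t • (1 : Module.End K V)) t') = 0 := by
  have : eig (t • (1 : Module.End K V)) t' = ⊥ := by
    rw [eq_bot_iff]
    intro v hv
    rw [eig, LinearMap.mem_ker, ← sub_smul, LinearMap.smul_apply, Module.End.one_apply,
      smul_eq_zero] at hv
    exact hv.resolve_left (sub_ne_zero.mpr h)
  rw [this, finrank_bot]

/-- The counting operator commutes with the `x j`. -/
theorem K4b_cntx [CharZero K] {s : Module.End K V} {m : ℕ} {x y : Fin m → Module.End K V}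
    (h : Kemmer s x y) (j : Fin m) : cnt s x y * x j = x j * cnt s x y := by
  have e : cnt s x y = (1 / 2 : K) • (1 - s) + ∑ i, K4c s x y i := rfl
  rw [e, add_mul, mul_add, K4a_Qx h, K4a_xQ h, Finset.sum_mul, Finset.mul_sum,
    ← Finset.add_sum_erase _ _ (Finset.mem_univ j), K4a_cx h,
    ← Finset.add_sum_erase (Finset.univ) (fun i => x j * K4c s x y i) (Finset.mem_univ j),
    K4a_xc h, zero_add, zero_add]
  congr 1
  refine Finset.sum_congr rfl fun i hi => ?_
  exact K4a_comx h (Finset.ne_of_mem_erase hi)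

theorem K4b_cnty [CharZero K] {s : Module.End K V} {m : ℕ} {x y : Fin m → Module.End K V}
    (h : Kemmer s x y) (j : Fin m) : cnt s x y * y j = y j * cnt s x y := by
  have e : cnt s x y = (1 / 2 : K) • (1 - s) + ∑ i, K4c s x y i := rfl
  rw [e, add_mul, mul_add, K4a_Qy h, K4a_yQ h, Finset.sum_mul, Finset.mul_sum,
    ← Finset.add_sum_erase _ _ (Finset.mem_univ j), K4a_cy h,
    ← Finset.add_sum_erase (Finset.univ) (fun i => y j * K4c s x y i) (Finset.mem_univ j),
    K4a_yc h, zero_add, zero_add]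
  congr 1
  refine Finset.sum_congr rfl fun i hi => ?_
  exact K4a_comy h (Finset.ne_of_mem_erase hi)

theorem K4b_cnts [CharZero K] {s : Module.End K V} {m : ℕ} {x y : Fin m → Module.End K V}
    (h : Kemmer s x y) : cnt s x y * s = s * cnt s x y := by
  have e : cnt s x y = (1 / 2 : K) • (1 - s) + ∑ i, K4c s x y i := rfl
  have h1 : s * (1 - s) = (1 - s) * s := by noncomm_ring
  rw [e, add_mul, mul_add, Finset.sum_mul, Finset.mul_sum, smul_mul_assoc, mul_smul_comm, h1]
  congr 1
  exact Finset.sum_congr rfl fun i _ => K4a_coms h i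

/-- The counting operator is a scalar. -/
theorem K4b_scalar [CharZero K] [IsAlgClosed K] [FiniteDimensional K V] [Nontrivial V]
    {s : Module.End K V} {m : ℕ} {x y : Fin m → Module.End K V}
    (h : Kemmer s x y) : ∃ l : K, ∀ v, cnt s x y v = l • v := by
  obtain ⟨l, hl⟩ := Module.End.exists_eigenvalue (cnt s x y)
  refine ⟨l, ?_⟩
  have key : ∀ T : Module.End K V, cnt s x y * T = T * cnt s x y →
      ∀ w ∈ Module.End.eigenspace (cnt s x y) l, T w ∈ Module.End.eigenspace (cnt s x y) l := by
    intro T hT w hw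
    rw [Module.End.mem_eigenspace_iff] at hw ⊢
    rw [← Module.End.mul_apply, hT, Module.End.mul_apply, hw, map_smul]
  have h1 := (h.irr (Module.End.eigenspace (cnt s x y) l) (fun i => key _ (K4b_cntx h i))
    (fun i => key _ (K4b_cnty h i)) (key _ (K4b_cnts h))).resolve_left hl
  intro v
  have : v ∈ Module.End.eigenspace (cnt s x y) l := by rw [h1]; trivial
  exact Module.End.mem_eigenspace_iff.mp this

theorem K4b_split {s : Module.End K V} {m : ℕ} (x y : Fin (m + 1) → Module.End K V) :
    cnt s x y = K4c s x y 0 + cnt s (fun i => x i.succ) (fun i => y i.succ) := by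
  have e : cnt s x y = (1 / 2 : K) • (1 - s) + ∑ i, K4c s x y i := rfl
  have e' : cnt s (fun i => x i.succ) (fun i => y i.succ) =
    (1 / 2 : K) • (1 - s) + ∑ i : Fin m, K4c s x y i.succ := rfl
  rw [e, e', Fin.sum_univ_succ]; abel

theorem K4b_cntU [CharZero K] {s : Module.End K V} {m : ℕ} {x y : Fin (m + 1) → Module.End K V}
    (h : Kemmer s x y) (b : K) (u : K4U s x y b) :
    ((cnt (LinearMap.restrict s (K4b_us h b))
      (fun i : Fin m => LinearMap.restrict (x i.succ) (K4b_ux h b i))
      (fun i : Fin m => LinearMap.restrict (y i.succ) (K4b_uy h b i)) u : K4U s x y b) : V) =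
    cnt s (fun i => x i.succ) (fun i => y i.succ) (u : V) := by
  rw [cnt, cnt]
  simp [LinearMap.sum_apply]

/-- The scalars on the two parts. -/
theorem K4b_parts [CharZero K] {s : Module.End K V} {m : ℕ} {x y : Fin (m + 1) → Module.End K V}
    (h : Kemmer s x y) {l : K} (hl : ∀ v, cnt s x y v = l • v) {b : K} (hU : K4U s x y b ≠ ⊥)
    {k : ℕ}
    (hk : ∀ v, cnt (LinearMap.restrict s (K4b_us h b))
      (fun i : Fin m => LinearMap.restrict (x i.succ) (K4b_ux h b i))
      (fun i : Fin m => LinearMap.restrict (y i.succ) (K4b_uy h b i)) v = (k : K) • v) :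
    l = b + k := by
  obtain ⟨u, hu, hu0⟩ := Submodule.exists_mem_ne_zero_of_ne_bot hU
  have h1 := congrArg (Subtype.val) (hk ⟨u, hu⟩)
  rw [K4b_cntU h] at h1
  have h2 := hl u
  rw [K4b_split, LinearMap.add_apply, h1, K4b_memU.mp hu] at h2
  have h3 : (b + k) • u = l • u := by
    rw [add_smul]; exact h2
  have h4 : (l - (b + k)) • u = 0 := by rw [sub_smul, h3, sub_self]
  exact sub_eq_zero.mp ((smul_eq_zero.mp h4).resolve_right hu0)

theorem K4b_zero0 [CharZero K] {s : Module.End K V} {m : ℕ} {x y : Fin (m + 1) → Module.End K V}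
    (h : Kemmer s x y) (hU : K4U s x y 0 = ⊥) : K4c s x y 0 = 1 := by
  ext v
  have : v - K4c s x y 0 v ∈ K4U s x y 0 := by
    rw [K4b_memU, map_sub, ← Module.End.mul_apply, K4a_idem h 0, sub_self, zero_smul]
  rw [hU, Submodule.mem_bot, sub_eq_zero] at this
  exact this.symm

theorem K4b_zero1 [CharZero K] {s : Module.End K V} {m : ℕ} {x y : Fin (m + 1) → Module.End K V}
    (h : Kemmer s x y) (hU : K4U s x y 1 = ⊥) : K4c s x y 0 = 0 := by
  ext v
  have : K4c s x y 0 v ∈ K4U s x y 1 := by
    rw [K4b_memU, one_smul, ← Module.End.mul_apply, K4a_idem h 0]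
  rw [hU, Submodule.mem_bot] at this
  exact this

/-- Chunk K4b. Induction on `m` over all `V` (universe of `V` fixed): `V` is `Λ^k` of a space of
dimension `m + 1`. `m = 0`: `V` is irreducible under `s` alone, `s ² = 1`, so `V` is a line and
`s = 1` (`k = 0`) or `s = -1` (`k = 1`). Step `m → m + 1`: the counting operator commutes with
all `x i, y i, s` (each `c_i = x i y i + Q - y i x i` commutes with `x j, y j`, `j ≠ i`,
`c_i x i = x i`, `x i c_i = 0`, `Q x i = 0`, `x i Q = x i`, ...), so it is a scalar (eigenspace of an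
eigenvalue is stable, `K` algebraically closed). Let `U₀ = ker c₀`, `U₁ = ker (c₀ - 1)`,
`V = U₀ ⊕ U₁`, both stable under `s, x i, y i`, `i ≥ 1` (`Fin.succ`), and by `K4_step` Kemmer systems
of size `m` when nonzero, with scalars `k₀ = k`, `k₁ = k - 1` (the counting operator of `V` is
`c₀` plus the one of the restriction). If both are nonzero: `dim V₊ = C(m,k) + C(m,k-1) = C(m+1,k)`,
same for `V₋`. If `U₁ = 0`: then `x 0 = c₀ x 0 = 0`, `y 0 = y 0 c₀ = 0`, so `c₀ = Q = 0`,
`s = 1`, hence all `x i = x i Q = 0`, `y i = 0`, `k = 0`, `V` is a line (irreducible) and the formula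
holds. If `U₀ = 0`: `x 0 = x 0 (1 - c₀) = 0`, `y 0 = 0`, `c₀ = Q = 1`, `s = -1`, all `x i, y i = 0`,
`V` is a line, `k = m + 2`, `dim V₊ = 0 = C(m+1,m+2)`, `dim V₋ = 1 = C(m+1,m+1)`. -/
theorem K4_dim [CharZero K] [IsAlgClosed K] (m : ℕ) : ∀ (V : Type*) [AddCommGroup V] [Module K V]
    [FiniteDimensional K V] [Nontrivial V] {s : Module.End K V} {x y : Fin m → Module.End K V},
    Kemmer s x y → ∃ k : ℕ, (∀ v, cnt s x y v = (k : K) • v) ∧
      finrank K (eig s 1) = m.choose k ∧ (k = 0 → finrank K (eig s (-1)) = 0) ∧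
      (∀ j, k = j + 1 → finrank K (eig s (-1)) = m.choose j) := by
  induction m with
  | zero =>
    intro V _ _ _ _ s x y h
    have hcase : s = (1 : K) • 1 ∨ s = (-1 : K) • 1 := by
      rcases h.irr (eig s 1) (fun i => i.elim0) (fun i => i.elim0) (by
        intro w hw
        rw [eig, LinearMap.mem_ker, LinearMap.sub_apply, sub_eq_zero, one_smul,
          Module.End.one_apply] at hw
        rw [eig, LinearMap.mem_ker, LinearMap.sub_apply, sub_eq_zero, one_smul,
          Module.End.one_apply, hw, hw]) with h1 | h1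
      · right
        ext v
        have h2 : v + s v ∈ eig s 1 := by
          rw [eig, LinearMap.mem_ker, LinearMap.sub_apply, sub_eq_zero, one_smul,
            Module.End.one_apply, map_add, ← Module.End.mul_apply, h.s_sq, Module.End.one_apply,
            add_comm]
        rw [h1, Submodule.mem_bot] at h2
        rw [neg_one_smul, LinearMap.neg_apply, Module.End.one_apply]
        exact eq_neg_of_add_eq_zero_right h2
      · left
        ext v
        have h2 : v ∈ eig s 1 := by rw [h1]; trivial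
        rw [eig, LinearMap.mem_ker, LinearMap.sub_apply, sub_eq_zero] at h2
        exact h2
    have hline : ∀ t : K, s = t • 1 → finrank K V = 1 := fun t ht =>
      K4b_line h ht (fun i => i.elim0) (fun i => i.elim0)
    rcases hcase with hs | hs
    · refine ⟨0, fun v => ?_, ?_, fun _ => ?_, fun j hj => ?_⟩
      · rw [cnt, hs]; simp
      · rw [hs, K4b_eq, hline 1 hs]; rfl
      · rw [hs]; exact K4b_ne (by norm_num)
      · omega
    · refine ⟨1, fun v => ?_, ?_, fun h1 => ?_, fun j hj => ?_⟩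
      · rw [cnt, hs]
        simp only [Finset.univ_eq_empty, Finset.sum_empty, add_zero]
        have := congrArg (fun T : Module.End K V => T v)
          (show (1 / 2 : K) • (1 - (-1 : K) • (1 : Module.End K V)) = 1 by
            rw [neg_one_smul, sub_neg_eq_add, ← two_smul K, smul_smul]; norm_num)
        simp only [Module.End.one_apply] at this
        rw [this]; simp
      · rw [hs]; exact K4b_ne (by norm_num)
      · omega
      · have : j = 0 := by omega
        rw [this, hs, K4b_eq, hline _ hs]; rfl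
  | succ m ih =>
    intro V _ _ _ _ s x y h
    obtain ⟨l, hl⟩ := K4b_scalar h
    by_cases hU1 : K4U s x y 1 = ⊥
    · -- the operator is trivial
      have hc := K4b_zero1 h hU1
      have hx0 : x 0 = 0 := by rw [← K4a_cx h 0, hc, zero_mul]
      have hy0 : y 0 = 0 := by rw [← K4a_yc h 0, hc, mul_zero]
      have hQ : (1 / 2 : K) • (1 - s) = 0 := by
        rw [K4c, hx0, hy0, zero_mul, zero_add, sub_zero] at hc; exact hc
      have hs : s = (1 : K) • 1 := by
        have := (smul_eq_zero.mp hQ).resolve_left (by norm_num)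
        rw [one_smul]; exact (sub_eq_zero.mp this).symm
      have hx : ∀ i, x i = 0 := fun i => by rw [← K4a_xQ h i, hQ, mul_zero]
      have hy : ∀ i, y i = 0 := fun i => by rw [← K4a_Qy h i, hQ, zero_mul]
      refine ⟨0, fun v => ?_, ?_, fun _ => ?_, fun j hj => ?_⟩
      · rw [cnt, hQ]; simp [hx]
      · rw [hs, K4b_eq, K4b_line h hs hx hy, Nat.choose_zero_right]
      · rw [hs]; exact K4b_ne (by norm_num)
      · omega
    by_cases hU0 : K4U s x y 0 = ⊥
    · have hc := K4b_zero0 h hU0
      have hx0 : x 0 = 0 := by rw [← mul_one (x 0), ← hc, K4a_xc h 0]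
      have hy0 : y 0 = 0 := by rw [← one_mul (y 0), ← hc, K4a_cy h 0]
      have hQ : (1 / 2 : K) • (1 - s) = 1 := by
        rw [K4c, hx0, hy0, zero_mul, zero_add, sub_zero] at hc; exact hc
      have hs : s = (-1 : K) • 1 := by
        have h2 : (2 : K) • ((1 / 2 : K) • (1 - s)) = (2 : K) • 1 := by rw [hQ]
        rw [smul_smul] at h2
        norm_num at h2
        rw [two_smul] at h2
        rw [neg_one_smul]
        have h3 : s = 1 - (1 - s) := by abel
        rw [h3, h2]; abel
      have hx : ∀ i, x i = 0 := fun i => by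
        rw [← one_mul (x i), ← hQ, K4a_Qx h i]
      have hy : ∀ i, y i = 0 := fun i => by
        rw [← mul_one (y i), ← hQ, K4a_yQ h i]
      refine ⟨m + 2, fun v => ?_, ?_, fun h1 => ?_, fun j hj => ?_⟩
      · rw [cnt, hQ]
        simp only [hx, hy, mul_zero, zero_add, sub_zero, Finset.sum_const, Finset.card_univ,
          Fintype.card_fin, LinearMap.add_apply, Module.End.one_apply, LinearMap.smul_apply]
        push_cast
        rw [← Nat.cast_smul_eq_nsmul K]
        push_cast
        rw [add_smul, add_smul, one_smul, two_smul]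
        abel
      · rw [hs, Nat.choose_eq_zero_of_lt (by omega)]; exact K4b_ne (by norm_num)
      · omega
      · have : j = m + 1 := by omega
        rw [this, hs, K4b_eq, K4b_line h hs hx hy, Nat.choose_self]
    have : Nontrivial (K4U s x y 0) := (Submodule.nontrivial_iff_ne_bot).mpr hU0
    have : Nontrivial (K4U s x y 1) := (Submodule.nontrivial_iff_ne_bot).mpr hU1
    obtain ⟨k0, a1, a2, a3, a4⟩ := ih (K4U s x y 0) (K4b_kemmer h (Or.inl rfl))
    obtain ⟨k1, b1, b2, b3, b4⟩ := ih (K4U s x y 1) (K4b_kemmer h (Or.inr rfl))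
    have e0 := K4b_parts h hl hU0 a1
    have e1 := K4b_parts h hl hU1 b1
    have e2 : (k0 : K) = ((k1 + 1 : ℕ) : K) := by
      rw [zero_add] at e0
      rw [← e0, e1]; push_cast; ring
    have e3 : k0 = k1 + 1 := Nat.cast_injective e2
    refine ⟨k0, fun v => ?_, ?_, fun h1 => ?_, fun j hj => ?_⟩
    · rw [hl v, e0, zero_add]
    · rw [K4b_eig h, a2, b2, e3, Nat.choose_succ_succ, add_comm]
    · omega
    · have hj' : j = k1 := by omega
      rw [K4b_eig h, a4 j hj, hj']
      rcases Nat.eq_zero_or_pos k1 with h0 | h0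
      · rw [b3 h0, h0, Nat.choose_zero_right, Nat.choose_zero_right]
      · obtain ⟨j', hj'⟩ : ∃ j', k1 = j' + 1 := ⟨k1 - 1, by omega⟩
        rw [b4 j' hj', hj', Nat.choose_succ_succ, add_comm]

/-- Chunk K4c. From `K4_dim` and `K4_step`. Let `k` be as in `K4_dim` for the whole system. Since
`x 0 ≠ 0`, `U₁ = ker (c₀ - 1) ≠ 0` and `U₀ = ker c₀ ≠ 0` (see the proof of `K4_dim`), with scalars
`k₁ = k - 1` and `k₀ = k`. `x 0` vanishes on `V₊` and on `U₁`, and is injective on `U₀ ∩ V₋`
(`y 0 x 0 = 1 - c₀` on `V₋`), so `rank (x 0) = dim (U₀ ∩ V₋) = C(n, k - 1)`, the value of `K4_dim`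
for the restriction to `U₀` (size `n`, scalar `k`). Here `1 ≤ k` because `k - 1 = k₁ ≥ 0`, and
`k ≤ n + 1` because this rank is not zero. -/
theorem K4_rank [CharZero K] [IsAlgClosed K] [FiniteDimensional K V] [Nontrivial V]
    {s : Module.End K V} {n : ℕ} {x y : Fin (n + 1) → Module.End K V} (h : Kemmer s x y)
    (hx : x 0 ≠ 0) : ∃ k : ℕ, 1 ≤ k ∧ k ≤ n + 1 ∧ finrank K (eig s 1) = (n + 1).choose k ∧
      finrank K (eig s (-1)) = (n + 1).choose (k - 1) ∧
      finrank K (LinearMap.range (x 0)) = n.choose (k - 1) := by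
  have hU1 : K4U s x y 1 ≠ ⊥ := by
    intro h0
    apply hx
    rw [← K4a_cx h 0, K4b_zero1 h h0, zero_mul]
  have hU0 : K4U s x y 0 ≠ ⊥ := by
    intro h0
    apply hx
    rw [← mul_one (x 0), ← K4b_zero0 h h0, K4a_xc h 0]
  have : Nontrivial (K4U s x y 0) := (Submodule.nontrivial_iff_ne_bot).mpr hU0
  have : Nontrivial (K4U s x y 1) := (Submodule.nontrivial_iff_ne_bot).mpr hU1
  obtain ⟨k, hk1, hk2, hk3, hk4⟩ := K4_dim (n + 1) V h
  obtain ⟨k0, a1, a2, a3, a4⟩ := K4_dim n (K4U s x y 0) (K4b_kemmer h (Or.inl rfl))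
  obtain ⟨k1, b1, b2, b3, b4⟩ := K4_dim n (K4U s x y 1) (K4b_kemmer h (Or.inr rfl))
  have e0 := K4b_parts h hk1 hU0 a1
  have e1 := K4b_parts h hk1 hU1 b1
  have e2 : k = k0 := by
    rw [zero_add] at e0
    exact Nat.cast_injective e0
  have e3 : k = k1 + 1 := by
    have : (k : K) = ((k1 + 1 : ℕ) : K) := by rw [e1]; push_cast; ring
    exact Nat.cast_injective this
  -- the rank of `x 0`
  have hr : finrank K (LinearMap.range (x 0)) =
      finrank K (eig (LinearMap.restrict s (K4b_us h 0)) (-1)) := by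
    have e : eig (LinearMap.restrict s (K4b_us h 0)) (-1) =
        (eig s (-1) ⊓ K4U s x y 0).comap (K4U s x y 0).subtype := by
      ext v
      rw [Submodule.mem_comap, Submodule.mem_inf, eig, eig, LinearMap.mem_ker, LinearMap.mem_ker]
      constructor
      · intro h1
        exact ⟨congrArg Subtype.val h1, v.2⟩
      · rintro ⟨h1, -⟩
        exact Subtype.ext h1
    rw [e, LinearEquiv.finrank_eq (Submodule.comapSubtypeEquivOfLe
      (inf_le_right : eig s (-1) ⊓ K4U s x y 0 ≤ K4U s x y 0))]
    set E := eig s (-1) ⊓ K4U s x y 0 with hE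
    have hinj : Function.Injective ((x 0).domRestrict E) := by
      rw [injective_iff_map_eq_zero]
      rintro ⟨w, hw1, hw2⟩ hw
      have hw3 : x 0 w = 0 := hw
      have hw4 : K4c s x y 0 w = 0 := by rw [K4b_memU.mp hw2, zero_smul]
      have hw5 : y 0 w = 0 := by
        rw [← K4a_yc h 0, Module.End.mul_apply, hw4, map_zero]
      have hw6 : s w = -w := by
        rw [eig, SetLike.mem_coe, LinearMap.mem_ker, LinearMap.sub_apply, sub_eq_zero] at hw1
        rw [hw1, LinearMap.smul_apply, neg_one_smul, Module.End.one_apply]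
      rw [K4c, LinearMap.sub_apply, LinearMap.add_apply, Module.End.mul_apply,
        Module.End.mul_apply, hw3, hw5, map_zero, map_zero, zero_add, sub_zero,
        LinearMap.smul_apply, LinearMap.sub_apply, hw6, Module.End.one_apply, sub_neg_eq_add,
        ← two_smul K, smul_smul] at hw4
      have : w = 0 := by
        refine (smul_eq_zero.mp hw4).resolve_left ?_
        norm_num
      exact Subtype.ext this
    have hrange : LinearMap.range (x 0) = LinearMap.range ((x 0).domRestrict E) := by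
      apply le_antisymm
      · rintro _ ⟨v, rfl⟩
        refine ⟨⟨((1 / 2 : K) • (1 - s)) (v - K4c s x y 0 v), ?_, ?_⟩, ?_⟩
        · rw [eig, SetLike.mem_coe, LinearMap.mem_ker, LinearMap.sub_apply, sub_eq_zero,
            LinearMap.smul_apply, LinearMap.smul_apply, neg_one_smul, Module.End.one_apply,
            map_smul, ← smul_neg]
          congr 1
          rw [LinearMap.sub_apply, map_sub, ← Module.End.mul_apply s s, h.s_sq,
            Module.End.one_apply]
          abel
        · have hcom : K4c s x y 0 * ((1 / 2 : K) • (1 - s)) =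
              ((1 / 2 : K) • (1 - s)) * K4c s x y 0 := by
            rw [mul_smul_comm, smul_mul_assoc, mul_sub, sub_mul, K4a_coms h 0, mul_one, one_mul]
          rw [SetLike.mem_coe, K4b_memU, ← Module.End.mul_apply, hcom, Module.End.mul_apply, map_sub,
            ← Module.End.mul_apply (K4c s x y 0) (K4c s x y 0), K4a_idem h 0, sub_self, map_zero,
            zero_smul]
        · show x 0 (((1 / 2 : K) • (1 - s)) (v - K4c s x y 0 v)) = x 0 v
          rw [← Module.End.mul_apply, K4a_xQ h 0, map_sub, ← Module.End.mul_apply, K4a_xc h 0,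
            LinearMap.zero_apply, sub_zero]
      · rintro _ ⟨v, rfl⟩
        exact ⟨v, rfl⟩
    rw [← LinearMap.finrank_range_of_inj hinj, hrange]
  have hk0 : k0 = (k - 1) + 1 := by omega
  have hr2 : finrank K (LinearMap.range (x 0)) = n.choose (k - 1) := by
    rw [hr, a4 (k - 1) hk0]
  refine ⟨k, by omega, ?_, hk2, hk4 (k - 1) (by omega), hr2⟩
  by_contra hlt
  rw [Nat.choose_eq_zero_of_lt (by omega)] at hr2
  have : LinearMap.range (x 0) = ⊥ := Submodule.finrank_eq_zero.mp hr2
  exact hx (LinearMap.range_eq_bot.mp this)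

end Pool.Agent.H49M
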