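import Pool.Agent.Lib.H49M.K4

/-!
# K6: the sign of an invariant form on a Kemmer module
-/

set_option autoImplicit false
set_option linter.unusedSectionVars false
namespace Pool.Agent.H49M
open Module Pool.Agent.H53Toric

variable {K : Type*} [Field K]

/-- If all `x i`, `y i` vanish there is no invariant form. -/
theorem K6_triv [CharZero K] {V : Type*} [AddCommGroup V] [Module K V] {s : Module.End K V}
    {m : ℕ} {x y : Fin m → Module.End K V} (h : Kemmer s x y) (hx : ∀ i, x i = 0)
    (hy : ∀ i, y i = 0) {b : V →ₗ[K] V →ₗ[K] K} (hs : ∀ v w, b (s v) w = -b v (s w)) : b = 0 := by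
  have hst : ∃ t : K, t ≠ 0 ∧ ∀ v, s v = t • v := by
    rcases h.irr (eig s 1) (fun i w _ => by rw [hx i]; exact Submodule.zero_mem _)
      (fun i w _ => by rw [hy i]; exact Submodule.zero_mem _) (by
        intro w hw
        rw [eig, LinearMap.mem_ker, LinearMap.sub_apply, sub_eq_zero, one_smul,
          Module.End.one_apply] at hw
        rw [eig, LinearMap.mem_ker, LinearMap.sub_apply, sub_eq_zero, one_smul,
          Module.End.one_apply, hw, hw]) with h1 | h1
    · refine ⟨-1, by norm_num, fun v => ?_⟩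
      have h2 : v + s v ∈ eig s 1 := by
        rw [eig, LinearMap.mem_ker, LinearMap.sub_apply, sub_eq_zero, one_smul,
          Module.End.one_apply, map_add, ← Module.End.mul_apply, h.s_sq, Module.End.one_apply,
          add_comm]
      rw [h1, Submodule.mem_bot] at h2
      rw [neg_one_smul]
      exact eq_neg_of_add_eq_zero_right h2
    · refine ⟨1, one_ne_zero, fun v => ?_⟩
      have h2 : v ∈ eig s 1 := by rw [h1]; trivial
      rw [eig, LinearMap.mem_ker, LinearMap.sub_apply, sub_eq_zero] at h2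
      exact h2
  obtain ⟨t, ht, hst⟩ := hst
  ext v w
  have h1 := hs v w
  rw [hst, hst, map_smul, map_smul, LinearMap.smul_apply, smul_eq_mul] at h1
  have h2 : (2 * t) * b v w = 0 := by linear_combination h1
  exact (mul_eq_zero.1 h2).resolve_left (mul_ne_zero two_ne_zero ht)

/-- The radical is trivial. -/
theorem K6_rad {V : Type*} [AddCommGroup V] [Module K V] {s : Module.End K V}
    {m : ℕ} {x y : Fin m → Module.End K V} (h : Kemmer s x y)
    {b : V →ₗ[K] V →ₗ[K] K} (hb : b ≠ 0) (hx : ∀ i v w, b (x i v) w = -b v (x i w))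
    (hy : ∀ i v w, b (y i v) w = -b v (y i w)) (hs : ∀ v w, b (s v) w = -b v (s w))
    {v : V} (hv : ∀ w, b v w = 0) : v = 0 := by
  rcases h.irr (LinearMap.ker b)
    (fun i u hu => by
      rw [LinearMap.mem_ker] at hu ⊢
      ext w
      rw [hx, hu]; simp)
    (fun i u hu => by
      rw [LinearMap.mem_ker] at hu ⊢
      ext w
      rw [hy, hu]; simp)
    (fun u hu => by
      rw [LinearMap.mem_ker] at hu ⊢
      ext w
      rw [hs, hu]; simp) with h1 | h1
  · have h2 : v ∈ LinearMap.ker b := by
      rw [LinearMap.mem_ker]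
      ext w
      exact hv w
    rw [h1, Submodule.mem_bot] at h2
    exact h2
  · exact absurd (LinearMap.ker_eq_top.1 h1) hb

/-- The case of one pair. -/
theorem K6_one [CharZero K] {V : Type*} [AddCommGroup V] [Module K V] {s : Module.End K V}
    {x y : Fin (0 + 1) → Module.End K V} (h : Kemmer s x y)
    {b : V →ₗ[K] V →ₗ[K] K} (hb : b ≠ 0) {ε : K} (hε : ∀ v w, b v w = ε * b w v)
    (hx : ∀ i v w, b (x i v) w = -b v (x i w))
    (hs : ∀ v w, b (s v) w = -b v (s w)) : ε = -1 := by
  have h00 : ∀ i : Fin (0 + 1), i = 0 := fun i => Fin.eq_zero i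
  have hx0 : x 0 ≠ 0 := by
    intro h0
    have hy0 : y 0 = 0 := by rw [← K4a_yxy h 0, h0, mul_zero, zero_mul]
    exact hb (K6_triv h (fun i => by rw [h00 i, h0]) (fun i => by rw [h00 i, hy0]) hs)
  obtain ⟨v₀, hv₀⟩ : ∃ v, x 0 v ≠ 0 := by
    by_contra hcon
    push Not at hcon
    exact hx0 (LinearMap.ext hcon)
  obtain ⟨v, hv⟩ : ∃ v, v = y 0 (x 0 v₀) := ⟨_, rfl⟩
  have hxv : x 0 v = x 0 v₀ := by
    rw [hv, ← Module.End.mul_apply, ← Module.End.mul_apply, K4a_xyx h 0]
  have hyx : y 0 (x 0 v) = v := by rw [hxv, hv]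
  have hsv : s v = -v := by
    rw [hv, ← Module.End.mul_apply, h.sy, LinearMap.neg_apply]
  have hsx : s (x 0 v) = x 0 v := by rw [← Module.End.mul_apply, h.sx]
  have hxx : x 0 (x 0 v) = 0 := by
    rw [← Module.End.mul_apply, K4a_xx h, LinearMap.zero_apply]
  have hyv : y 0 v = 0 := by
    rw [hv, ← Module.End.mul_apply, K4a_yy h, LinearMap.zero_apply]
  have htop : Submodule.span K {v, x 0 v} = ⊤ := by
    have key : ∀ T : Module.End K V, T v ∈ Submodule.span K {v, x 0 v} →
        T (x 0 v) ∈ Submodule.span K {v, x 0 v} → ∀ w ∈ Submodule.span K {v, x 0 v},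
        T w ∈ Submodule.span K {v, x 0 v} := by
      intro T h1 h2
      have : Submodule.span K {v, x 0 v} ≤ (Submodule.span K {v, x 0 v}).comap T := by
        rw [Submodule.span_le]
        rintro w (rfl | rfl)
        · exact h1
        · exact h2
      exact this
    have hv1 : v ∈ Submodule.span K {v, x 0 v} := Submodule.subset_span (by simp)
    have hv2 : x 0 v ∈ Submodule.span K {v, x 0 v} := Submodule.subset_span (by simp)
    refine (h.irr _ ?_ ?_ ?_).resolve_left ?_
    · intro i
      rw [h00 i]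
      exact key _ hv2 (by rw [hxx]; exact Submodule.zero_mem _)
    · intro i
      rw [h00 i]
      exact key _ (by rw [hyv]; exact Submodule.zero_mem _) (by rw [hyx]; exact hv1)
    · exact key _ (by rw [hsv]; exact Submodule.neg_mem _ hv1) (by rw [hsx]; exact hv2)
    · intro h0
      rw [h0, Submodule.mem_bot] at hv2
      exact hv₀ (by rw [← hxv, hv2])
  have b1 : b v v = 0 := by
    have e1 := hs v v
    rw [hsv, map_neg, map_neg, LinearMap.neg_apply, neg_neg] at e1
    have e2 : (2 : K) * b v v = 0 := by linear_combination -e1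
    exact (mul_eq_zero.1 e2).resolve_left two_ne_zero
  have b2 : b (x 0 v) (x 0 v) = 0 := by
    have e1 := hs (x 0 v) (x 0 v)
    rw [hsx] at e1
    have e2 : (2 : K) * b (x 0 v) (x 0 v) = 0 := by linear_combination e1
    exact (mul_eq_zero.1 e2).resolve_left two_ne_zero
  have b3 := hx 0 v v
  have b4 := hε v (x 0 v)
  have b5 : (1 + ε) * b v (x 0 v) = 0 := by
    rw [b3] at b4
    linear_combination b4
  rcases mul_eq_zero.1 b5 with h1 | h1
  · exact eq_neg_of_add_eq_zero_right h1
  · exfalso
    rw [h1, neg_zero] at b3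
    apply hb
    have key : ∀ u ∈ Submodule.span K {v, x 0 v}, ∀ w ∈ Submodule.span K {v, x 0 v},
        b u w = 0 := by
      intro u hu w hw
      rw [Submodule.mem_span_pair] at hu hw
      obtain ⟨a, c, rfl⟩ := hu
      obtain ⟨a', c', rfl⟩ := hw
      simp only [map_add, map_smul, LinearMap.add_apply, LinearMap.smul_apply, b1, b2, b3, h1,
        smul_zero, add_zero]
    ext u w
    exact key u (by rw [htop]; trivial) w (by rw [htop]; trivial)

section step

variable {V : Type*} [AddCommGroup V] [Module K V] {s : Module.End K V} {m : ℕ}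
  {x y : Fin m → Module.End K V}

theorem K6_Qx [CharZero K] (h : Kemmer s x y) (i : Fin m) :
    ((1 / 2 : K) • (1 - s)) * x i = 0 := K4a_Qx h i

/-- The idempotents commute. -/
theorem K6_cc [CharZero K] (h : Kemmer s x y) {i j : Fin m} (hij : i ≠ j) :
    K4c s x y i * K4c s x y j = K4c s x y j * K4c s x y i := by
  have hx := K4a_comx h hij
  have hy := K4a_comy h hij
  have hs := K4a_coms h i
  have e1 : K4c s x y j = x j * y j + (1 / 2 : K) • (1 - s) - y j * x j := rfl
  rw [e1]
  simp only [mul_add, add_mul, mul_sub, sub_mul, mul_smul_comm, smul_mul_assoc, mul_one, one_mul]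
  rw [hs]
  have e2 : K4c s x y i * (x j * y j) = x j * y j * K4c s x y i := by
    rw [← mul_assoc, hx, mul_assoc, hy, mul_assoc]
  have e3 : K4c s x y i * (y j * x j) = y j * x j * K4c s x y i := by
    rw [← mul_assoc, hy, mul_assoc, hx, mul_assoc]
  rw [e2, e3]

/-- The transfer operator. -/
theorem K6_E [CharZero K] (h : Kemmer s x y) {i j : Fin m} (hij : i ≠ j) :
    K4c s x y i * (x i * y j - y j * x i) = x i * y j - y j * x i ∧
    K4c s x y j * (x i * y j - y j * x i) = 0 := by
  constructor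
  · rw [mul_sub, ← mul_assoc, K4a_cx h i, ← mul_assoc, K4a_comy h hij, mul_assoc, K4a_cx h i]
  · rw [mul_sub, ← mul_assoc, K4a_comx h hij.symm, mul_assoc, K4a_cy h j, ← mul_assoc,
      K4a_cy h j]
    simp

/-- The transfer operators are inverse to each other. -/
theorem K6_inv [CharZero K] (h : Kemmer s x y) {i j : Fin m} (hij : i ≠ j) {w : V}
    (h0 : K4c s x y i w = 0) (h1 : K4c s x y j w = w) :
    (x j * y i - y i * x j) ((x i * y j - y j * x i) w) = w := by
  have ap : ∀ {A B : Module.End K V} (v : V), A = B → A v = B v := by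
    intro A B v hAB; rw [hAB]
  have e1 : y j (x j w) = 0 := by
    rw [← h1]
    have := ap w (K4a_xc h j)
    rw [Module.End.mul_apply, LinearMap.zero_apply] at this
    rw [this, map_zero]
  have e2 : x i (y i w) = 0 := by
    have := ap w (K4a_yc h i)
    rw [Module.End.mul_apply, h0, map_zero] at this
    rw [← this, map_zero]
  obtain ⟨Q, hQ⟩ : ∃ Q : Module.End K V, Q = (1 / 2 : K) • (1 - s) := ⟨_, rfl⟩
  have hc : ∀ (k : Fin m) (v : V), K4c s x y k v = x k (y k v) + Q v - y k (x k v) := by
    intro k v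
    rw [hQ]; rfl
  have hxx : ∀ (k l : Fin m) (v : V), x k (x l v) = 0 := fun k l v => by
    rw [← Module.End.mul_apply, K4a_xx h, LinearMap.zero_apply]
  have hyy : ∀ (k l : Fin m) (v : V), y k (y l v) = 0 := fun k l v => by
    rw [← Module.End.mul_apply, K4a_yy h, LinearMap.zero_apply]
  have hQx : ∀ (k : Fin m) (v : V), Q (x k v) = 0 := fun k v => by
    rw [hQ, ← Module.End.mul_apply, K4a_Qx h, LinearMap.zero_apply]
  have hQy : ∀ (k : Fin m) (v : V), Q (y k v) = y k v := fun k v => by
    rw [hQ, ← Module.End.mul_apply, K4a_Qy h]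
  have e3 : y i (x i (y j w)) = y j w := by
    have e4 : K4c s x y i (y j w) = 0 := by
      rw [← Module.End.mul_apply, K4a_comy h hij, Module.End.mul_apply, h0, map_zero]
    rw [hc, hyy, map_zero, hQy, zero_add, sub_eq_zero] at e4
    exact e4.symm
  have e5 : x j (y j (x i w)) = x i w := by
    have e6 : K4c s x y j (x i w) = x i w := by
      rw [← Module.End.mul_apply, K4a_comx h hij.symm, Module.End.mul_apply, h1]
    rw [hc, hQx, hxx, map_zero, add_zero, sub_zero] at e6
    exact e6
  have e7 : y i (x i w) = Q w := by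
    rw [hc, e2, zero_add, sub_eq_zero] at h0
    exact h0.symm
  have e8 : x j (y j w) + Q w = w := by
    rw [hc, e1, sub_zero] at h1
    exact h1
  simp only [LinearMap.sub_apply, Module.End.mul_apply, map_sub]
  rw [e3, hyy, hxx, e5, e7, map_zero, map_zero]
  rw [sub_zero, zero_sub, sub_neg_eq_add, e8]

end step

/-- The adjoint of `c i` is `1 - c i`. -/
theorem K6_adj [CharZero K] {V : Type*} [AddCommGroup V] [Module K V] {s : Module.End K V}
    {m : ℕ} {x y : Fin m → Module.End K V}
    {b : V →ₗ[K] V →ₗ[K] K} (hx : ∀ i v w, b (x i v) w = -b v (x i w))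
    (hy : ∀ i v w, b (y i v) w = -b v (y i w)) (hs : ∀ v w, b (s v) w = -b v (s w))
    (i : Fin m) (v w : V) : b (K4c s x y i v) w = b v (w - K4c s x y i w) := by
  have hc : ∀ v : V, K4c s x y i v = x i (y i v) + (1 / 2 : K) • (v - s v) - y i (x i v) :=
    fun v => rfl
  rw [hc, hc]
  simp only [map_sub, map_add, map_smul, LinearMap.sub_apply, LinearMap.add_apply,
    LinearMap.smul_apply, hx, hy, hs, map_neg, neg_neg, smul_eq_mul]
  ring

/-- Chunk K6. A nonzero form of sign `ε` for which all operators of an irreducible Kemmer system are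
skew: the number of operators is odd, `m = 2 j + 1`, and `ε = (-1)^(j+1)`. Step from `m + 2` to `m`: on
`U = {c 0 = 0, c 1 = 1}` the form `(v, w) ↦ b v (E w)`, `E = x 0 y 1 - y 1 x 0`. -/
theorem K6_sign [CharZero K] (m : ℕ) : ∀ (V : Type*) [AddCommGroup V] [Module K V]
    {s : Module.End K V} {x y : Fin m → Module.End K V}, Kemmer s x y →
    ∀ (b : V →ₗ[K] V →ₗ[K] K) (ε : K), b ≠ 0 → (∀ v w, b v w = ε * b w v) →
    (∀ i v w, b (x i v) w = -b v (x i w)) → (∀ i v w, b (y i v) w = -b v (y i w)) →
    (∀ v w, b (s v) w = -b v (s w)) → ∃ j : ℕ, m = 2 * j + 1 ∧ ε = (-1) ^ (j + 1) := by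
  induction m using Nat.strong_induction_on with
  | _ m ih =>
  rcases m with _ | _ | m
  · intro V _ _ s x y h b ε hb hε hx hy hs
    exact absurd (K6_triv h (fun i => i.elim0) (fun i => i.elim0) hs) hb
  · intro V _ _ s x y h b ε hb hε hx hy hs
    exact ⟨0, rfl, by rw [K6_one h hb hε hx hs]; simp⟩
  · intro V _ _ s x y h b ε hb hε hx hy hs
    have h01 : (0 : Fin (m + 1 + 1)) ≠ 1 := by
      intro h1
      have := congrArg Fin.val h1
      simp at this
    obtain ⟨E, hE⟩ : ∃ E, E = x 0 * y 1 - y 1 * x 0 := ⟨_, rfl⟩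
    have hcc := K6_cc h h01
    obtain ⟨hE0, hE1⟩ := K6_E h h01
    rw [← hE] at hE0 hE1
    have hEb : ∀ v w, b (E v) w = -b v (E w) := by
      intro v w
      rw [hE]
      simp only [LinearMap.sub_apply, Module.End.mul_apply, map_sub, hx, hy, neg_neg]
      ring
    have hεε : ∀ v w, b v w = 0 → b w v = 0 := by
      intro v w h0
      rw [hε, h0, mul_zero]
    have hrad : ∀ {v : V}, (∀ w, b v w = 0) → v = 0 := fun {v} hv => K6_rad h hb hx hy hs hv
    have i0 := K4a_idem h 0
    have i1 := K4a_idem h 1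
    have hadj' : ∀ (i : Fin (m + 1 + 1)) (v w : V), b v (K4c s x y i w) = b (v - K4c s x y i v) w := by
      intro i v w
      rw [map_sub, LinearMap.sub_apply, K6_adj hx hy hs, map_sub, sub_sub_cancel]
    -- the space is not trivial
    have hU : ∃ w : V, w ≠ 0 ∧ K4c s x y 0 w = 0 ∧ K4c s x y 1 w = w := by
      by_contra hcon
      push Not at hcon
      have h1 : ∀ v, K4c s x y 1 (v - K4c s x y 0 v) = 0 := by
        intro v
        by_contra h2
        refine hcon _ h2 ?_ ?_
        · rw [← Module.End.mul_apply, hcc, Module.End.mul_apply, map_sub, ← Module.End.mul_apply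
            (K4c s x y 0) (K4c s x y 0), i0, sub_self, map_zero]
        · rw [← Module.End.mul_apply, i1]
      have h2 : ∀ v, K4c s x y 0 (v - K4c s x y 1 v) = 0 := by
        intro v
        apply hrad
        intro w
        apply hεε
        rw [hadj', ← K6_adj hx hy hs 1, h1 w, map_zero, LinearMap.zero_apply]
      have hc01 : K4c s x y 0 = K4c s x y 1 := by
        ext v
        have e1 := h1 v
        have e2 := h2 v
        rw [map_sub, sub_eq_zero, ← Module.End.mul_apply] at e1 e2
        rw [e1, e2, hcc]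
      have hx0 : x 0 = 0 := by
        rw [← K4a_cx h 0, hc01, K4a_comx h h01.symm, ← hc01, K4a_xc h 0]
      have hy0 : y 0 = 0 := by
        rw [← K4a_yc h 0, hc01, ← K4a_comy h h01.symm, ← hc01, K4a_cy h 0]
      have hcQ : K4c s x y 0 = (1 / 2 : K) • (1 - s) := by
        rw [K4c, hx0, hy0, zero_mul, zero_add, sub_zero]
      have hxj : ∀ j, x j = 0 := by
        intro j
        by_cases hj : 0 = j
        · rw [← hj, hx0]
        · rw [← K4a_xQ h j, ← hcQ, ← K4a_comx h hj, hcQ, K4a_Qx h j]
      have hyj : ∀ j, y j = 0 := by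
        intro j
        by_cases hj : 0 = j
        · rw [← hj, hy0]
        · rw [← K4a_Qy h j, ← hcQ, K4a_comy h hj, hcQ, K4a_yQ h j]
      exact hb (K6_triv h hxj hyj hs)
    -- the transfer
    obtain ⟨w₀, hw₀, hw0, hw1⟩ := hU
    have hEw : E w₀ ≠ 0 := by
      intro h0
      apply hw₀
      have := K6_inv h h01 hw0 hw1
      rw [← hE, h0, map_zero] at this
      exact this.symm
    obtain ⟨v₀, hv₀⟩ : ∃ v₀, b v₀ (E w₀) ≠ 0 := by
      by_contra hcon
      push Not at hcon
      exact hEw (hrad fun w => hεε _ _ (hcon w))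
    obtain ⟨u₀, hu₀⟩ : ∃ u₀, u₀ = K4c s x y 1 (v₀ - K4c s x y 0 v₀) := ⟨_, rfl⟩
    have hu0 : K4c s x y 0 u₀ = 0 := by
      rw [hu₀, ← Module.End.mul_apply, hcc, Module.End.mul_apply, map_sub, ← Module.End.mul_apply
        (K4c s x y 0) (K4c s x y 0), i0, sub_self, map_zero]
    have hu1 : K4c s x y 1 u₀ = u₀ := by
      rw [hu₀, ← Module.End.mul_apply, i1]
    have hbu : b u₀ (E w₀) ≠ 0 := by
      have e1 : K4c s x y 1 (E w₀) = 0 := by
        rw [← Module.End.mul_apply, hE1, LinearMap.zero_apply]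
      have e2 : K4c s x y 0 (E w₀) = E w₀ := by
        rw [← Module.End.mul_apply, hE0]
      rw [hu₀, K6_adj hx hy hs 1, e1, sub_zero, ← hadj', e2]
      exact hv₀
    -- commutation
    have hs1 : (1 : Fin (m + 1 + 1)) = (0 : Fin (m + 1)).succ := rfl
    have cx : ∀ j : Fin m, x j.succ.succ * E = E * x j.succ.succ := by
      intro j
      have n0 : (j.succ.succ : Fin (m + 1 + 1)) ≠ 0 := Fin.succ_ne_zero _
      have n1 : (j.succ.succ : Fin (m + 1 + 1)) ≠ 1 := by
        rw [hs1]
        exact fun h1 => Fin.succ_ne_zero j (Fin.succ_injective _ h1)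
      have r := h.r1 0 1 j.succ.succ
      rw [if_neg h01, if_neg n1, add_zero] at r
      rw [hE, mul_sub, sub_mul, ← mul_assoc, K4a_xx h, zero_mul, zero_sub, mul_assoc (y 1),
        K4a_xx h, mul_zero, sub_zero, ← mul_assoc]
      rw [add_comm] at r
      exact neg_eq_of_add_eq_zero_right r
    have cy : ∀ j : Fin m, y j.succ.succ * E = E * y j.succ.succ := by
      intro j
      have n0 : (j.succ.succ : Fin (m + 1 + 1)) ≠ 0 := Fin.succ_ne_zero _
      have r := h.r2 1 0 j.succ.succ
      rw [if_neg h01.symm, if_neg n0, add_zero] at r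
      rw [hE, mul_sub, sub_mul, ← mul_assoc (y j.succ.succ) (y 1), K4a_yy h, zero_mul, sub_zero,
        mul_assoc (x 0), K4a_yy h, mul_zero, zero_sub, ← mul_assoc]
      rw [add_comm] at r
      exact eq_neg_of_add_eq_zero_left r
    have cs : s * E = E * s := by
      rw [hE, mul_sub, sub_mul, ← mul_assoc, h.sx, ← mul_assoc, h.sy, mul_assoc (x 0), h.ys,
        mul_assoc (y 1), h.xs, mul_neg, neg_mul]
    -- the restricted system
    have h' := K4b_kemmer h (b := 0) (Or.inl rfl)
    have h'' := K4b_kemmer h' (b := 1) (Or.inr rfl)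
    have hmem0 : ∀ v : V, K4c s x y 0 v = 0 → v ∈ K4U s x y 0 := by
      intro v hv
      rw [K4b_memU, hv, zero_smul]
    let b' := LinearMap.mk₂ K (fun u w : K4U (LinearMap.restrict s (K4b_us h 0))
        (fun i : Fin (m + 1) => LinearMap.restrict (x i.succ) (K4b_ux h 0 i))
        (fun i : Fin (m + 1) => LinearMap.restrict (y i.succ) (K4b_uy h 0 i)) 1 =>
        b ((u : K4U s x y 0) : V) (E ((w : K4U s x y 0) : V)))
      (fun v v' w => by rw [Submodule.coe_add, Submodule.coe_add, map_add, LinearMap.add_apply])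
      (fun c v w => by rw [Submodule.coe_smul, Submodule.coe_smul, map_smul, LinearMap.smul_apply])
      (fun v w w' => by rw [Submodule.coe_add, Submodule.coe_add, map_add, map_add])
      (fun c v w => by rw [Submodule.coe_smul, Submodule.coe_smul, map_smul, map_smul])
    have hb' : ∀ u w, b' u w = b ((u : K4U s x y 0) : V) (E ((w : K4U s x y 0) : V)) :=
      fun _ _ => rfl
    have hmem1 : ∀ (v : V) (hv : K4c s x y 0 v = 0), K4c s x y 1 v = v →
        (⟨v, hmem0 v hv⟩ : K4U s x y 0) ∈ K4U (LinearMap.restrict s (K4b_us h 0))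
        (fun i : Fin (m + 1) => LinearMap.restrict (x i.succ) (K4b_ux h 0 i))
        (fun i : Fin (m + 1) => LinearMap.restrict (y i.succ) (K4b_uy h 0 i)) 1 := by
      intro v hv hv1
      rw [K4b_memU, one_smul]
      apply Subtype.ext
      exact hv1
    have hb'0 : b' ≠ 0 := by
      intro h0
      apply hbu
      have e1 := hb' ⟨⟨u₀, hmem0 u₀ hu0⟩, hmem1 u₀ hu0 hu1⟩ ⟨⟨w₀, hmem0 w₀ hw0⟩, hmem1 w₀ hw0 hw1⟩
      rw [h0] at e1
      exact e1.symm
    obtain ⟨j, hj, hεj⟩ := ih m (by omega) _ h'' b' (-ε) hb'0 (by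
      intro u w
      rw [hb', hb', neg_mul, ← hε, hEb, neg_neg]) (by
      intro i u w
      rw [hb', hb']
      have e1 : b (x i.succ.succ ((u : K4U s x y 0) : V)) (E ((w : K4U s x y 0) : V)) =
          -b ((u : K4U s x y 0) : V) (E (x i.succ.succ ((w : K4U s x y 0) : V))) := by
        rw [hx, ← Module.End.mul_apply, cx, Module.End.mul_apply]
      exact e1) (by
      intro i u w
      rw [hb', hb']
      have e1 : b (y i.succ.succ ((u : K4U s x y 0) : V)) (E ((w : K4U s x y 0) : V)) =
          -b ((u : K4U s x y 0) : V) (E (y i.succ.succ ((w : K4U s x y 0) : V))) := by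
        rw [hy, ← Module.End.mul_apply, cy, Module.End.mul_apply]
      exact e1) (by
      intro u w
      rw [hb', hb']
      have e1 : b (s ((u : K4U s x y 0) : V)) (E ((w : K4U s x y 0) : V)) =
          -b ((u : K4U s x y 0) : V) (E (s ((w : K4U s x y 0) : V))) := by
        rw [hs, ← Module.End.mul_apply, cs, Module.End.mul_apply]
      exact e1)
    refine ⟨j + 1, by omega, ?_⟩
    rw [pow_succ, ← hεj]
    ring

end Pool.Agent.H49M
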