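import Pool.Agent.Lib.H49M.K5
import Pool.Agent.Lib.H49M.K6
import Pool.Agent.Lib.H49M.R1

/-!
# R2: the case of a rank one Jordan pair, exact statement
-/

set_option autoImplicit false
set_option linter.unusedSectionVars false
namespace Pool.Agent.H49M
open Module Pool.Agent.H53Toric

variable {K : Type*} [Field K] {V : Type*} [AddCommGroup V] [Module K V]

/-- `K4_rank` with the counting scalar. -/
theorem R2_rank [CharZero K] [IsAlgClosed K] [FiniteDimensional K V] [Nontrivial V]
    {s : Module.End K V} {n : ℕ} {x y : Fin (n + 1) → Module.End K V} (h : Kemmer s x y)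
    (hx : x 0 ≠ 0) : ∃ k : ℕ, 1 ≤ k ∧ k ≤ n + 1 ∧ finrank K (eig s 1) = (n + 1).choose k ∧
      finrank K (eig s (-1)) = (n + 1).choose (k - 1) ∧
      finrank K (LinearMap.range (x 0)) = n.choose (k - 1) ∧
      ∀ v, cnt s x y v = (k : K) • v := by
  have hU1 : K4U s x y 1 ≠ ⊥ := by
    intro h0
    apply hx
    rw [← K4a_cx h 0, K4b_zero1 h h0, zero_mul]
  have hU0 : K4U s x y 0 ≠ ⊥ := by
    intro h0
    apply hx
    rw [← mul_one (x 0), ← K4b_zero0 h h0, K4a_xc h 0]
  have : Nontrivial (K4U s x y 0) := (Submodule.nontrivial_iff_ne_bot).mpr hU0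
  have : Nontrivial (K4U s x y 1) := (Submodule.nontrivial_iff_ne_bot).mpr hU1
  obtain ⟨k, hk1, hk2, hk3, hk4⟩ := K4_dim (n + 1) V h
  obtain ⟨k0, a1, a2, a3, a4⟩ := K4_dim n (K4U s x y 0) (K4b_kemmer h (Or.inl rfl))
  obtain ⟨k1, b1, b2, b3, b4⟩ := K4_dim n (K4U s x y 1) (K4b_kemmer h (Or.inr rfl))
  have e0 := K4b_parts h hk1 hU0 a1
  have e1 := K4b_parts h hk1 hU1 b1
  have e2 : k = k0 := by
    rw [zero_add] at e0
    exact Nat.cast_injective e0
  have e3 : k = k1 + 1 := by
    have : (k : K) = ((k1 + 1 : ℕ) : K) := by rw [e1]; push_cast; ring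
    exact Nat.cast_injective this
  -- the rank of `x 0`
  have hr : finrank K (LinearMap.range (x 0)) =
      finrank K (eig (LinearMap.restrict s (K4b_us h 0)) (-1)) := by
    have e : eig (LinearMap.restrict s (K4b_us h 0)) (-1) =
        (eig s (-1) ⊓ K4U s x y 0).comap (K4U s x y 0).subtype := by
      ext v
      rw [Submodule.mem_comap, Submodule.mem_inf, eig, eig, LinearMap.mem_ker, LinearMap.mem_ker]
      constructor
      · intro h1
        exact ⟨congrArg Subtype.val h1, v.2⟩
      · rintro ⟨h1, -⟩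
        exact Subtype.ext h1
    rw [e, LinearEquiv.finrank_eq (Submodule.comapSubtypeEquivOfLe
      (inf_le_right : eig s (-1) ⊓ K4U s x y 0 ≤ K4U s x y 0))]
    set E := eig s (-1) ⊓ K4U s x y 0 with hE
    have hinj : Function.Injective ((x 0).domRestrict E) := by
      rw [injective_iff_map_eq_zero]
      rintro ⟨w, hw1, hw2⟩ hw
      have hw3 : x 0 w = 0 := hw
      have hw4 : K4c s x y 0 w = 0 := by rw [K4b_memU.mp hw2, zero_smul]
      have hw5 : y 0 w = 0 := by
        rw [← K4a_yc h 0, Module.End.mul_apply, hw4, map_zero]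
      have hw6 : s w = -w := by
        rw [eig, SetLike.mem_coe, LinearMap.mem_ker, LinearMap.sub_apply, sub_eq_zero] at hw1
        rw [hw1, LinearMap.smul_apply, neg_one_smul, Module.End.one_apply]
      rw [K4c, LinearMap.sub_apply, LinearMap.add_apply, Module.End.mul_apply,
        Module.End.mul_apply, hw3, hw5, map_zero, map_zero, zero_add, sub_zero,
        LinearMap.smul_apply, LinearMap.sub_apply, hw6, Module.End.one_apply, sub_neg_eq_add,
        ← two_smul K, smul_smul] at hw4
      have : w = 0 := by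
        refine (smul_eq_zero.mp hw4).resolve_left ?_
        norm_num
      exact Subtype.ext this
    have hrange : LinearMap.range (x 0) = LinearMap.range ((x 0).domRestrict E) := by
      apply le_antisymm
      · rintro _ ⟨v, rfl⟩
        refine ⟨⟨((1 / 2 : K) • (1 - s)) (v - K4c s x y 0 v), ?_, ?_⟩, ?_⟩
        · rw [eig, SetLike.mem_coe, LinearMap.mem_ker, LinearMap.sub_apply, sub_eq_zero,
            LinearMap.smul_apply, LinearMap.smul_apply, neg_one_smul, Module.End.one_apply,
            map_smul, ← smul_neg]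
          congr 1
          rw [LinearMap.sub_apply, map_sub, ← Module.End.mul_apply s s, h.s_sq,
            Module.End.one_apply]
          abel
        · have hcom : K4c s x y 0 * ((1 / 2 : K) • (1 - s)) =
              ((1 / 2 : K) • (1 - s)) * K4c s x y 0 := by
            rw [mul_smul_comm, smul_mul_assoc, mul_sub, sub_mul, K4a_coms h 0, mul_one, one_mul]
          rw [SetLike.mem_coe, K4b_memU, ← Module.End.mul_apply, hcom, Module.End.mul_apply, map_sub,
            ← Module.End.mul_apply (K4c s x y 0) (K4c s x y 0), K4a_idem h 0, sub_self, map_zero,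
            zero_smul]
        · show x 0 (((1 / 2 : K) • (1 - s)) (v - K4c s x y 0 v)) = x 0 v
          rw [← Module.End.mul_apply, K4a_xQ h 0, map_sub, ← Module.End.mul_apply, K4a_xc h 0,
            LinearMap.zero_apply, sub_zero]
      · rintro _ ⟨v, rfl⟩
        exact ⟨v, rfl⟩
    rw [← LinearMap.finrank_range_of_inj hinj, hrange]
  have hk0 : k0 = (k - 1) + 1 := by omega
  have hr2 : finrank K (LinearMap.range (x 0)) = n.choose (k - 1) := by
    rw [hr, a4 (k - 1) hk0]
  refine ⟨k, by omega, ?_, hk2, hk4 (k - 1) (by omega), hr2, hk1⟩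
  by_contra hlt
  rw [Nat.choose_eq_zero_of_lt (by omega)] at hr2
  have : LinearMap.range (x 0) = ⊥ := Submodule.finrank_eq_zero.mp hr2
  exact hx (LinearMap.range_eq_bot.mp this)

variable {L : Submodule K (Module.End K V)} {ω : V →ₗ[K] V →ₗ[K] K}
  {adj : Module.End K V →ₗ[K] Module.End K V}

/-- `K3_system` with the memberships. -/
theorem R2_system [CharZero K] [IsAlgClosed K] [FiniteDimensional K V] [Nontrivial V]
    (h : Core L ω adj) {s e f : Module.End K V} (F : Frame L s e f)
    (hall : ∀ x ∈ Lp L s, ∀ y ∈ Lm L s, ∃ c : K, x * y * x = c • x ∧ y * x * y = c • y) :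
    ∃ (n : ℕ) (x y : Fin (n + 1) → Module.End K V), Kemmer s x y ∧ x 0 = e ∧ y 0 = f ∧
      (∀ i, x i ∈ Lp L s) ∧ (∀ i, y i ∈ Lm L s) := by
  have hr0 : (finrank K (LinearMap.range e) : K) ≠ 0 := by
    rw [Nat.cast_ne_zero]
    intro h0
    exact F.e_ne (LinearMap.range_eq_bot.1 (Submodule.finrank_eq_zero.1 h0))
  obtain ⟨r, hr⟩ : ∃ r : K, r = (finrank K (LinearMap.range e) : K) := ⟨_, rfl⟩
  rw [← hr] at hr0
  have htef : LinearMap.trace K V (e * f) = r := by rw [(K0_rank F).2.2, hr]
  -- the pairing
  let T : Lm L s →ₗ[K] Module.Dual K (Lp L s) :=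
    { toFun := fun y =>
        { toFun := fun x => LinearMap.trace K V (x.1 * y.1)
          map_add' := fun a b => by
            change LinearMap.trace K V ((a.1 + b.1) * y.1) = _
            rw [add_mul, map_add]
          map_smul' := fun c a => by
            change LinearMap.trace K V ((c • a.1) * y.1) = _
            rw [smul_mul_assoc, map_smul]; rfl }
      map_add' := fun a b => by
        ext x
        change LinearMap.trace K V (x.1 * (a.1 + b.1)) = _
        rw [mul_add, map_add]; rfl
      map_smul' := fun c a => by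
        ext x
        change LinearMap.trace K V (x.1 * (c • a.1)) = _
        rw [mul_smul_comm, map_smul]; rfl }
  have hT : ∀ (y : Lm L s) (x : Lp L s), T y x = LinearMap.trace K V (x.1 * y.1) := fun _ _ => rfl
  let T' : Lp L s →ₗ[K] Module.Dual K (Lm L s) := T.flip
  have hTi : Function.Injective T := by
    rw [injective_iff_map_eq_zero]
    intro y hy
    apply Subtype.ext
    apply A2_nondeg' h F.s_mem F.s_sq y.2
    intro x hx
    exact LinearMap.congr_fun hy ⟨x, hx⟩
  have hTi' : Function.Injective T' := by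
    rw [injective_iff_map_eq_zero]
    intro x hx
    apply Subtype.ext
    apply A2_nondeg h F.s_mem F.s_sq x.2
    intro y hy
    exact LinearMap.congr_fun hx ⟨y, hy⟩
  have hdim : finrank K (Lm L s) = finrank K (Module.Dual K (Lp L s)) := by
    apply le_antisymm
    · exact LinearMap.finrank_le_finrank_of_injective hTi
    · rw [Subspace.dual_finrank_eq]
      have := LinearMap.finrank_le_finrank_of_injective hTi'
      rwa [Subspace.dual_finrank_eq] at this
  let E := LinearEquiv.ofInjectiveOfFinrankEq T hTi hdim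
  have hE : ∀ y, E y = T y := fun _ => rfl
  -- the basis
  let φ : Lp L s →ₗ[K] K := T ⟨f, F.f_mem⟩
  have hφe : φ ⟨e, F.e_mem⟩ = r := htef
  have hfree : Module.Free K (LinearMap.ker φ) :=
    @Module.Free.of_divisionRing K (LinearMap.ker φ) _ (LinearMap.ker φ).addCommGroup _
  let b := Module.finBasis K (LinearMap.ker φ)
  have hli : ∀ c : K, ∀ x ∈ LinearMap.ker φ, c • (⟨e, F.e_mem⟩ : Lp L s) + x = 0 → c = 0 := by
    intro c x hx hcx
    have h1 := congrArg φ hcx
    rw [map_add, map_smul, hφe, LinearMap.mem_ker.1 hx, add_zero, map_zero, smul_eq_mul] at h1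
    exact (mul_eq_zero.1 h1).resolve_right hr0
  have hsp : ∀ z : Lp L s, ∃ c : K, z + c • (⟨e, F.e_mem⟩ : Lp L s) ∈ LinearMap.ker φ := by
    intro z
    refine ⟨-(φ z / r), ?_⟩
    rw [LinearMap.mem_ker, map_add, map_smul, hφe, smul_eq_mul, neg_mul,
      div_mul_cancel₀ _ hr0, add_neg_cancel]
  let B := Module.Basis.mkFinCons (⟨e, F.e_mem⟩ : Lp L s) b hli hsp
  have hB0 : B 0 = ⟨e, F.e_mem⟩ := by
    change (Module.Basis.mkFinCons _ b hli hsp) 0 = _
    rw [Module.Basis.coe_mkFinCons]; rfl
  have hBs : ∀ i : Fin (finrank K (LinearMap.ker φ)), φ (B i.succ) = 0 := by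
    intro i
    change φ ((Module.Basis.mkFinCons _ b hli hsp) i.succ) = _
    rw [Module.Basis.coe_mkFinCons]
    exact LinearMap.mem_ker.1 (b i).2
  let C := B.dualBasis.map E.symm
  have hTC : ∀ i j, T (C j) (B i) = if i = j then 1 else 0 := by
    intro i j
    have h1 : T (C j) = B.dualBasis j := by
      rw [← hE]
      change E (E.symm (B.dualBasis j)) = _
      rw [LinearEquiv.apply_symm_apply]
    rw [h1, Module.Basis.dualBasis_apply_self]
  let x : Fin (finrank K (LinearMap.ker φ) + 1) → Module.End K V := fun i => (B i).1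
  let y : Fin (finrank K (LinearMap.ker φ) + 1) → Module.End K V := fun i => r • (C i).1
  have hx : ∀ i, x i ∈ Lp L s := fun i => (B i).2
  have hy : ∀ i, y i ∈ Lm L s := fun i => (Lm L s).smul_mem r (C i).2
  have htr : ∀ i j, LinearMap.trace K V (x i * y j) = if i = j then r else 0 := by
    intro i j
    change LinearMap.trace K V ((B i).1 * (r • (C j).1)) = _
    rw [mul_smul_comm, map_smul, ← hT, hTC]
    split_ifs <;> simp
  have hpol1 : ∀ a ∈ Lp L s, ∀ a' ∈ Lp L s, ∀ d ∈ Lm L s, r • (a * d * a' + a' * d * a) =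
      LinearMap.trace K V (a * d) • a' + LinearMap.trace K V (a' * d) • a := by
    intro a ha a' ha' d hd
    have h1 := (K3_trace h F hall ha hd).1
    have h2 := (K3_trace h F hall ha' hd).1
    have h3 := (K3_trace h F hall ((Lp L s).add_mem ha ha') hd).1
    rw [← hr] at h1 h2 h3
    have e1 : (a + a') * d * (a + a') = a * d * a + a' * d * a' + (a * d * a' + a' * d * a) := by
      noncomm_ring
    rw [e1, smul_add, smul_add, h1, h2, add_mul, map_add] at h3
    have e2 : r • (a * d * a' + a' * d * a) = (LinearMap.trace K V (a * d) • a +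
        LinearMap.trace K V (a' * d) • a' + r • (a * d * a' + a' * d * a)) -
        (LinearMap.trace K V (a * d) • a + LinearMap.trace K V (a' * d) • a') := by abel
    rw [e2, h3]
    module
  have hpol2 : ∀ a ∈ Lp L s, ∀ d ∈ Lm L s, ∀ d' ∈ Lm L s, r • (d * a * d' + d' * a * d) =
      LinearMap.trace K V (a * d) • d' + LinearMap.trace K V (a * d') • d := by
    intro a ha d hd d' hd'
    have h1 := (K3_trace h F hall ha hd).2
    have h2 := (K3_trace h F hall ha hd').2
    have h3 := (K3_trace h F hall ha ((Lm L s).add_mem hd hd')).2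
    rw [← hr] at h1 h2 h3
    have e1 : (d + d') * a * (d + d') = d * a * d + d' * a * d' + (d * a * d' + d' * a * d) := by
      noncomm_ring
    rw [e1, smul_add, smul_add, h1, h2, mul_add, map_add] at h3
    have e2 : r • (d * a * d' + d' * a * d) = (LinearMap.trace K V (a * d) • d +
        LinearMap.trace K V (a * d') • d' + r • (d * a * d' + d' * a * d)) -
        (LinearMap.trace K V (a * d) • d + LinearMap.trace K V (a * d') • d') := by abel
    rw [e2, h3]
    module
  have hcancel : ∀ S T : Module.End K V, r • S = r • T → S = T := fun S T hST =>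
    smul_right_injective _ hr0 hST
  refine ⟨finrank K (LinearMap.ker φ), x, y, ⟨F.s_sq, fun i => (hx i).2.1, fun i => (hx i).2.2,
    fun i => (hy i).2.1, fun i => (hy i).2.2, ?_, ?_, ?_⟩, ?_, ?_, hx, hy⟩
  · intro i j k
    apply hcancel
    rw [hpol1 _ (hx i) _ (hx k) _ (hy j), htr, htr]
    split_ifs <;> simp [smul_add]
  · intro i j k
    apply hcancel
    rw [hpol2 _ (hx j) _ (hy i) _ (hy k), htr, htr]
    simp only [eq_comm (a := j)]
    split_ifs <;> simp [smul_add]
  · intro W hWx hWy hWs
    have hp : ∀ X ∈ Lp L s, ∀ w ∈ W, X w ∈ W := by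
      intro X hX w hw
      have h1 := B.sum_repr ⟨X, hX⟩
      have h2 : X = ∑ i, (B.repr ⟨X, hX⟩ i) • x i := by
        have := congrArg Subtype.val h1
        rw [AddSubmonoidClass.coe_finsetSum] at this
        exact this.symm
      rw [h2, LinearMap.sum_apply]
      exact W.sum_mem fun i _ => W.smul_mem _ (hWx i w hw)
    have hm : ∀ Y ∈ Lm L s, ∀ w ∈ W, Y w ∈ W := by
      intro Y hY w hw
      have h1 := C.sum_repr ⟨Y, hY⟩
      have h2 : Y = ∑ i, (C.repr ⟨Y, hY⟩ i) • (C i).1 := by
        have := congrArg Subtype.val h1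
        rw [AddSubmonoidClass.coe_finsetSum] at this
        exact this.symm
      rw [h2, LinearMap.sum_apply]
      refine W.sum_mem fun i _ => W.smul_mem _ ?_
      have h3 := W.smul_mem r⁻¹ (hWy i w hw)
      change r⁻¹ • (r • (C i).1) w ∈ W at h3
      rwa [LinearMap.smul_apply, smul_smul, inv_mul_cancel₀ hr0, one_smul] at h3
    have h00 : ∀ Z ∈ L0 L s, ∀ w ∈ W, Z w ∈ W := by
      intro Z hZ w hw
      have h1 := A3_span h F.s_mem F.s_sq hZ
      clear hZ
      induction h1 using Submodule.span_induction with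
      | mem Z hZ =>
        obtain ⟨X, hX, Y, hY, rfl⟩ := hZ
        rw [LinearMap.sub_apply]
        exact W.sub_mem (hp X hX _ (hm Y hY w hw)) (hm Y hY _ (hp X hX w hw))
      | zero => simp
      | add a b _ _ ha hb =>
        rw [LinearMap.add_apply]
        exact W.add_mem ha hb
      | smul c a _ ha =>
        rw [LinearMap.smul_apply]
        exact W.smul_mem c ha
    apply h.irr W
    intro X hX w hw
    obtain ⟨a, ha, b, hb, c, hc, rfl⟩ := A2_decomp h F.s_mem F.s_sq hX
    rw [LinearMap.add_apply, LinearMap.add_apply]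
    exact W.add_mem (W.add_mem (hp a ha w hw) (h00 b hb w hw)) (hm c hc w hw)
  · change (B 0).1 = e
    rw [hB0]
  · change r • (C 0).1 = f
    have h1 : r • C 0 = ⟨f, F.f_mem⟩ := by
      apply hTi
      apply B.ext
      intro i
      rw [map_smul, LinearMap.smul_apply, hTC]
      change _ = φ (B i)
      refine Fin.cases ?_ (fun i => ?_) i
      · rw [if_pos rfl, hB0, hφe, smul_eq_mul, mul_one]
      · rw [if_neg (Fin.succ_ne_zero i), hBs, smul_zero]
    exact congrArg Subtype.val h1

/-- The exact dimensions in the Kemmer case. -/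
theorem R2_final [CharZero K] [IsAlgClosed K] [FiniteDimensional K V] [Nontrivial V]
    (h : Core L ω adj) {s e f : Module.End K V} (F : Frame L s e f)
    (ha : ∀ u ∈ J1 L s e f, u * f * u = 0) :
    ∃ k : ℕ, 1 ≤ k ∧ Odd k ∧ finrank K V = k.centralBinom ∧
      finrank K (LinearMap.range e) = (k - 1).centralBinom := by
  have hall := fun (x : Module.End K V) (hx : x ∈ Lp L s) (y : Module.End K V)
    (hy : y ∈ Lm L s) => K2_all h F ha hx hy
  obtain ⟨n, x, y, hK, hx, hy, hxL, hyL⟩ := R2_system h F hall
  obtain ⟨k, hk1, hk2, h1, h2, h3, hcnt⟩ := R2_rank hK (by rw [hx]; exact F.e_ne)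
  obtain ⟨h4, h5⟩ := K5_eig h F.s_mem F.s_sq
  obtain ⟨j', hj1, hj2⟩ : ∃ j : ℕ, n + 1 = 2 * j + 1 ∧ (-1 : K) = (-1) ^ (j + 1) := by
    have hskew : ∀ v w, ω v w = -ω w v := by
      intro v w
      have h1 := h.alt (v + w)
      simp only [map_add, LinearMap.add_apply] at h1
      rw [h.alt v, h.alt w, zero_add, add_zero] at h1
      exact eq_neg_of_add_eq_zero_right h1
    have hform : ∀ X ∈ L, ∀ v w, ω (X v) w = -ω v (X w) := by
      intro X hX v w
      rw [h.spec, h.skew X hX, LinearMap.neg_apply, map_neg]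
    have hω : ω ≠ 0 := by
      intro h0
      obtain ⟨v, hv⟩ := exists_ne (0 : V)
      exact hv (h.nd v fun w => by rw [h0]; rfl)
    exact K6_sign (n + 1) V hK ω (-1) hω (fun v w => by rw [hskew]; ring)
      (fun i => hform _ (hxL i).1) (fun i => hform _ (hyL i).1) (hform _ F.s_mem)
  obtain ⟨j, rfl⟩ : ∃ j, k = j + 1 := ⟨k - 1, by omega⟩
  rw [Nat.add_sub_cancel] at h2 h3
  rw [h1, h2] at h4
  have h6 := Nat.choose_succ_right_eq (n + 1) j
  rw [h4] at h6
  have h7 : 0 < (n + 1).choose j := Nat.choose_pos (by omega)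
  have h8 : j + 1 = n + 1 - j := Nat.eq_of_mul_eq_mul_left h7 h6
  have h9 : n = 2 * j := by omega
  have h10 : finrank K (LinearMap.range e) = j.centralBinom := by
    rw [← hx, h3, h9, Nat.centralBinom]
  have h11 : finrank K V = (j + 1).centralBinom := by
    have e1 : (2 * (j + 1)).choose (j + 1) = (2 * j + 1).choose j + (2 * j + 1).choose (j + 1) := by
      rw [show 2 * (j + 1) = (2 * j + 1) + 1 by ring, Nat.choose_succ_succ]
    rw [h5, h1, Nat.centralBinom, e1, ← h9, h4]
    ring
  have hjj : j' = j := by omega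
  have hodd : Odd (j + 1) := by
    by_contra hne
    rw [Nat.not_odd_iff_even] at hne
    rw [hjj, hne.neg_one_pow] at hj2
    norm_num at hj2
  exact ⟨j + 1, by omega, hodd, h11, by rw [Nat.add_sub_cancel]; exact h10⟩

end Pool.Agent.H49M
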