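import Pool.Agent.Lib.H49M.Defs

/-!
# P0: components with respect to an integral torus element
-/

set_option autoImplicit false
set_option linter.unusedSectionVars false
namespace Pool.Agent.H49M
open Module Pool.Agent.H53Toric

variable {K : Type*} [Field K] {V : Type*} [AddCommGroup V] [Module K V]

theorem P0_elim [CharZero K] {M : Type*} [AddCommGroup M] [Module K M] (L : Submodule K M)
    (T : M →ₗ[K] M) (hT : ∀ x ∈ L, T x ∈ L) (S : Finset ℤ) : ∀ (F : ℤ → M),
    (∀ n ∈ S, T (F n) = (n : K) • F n) → ∑ n ∈ S, F n ∈ L → ∀ n ∈ S, F n ∈ L := by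
  induction S using Finset.induction_on with
  | empty => intro F _ _ n hn; simp at hn
  | insert a S ha ih =>
    intro F hF hsum
    have h1 : ∑ n ∈ S, ((n : K) - a) • F n ∈ L := by
      have h2 := L.sub_mem (hT _ hsum) (L.smul_mem (a : K) hsum)
      rw [Finset.sum_insert ha, map_add, map_sum, hF a (Finset.mem_insert_self a S), smul_add,
        add_sub_add_left_eq_sub, Finset.smul_sum, ← Finset.sum_sub_distrib] at h2
      convert h2 using 1
      refine Finset.sum_congr rfl fun n hn => ?_
      rw [hF n (Finset.mem_insert_of_mem hn), sub_smul]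
    have h3 : ∀ n ∈ S, F n ∈ L := by
      intro n hn
      have h4 := ih (fun n => ((n : K) - a) • F n) (fun k hk => by
        rw [map_smul, hF k (Finset.mem_insert_of_mem hk), smul_comm]) h1 n hn
      have h5 : (n : K) - a ≠ 0 := by
        rw [sub_ne_zero]
        intro h
        apply ha
        have : n = a := Int.cast_injective h
        rwa [← this]
      have h6 := L.smul_mem ((n : K) - a)⁻¹ h4
      rwa [smul_smul, inv_mul_cancel₀ h5, one_smul] at h6
    intro n hn
    rcases Finset.mem_insert.mp hn with rfl | hn
    · rw [Finset.sum_insert ha] at hsum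
      have := L.sub_mem hsum (L.sum_mem h3)
      rwa [add_sub_cancel_right] at this
    · exact h3 n hn

/-- Chunk P0. Let `D = ∑ w i • c i` and `T X = D X - X D`; `T` preserves `L`. The operator
`X_n = ∑_{w i - w j = n} c i X c j` satisfies `T X_n = n X_n`, and `X = ∑_n X_n` (finite sum over the
differences `w i - w j`). Elimination: if a finite sum `∑_{n ∈ S} X_n` with `T X_n = n X_n`
(distinct scalars, characteristic zero) is in the `T`-stable space `L`, then each `X_n` is in `L`
(induction on `S`: apply `T - n₀` and use the induction hypothesis for the terms `(n - n₀) X_n`). If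
`n` is not a difference, the sum is zero. -/
theorem P0_block [CharZero K] {L : Submodule K (Module.End K V)} (hl : IsLie L) {m : ℕ}
    {c : Fin m → Module.End K V} (hc : ∀ i j, c i * c j = if i = j then c i else 0)
    (hsum : ∑ i, c i = 1) {w : Fin m → ℤ} (hD : ∑ i, (w i : K) • c i ∈ L)
    {X : Module.End K V} (hX : X ∈ L) (n : ℤ) :
    ∑ i, ∑ j, (if w i - w j = n then c i * X * c j else 0) ∈ L := by
  classical
  set D := ∑ i, (w i : K) • c i with hDdef
  have hDc : ∀ i, D * c i = (w i : K) • c i := by
    intro i
    rw [hDdef, Finset.sum_mul]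
    simp [hc]
  have hcD : ∀ i, c i * D = (w i : K) • c i := by
    intro i
    rw [hDdef, Finset.mul_sum]
    simp [hc]
  set F : ℤ → Module.End K V := fun n =>
    ∑ i, ∑ j, (if w i - w j = n then c i * X * c j else 0) with hF
  set T : Module.End K V →ₗ[K] Module.End K V :=
    LinearMap.mulLeft K D - LinearMap.mulRight K D with hT
  have hTapp : ∀ Y, T Y = D * Y - Y * D := fun Y => rfl
  set S : Finset ℤ := (Finset.univ ×ˢ Finset.univ : Finset (Fin m × Fin m)).image
    (fun q => w q.1 - w q.2) with hS
  have hTL : ∀ Y ∈ L, T Y ∈ L := fun Y hY => hl D hD Y hY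
  have hTF : ∀ n ∈ S, T (F n) = (n : K) • F n := by
    intro k _
    rw [hF]
    simp only
    rw [map_sum, Finset.smul_sum]
    refine Finset.sum_congr rfl fun i _ => ?_
    rw [map_sum, Finset.smul_sum]
    refine Finset.sum_congr rfl fun j _ => ?_
    split
    · rename_i hk
      rw [hTapp, ← mul_assoc, ← mul_assoc, hDc, mul_assoc _ (c j) D, hcD, smul_mul_assoc,
        smul_mul_assoc, mul_smul_comm, ← sub_smul, ← hk]
      push_cast; rfl
    · rw [map_zero, smul_zero]
  have hsumF : ∑ k ∈ S, F k = X := by
    rw [hF]
    simp only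
    rw [Finset.sum_comm]
    have : ∀ i ∈ (Finset.univ : Finset (Fin m)), ∑ k ∈ S, ∑ j, (if w i - w j = k then
        c i * X * c j else 0) = ∑ j, c i * X * c j := by
      intro i _
      rw [Finset.sum_comm]
      refine Finset.sum_congr rfl fun j _ => ?_
      rw [Finset.sum_ite_eq, if_pos]
      rw [hS, Finset.mem_image]
      exact ⟨(i, j), by simp, rfl⟩
    rw [Finset.sum_congr rfl this]
    simp_rw [← Finset.mul_sum, hsum, mul_one, ← Finset.sum_mul, hsum, one_mul]
  by_cases hn : n ∈ S
  · exact P0_elim L T hTL S F hTF (by rw [hsumF]; exact hX) n hn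
  · have : F n = 0 := by
      rw [hF]
      simp only
      refine Finset.sum_eq_zero fun i _ => Finset.sum_eq_zero fun j _ => ?_
      rw [if_neg]
      intro h
      apply hn
      rw [hS, Finset.mem_image]
      exact ⟨(i, j), by simp, h⟩
    change F n ∈ L
    rw [this]; exact L.zero_mem

end Pool.Agent.H49M
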