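import Pool.Agent.Lib.H49M.Defs

/-!
# A0: the adjoint
-/

set_option autoImplicit false
set_option linter.unusedSectionVars false
namespace Pool.Agent.H49M
open Module Pool.Agent.H53Toric

variable {K : Type*} [Field K] {V : Type*} [AddCommGroup V] [Module K V]

variable {L : Submodule K (Module.End K V)} {ω : V →ₗ[K] V →ₗ[K] K}
  {adj : Module.End K V →ₗ[K] Module.End K V}

theorem A0_flip (h : Core L ω adj) (v w : V) : ω v w = - ω w v := by
  have h1 := h.alt (v + w)
  simp only [map_add, LinearMap.add_apply, h.alt, zero_add, add_zero] at h1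
  rw [add_comm] at h1
  exact eq_neg_of_add_eq_zero_left h1

theorem A0_nd' (h : Core L ω adj) {w : V} (hw : ∀ v, ω v w = 0) : w = 0 := by
  apply h.nd
  intro v
  rw [A0_flip h, hw, neg_zero]

theorem A0_ext (h : Core L ω adj) {X Y : Module.End K V} (hXY : ∀ v w, ω v (X w) = ω v (Y w)) :
    X = Y := by
  ext w
  rw [← sub_eq_zero]
  apply A0_nd' h
  intro v
  rw [map_sub, hXY, sub_self]

/-- Chunk A0. Direct from `spec` and `nd`. For the trace: `Φ : V → Dual V`, `Φ w = ω · w` (flip)
is injective (from `alt`, `nd`: `ω v w = - ω w v`), hence bijective, and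
`X.dualMap (Φ w) = Φ (adj X w)`, so `adj X` is conjugate to `X.dualMap`, whose trace is the trace
of `X` (`LinearMap.trace_transpose'` or similar). -/
theorem A0_mul (h : Core L ω adj) (X Y : Module.End K V) : adj (X * Y) = adj Y * adj X := by
  apply A0_ext h
  intro v w
  rw [← h.spec, Module.End.mul_apply, Module.End.mul_apply, ← h.spec, ← h.spec]

theorem A0_adj (h : Core L ω adj) (X : Module.End K V) : adj (adj X) = X := by
  apply A0_ext h
  intro v w
  rw [← h.spec, A0_flip h, ← h.spec, A0_flip h, neg_neg]

/-- The isomorphism of the space with its dual. -/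
noncomputable def A0_equiv [FiniteDimensional K V] (h : Core L ω adj) : V ≃ₗ[K] Module.Dual K V :=
  LinearEquiv.ofInjectiveOfFinrankEq ω.flip (by
    rw [injective_iff_map_eq_zero]
    intro w hw
    apply A0_nd' h
    intro v
    have := LinearMap.congr_fun hw v
    rwa [LinearMap.flip_apply] at this) (Subspace.dual_finrank_eq (K := K) (V := V)).symm

theorem A0_equiv_apply [FiniteDimensional K V] (h : Core L ω adj) (v w : V) :
    A0_equiv h w v = ω v w := rfl

theorem A0_conj [FiniteDimensional K V] (h : Core L ω adj) (X : Module.End K V) :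
    X.dualMap = (A0_equiv h).conj (adj X) := by
  ext φ v
  obtain ⟨w, rfl⟩ := (A0_equiv h).surjective φ
  rw [LinearEquiv.conj_apply_apply, LinearEquiv.symm_apply_apply, LinearMap.dualMap_apply,
    A0_equiv_apply, A0_equiv_apply, h.spec]

theorem A0_trace [FiniteDimensional K V] (h : Core L ω adj) (X : Module.End K V) :
    LinearMap.trace K V (adj X) = LinearMap.trace K V X := by
  rw [← LinearMap.trace_conj' (adj X) (A0_equiv h), ← A0_conj h]
  exact LinearMap.trace_transpose' X

theorem A0_rank [FiniteDimensional K V] (h : Core L ω adj) (X : Module.End K V) :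
    finrank K (LinearMap.range (adj X)) = finrank K (LinearMap.range X) := by
  rw [← LinearMap.finrank_range_dualMap_eq_finrank_range X, A0_conj h]
  have e : LinearMap.range ((A0_equiv h).conj (adj X)) =
      (LinearMap.range (adj X)).map (A0_equiv h).toLinearMap := by
    rw [LinearEquiv.conj_apply, LinearMap.range_comp, LinearEquiv.range, Submodule.map_top,
      LinearMap.range_comp]
  rw [e]
  exact (LinearEquiv.finrank_map_eq (A0_equiv h) _).symm

end Pool.Agent.H49M
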