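import Pool.Agent.Lib.H49M.A2

/-!
# A4: existence of frames
-/

set_option autoImplicit false
set_option linter.unusedSectionVars false
namespace Pool.Agent.H49M
open Module Pool.Agent.H53Toric Polynomial

variable {K : Type*} [Field K] {V : Type*} [AddCommGroup V] [Module K V]

variable {L : Submodule K (Module.End K V)} {ω : V →ₗ[K] V →ₗ[K] K}
  {adj : Module.End K V →ₗ[K] Module.End K V}

theorem A4_ext_aux [IsAlgClosed K] [CharZero K] [FiniteDimensional K V] [Nontrivial V]
    {g : Submodule K (Module.End K V)} (hg : IsLie g) (hirr : Irr g)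
    (htr : ∀ X ∈ g, LinearMap.trace K V X = 0) (n : ℕ) :
    ∀ N ∈ g, N * N = 0 → finrank K (LinearMap.range N) = n → N ≠ 0 →
    ∃ N' ∈ g, N' * N' = 0 ∧ N' ≠ 0 ∧ finrank K (LinearMap.range N') ≤ n ∧
      ∀ X ∈ g, ∃ c : K, N' * X * N' = c • N' := by
  induction n using Nat.strong_induction_on with
  | _ n ih =>
  intro N hN hN2 hrk hN0
  obtain ⟨M, hM, hNMN⟩ := exists_partner hg hirr htr hN hN2
  have hee : (N * M) * (N * M) = N * M := by
    calc (N * M) * (N * M) = (N * M * N) * M := by noncomm_ring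
      _ = N * M := by rw [hNMN]
  have heJ : N * M ∈ JJ g N (N * M) := ⟨hee, hee, by rw [hNMN]; exact hN⟩
  have he0 : N * M ≠ 0 := by
    intro h
    rw [h, zero_mul] at hNMN
    exact hN0 hNMN.symm
  have hrkN : finrank K (LinearMap.range (N * M)) = n := by
    rw [← hrk]
    exact rank_eq_of_dvd (a := N * M) (b := N) rfl hNMN.symm
  by_cases hf : ∃ f ∈ JJ g N (N * M), f * f = f ∧ f ≠ 0 ∧ f ≠ N * M
  · obtain ⟨f, hfJ, hff, hf0, hfe⟩ := hf
    -- both parts
    have hpart : ∀ f ∈ JJ g N (N * M), f * f = f →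
        (f * N) * (f * N) = 0 ∧ (finrank K (LinearMap.range (f * N)) : K) =
          LinearMap.trace K V f := by
      intro f hfJ hff
      refine ⟨?_, ?_⟩
      · calc (f * N) * (f * N) = f * (N * f) * N := by noncomm_ring
          _ = 0 := by rw [JJ_N_mul hN2 hfJ, mul_zero, zero_mul]
      · rw [trace_idem hff]
        congr 1
        apply rank_eq_of_dvd (c := N) (d := M) rfl
        rw [mul_assoc, hfJ.2.1]
    have hf'J : N * M - f ∈ JJ g N (N * M) := (JJ g N (N * M)).sub_mem heJ hfJ
    have hff' : (N * M - f) * (N * M - f) = N * M - f := by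
      have : (N * M - f) * (N * M - f) = (N * M) * (N * M) - (N * M) * f - f * (N * M) + f * f := by
        noncomm_ring
      rw [this, hee, hfJ.1, hfJ.2.1, hff]
      abel
    obtain ⟨h1, h2⟩ := hpart f hfJ hff
    obtain ⟨h3, h4⟩ := hpart _ hf'J hff'
    have hsum : (finrank K (LinearMap.range (f * N)) : K) +
        (finrank K (LinearMap.range ((N * M - f) * N)) : K) = (n : K) := by
      rw [h2, h4, ← map_add, add_sub_cancel, trace_idem hee, hrkN]
    have hsum' : finrank K (LinearMap.range (f * N)) +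
        finrank K (LinearMap.range ((N * M - f) * N)) = n := by
      exact_mod_cast hsum
    have hne : ∀ f ∈ JJ g N (N * M), f ≠ 0 → 0 < finrank K (LinearMap.range (f * N)) := by
      intro f hfJ hf0
      rw [Nat.pos_iff_ne_zero]
      intro h
      have h0 := LinearMap.range_eq_bot.1 (Submodule.finrank_eq_zero.1 h)
      apply hf0
      rw [← hfJ.2.1, ← mul_assoc, h0, zero_mul]
    have hp1 := hne f hfJ hf0
    have hp2 := hne _ hf'J (by
      intro h
      exact hfe (sub_eq_zero.1 h).symm)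
    have hfN : f * N ≠ 0 := by
      intro h0
      rw [h0, LinearMap.range_zero, finrank_bot] at hp1
      exact lt_irrefl 0 hp1
    obtain ⟨N', a1, a2, a3, a4, a5⟩ := ih _ (by omega) _ hfJ.2.2 h1 rfl hfN
    exact ⟨N', a1, a2, a3, a4.trans (by omega), a5⟩
  · -- extremal case
    refine ⟨N, hN, hN2, hN0, hrk.le, ?_⟩
    have hall : ∀ a ∈ JJ g N (N * M), ∃ t : K, IsNilpotent (a - t • (N * M)) := by
      intro a ha
      -- an eigenvalue on the range of e
      let W : Submodule K V := LinearMap.range (N * M)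
      have hW : W ≠ ⊥ := by
        intro h
        exact he0 (LinearMap.range_eq_bot.1 h)
      have haW : ∀ x ∈ W, a x ∈ W := by
        intro x _
        refine ⟨a x, ?_⟩
        change (N * M * a) x = a x
        rw [ha.1]
      have : Nontrivial W := Submodule.nontrivial_iff_ne_bot.2 hW
      obtain ⟨t, ht⟩ := Module.End.exists_eigenvalue (a.restrict haW)
      obtain ⟨u, hu⟩ := ht.exists_hasEigenvector
      have hu1 : a u.1 = t • u.1 := by
        have := hu.apply_eq_smul
        exact congrArg Subtype.val this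
      have hu0 : u.1 ≠ 0 := by
        intro h
        exact hu.2 (Subtype.ext h)
      have heu : (N * M) u.1 = u.1 := by
        obtain ⟨v, hv⟩ := u.2
        rw [← hv]
        change (N * M * (N * M)) v = (N * M) v
        rw [hee]
      refine ⟨t, ?_⟩
      by_contra hnn
      have hb : a - t • (N * M) ∈ JJ g N (N * M) :=
        (JJ g N (N * M)).sub_mem ha ((JJ g N (N * M)).smul_mem t heJ)
      set b := a - t • (N * M) with hbdef
      have hbu : b u.1 = 0 := by
        rw [hbdef, LinearMap.sub_apply, LinearMap.smul_apply, heu, hu1, sub_self]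
      obtain ⟨p, k, hp1, hp2⟩ := fitting b
      apply hf
      refine ⟨aeval b (X * p), JJ_aeval hg hM hN2 hb p, hp1, ?_, ?_⟩
      · intro h
        apply hnn
        refine ⟨k, ?_⟩
        rw [← hp2, h, mul_zero]
      · intro h
        have h1 : (aeval b (X * p)) u.1 = 0 := by
          rw [mul_comm, map_mul, aeval_X]
          change (aeval b p) (b u.1) = 0
          rw [hbu, map_zero]
        rw [h, heu] at h1
        exact hu0 h1
    intro X hX
    obtain ⟨t, ht⟩ := JJ_scalar hirr htr hN0 hg hN hM hN2 hNMN hall _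
      (JJ_of_mem hg hN hN2 hNMN hX)
    refine ⟨t, ?_⟩
    calc N * X * N = N * X * (N * M * N) := by rw [hNMN]
      _ = (N * X * N * M) * N := by noncomm_ring
      _ = t • N := by rw [ht, smul_mul_assoc, hNMN]

/-- Chunk A4. Reduction to an extremal element, not increasing the rank. Copy the proof of
`exists_extremal` (H53Toric.Core2), dropping the parity: strong induction on the rank; in the
first case one of the two nonzero parts `f N`, `(e - f) N` has smaller rank (both ranks are
positive and add up to the rank of `N`). -/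
theorem A4_extremal [IsAlgClosed K] [CharZero K] [FiniteDimensional K V] [Nontrivial V]
    {g : Submodule K (Module.End K V)} (hg : IsLie g) (hirr : Irr g)
    (htr : ∀ X ∈ g, LinearMap.trace K V X = 0) {N : Module.End K V} (hN : N ∈ g)
    (hN2 : N * N = 0) (hN0 : N ≠ 0) :
    ∃ N' ∈ g, N' * N' = 0 ∧ N' ≠ 0 ∧
      finrank K (LinearMap.range N') ≤ finrank K (LinearMap.range N) ∧
      ∀ X ∈ g, ∃ c : K, N' * X * N' = c • N' := by
  exact A4_ext_aux hg hirr htr _ N hN hN2 rfl hN0

theorem A4_frame_aux [IsAlgClosed K] [CharZero K] [FiniteDimensional K V] [Nontrivial V]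
    {g : Submodule K (Module.End K V)}
    {adj : Module.End K V →ₗ[K] Module.End K V} (h : Setup g adj) {N : Module.End K V}
    (hN : N ∈ g) (hN2 : N * N = 0) (hN0 : N ≠ 0)
    (hext : ∀ X ∈ g, ∃ c : K, N * X * N = c • N) :
    ∃ y N' M : Module.End K V, y ∈ g ∧ y * y = 1 ∧ N' ∈ g ∧ M ∈ g ∧ y * N' = N' ∧ N' * y = -N' ∧
      y * M = -M ∧ M * y = M ∧ N' * N' = 0 ∧ M * M = 0 ∧ N' * M * N' = N' ∧ M * N' * M = M ∧
      finrank K (LinearMap.range N') = finrank K (LinearMap.range N) ∧
      (∀ X ∈ g, ∃ c : K, N' * X * N' = c • N') := by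
  -- an involution which does not commute with N
  have hy : ∃ y ∈ g, y * y = 1 ∧ ∃ c : K, c ≠ 0 ∧ N * y * N = c • N := by
    by_contra hcon
    push Not at hcon
    obtain ⟨X, hX, hNX⟩ := exists_partner h.lie h.irr h.tr hN hN2
    have key : ∀ X ∈ Submodule.span K {y | y ∈ g ∧ y * y = 1}, N * X * N = 0 := by
      intro X hX
      induction hX using Submodule.span_induction with
      | mem y hy =>
        obtain ⟨c, hc⟩ := hext y hy.1
        by_cases h0 : c = 0
        · rw [hc, h0, zero_smul]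
        · exact absurd hc (hcon y hy.1 hy.2 c h0)
      | zero => simp
      | add a b _ _ ha hb => rw [mul_add, add_mul, ha, hb, add_zero]
      | smul c a _ ha => rw [mul_smul_comm, smul_mul_assoc, ha, smul_zero]
    have := key X (h.span hX)
    rw [this] at hNX
    exact hN0 hNX.symm
  obtain ⟨y, hyg, hy2, c, hc0, hNy⟩ := hy
  set N₁ := (1 + y) * N * (1 - y) with hN₁
  have hN₁g : N₁ ∈ g := h.lie.plus hyg hy2 hN
  have hyN : y * N₁ = N₁ := by
    calc y * N₁ = (y + y * y) * N * (1 - y) := by rw [hN₁]; noncomm_ring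
      _ = N₁ := by rw [hy2, hN₁, add_comm]
  have hNy' : N₁ * y = -N₁ := by
    calc N₁ * y = (1 + y) * N * (y - y * y) := by rw [hN₁]; noncomm_ring
      _ = -N₁ := by rw [hy2, hN₁]; noncomm_ring
  have hN₁2 : N₁ * N₁ = 0 := by
    calc N₁ * N₁ = (1 + y) * N * (1 - y * y) * N * (1 - y) := by rw [hN₁]; noncomm_ring
      _ = 0 := by rw [hy2, sub_self, mul_zero, zero_mul, zero_mul]
  have hext₁ : ∀ X ∈ g, ∃ c : K, N₁ * X * N₁ = c • N₁ := by
    intro X hX
    obtain ⟨d, hd⟩ := hext _ (h.lie.minus hyg hy2 hX)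
    refine ⟨d, ?_⟩
    calc N₁ * X * N₁ = (1 + y) * (N * ((1 - y) * X * (1 + y)) * N) * (1 - y) := by
          rw [hN₁]; noncomm_ring
      _ = d • N₁ := by rw [hd, mul_smul_comm, smul_mul_assoc, hN₁]
  have hNNN : N * N₁ * N = (-(c * c)) • N := by
    calc N * N₁ * N = (N * N + N * y * N) * (N - y * N) := by rw [hN₁]; noncomm_ring
      _ = (c • N) * (N - y * N) := by rw [hN2, zero_add, hNy]
      _ = c • (N * N - N * y * N) := by rw [smul_mul_assoc]; congr 1; noncomm_ring
      _ = (-(c * c)) • N := by rw [hN2, hNy, zero_sub, smul_neg, smul_smul, neg_smul]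
  have hrk : finrank K (LinearMap.range N₁) = finrank K (LinearMap.range N) := by
    apply le_antisymm
    · calc finrank K (LinearMap.range N₁) ≤ finrank K (LinearMap.range ((1 + y) * N)) :=
            finrank_range_mul_le_left _ _
        _ ≤ _ := finrank_range_mul_le_right _ _
    · have e : N = N * N₁ * ((-(c * c))⁻¹ • N) := by
        rw [mul_smul_comm, hNNN, smul_smul, inv_mul_cancel₀, one_smul]
        exact neg_ne_zero.2 (mul_ne_zero hc0 hc0)
      calc finrank K (LinearMap.range N) = finrank K (LinearMap.range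
            (N * N₁ * ((-(c * c))⁻¹ • N))) := by rw [← e]
        _ ≤ finrank K (LinearMap.range (N * N₁)) := finrank_range_mul_le_left _ _
        _ ≤ _ := finrank_range_mul_le_right _ _
  obtain ⟨X, hX, hNX⟩ := exists_partner h.lie h.irr h.tr hN₁g hN₁2
  set M₁ := (1 / 4 : K) • ((1 - y) * X * (1 + y)) with hM₁
  have hM₁g : M₁ ∈ g := g.smul_mem _ (h.lie.minus hyg hy2 hX)
  have hyM : y * M₁ = -M₁ := by
    rw [hM₁, mul_smul_comm, ← smul_neg]
    congr 1
    calc y * ((1 - y) * X * (1 + y)) = (y - y * y) * X * (1 + y) := by noncomm_ring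
      _ = _ := by rw [hy2]; noncomm_ring
  have hMy : M₁ * y = M₁ := by
    rw [hM₁, smul_mul_assoc]
    congr 1
    calc (1 - y) * X * (1 + y) * y = (1 - y) * X * (y + y * y) := by noncomm_ring
      _ = _ := by rw [hy2, add_comm]
  have hM₁2 : M₁ * M₁ = 0 := by
    have h1 : M₁ * (y * M₁) = M₁ * M₁ := by rw [← mul_assoc, hMy]
    rw [hyM, mul_neg] at h1
    have h2 : (2 : K) • (M₁ * M₁) = 0 := by
      rw [two_smul]
      nth_rw 1 [← h1]
      simp
    exact (smul_eq_zero.1 h2).resolve_left (by norm_num)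
  have hNMN : N₁ * M₁ * N₁ = N₁ := by
    have h1 : N₁ * (1 - y) = (2 : K) • N₁ := by
      rw [mul_sub, hNy', mul_one, two_smul]; abel
    have h2 : (1 + y) * N₁ = (2 : K) • N₁ := by
      rw [add_mul, hyN, one_mul, two_smul]
    calc N₁ * M₁ * N₁ = (1 / 4 : K) • ((N₁ * (1 - y)) * X * ((1 + y) * N₁)) := by
          rw [hM₁, mul_smul_comm, smul_mul_assoc]; congr 1
      _ = N₁ := by
          rw [h1, h2, smul_mul_assoc, smul_mul_assoc, mul_smul_comm, smul_smul, smul_smul, hNX]
          norm_num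
  refine ⟨y, N₁, M₁ * N₁ * M₁, hyg, hy2, hN₁g, h.lie.sandwich hM₁g hM₁2 hN₁g, hyN, hNy',
    ?_, ?_, hN₁2, ?_, ?_, ?_, hrk, hext₁⟩
  · rw [← mul_assoc, ← mul_assoc, hyM]; noncomm_ring
  · rw [mul_assoc, hMy]
  · calc M₁ * N₁ * M₁ * (M₁ * N₁ * M₁) = M₁ * N₁ * (M₁ * M₁) * N₁ * M₁ := by noncomm_ring
      _ = 0 := by rw [hM₁2]; simp
  · calc N₁ * (M₁ * N₁ * M₁) * N₁ = (N₁ * M₁ * N₁) * M₁ * N₁ := by noncomm_ring
      _ = N₁ := by rw [hNMN, hNMN]
  · calc M₁ * N₁ * M₁ * N₁ * (M₁ * N₁ * M₁) = M₁ * ((N₁ * M₁ * N₁) * M₁ * N₁) * M₁ := by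
          noncomm_ring
      _ = _ := by rw [hNMN, hNMN]

/-- A frame with `rank e ≤ rank N`. Take `N'` from `A4_extremal` and copy the proof of
`exists_frame` (H53Toric.Core3), dropping the parity (there `Setup` is used: `A1_setup h hs hs2`);
it produces an involution `y ∈ L`, `N₁ = (1 + y) N' (1 - y)` of the same rank as `N'`, extremal, and
its partner. -/
theorem A4_frame [IsAlgClosed K] [CharZero K] [FiniteDimensional K V] [Nontrivial V]
    (h : Core L ω adj) {s : Module.End K V} (hs : s ∈ L) (hs2 : s * s = 1) {N : Module.End K V}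
    (hN : N ∈ L) (hN2 : N * N = 0) (hN0 : N ≠ 0) :
    ∃ s' e f : Module.End K V, Frame L s' e f ∧
      finrank K (LinearMap.range e) ≤ finrank K (LinearMap.range N) := by
  have hS := A1_setup h hs hs2
  obtain ⟨N', a1, a2, a3, a4, a5⟩ := A4_extremal h.lie h.irr hS.tr hN hN2 hN0
  obtain ⟨y, e, f, hy, hy2, he, hf, ye, ey, yf, fy, ee, ff, efe, fef, hrk, hext⟩ :=
    A4_frame_aux hS a1 a2 a3 a5
  have he0 : e ≠ 0 := by
    intro h0
    rw [h0, LinearMap.range_zero, finrank_bot] at hrk
    exact a3 (LinearMap.range_eq_bot.1 (Submodule.finrank_eq_zero.1 hrk.symm))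
  exact ⟨y, e, f, ⟨hy, hy2, ⟨he, ye, ey⟩, ⟨hf, yf, fy⟩, he0, efe, fef, hext⟩, hrk.le.trans a4⟩

end Pool.Agent.H49M
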