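import Pool.Agent.Lib.H49M.BDefs

/-!
# B1: elementary facts on rational forms
-/

set_option autoImplicit false
set_option linter.unusedSectionVars false
namespace Pool.Agent.H49M
open Module Matrix Polynomial Pool.Agent.H53Toric

variable {ι : Type*} [Fintype ι] [DecidableEq ι]

/-- Chunk B1a. The span of the brackets `X Y - Y X`, `X, Y ∈ g`, is an ideal `I` of `g`; if it
were zero, `g` would be commutative, hence also the algebra it generates, all matrices, which is
false for `2 ≤ card ι`. So `I = g`, and brackets have trace zero. -/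
theorem B1_span {g : Submodule ℚ (Matrix ι ι ℚ)} (hg : QForm g) (hι : 2 ≤ Fintype.card ι) :
    g ≤ Submodule.span ℚ {Z | ∃ X ∈ g, ∃ Y ∈ g, Z = X * Y - Y * X} := by
  set I := Submodule.span ℚ {Z | ∃ X ∈ g, ∃ Y ∈ g, Z = X * Y - Y * X} with hI
  have hIg : I ≤ g := by
    refine Submodule.span_le.2 ?_
    rintro _ ⟨X, hX, Y, hY, rfl⟩
    exact hg.lie X hX Y hY
  rcases hg.simple I hIg (fun X hX Y hY => Submodule.subset_span ⟨X, hX, Y, hIg hY, rfl⟩)
    with h0 | h0
  · exfalso
    have h1 : ∀ X ∈ g, ∀ Y ∈ g, X * Y = Y * X := by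
      intro X hX Y hY
      have h2 : X * Y - Y * X ∈ I := Submodule.subset_span ⟨X, hX, Y, hY, rfl⟩
      rw [h0, Submodule.mem_bot] at h2
      exact sub_eq_zero.1 h2
    have h2 : ∀ M : Matrix ι ι ℚ, ∀ Y ∈ g, Y * M = M * Y := by
      intro M Y hY
      have h3 : Algebra.adjoin ℚ (g : Set (Matrix ι ι ℚ)) ≤
          Subalgebra.centralizer ℚ (g : Set (Matrix ι ι ℚ)) := by
        refine Algebra.adjoin_le fun X hX => ?_
        rw [SetLike.mem_coe, Subalgebra.mem_centralizer_iff]
        exact fun Z hZ => h1 Z hZ X hX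
      rw [hg.full] at h3
      have h4 := h3 (x := M) trivial
      rw [Subalgebra.mem_centralizer_iff] at h4
      exact h4 Y hY
    have h3 : ∀ M N : Matrix ι ι ℚ, M * N = N * M := by
      intro M N
      have h4 : Algebra.adjoin ℚ (g : Set (Matrix ι ι ℚ)) ≤
          Subalgebra.centralizer ℚ (Set.univ : Set (Matrix ι ι ℚ)) := by
        refine Algebra.adjoin_le fun X hX => ?_
        rw [SetLike.mem_coe, Subalgebra.mem_centralizer_iff]
        exact fun Z _ => (h2 Z X hX).symm
      rw [hg.full] at h4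
      have h5 := h4 (x := N) trivial
      rw [Subalgebra.mem_centralizer_iff] at h5
      exact h5 M trivial
    obtain ⟨i, j, hij⟩ := Fintype.exists_pair_of_one_lt_card (by omega : 1 < Fintype.card ι)
    have h4 := congrFun (congrFun (h3 (Matrix.single i j 1) (Matrix.single j i 1)) i) i
    rw [Matrix.single_mul_single_same, Matrix.single_mul_single_same,
      Matrix.single_apply_same, Matrix.single_apply_of_ne _ _ _ _ _ (fun h => hij h.1.symm)] at h4
    norm_num at h4
  · exact h0.ge

theorem B1_trace {g : Submodule ℚ (Matrix ι ι ℚ)} (hg : QForm g) (hι : 2 ≤ Fintype.card ι)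
    {X : Matrix ι ι ℚ} (hX : X ∈ g) : X.trace = 0 := by
  have h1 := B1_span hg hι hX
  clear hX
  induction h1 using Submodule.span_induction with
  | mem Z hZ =>
    obtain ⟨X, _, Y, _, rfl⟩ := hZ
    rw [Matrix.trace_sub, Matrix.trace_mul_comm, sub_self]
  | zero => simp
  | add a b _ _ ha hb => rw [Matrix.trace_add, ha, hb, add_zero]
  | smul c a _ ha => rw [Matrix.trace_smul, ha, smul_zero]

variable {K : Type*} [Field K] [Algebra ℚ K]

theorem B1_mem {g : Submodule ℚ (Matrix ι ι ℚ)} {X : Matrix ι ι ℚ} (hX : X ∈ g) :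
    X.map (algebraMap ℚ K) ∈ ext K g :=
  Submodule.subset_span ⟨X, hX, rfl⟩

theorem B1_traceK {g : Submodule ℚ (Matrix ι ι ℚ)} (hg : QForm g) (hι : 2 ≤ Fintype.card ι)
    {X : Matrix ι ι K} (hX : X ∈ ext K g) : X.trace = 0 := by
  rw [ext] at hX
  induction hX using Submodule.span_induction with
  | mem Z hZ =>
    obtain ⟨Y, hY, rfl⟩ := hZ
    have h1 := AddMonoidHom.map_trace (algebraMap ℚ K).toAddMonoidHom Y
    rw [B1_trace hg hι hY, map_zero] at h1
    exact h1.symm
  | zero => simp
  | add a b _ _ ha hb => rw [Matrix.trace_add, ha, hb, add_zero]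
  | smul c a _ ha => rw [Matrix.trace_smul, ha, smul_zero]

theorem B1_map_lie (X Y : Matrix ι ι ℚ) : (X * Y - Y * X).map (algebraMap ℚ K) =
    X.map (algebraMap ℚ K) * Y.map (algebraMap ℚ K) -
      Y.map (algebraMap ℚ K) * X.map (algebraMap ℚ K) := by
  rw [Matrix.map_sub _ (map_sub _), Matrix.map_mul, Matrix.map_mul]

theorem B1_lieK {g : Submodule ℚ (Matrix ι ι ℚ)} (hg : QForm g) {X Y : Matrix ι ι K}
    (hX : X ∈ ext K g) (hY : Y ∈ ext K g) : X * Y - Y * X ∈ ext K g := by
  rw [ext] at hX
  induction hX using Submodule.span_induction with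
  | mem Z hZ =>
    obtain ⟨X, hX, rfl⟩ := hZ
    rw [ext] at hY
    induction hY using Submodule.span_induction with
    | mem Z hZ =>
      obtain ⟨Y, hY, rfl⟩ := hZ
      rw [← B1_map_lie]
      exact B1_mem (hg.lie X hX Y hY)
    | zero => simp
    | add a b _ _ ha hb =>
      have e : X.map (algebraMap ℚ K) * (a + b) - (a + b) * X.map (algebraMap ℚ K) =
          (X.map (algebraMap ℚ K) * a - a * X.map (algebraMap ℚ K)) +
          (X.map (algebraMap ℚ K) * b - b * X.map (algebraMap ℚ K)) := by noncomm_ring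
      rw [e]
      exact (ext K g).add_mem ha hb
    | smul c a _ ha =>
      rw [mul_smul_comm, smul_mul_assoc, ← smul_sub]
      exact (ext K g).smul_mem c ha
  | zero => simp
  | add a b _ _ ha hb =>
    have e : (a + b) * Y - Y * (a + b) = (a * Y - Y * a) + (b * Y - Y * b) := by noncomm_ring
    rw [e]
    exact (ext K g).add_mem ha hb
  | smul c a _ ha =>
    rw [mul_smul_comm, smul_mul_assoc, ← smul_sub]
    exact (ext K g).smul_mem c ha

/-- Chunk B1b. The algebra generated by `ext K g` contains all rational matrices (map `full`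
through `Matrix.map`), in particular the matrix units, so it is everything. -/
theorem B1_fullK {g : Submodule ℚ (Matrix ι ι ℚ)} (hg : QForm g) :
    Algebra.adjoin K (ext K g : Set (Matrix ι ι K)) = ⊤ := by
  set A := Algebra.adjoin K (ext K g : Set (Matrix ι ι K)) with hA
  have h1 : ∀ M : Matrix ι ι ℚ, M.map (algebraMap ℚ K) ∈ A := by
    intro M
    have h2 : Algebra.adjoin ℚ (g : Set (Matrix ι ι ℚ)) ≤
        (A.restrictScalars ℚ).comap ((Algebra.ofId ℚ K).mapMatrix : Matrix ι ι ℚ →ₐ[ℚ] _) := by
      refine Algebra.adjoin_le fun X hX => ?_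
      exact Algebra.subset_adjoin (B1_mem hX)
    rw [hg.full] at h2
    exact h2 (x := M) trivial
  rw [eq_top_iff]
  intro M _
  rw [Matrix.matrix_eq_sum_single M]
  refine A.sum_mem fun i _ => A.sum_mem fun j _ => ?_
  have h2 : Matrix.single i j (M i j) = M i j • (Matrix.single i j (1 : ℚ)).map (algebraMap ℚ K) := by
    rw [Matrix.map_single, map_one, Matrix.smul_single, smul_eq_mul, mul_one]
  rw [h2]
  exact A.smul_mem (h1 _) _

theorem B1_irrK {g : Submodule ℚ (Matrix ι ι ℚ)} (hg : QForm g) (W : Submodule K (ι → K))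
    (hW : ∀ X ∈ ext K g, ∀ w ∈ W, X *ᵥ w ∈ W) : W = ⊥ ∨ W = ⊤ := by
  have hall : ∀ M : Matrix ι ι K, ∀ w ∈ W, M *ᵥ w ∈ W := by
    intro M
    have h1 : M ∈ Algebra.adjoin K (ext K g : Set (Matrix ι ι K)) := by
      rw [B1_fullK hg]; trivial
    induction h1 using Algebra.adjoin_induction with
    | mem X hX => exact hW X hX
    | algebraMap r =>
      intro w hw
      rw [Algebra.algebraMap_eq_smul_one, Matrix.smul_mulVec, Matrix.one_mulVec]
      exact W.smul_mem r hw
    | add a b _ _ ha hb =>
      intro w hw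
      rw [Matrix.add_mulVec]
      exact W.add_mem (ha w hw) (hb w hw)
    | mul a b _ _ ha hb =>
      intro w hw
      rw [← Matrix.mulVec_mulVec]
      exact ha _ (hb w hw)
  by_cases h0 : W = ⊥
  · exact Or.inl h0
  right
  obtain ⟨w, hw, hw0⟩ := Submodule.exists_mem_ne_zero_of_ne_bot h0
  obtain ⟨j, hj⟩ : ∃ j, w j ≠ 0 := by
    by_contra hcon
    push Not at hcon
    exact hw0 (funext hcon)
  rw [eq_top_iff]
  intro v _
  have h1 : (Matrix.of fun i k => if k = j then v i / w j else 0) *ᵥ w = v := by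
    ext i
    simp only [Matrix.mulVec, dotProduct, Matrix.of_apply, ite_mul, zero_mul,
      Finset.sum_ite_eq', Finset.mem_univ, if_true]
    exact div_mul_cancel₀ _ hj
  rw [← h1]
  exact hall _ w hw

theorem B1_bc (T : Matrix ι ι ℚ →ₗ[ℚ] Matrix ι ι ℚ) (X : Matrix ι ι ℚ) :
    bc K T (X.map (algebraMap ℚ K)) = (T X).map (algebraMap ℚ K) := by
  have h1 : X = ∑ i, ∑ j, X i j • Matrix.single i j (1 : ℚ) := by
    nth_rw 1 [Matrix.matrix_eq_sum_single X]
    refine Finset.sum_congr rfl fun i _ => Finset.sum_congr rfl fun j _ => ?_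
    rw [Matrix.smul_single, smul_eq_mul, mul_one]
  have h2 : T X = ∑ i, ∑ j, X i j • T (Matrix.single i j (1 : ℚ)) := by
    nth_rw 1 [h1]
    rw [map_sum]
    refine Finset.sum_congr rfl fun i _ => ?_
    rw [map_sum]
    refine Finset.sum_congr rfl fun j _ => ?_
    rw [map_smul]
  rw [h2]
  change ∑ i, ∑ j, _ = _
  ext a b
  rw [Matrix.map_apply, Matrix.sum_apply, Matrix.sum_apply, map_sum]
  refine Finset.sum_congr rfl fun i _ => ?_
  rw [Matrix.sum_apply, Matrix.sum_apply, map_sum]
  refine Finset.sum_congr rfl fun j _ => ?_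
  rw [Matrix.smul_apply, Matrix.smul_apply, Matrix.map_apply, Matrix.map_apply, smul_eq_mul,
    smul_eq_mul, map_mul]

theorem B1_cent {g : Submodule ℚ (Matrix ι ι ℚ)} {T : Matrix ι ι ℚ →ₗ[ℚ] Matrix ι ι ℚ}
    (hT : Cent g T) : Cent (ext K g) (bc K T) := by
  constructor
  · intro X hX
    rw [ext] at hX
    induction hX using Submodule.span_induction with
    | mem Z hZ =>
      obtain ⟨X, hX, rfl⟩ := hZ
      rw [B1_bc]
      exact B1_mem (hT.maps X hX)
    | zero => simp
    | add a b _ _ ha hb =>
      rw [map_add]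
      exact (ext K g).add_mem ha hb
    | smul c a _ ha =>
      rw [map_smul]
      exact (ext K g).smul_mem c ha
  · intro X hX Y hY
    rw [ext] at hX
    induction hX using Submodule.span_induction with
    | mem Z hZ =>
      obtain ⟨X, hX, rfl⟩ := hZ
      rw [ext] at hY
      induction hY using Submodule.span_induction with
      | mem Z hZ =>
        obtain ⟨Y, hY, rfl⟩ := hZ
        rw [← B1_map_lie, B1_bc, B1_bc, hT.comm X hX Y hY, Matrix.map_sub _ (map_sub _),
          Matrix.map_mul, Matrix.map_mul]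
      | zero => simp
      | add a b _ _ ha hb =>
        have e : X.map (algebraMap ℚ K) * (a + b) - (a + b) * X.map (algebraMap ℚ K) =
            (X.map (algebraMap ℚ K) * a - a * X.map (algebraMap ℚ K)) +
            (X.map (algebraMap ℚ K) * b - b * X.map (algebraMap ℚ K)) := by noncomm_ring
        rw [e, map_add, ha, hb, map_add]
        noncomm_ring
      | smul c a _ ha =>
        rw [mul_smul_comm, smul_mul_assoc, ← smul_sub, map_smul, ha, map_smul, mul_smul_comm,
          smul_mul_assoc, smul_sub]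
    | zero => simp
    | add a b _ _ ha hb =>
      have e : (a + b) * Y - Y * (a + b) = (a * Y - Y * a) + (b * Y - Y * b) := by noncomm_ring
      rw [e, map_add, ha, hb]
      noncomm_ring
    | smul c a _ ha =>
      rw [mul_smul_comm, smul_mul_assoc, ← smul_sub, map_smul, ha, mul_smul_comm,
        smul_mul_assoc, smul_sub]

/-- `aeval (bc K T) f` for `f` rational is `bc K (aeval T f)`; on `ext K g` it vanishes if
`aeval T f` vanishes on `g`. -/
theorem B1_aeval {g : Submodule ℚ (Matrix ι ι ℚ)} {T : Matrix ι ι ℚ →ₗ[ℚ] Matrix ι ι ℚ}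
    {f : ℚ[X]} (hf : ∀ X ∈ g, (aeval T f) X = 0) {X : Matrix ι ι K} (hX : X ∈ ext K g) :
    (aeval (bc K T) (f.map (algebraMap ℚ K))) X = 0 := by
  have key : ∀ (p : ℚ[X]) (Y : Matrix ι ι ℚ),
      (aeval (bc K T) (p.map (algebraMap ℚ K))) (Y.map (algebraMap ℚ K)) =
        ((aeval T p) Y).map (algebraMap ℚ K) := by
    intro p
    induction p using Polynomial.induction_on' with
    | add p q hp hq =>
      intro Y
      rw [Polynomial.map_add, map_add, map_add, LinearMap.add_apply, LinearMap.add_apply, hp, hq,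
        Matrix.map_add _ (map_add _)]
    | monomial n c =>
      intro Y
      rw [Polynomial.map_monomial, aeval_monomial, aeval_monomial]
      have h1 : ∀ Z : Matrix ι ι ℚ, ((bc K T) ^ n) (Z.map (algebraMap ℚ K)) =
          ((T ^ n) Z).map (algebraMap ℚ K) := by
        intro Z
        induction n generalizing Z with
        | zero => rfl
        | succ n ih =>
          rw [pow_succ, pow_succ, Module.End.mul_apply, Module.End.mul_apply, B1_bc, ih]
      rw [Module.End.mul_apply, Module.End.mul_apply, h1, Module.algebraMap_end_apply,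
        Module.algebraMap_end_apply]
      ext i j
      rw [Matrix.smul_apply, Matrix.map_apply, Matrix.map_apply, Matrix.smul_apply, smul_eq_mul,
        smul_eq_mul, map_mul]
  rw [ext] at hX
  induction hX using Submodule.span_induction with
  | mem Z hZ =>
    obtain ⟨Y, hY, rfl⟩ := hZ
    rw [key, hf Y hY]
    ext i j
    simp
  | zero => simp
  | add a b _ _ ha hb => rw [map_add, ha, hb, add_zero]
  | smul c a _ ha => rw [map_smul, ha, smul_zero]

end Pool.Agent.H49M
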