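import Pool.Agent.Lib.H49M.C0
import Pool.Agent.Lib.H49M.B1

/-!
# B10: an alternating form over the rationals
-/

set_option autoImplicit false
set_option linter.unusedSectionVars false
namespace Pool.Agent.H49M
open Module Matrix Polynomial Pool.Agent.H53Toric

variable {ι : Type*} [Fintype ι] [DecidableEq ι]

/-- A nonzero rational skew matrix for which `g` is skew is invertible. -/
theorem B10_det {g : Submodule ℚ (Matrix ι ι ℚ)} (hg : QForm g) {J : Matrix ι ι ℚ} (hJ0 : J ≠ 0)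
    (hskew : ∀ X ∈ g, Xᵀ * J + J * X = 0) : J.det ≠ 0 := by
  have hall : ∀ X ∈ ext ℚ g, Xᵀ * J + J * X = 0 := by
    intro X hX
    rw [ext] at hX
    induction hX using Submodule.span_induction with
    | mem Z hZ =>
      obtain ⟨Y, hY, rfl⟩ := hZ
      have : Y.map (algebraMap ℚ ℚ) = Y := by
        ext i j
        simp
      rw [this]
      exact hskew Y hY
    | zero => simp
    | add a b _ _ ha hb =>
      have : (a + b)ᵀ * J + J * (a + b) = (aᵀ * J + J * a) + (bᵀ * J + J * b) := by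
        rw [Matrix.transpose_add, add_mul, mul_add]; abel
      rw [this, ha, hb, add_zero]
    | smul c a _ ha =>
      rw [Matrix.transpose_smul, smul_mul_assoc, mul_smul_comm, ← smul_add, ha, smul_zero]
  rcases B1_irrK (K := ℚ) hg (LinearMap.ker (Matrix.toLin' J)) (by
    intro X hX w hw
    rw [LinearMap.mem_ker, Matrix.toLin'_apply] at hw ⊢
    have h1 : J * X = -(Xᵀ * J) := eq_neg_of_add_eq_zero_right (hall X hX)
    rw [Matrix.mulVec_mulVec, h1, Matrix.neg_mulVec, ← Matrix.mulVec_mulVec, hw,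
      Matrix.mulVec_zero, neg_zero]) with h1 | h1
  · intro h0
    obtain ⟨v, hv, hv0⟩ := Matrix.exists_mulVec_eq_zero_iff.2 h0
    apply hv
    have h2 : v ∈ LinearMap.ker (Matrix.toLin' J) := by
      rw [LinearMap.mem_ker, Matrix.toLin'_apply, hv0]
    rw [h1, Submodule.mem_bot] at h2
    exact h2
  · exfalso
    apply hJ0
    have h2 := LinearMap.ker_eq_top.1 h1
    exact (map_eq_zero_iff _ (Matrix.toLin' (R := ℚ) (m := ι) (n := ι)).injective).1 h2

/-- Chunk B10. The rational form preserves a rational nondegenerate alternating form. Over `K` the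
matrix `B = pᵀ ψ p` (`p = P.map`) satisfies `Bᵀ = - B` and `Xᵀ B + B X = 0` for `X ∈ g`
(`p X p' ∈ zlie`, `C0_sim` gives a scalar, zero by the trace). A `ℚ`-linear functional `φ : K → ℚ` with
`φ (B i j) ≠ 0` for some entry gives the rational matrix `B.map φ`. -/
theorem B10_form {K : Type*} [Field K] [CharZero K] {L : Type*} [Field L]
    [CharZero L] [Algebra L K] {ψ : Matrix ι ι ℚ} (hψ : ψᵀ = -ψ) (hψ0 : ψ.det ≠ 0)
    (hι : 2 ≤ Fintype.card ι) {G : Type*} [Group G] (ρ : G →* Matrix.GeneralLinearGroup ι L)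
    (sim : ∀ σ : G, ∃ c : L, (ρ σ).1ᵀ * ψ.map (algebraMap ℚ L) * (ρ σ).1 =
      c • ψ.map (algebraMap ℚ L))
    {g : Submodule ℚ (Matrix ι ι ℚ)} (hg : QForm g) (hform : HasForm K ρ g) :
    ∃ J : Matrix ι ι ℚ, Jᵀ = -J ∧ J.det ≠ 0 ∧ ∀ X ∈ g, Xᵀ * J + J * X = 0 := by
  obtain ⟨hJ, hdet, hJ0, hsimH⟩ := C0_setup (K := K) hψ hψ0 ρ sim
  obtain ⟨J, hJdef⟩ : ∃ J, J = ψ.map (algebraMap ℚ K) := ⟨_, rfl⟩
  rw [← hJdef] at hJ hdet
  simp only [← hJdef] at hJ0 hsimH
  have hne : Nonempty ι := Fintype.card_pos_iff.1 (by omega)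
  obtain ⟨k, l, hkl⟩ := hJ0 hne
  have hsim := hsimH ⊤
  obtain ⟨P, hP⟩ := hform
  set p := P.1.map (algebraMap L K) with hp
  set p' := (P⁻¹).1.map (algebraMap L K) with hp'
  have hpp : p' * p = 1 := by
    rw [hp, hp', ← Matrix.map_mul, ← Units.val_mul, inv_mul_cancel]
    simp
  have hpp' : p * p' = 1 := mul_eq_one_comm.1 hpp
  have htrc : ∀ Y : Matrix ι ι K, (p * Y * p').trace = Y.trace := by
    intro Y
    rw [Matrix.trace_mul_comm, ← mul_assoc, hpp, one_mul]
  have hcard0 : ((Fintype.card ι : ℕ) : K) ≠ 0 := Nat.cast_ne_zero.2 Fintype.card_ne_zero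
  have hzl : ∀ Y ∈ ext K g, p * Y * p' ∈ zlie (img K ρ ⊤) := fun Y hY =>
    (hP _).2 ⟨0, Y, hY, by rw [zero_smul, zero_add]⟩
  obtain ⟨B, hB⟩ : ∃ B, B = pᵀ * J * p := ⟨_, rfl⟩
  have hBT : Bᵀ = -B := by
    rw [hB, Matrix.transpose_mul, Matrix.transpose_mul, Matrix.transpose_transpose, hJ]
    simp only [neg_mul, mul_neg, mul_assoc]
  have hpT : pᵀ * p'ᵀ = 1 := by
    rw [← Matrix.transpose_mul, hpp, Matrix.transpose_one]
  have hBs : ∀ Y ∈ ext K g, Yᵀ * B + B * Y = 0 := by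
    intro Y hY
    obtain ⟨c, hc⟩ := C0_sim hkl (img_one ρ ⊤) hsim (hzl Y hY)
    have h2 := C0_trace hdet hc
    rw [htrc, B1_traceK hg hι hY, mul_zero] at h2
    rw [(mul_eq_zero.1 h2.symm).resolve_right hcard0, zero_smul] at hc
    have h3 := congrArg (fun X => pᵀ * X * p) hc
    simp only [mul_zero, zero_mul] at h3
    rw [hB, ← h3, Matrix.transpose_mul, Matrix.transpose_mul]
    have e1 : pᵀ * (p'ᵀ * (Yᵀ * pᵀ) * J + J * (p * Y * p')) * p =
        (pᵀ * p'ᵀ) * Yᵀ * (pᵀ * J * p) + (pᵀ * J * p) * Y * (p' * p) := by noncomm_ring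
    rw [e1, hpT, hpp, one_mul, mul_one]
  have hB0 : ∃ i j, B i j ≠ 0 := by
    by_contra hcon
    push Not at hcon
    have hBz : B = 0 := by
      ext i j
      exact hcon i j
    have hp'T : p'ᵀ * pᵀ = 1 := mul_eq_one_comm.1 hpT
    have h1 : p'ᵀ * B * p' = J := by
      rw [hB]
      calc p'ᵀ * (pᵀ * J * p) * p' = (p'ᵀ * pᵀ) * J * (p * p') := by noncomm_ring
        _ = J := by rw [hp'T, hpp', one_mul, mul_one]
    rw [hBz, mul_zero, zero_mul] at h1
    exact hkl (by rw [← h1]; rfl)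
  obtain ⟨i₀, j₀, hij⟩ := hB0
  obtain ⟨φ, hφ⟩ := Module.Projective.exists_dual_ne_zero ℚ hij
  have hs : ∀ X ∈ g, Xᵀ * (B.map φ) + (B.map φ) * X = 0 := by
    intro X hX
    have h1 := hBs _ (B1_mem (K := K) hX)
    ext i j
    have h2 := congrArg φ (congrFun (congrFun h1 i) j)
    simp only [Matrix.add_apply, Matrix.mul_apply, Matrix.transpose_apply, Matrix.map_apply,
      Matrix.zero_apply, map_add, map_sum, map_zero] at h2 ⊢
    rw [← h2]
    congr 1
    · refine Finset.sum_congr rfl fun a _ => ?_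
      rw [← Algebra.smul_def, map_smul, smul_eq_mul]
    · refine Finset.sum_congr rfl fun a _ => ?_
      rw [mul_comm (B i a), ← Algebra.smul_def, map_smul, smul_eq_mul, mul_comm]
  refine ⟨B.map φ, ?_, B10_det hg ?_ hs, hs⟩
  · ext i j
    have h1 := congrArg φ (congrFun (congrFun hBT i) j)
    rw [Matrix.transpose_apply, Matrix.neg_apply, map_neg] at h1
    exact h1
  · intro h0
    apply hφ
    exact congrFun (congrFun h0 i₀) j₀

end Pool.Agent.H49M
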