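import Pool.Agent.Lib.H49M.B1
import Pool.Agent.Lib.H53Toric.Core1

/-!
# B3: a rational form with trivial centroid is absolutely simple
-/

set_option autoImplicit false
set_option linter.unusedSectionVars false
namespace Pool.Agent.H49M
open Module Matrix Polynomial Pool.Agent.H53Toric

variable {ι : Type*} [Fintype ι] [DecidableEq ι]

theorem B3a_map {K : Type*} [Field K] [CharZero K] {g : Submodule ℚ (Matrix ι ι ℚ)}
    {Z : Matrix ι ι K} (hZ : Z ∈ ext K g) : ∀ κ : K →ₗ[ℚ] ℚ, Z.map κ ∈ g := by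
  rw [ext] at hZ
  induction hZ using Submodule.span_induction with
  | mem Z hZ =>
    obtain ⟨Y, hY, rfl⟩ := hZ
    intro κ
    have e : (Y.map (algebraMap ℚ K)).map κ = κ 1 • Y := by
      ext i j
      rw [Matrix.map_apply, Matrix.map_apply, Matrix.smul_apply, Algebra.algebraMap_eq_smul_one,
        map_smul, smul_eq_mul, smul_eq_mul, mul_comm]
    rw [e]
    exact g.smul_mem _ hY
  | zero =>
    intro κ
    have e : (0 : Matrix ι ι K).map κ = 0 := by
      ext i j
      simp
    rw [e]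
    exact g.zero_mem
  | add a b _ _ ha hb =>
    intro κ
    rw [Matrix.map_add _ (map_add κ)]
    exact g.add_mem (ha κ) (hb κ)
  | smul c a _ ha =>
    intro κ
    have e : (c • a).map κ = a.map (κ ∘ₗ (LinearMap.mulLeft ℚ c)) := by
      ext i j
      rfl
    rw [e]
    exact ha _

theorem B3a_mul_right {K : Type*} [Field K] [CharZero K] (κ : K →ₗ[ℚ] ℚ) (Z : Matrix ι ι K)
    (Y : Matrix ι ι ℚ) : (Z * Y.map (algebraMap ℚ K)).map κ = Z.map κ * Y := by
  ext i j
  rw [Matrix.map_apply, Matrix.mul_apply, Matrix.mul_apply, map_sum]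
  refine Finset.sum_congr rfl fun k _ => ?_
  rw [Matrix.map_apply, Matrix.map_apply, mul_comm, ← Algebra.smul_def, map_smul, smul_eq_mul,
    mul_comm]

theorem B3a_mul_left {K : Type*} [Field K] [CharZero K] (κ : K →ₗ[ℚ] ℚ) (Z : Matrix ι ι K)
    (Y : Matrix ι ι ℚ) : (Y.map (algebraMap ℚ K) * Z).map κ = Y * Z.map κ := by
  ext i j
  rw [Matrix.map_apply, Matrix.mul_apply, Matrix.mul_apply, map_sum]
  refine Finset.sum_congr rfl fun k _ => ?_
  rw [Matrix.map_apply, Matrix.map_apply, ← Algebra.smul_def, map_smul, smul_eq_mul]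

/-- Chunk B3a. A map `S` on `ext K g` commuting with `ad` is a scalar if the centroid of `g` is
trivial. For every `ℚ`-linear `κ : K → ℚ` the map `T_κ` which applies `κ` to the entries of
`S (X.map)` satisfies: it maps `g` to `g` (`κ (a Y) = κ(a) Y` entrywise for `Y ∈ g`), commutes
with `ad`, so there is `c_κ ∈ ℚ` with `κ (S (X)_ij) = c_κ X_ij` for all `X ∈ g`. If
`X₀ ∈ g` has a nonzero entry `(k, l)` put `t = S (X₀)_kl / (X₀)_kl ∈ K`; then `κ t = c_κ`
for all `κ` (`κ(S(X₀)_kl) = c_κ (X₀)_kl` and `κ` is `ℚ`-linear), so `κ (S (X)_ij - t X_ij) = 0`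
for all `κ`, and `S X = t X` on `g` (linear forms on the `ℚ`-space `K` separate points), hence on
`ext K g`. -/
theorem B3_scalar {K : Type*} [Field K] [CharZero K] {g : Submodule ℚ (Matrix ι ι ℚ)}
    (hc : TrivCent g) {S : Matrix ι ι K →ₗ[K] Matrix ι ι K} (hS : Cent (ext K g) S) :
    ∃ t : K, ∀ X ∈ ext K g, S X = t • X := by
  have key : ∀ κ : K →ₗ[ℚ] ℚ, ∃ c : ℚ, ∀ X ∈ g, (S (X.map (algebraMap ℚ K))).map κ = c • X := by
    intro κ
    let T : Matrix ι ι ℚ →ₗ[ℚ] Matrix ι ι ℚ :=
      { toFun := fun X => (S (X.map (algebraMap ℚ K))).map κ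
        map_add' := by
          intro a b
          rw [Matrix.map_add _ (map_add _), map_add, Matrix.map_add _ (map_add κ)]
        map_smul' := by
          intro c a
          have e : (c • a).map (algebraMap ℚ K) = (algebraMap ℚ K c) • a.map (algebraMap ℚ K) := by
            ext i j
            rw [Matrix.map_apply, Matrix.smul_apply, Matrix.smul_apply, Matrix.map_apply,
              smul_eq_mul, smul_eq_mul, map_mul]
          rw [e, map_smul]
          ext i j
          rw [Matrix.map_apply, Matrix.smul_apply, smul_eq_mul, ← Algebra.smul_def, map_smul]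
          rfl }
    have hT : ∀ X, T X = (S (X.map (algebraMap ℚ K))).map κ := fun _ => rfl
    have hCent : Cent g T := by
      constructor
      · intro X hX
        rw [hT]
        exact B3a_map (hS.maps _ (B1_mem hX)) κ
      · intro X hX Y hY
        rw [hT, hT, B1_map_lie, hS.comm _ (B1_mem hX) _ (B1_mem hY), Matrix.map_sub _ (map_sub κ),
          B3a_mul_left, B3a_mul_right]
    exact hc T hCent
  by_cases hg : ∃ X₀ ∈ g, X₀ ≠ 0
  · obtain ⟨X₀, hX₀, hne⟩ := hg
    obtain ⟨k, l, hkl⟩ : ∃ k l, X₀ k l ≠ 0 := by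
      by_contra hcon
      push Not at hcon
      exact hne (Matrix.ext hcon)
    have hkl' : (algebraMap ℚ K (X₀ k l)) ≠ 0 := by
      rw [_root_.map_ne_zero]; exact hkl
    set t : K := S (X₀.map (algebraMap ℚ K)) k l / algebraMap ℚ K (X₀ k l) with ht
    have h1 : S (X₀.map (algebraMap ℚ K)) k l = (X₀ k l) • t := by
      rw [Algebra.smul_def, ht, mul_div_cancel₀ _ hkl']
    have h2 : ∀ κ : K →ₗ[ℚ] ℚ, ∀ X ∈ g, (S (X.map (algebraMap ℚ K))).map κ = κ t • X := by
      intro κ X hX
      obtain ⟨c, hc'⟩ := key κ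
      have h3 := congrFun (congrFun (hc' X₀ hX₀) k) l
      rw [Matrix.map_apply, h1, map_smul, Matrix.smul_apply, smul_eq_mul, smul_eq_mul,
        mul_comm c] at h3
      rw [hc' X hX, mul_left_cancel₀ hkl h3]
    have h3 : ∀ X ∈ g, S (X.map (algebraMap ℚ K)) = t • X.map (algebraMap ℚ K) := by
      intro X hX
      ext i j
      rw [← sub_eq_zero]
      refine (Module.forall_dual_apply_eq_zero_iff ℚ _).1 fun κ => ?_
      have h4 := congrFun (congrFun (h2 κ X hX) i) j
      rw [Matrix.map_apply, Matrix.smul_apply, smul_eq_mul] at h4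
      rw [map_sub, h4, Matrix.smul_apply, Matrix.map_apply, smul_eq_mul, mul_comm t,
        ← Algebra.smul_def, map_smul, smul_eq_mul, mul_comm, sub_self]
    refine ⟨t, fun X hX => ?_⟩
    rw [ext] at hX
    induction hX using Submodule.span_induction with
    | mem Z hZ =>
      obtain ⟨Y, hY, rfl⟩ := hZ
      exact h3 Y hY
    | zero => simp
    | add a b _ _ ha hb => rw [map_add, ha, hb, smul_add]
    | smul c a _ ha => rw [map_smul, ha, smul_comm]
  · push Not at hg
    refine ⟨0, fun X hX => ?_⟩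
    rw [ext] at hX
    induction hX using Submodule.span_induction with
    | mem Z hZ =>
      obtain ⟨Y, hY, rfl⟩ := hZ
      rw [hg Y hY]
      have e : (0 : Matrix ι ι ℚ).map (algebraMap ℚ K) = 0 := by
        ext i j
        simp
      rw [e]
      simp
    | zero => simp
    | add a b _ _ ha hb => rw [map_add, ha, hb, smul_add]
    | smul c a _ ha => rw [map_smul, ha, smul_comm]

/-- Translation to operators. -/
theorem B3b_ops {K : Type*} [Field K] [CharZero K]
    {g : Submodule ℚ (Matrix ι ι ℚ)} (hg : QForm g) (hι : 2 ≤ Fintype.card ι) :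
    IsLie ((ext K g).map (Matrix.toLinAlgEquiv' (n := ι) (R := K)).toLinearMap) ∧
    Irr ((ext K g).map (Matrix.toLinAlgEquiv' (n := ι) (R := K)).toLinearMap) ∧
    ∀ X ∈ (ext K g).map (Matrix.toLinAlgEquiv' (n := ι) (R := K)).toLinearMap,
      LinearMap.trace K (ι → K) X = 0 := by
  refine ⟨?_, ?_, ?_⟩
  · rintro _ ⟨X, hX, rfl⟩ _ ⟨Y, hY, rfl⟩
    refine ⟨X * Y - Y * X, B1_lieK hg hX hY, ?_⟩
    change Matrix.toLinAlgEquiv' (X * Y - Y * X) = Matrix.toLinAlgEquiv' X * Matrix.toLinAlgEquiv' Y -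
      Matrix.toLinAlgEquiv' Y * Matrix.toLinAlgEquiv' X
    rw [map_sub, map_mul, map_mul]
  · intro W hW
    apply B1_irrK (K := K) hg W
    intro X hX w hw
    exact hW _ ⟨X, hX, rfl⟩ w hw
  · rintro _ ⟨X, hX, rfl⟩
    change LinearMap.trace K (ι → K) (Matrix.toLin' X) = 0
    rw [Matrix.trace_toLin'_eq, B1_traceK hg hι hX]

theorem B3b_nondeg {K : Type*} [Field K] [CharZero K] [IsAlgClosed K]
    {g : Submodule ℚ (Matrix ι ι ℚ)} (hg : QForm g) (hι : 2 ≤ Fintype.card ι)
    {X : Matrix ι ι K} (hX : X ∈ ext K g) (h0 : ∀ Y ∈ ext K g, (X * Y).trace = 0) : X = 0 := by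
  have : Nonempty ι := Fintype.card_pos_iff.1 (by omega)
  obtain ⟨h1, h2, h3⟩ := B3b_ops (K := K) hg hι
  have h4 : Matrix.toLinAlgEquiv' X = 0 := by
    refine trace_nondeg h1 h2 h3 (X := Matrix.toLinAlgEquiv' X) ⟨X, hX, rfl⟩ ?_
    rintro _ ⟨Y, hY, rfl⟩
    change LinearMap.trace K (ι → K) (Matrix.toLinAlgEquiv' X * Matrix.toLinAlgEquiv' Y) = 0
    rw [← map_mul]
    change LinearMap.trace K (ι → K) (Matrix.toLin' (X * Y)) = 0
    rw [Matrix.trace_toLin'_eq, h0 Y hY]
  exact (map_eq_zero_iff _ (Matrix.toLinAlgEquiv' (n := ι) (R := K)).injective).1 h4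

attribute [local instance 100] LieRing.ofAssociativeRing in
/-- There are no abelian ideals. -/
theorem B3b_abelian {K : Type*} [Field K] [CharZero K] [IsAlgClosed K]
    {g : Submodule ℚ (Matrix ι ι ℚ)} (hg : QForm g) (hι : 2 ≤ Fintype.card ι)
    (J : Submodule K (Matrix ι ι K)) (hJ : J ≤ ext K g)
    (hid : ∀ X ∈ ext K g, ∀ Y ∈ J, X * Y - Y * X ∈ J) (hab : ∀ X ∈ J, ∀ Y ∈ J, X * Y = Y * X) :
    J = ⊥ := by
  have : Nonempty ι := Fintype.card_pos_iff.1 (by omega)
  obtain ⟨h1, h2, h3⟩ := B3b_ops (K := K) hg hι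
  have h4 := lieSub_trivialRadical _ h1 h2 h3
  let φ := (Matrix.toLinAlgEquiv' (n := ι) (R := K))
  let E := (ext K g).map φ.toLinearMap
  let J' : LieIdeal K (lieSub E h1) :=
    { carrier := {x | φ.symm x.1 ∈ J}
      add_mem' := by
        intro a b ha hb
        change φ.symm (a.1 + b.1) ∈ J
        rw [map_add]
        exact J.add_mem ha hb
      zero_mem' := by
        change φ.symm 0 ∈ J
        rw [map_zero]
        exact J.zero_mem
      smul_mem' := by
        intro c a ha
        change φ.symm (c • a.1) ∈ J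
        rw [map_smul]
        exact J.smul_mem c ha
      lie_mem := by
        rintro ⟨_, X, hX, rfl⟩ y hy
        change φ.symm (φ X * y.1 - y.1 * φ X) ∈ J
        rw [map_sub, map_mul, map_mul, AlgEquiv.symm_apply_apply]
        exact hid X hX _ hy }
  have h5 : IsLieAbelian J' := by
    constructor
    rintro ⟨⟨x, hx⟩, hx'⟩ ⟨⟨y, hy⟩, hy'⟩
    apply Subtype.ext
    apply Subtype.ext
    change x * y - y * x = 0
    have h6 := hab _ hx' _ hy'
    have h7 := congrArg φ h6
    change φ (φ.symm x * φ.symm y) = φ (φ.symm y * φ.symm x) at h7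
    rw [map_mul, map_mul, AlgEquiv.apply_symm_apply, AlgEquiv.apply_symm_apply] at h7
    rw [h7, sub_self]
  have h6 : J' = ⊥ := LieAlgebra.HasTrivialRadical.eq_bot_of_isSolvable J'
  rw [eq_bot_iff]
  intro X hX
  have h7 : (⟨φ X, X, hJ hX, rfl⟩ : lieSub E h1) ∈ J' := by
    change φ.symm (φ X) ∈ J
    rw [AlgEquiv.symm_apply_apply]
    exact hX
  rw [h6] at h7
  have h8 := congrArg Subtype.val ((LieSubmodule.mem_bot _).1 h7)
  change φ X = 0 at h8
  rw [Submodule.mem_bot]
  exact (map_eq_zero_iff _ φ.injective).1 h8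

/-- Chunk B3b. Write `E = ext K g`, `[X, Y] = X Y - Y X`. The trace form is nondegenerate on `E`:
`trace_nondeg` (H53Toric.Core1) for the operators `Matrix.toLin'` of `E` (irreducible by
`B1_irrK`, traces zero by `B1_traceK`). Let `I' = {X ∈ E : tr (X Y) = 0 for all Y ∈ I}`, an ideal.
`[I, I'] = 0`: for `x ∈ I`, `y ∈ I'`, `z ∈ E`: `tr ([x, y] z) = tr (y [z, x]) = 0` as `[z, x] ∈ I`;
use nondegeneracy. So `I ∩ I'` is an abelian ideal of `E`, hence zero (`lieSub_trivialRadical` in
H53Toric.Core1), and by dimension `E = I ⊕ I'`. The projection `S` onto `I` along `I'` (extended by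
zero on a complement of `E` in all matrices) is in the centroid (`Cent E S`), so it is a scalar on
`E` by `B3_scalar`, namely `0` (then `I = 0`) or `1` (then `I = E`). -/
theorem B3_simple {K : Type*} [Field K] [CharZero K] [IsAlgClosed K]
    {g : Submodule ℚ (Matrix ι ι ℚ)} (hg : QForm g) (hι : 2 ≤ Fintype.card ι)
    (hc : TrivCent g) (I : Submodule K (Matrix ι ι K)) (hI : I ≤ ext K g)
    (hid : ∀ X ∈ ext K g, ∀ Y ∈ I, X * Y - Y * X ∈ I) : I = ⊥ ∨ I = ext K g := by
  have hE := fun (X : Matrix ι ι K) (hX : X ∈ ext K g) (Y : Matrix ι ι K) (hY : Y ∈ ext K g) =>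
    B1_lieK hg hX hY
  -- tr ([X, Y] Z) = tr (X [Y, Z])
  have hinv : ∀ X Y Z : Matrix ι ι K, ((X * Y - Y * X) * Z).trace = (X * (Y * Z - Z * Y)).trace := by
    intro X Y Z
    have e1 : (X * Y - Y * X) * Z = X * (Y * Z) - Y * (X * Z) := by noncomm_ring
    have e2 : X * (Y * Z - Z * Y) = X * (Y * Z) - (X * Z) * Y := by noncomm_ring
    rw [e1, e2, Matrix.trace_sub, Matrix.trace_sub, Matrix.trace_mul_comm Y]
  -- the radical of the trace form on I
  let J : Submodule K (Matrix ι ι K) :=
    { carrier := {X | X ∈ I ∧ ∀ Y ∈ I, (X * Y).trace = 0}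
      add_mem' := by
        rintro a b ⟨h1, h2⟩ ⟨h3, h4⟩
        refine ⟨I.add_mem h1 h3, fun Y hY => ?_⟩
        rw [add_mul, Matrix.trace_add, h2 Y hY, h4 Y hY, add_zero]
      zero_mem' := ⟨I.zero_mem, fun Y _ => by simp⟩
      smul_mem' := by
        rintro c a ⟨h1, h2⟩
        refine ⟨I.smul_mem c h1, fun Y hY => ?_⟩
        rw [smul_mul_assoc, Matrix.trace_smul, h2 Y hY, smul_zero] }
  have hJ : J = ⊥ := by
    apply B3b_abelian hg hι J (fun X hX => hI hX.1)
    · rintro X hX Y ⟨hY, hY'⟩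
      refine ⟨hid X hX Y hY, fun Z hZ => ?_⟩
      have h1 : X * Y - Y * X = -(Y * X - X * Y) := by noncomm_ring
      rw [h1, neg_mul, Matrix.trace_neg, hinv, hY' _ (hid X hX Z hZ), neg_zero]
    · rintro X ⟨hX, hX'⟩ Y ⟨hY, hY'⟩
      rw [← sub_eq_zero]
      apply B3b_nondeg hg hι (hE X (hI hX) Y (hI hY))
      intro Z hZ
      have h1 : Y * Z - Z * Y = -(Z * Y - Y * Z) := by noncomm_ring
      rw [hinv]
      refine hX' _ ?_
      rw [h1]
      exact I.neg_mem (hid Z hZ Y hY)
  -- the projection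
  let T : I →ₗ[K] Module.Dual K I :=
    { toFun := fun Z =>
        { toFun := fun Y => (Z.1 * Y.1).trace
          map_add' := fun a b => by
            change (Z.1 * (a.1 + b.1)).trace = _
            rw [mul_add, Matrix.trace_add]
          map_smul' := fun c a => by
            change (Z.1 * (c • a.1)).trace = _
            rw [mul_smul_comm, Matrix.trace_smul]; rfl }
      map_add' := fun a b => by
        ext Y
        change ((a.1 + b.1) * Y.1).trace = _
        rw [add_mul, Matrix.trace_add]; rfl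
      map_smul' := fun c a => by
        ext Y
        change ((c • a.1) * Y.1).trace = _
        rw [smul_mul_assoc, Matrix.trace_smul]; rfl }
  have hT : ∀ Z Y : I, T Z Y = (Z.1 * Y.1).trace := fun _ _ => rfl
  have hTi : Function.Injective T := by
    rw [injective_iff_map_eq_zero]
    intro Z hZ
    have h1 : Z.1 ∈ J := ⟨Z.2, fun Y hY => LinearMap.congr_fun hZ ⟨Y, hY⟩⟩
    rw [hJ, Submodule.mem_bot] at h1
    exact Subtype.ext h1
  let E := LinearEquiv.ofInjectiveOfFinrankEq T hTi
    (Subspace.dual_finrank_eq (K := K) (V := I)).symm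
  have hET : ∀ Z, E Z = T Z := fun _ => rfl
  let φ : Matrix ι ι K →ₗ[K] Module.Dual K I :=
    { toFun := fun Z =>
        { toFun := fun Y => (Z * Y.1).trace
          map_add' := fun a b => by
            change (Z * (a.1 + b.1)).trace = _
            rw [mul_add, Matrix.trace_add]
          map_smul' := fun c a => by
            change (Z * (c • a.1)).trace = _
            rw [mul_smul_comm, Matrix.trace_smul]; rfl }
      map_add' := fun a b => by
        ext Y
        change ((a + b) * Y.1).trace = _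
        rw [add_mul, Matrix.trace_add]; rfl
      map_smul' := fun c a => by
        ext Y
        change ((c • a) * Y.1).trace = _
        rw [smul_mul_assoc, Matrix.trace_smul]; rfl }
  let S : Matrix ι ι K →ₗ[K] Matrix ι ι K := I.subtype ∘ₗ E.symm.toLinearMap ∘ₗ φ
  have hSI : ∀ X, S X ∈ I := fun X => (E.symm (φ X)).2
  have hStr : ∀ X, ∀ Y ∈ I, (S X * Y).trace = (X * Y).trace := by
    intro X Y hY
    have h1 : E (E.symm (φ X)) = φ X := E.apply_symm_apply _
    exact LinearMap.congr_fun h1 ⟨Y, hY⟩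
  have huniq : ∀ X ∈ I, ∀ X' ∈ I, (∀ Y ∈ I, (X * Y).trace = (X' * Y).trace) → X = X' := by
    intro X hX X' hX' h1
    have h2 : X - X' ∈ J := ⟨I.sub_mem hX hX', fun Y hY => by
      rw [sub_mul, Matrix.trace_sub, h1 Y hY, sub_self]⟩
    rw [hJ, Submodule.mem_bot] at h2
    exact sub_eq_zero.1 h2
  have hSid : ∀ X ∈ I, S X = X := fun X hX => huniq _ (hSI X) X hX (hStr X)
  have hCent : Cent (ext K g) S := by
    constructor
    · intro X _
      exact hI (hSI X)
    · intro X hX Y hY
      apply huniq _ (hSI _) _ (hid X hX _ (hSI Y))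
      intro Z hZ
      have h1 : X * Y - Y * X = -(Y * X - X * Y) := by noncomm_ring
      have h2 : X * S Y - S Y * X = -(S Y * X - X * S Y) := by noncomm_ring
      rw [hStr _ Z hZ, h1, h2, neg_mul, neg_mul, Matrix.trace_neg, Matrix.trace_neg, hinv, hinv,
        hStr _ _ (hid X hX Z hZ)]
  obtain ⟨t, ht⟩ := B3_scalar hc hCent
  by_cases h0 : I = ⊥
  · exact Or.inl h0
  right
  obtain ⟨x, hx, hx0⟩ := Submodule.exists_mem_ne_zero_of_ne_bot h0
  have h1 := ht x (hI hx)
  rw [hSid x hx] at h1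
  have h2 : t = 1 := by
    have h3 : (1 - t) • x = 0 := by rw [sub_smul, one_smul, ← h1, sub_self]
    exact (sub_eq_zero.1 ((smul_eq_zero.1 h3).resolve_right hx0)).symm
  apply le_antisymm hI
  intro X hX
  have h3 := ht X hX
  rw [h2, one_smul] at h3
  rw [← h3]
  exact hSI X

end Pool.Agent.H49M
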