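import Pool.Agent.Lib.H49M.B1

/-!
# B4: the minimal polynomial of a centroid element
-/

set_option autoImplicit false
set_option linter.unusedSectionVars false
namespace Pool.Agent.H49M
open Module Matrix Polynomial Pool.Agent.H53Toric

variable {ι : Type*} [Fintype ι] [DecidableEq ι]

theorem B4_pow {k : Type*} [Field k] {g : Submodule k (Matrix ι ι k)}
    {T : Matrix ι ι k →ₗ[k] Matrix ι ι k} (hT : Cent g T) (n : ℕ) : Cent g (T ^ n) := by
  induction n with
  | zero => exact ⟨fun X hX => hX, fun X _ Y _ => rfl⟩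
  | succ n ih =>
    constructor
    · intro X hX
      rw [pow_succ', Module.End.mul_apply]
      exact hT.maps _ (ih.maps X hX)
    · intro X hX Y hY
      rw [pow_succ', Module.End.mul_apply, Module.End.mul_apply, ih.comm X hX Y hY,
        hT.comm X hX _ (ih.maps Y hY)]

theorem B4_aeval {k : Type*} [Field k] {g : Submodule k (Matrix ι ι k)}
    {T : Matrix ι ι k →ₗ[k] Matrix ι ι k} (hT : Cent g T) (p : k[X]) : Cent g (aeval T p) := by
  induction p using Polynomial.induction_on' with
  | add p q hp hq =>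
    rw [map_add]
    constructor
    · intro X hX
      exact g.add_mem (hp.maps X hX) (hq.maps X hX)
    · intro X hX Y hY
      rw [LinearMap.add_apply, LinearMap.add_apply, hp.comm X hX Y hY, hq.comm X hX Y hY]
      noncomm_ring
  | monomial n c =>
    have e : aeval T (monomial n c) = c • T ^ n := by
      rw [aeval_monomial, Algebra.algebraMap_eq_smul_one, smul_mul_assoc, one_mul]
    rw [e]
    have h := B4_pow hT n
    constructor
    · intro X hX
      exact g.smul_mem c (h.maps X hX)
    · intro X hX Y hY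
      rw [LinearMap.smul_apply, LinearMap.smul_apply, h.comm X hX Y hY, smul_sub, mul_smul_comm,
        smul_mul_assoc]

theorem B4_restrict {k : Type*} [Field k] {g : Submodule k (Matrix ι ι k)}
    {T : Matrix ι ι k →ₗ[k] Matrix ι ι k} (hT : ∀ X ∈ g, T X ∈ g) (p : k[X]) (x : g) :
    ((aeval (T.restrict hT) p) x).1 = (aeval T p) x.1 := by
  have h : ∀ (n : ℕ) (x : g), ((T.restrict hT ^ n) x).1 = (T ^ n) x.1 := by
    intro n
    induction n with
    | zero => intro x; rfl
    | succ n ih =>
      intro x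
      rw [pow_succ, pow_succ, Module.End.mul_apply, Module.End.mul_apply, ih]; rfl
  induction p using Polynomial.induction_on' with
  | add p q hp hq =>
    rw [map_add, map_add, LinearMap.add_apply, LinearMap.add_apply, ← hp, ← hq]; rfl
  | monomial n c =>
    rw [aeval_monomial, Algebra.algebraMap_eq_smul_one, smul_mul_assoc, one_mul, aeval_monomial,
      Algebra.algebraMap_eq_smul_one, smul_mul_assoc, one_mul, LinearMap.smul_apply,
      LinearMap.smul_apply, ← h]
    rfl

/-- Chunk B4. Let `T₁ : g →ₗ g` be the restriction and `f` its minimal polynomial. For every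
polynomial `p` the map `p(T)` is in the centroid, its kernel in `g` and its image are ideals, so
`p(T)` is zero or bijective on `g`; hence `f` is irreducible (if `f = a b`, one of `a(T₁)`,
`b(T₁)` is zero; `g ≠ 0`). If `f` had degree one, `T₁` would be a scalar. -/
theorem B4_poly {g : Submodule ℚ (Matrix ι ι ℚ)} (hg : QForm g) (hι : 2 ≤ Fintype.card ι)
    {T : Matrix ι ι ℚ →ₗ[ℚ] Matrix ι ι ℚ} (hT : Cent g T)
    (hns : ¬ ∃ c : ℚ, ∀ X ∈ g, T X = c • X) :
    ∃ f : ℚ[X], Irreducible f ∧ 2 ≤ f.natDegree ∧ ∀ X ∈ g, (aeval T f) X = 0 := by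
  let T₁ : Module.End ℚ g := T.restrict hT.maps
  have hT₁ : ∀ (p : ℚ[X]) (x : g), ((aeval T₁ p) x).1 = (aeval T p) x.1 := B4_restrict hT.maps
  have hint : IsIntegral ℚ T₁ := Algebra.IsIntegral.isIntegral T₁
  have hdich : ∀ p : ℚ[X], aeval T₁ p = 0 ∨ ∀ x : g, aeval T₁ p x = 0 → x = 0 := by
    intro p
    have hp := B4_aeval hT p
    let J : Submodule ℚ (Matrix ι ι ℚ) :=
      { carrier := {X | X ∈ g ∧ (aeval T p) X = 0}
        add_mem' := by
          rintro a b ⟨h1, h2⟩ ⟨h3, h4⟩
          exact ⟨g.add_mem h1 h3, by rw [map_add, h2, h4, add_zero]⟩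
        zero_mem' := ⟨g.zero_mem, map_zero _⟩
        smul_mem' := by
          rintro c a ⟨h1, h2⟩
          exact ⟨g.smul_mem c h1, by rw [map_smul, h2, smul_zero]⟩ }
    rcases hg.simple J (fun X hX => hX.1) (by
      rintro X hX Y ⟨hY, hY'⟩
      refine ⟨hg.lie X hX Y hY, ?_⟩
      rw [hp.comm X hX Y hY, hY', mul_zero, zero_mul, sub_zero]) with h0 | h0
    · right
      intro x hx
      have h1 : x.1 ∈ J := ⟨x.2, by rw [← hT₁, hx]; rfl⟩
      rw [h0, Submodule.mem_bot] at h1
      exact Subtype.ext h1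
    · left
      ext x : 1
      apply Subtype.ext
      have h1 : x.1 ∈ J := by rw [h0]; exact x.2
      rw [hT₁, h1.2]; rfl
  have hgne : ∃ X ∈ g, X ≠ 0 := by
    by_contra hcon
    push Not at hcon
    exact hns ⟨0, fun X hX => by rw [hcon X hX, map_zero, smul_zero]⟩
  obtain ⟨X₀, hX₀, hX₀0⟩ := hgne
  have hnt : Nontrivial g := ⟨⟨X₀, hX₀⟩, 0, fun h0 => hX₀0 (congrArg Subtype.val h0)⟩
  have hf0 := minpoly.ne_zero hint
  have hf : aeval T₁ (minpoly ℚ T₁) = 0 := minpoly.aeval ℚ T₁
  have hdeg := minpoly.natDegree_pos hint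
  refine ⟨minpoly ℚ T₁, ⟨?_, ?_⟩, ?_, ?_⟩
  · intro hu
    rw [Polynomial.natDegree_eq_zero_of_isUnit hu] at hdeg
    exact lt_irrefl 0 hdeg
  · intro a b hab
    have h1 : aeval T₁ a * aeval T₁ b = 0 := by rw [← map_mul, ← hab, hf]
    have hcanc : ∀ a b : ℚ[X], minpoly ℚ T₁ = a * b → aeval T₁ b = 0 → IsUnit a := by
      intro a b hab hb
      obtain ⟨c, hc⟩ := minpoly.dvd ℚ T₁ hb
      have hb0 : b ≠ 0 := by
        rintro rfl
        rw [mul_zero] at hab
        exact hf0 hab
      have h2 : b * 1 = b * (a * c) := by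
        rw [mul_one]
        nth_rw 1 [hc]
        rw [hab]; ring
      exact IsUnit.of_mul_eq_one c (mul_left_cancel₀ hb0 h2).symm
    rcases hdich a with h2 | h2
    · right
      exact hcanc b a (by rw [hab, mul_comm]) h2
    · left
      apply hcanc a b hab
      ext x : 1
      apply h2
      change (aeval T₁ a * aeval T₁ b) x = 0
      rw [h1]; rfl
  · by_contra hlt
    have h1 : (minpoly ℚ T₁).natDegree = 1 := by omega
    have h2 := (minpoly.monic hint).eq_X_add_C h1
    apply hns
    refine ⟨-(minpoly ℚ T₁).coeff 0, fun X hX => ?_⟩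
    rw [h2, map_add, aeval_X, aeval_C] at hf
    have h3 := congrArg Subtype.val (LinearMap.congr_fun hf ⟨X, hX⟩)
    rw [LinearMap.add_apply, Module.algebraMap_end_apply] at h3
    change T X + (minpoly ℚ T₁).coeff 0 • X = 0 at h3
    rw [neg_smul]
    exact eq_neg_of_add_eq_zero_left h3
  · intro X hX
    have h1 := hT₁ (minpoly ℚ T₁) ⟨X, hX⟩
    rw [hf] at h1
    exact h1.symm

end Pool.Agent.H49M
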