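import Pool.Agent.Lib.H49M.B4

/-!
# B5: a quadratic element lives in one factor
-/

set_option autoImplicit false
set_option linter.unusedSectionVars false
namespace Pool.Agent.H49M
open Module Matrix Polynomial Pool.Agent.H53Toric

variable {ι : Type*} [Fintype ι] [DecidableEq ι]

variable {K : Type*} [Field K]

theorem B5a_comm {I₁ I₂ : Submodule K (Matrix ι ι K)}
    (hcomm : ∀ X ∈ I₁, ∀ Y ∈ I₂, X * Y = Y * X) {x y : Matrix ι ι K}
    (hx : x ∈ Algebra.adjoin K (I₁ : Set (Matrix ι ι K)))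
    (hy : y ∈ Algebra.adjoin K (I₂ : Set (Matrix ι ι K))) : x * y = y * x := by
  have h1 : Algebra.adjoin K (I₂ : Set (Matrix ι ι K)) ≤
      Subalgebra.centralizer K (I₁ : Set (Matrix ι ι K)) := by
    refine Algebra.adjoin_le fun Y hY => ?_
    rw [SetLike.mem_coe, Subalgebra.mem_centralizer_iff]
    exact fun X hX => hcomm X hX Y hY
  have h2 : Algebra.adjoin K (I₁ : Set (Matrix ι ι K)) ≤
      Subalgebra.centralizer K (Algebra.adjoin K (I₂ : Set (Matrix ι ι K)) : Set (Matrix ι ι K)) := by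
    refine Algebra.adjoin_le fun X hX => ?_
    rw [SetLike.mem_coe, Subalgebra.mem_centralizer_iff]
    intro Y hY
    have := h1 hY
    rw [Subalgebra.mem_centralizer_iff] at this
    exact (this X hX).symm
  have h3 := h2 hx
  rw [Subalgebra.mem_centralizer_iff] at h3
  exact (h3 y hy).symm

theorem B5a_prime {I₁ I₂ : Submodule K (Matrix ι ι K)}
    (hcomm : ∀ X ∈ I₁, ∀ Y ∈ I₂, X * Y = Y * X)
    (hfull : Algebra.adjoin K ((I₁ : Set (Matrix ι ι K)) ∪ I₂) = ⊤) {a b : Matrix ι ι K}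
    (ha : a ∈ Algebra.adjoin K (I₁ : Set (Matrix ι ι K)))
    (hb : b ∈ Algebra.adjoin K (I₂ : Set (Matrix ι ι K))) (hab : a * b = 0) :
    a = 0 ∨ b = 0 := by
  have hc := fun (x : Matrix ι ι K) (hx : x ∈ Algebra.adjoin K (I₁ : Set (Matrix ι ι K)))
    (y : Matrix ι ι K) (hy : y ∈ Algebra.adjoin K (I₂ : Set (Matrix ι ι K))) =>
    B5a_comm hcomm hx hy
  have key : ∀ M : Matrix ι ι K, ∀ N : Matrix ι ι K,
      (∀ x ∈ Algebra.adjoin K (I₁ : Set (Matrix ι ι K)),
        ∀ y ∈ Algebra.adjoin K (I₂ : Set (Matrix ι ι K)), a * (N * x * y) * b = 0) →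
      (∀ x ∈ Algebra.adjoin K (I₁ : Set (Matrix ι ι K)),
        ∀ y ∈ Algebra.adjoin K (I₂ : Set (Matrix ι ι K)), a * (N * M * x * y) * b = 0) := by
    intro M
    have hM : M ∈ Algebra.adjoin K ((I₁ : Set (Matrix ι ι K)) ∪ I₂) := by rw [hfull]; trivial
    induction hM using Algebra.adjoin_induction with
    | mem z hz =>
      rcases hz with hz | hz
      · intro N hN x hx y hy
        have h1 := hN (z * x) (Subalgebra.mul_mem _ (Algebra.subset_adjoin hz) hx) y hy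
        rwa [← mul_assoc N z x] at h1
      · intro N hN x hx y hy
        have h1 := hN x hx (z * y) (Subalgebra.mul_mem _ (Algebra.subset_adjoin hz) hy)
        have h2 := hc x hx z (Algebra.subset_adjoin hz)
        calc a * (N * z * x * y) * b = a * (N * (z * x) * y) * b := by noncomm_ring
          _ = a * (N * x * (z * y)) * b := by rw [← h2]; noncomm_ring
          _ = 0 := h1
    | algebraMap r =>
      intro N hN x hx y hy
      have h1 := hN x hx y hy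
      rw [Algebra.algebraMap_eq_smul_one, mul_smul_comm, mul_one, smul_mul_assoc, smul_mul_assoc,
        mul_smul_comm, smul_mul_assoc, h1, smul_zero]
    | add M M' _ _ h1 h2 =>
      intro N hN x hx y hy
      have e : a * (N * (M + M') * x * y) * b = a * (N * M * x * y) * b +
          a * (N * M' * x * y) * b := by noncomm_ring
      rw [e, h1 N hN x hx y hy, h2 N hN x hx y hy, add_zero]
    | mul M M' _ _ h1 h2 =>
      intro N hN x hx y hy
      rw [← mul_assoc N M M']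
      exact h2 (N * M) (h1 N hN) x hx y hy
  have hall : ∀ M : Matrix ι ι K, a * M * b = 0 := by
    intro M
    have h1 := key M 1 (by
      intro x hx y hy
      calc a * (1 * x * y) * b = a * x * y * b := by noncomm_ring
        _ = y * (a * x) * b := by rw [hc (a * x) (Subalgebra.mul_mem _ ha hx) y hy]
        _ = y * a * (x * b) := by noncomm_ring
        _ = y * (a * b) * x := by rw [hc x hx b hb]; noncomm_ring
        _ = 0 := by rw [hab, mul_zero, zero_mul]) 1 (Subalgebra.one_mem _) 1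
      (Subalgebra.one_mem _)
    rwa [one_mul, mul_one, mul_one] at h1
  by_contra hcon
  push Not at hcon
  obtain ⟨ha0, hb0⟩ := hcon
  obtain ⟨i, j, hij⟩ : ∃ i j, a i j ≠ 0 := by
    by_contra h1
    push Not at h1
    exact ha0 (Matrix.ext h1)
  obtain ⟨k, l, hkl⟩ : ∃ i j, b i j ≠ 0 := by
    by_contra h1
    push Not at h1
    exact hb0 (Matrix.ext h1)
  have h1 := congrFun (congrFun (hall (Matrix.single j k 1)) i) l
  rw [Matrix.mul_assoc, Matrix.mul_apply] at h1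
  rw [Finset.sum_eq_single j] at h1
  · rw [Matrix.single_mul_apply_same, one_mul, Matrix.zero_apply] at h1
    exact mul_ne_zero hij hkl h1
  · intro m _ hm
    rw [Matrix.single_mul_apply_of_ne _ _ _ _ _ hm, mul_zero]
  · intro h2
    exact absurd (Finset.mem_univ j) h2

theorem B5a_scalar {I₁ I₂ : Submodule K (Matrix ι ι K)}
    (hfull : Algebra.adjoin K ((I₁ : Set (Matrix ι ι K)) ∪ I₂) = ⊤) {Y : Matrix ι ι K}
    (h1 : ∀ X ∈ I₁, X * Y = Y * X) (h2 : ∀ X ∈ I₂, X * Y = Y * X) : ∃ c : K, Y = c • 1 := by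
  have h3 : Algebra.adjoin K ((I₁ : Set (Matrix ι ι K)) ∪ I₂) ≤
      Subalgebra.centralizer K ({Y} : Set (Matrix ι ι K)) := by
    refine Algebra.adjoin_le fun X hX => ?_
    rw [SetLike.mem_coe, Subalgebra.mem_centralizer_iff]
    rintro _ rfl
    rcases hX with hX | hX
    · exact (h1 X hX).symm
    · exact (h2 X hX).symm
  rw [hfull] at h3
  obtain ⟨c, hc⟩ := Matrix.mem_range_scalar_of_commute_single (M := Y) (fun i j _ => by
    have h4 := h3 (x := Matrix.single i j 1) trivial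
    rw [Subalgebra.mem_centralizer_iff] at h4
    exact (h4 Y rfl).symm)
  refine ⟨c, ?_⟩
  rw [← hc, Matrix.scalar_apply, Matrix.smul_one_eq_diagonal]

/-- Chunk B5a. Let `A₁`, `A₂` be the algebras generated by `I₁`, `I₂`; they commute elementwise and
every matrix is a sum of products `x y`, `x ∈ A₁`, `y ∈ A₂` (these sums form an algebra).
Prime property: if `a ∈ A₁`, `b ∈ A₂`, `a b = 0`, then `a (x y) b = y (a b) x = 0` for `x ∈ A₁`,
`y ∈ A₂` (move the commuting factors), so `a M b = 0` for all matrices `M` and `a = 0` or `b = 0`.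
Write `[X, Y] = X Y - Y X` and let the quadratic relation be
`(*) Y₁² + 2 Y₁ Y₂ + Y₂² + a Y₁ + a Y₂ + b = 0`. Bracket with `X ∈ A₁`:
`[X, Y₁²] + 2 [X, Y₁] Y₂ + a [X, Y₁] = 0`; bracket this with `Z ∈ A₂`: `2 [X, Y₁] [Z, Y₂] = 0`. If
`Y₁` does not commute with some `X ∈ A₁`, then `[Z, Y₂] = 0` for all `Z ∈ A₂`, so `Y₂` commutes with
`A₂` and with `A₁`, hence with all matrices, and is scalar. Otherwise `Y₁` commutes with `A₁` and
`A₂` and is scalar. -/
theorem B5_disj [CharZero K] {I₁ I₂ : Submodule K (Matrix ι ι K)}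
    (hcomm : ∀ X ∈ I₁, ∀ Y ∈ I₂, X * Y = Y * X)
    (hfull : Algebra.adjoin K ((I₁ : Set (Matrix ι ι K)) ∪ I₂) = ⊤)
    {Y₁ Y₂ : Matrix ι ι K} (h1 : Y₁ ∈ I₁) (h2 : Y₂ ∈ I₂) {a b : K}
    (hq : (Y₁ + Y₂) * (Y₁ + Y₂) + a • (Y₁ + Y₂) + b • (1 : Matrix ι ι K) = 0) :
    (∃ c : K, Y₁ = c • 1) ∨ (∃ c : K, Y₂ = c • 1) := by
  have m1 : ∀ X ∈ I₁, X ∈ Algebra.adjoin K (I₁ : Set (Matrix ι ι K)) := fun X hX =>
    Algebra.subset_adjoin hX
  have m2 : ∀ X ∈ I₂, X ∈ Algebra.adjoin K (I₂ : Set (Matrix ι ι K)) := fun X hX =>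
    Algebra.subset_adjoin hX
  by_cases h : ∀ X ∈ I₁, X * Y₁ = Y₁ * X
  · left
    exact B5a_scalar hfull h (fun X hX => (hcomm Y₁ h1 X hX).symm)
  · right
    push Not at h
    obtain ⟨X, hX, hne⟩ := h
    refine B5a_scalar hfull (fun X hX => hcomm X hX Y₂ h2) fun Z hZ => ?_
    have c1 := hcomm X hX Y₂ h2
    have c2 := hcomm X hX Z hZ
    have c3 := hcomm Y₁ h1 Y₂ h2
    have c4 := hcomm Y₁ h1 Z hZ
    have c5 : (X * Y₁ - Y₁ * X) * (Z * Y₂ - Y₂ * Z) = 0 := by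
      -- the double commutator of the relation
      have e1 : ∀ W : Matrix ι ι K, W = 0 →
          Z * (X * W - W * X) - (X * W - W * X) * Z = 0 := by
        rintro _ rfl
        simp
      have e2 := e1 _ hq
      have e3 : (Y₁ + Y₂) * (Y₁ + Y₂) + a • (Y₁ + Y₂) + b • (1 : Matrix ι ι K) =
          Y₁ * Y₁ + (2 : K) • (Y₁ * Y₂) + Y₂ * Y₂ + a • Y₁ + a • Y₂ + b • 1 := by
        have : (Y₁ + Y₂) * (Y₁ + Y₂) = Y₁ * Y₁ + Y₁ * Y₂ + Y₂ * Y₁ + Y₂ * Y₂ := by noncomm_ring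
        rw [this, ← c3]
        module
      -- brackets with X
      have b1 : X * (Y₂ * Y₂) - (Y₂ * Y₂) * X = 0 := by
        have : (Y₂ * Y₂) * X = X * (Y₂ * Y₂) := by
          rw [mul_assoc, ← c1, ← mul_assoc, ← c1, mul_assoc]
        rw [this, sub_self]
      have b2 : X * (Y₁ * Y₂) - (Y₁ * Y₂) * X = (X * Y₁ - Y₁ * X) * Y₂ := by
        have : (Y₁ * Y₂) * X = Y₁ * X * Y₂ := by rw [mul_assoc, ← c1, ← mul_assoc]
        rw [this]; noncomm_ring
      have b3 : X * ((Y₁ + Y₂) * (Y₁ + Y₂) + a • (Y₁ + Y₂) + b • (1 : Matrix ι ι K)) -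
          ((Y₁ + Y₂) * (Y₁ + Y₂) + a • (Y₁ + Y₂) + b • (1 : Matrix ι ι K)) * X =
          (X * (Y₁ * Y₁) - (Y₁ * Y₁) * X) + (2 : K) • ((X * Y₁ - Y₁ * X) * Y₂) +
            a • (X * Y₁ - Y₁ * X) := by
        rw [e3, ← b2]
        have b4 : X * Y₂ - Y₂ * X = 0 := by rw [c1, sub_self]
        have : X * (Y₁ * Y₁ + (2 : K) • (Y₁ * Y₂) + Y₂ * Y₂ + a • Y₁ + a • Y₂ + b • 1) -
            (Y₁ * Y₁ + (2 : K) • (Y₁ * Y₂) + Y₂ * Y₂ + a • Y₁ + a • Y₂ + b • 1) * X =
            (X * (Y₁ * Y₁) - (Y₁ * Y₁) * X) + (2 : K) • (X * (Y₁ * Y₂) - (Y₁ * Y₂) * X) +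
            (X * (Y₂ * Y₂) - (Y₂ * Y₂) * X) + a • (X * Y₁ - Y₁ * X) + a • (X * Y₂ - Y₂ * X) := by
          simp only [mul_add, add_mul, mul_smul_comm, smul_mul_assoc, mul_one, one_mul]
          module
        rw [this, b1, b4, smul_zero, add_zero, add_zero]
      rw [b3] at e2
      -- everything in the first algebra commutes with Z
      have d1 : Z * (X * Y₁ - Y₁ * X) = (X * Y₁ - Y₁ * X) * Z := by
        have f1 : Z * (X * Y₁) = X * Y₁ * Z := by
          rw [← mul_assoc, ← c2, mul_assoc, ← c4, mul_assoc]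
        have f2 : Z * (Y₁ * X) = Y₁ * X * Z := by
          rw [← mul_assoc, ← c4, mul_assoc, ← c2, mul_assoc]
        rw [mul_sub, sub_mul, f1, f2]
      have d2 : Z * (X * (Y₁ * Y₁) - (Y₁ * Y₁) * X) = (X * (Y₁ * Y₁) - (Y₁ * Y₁) * X) * Z := by
        have f0 : Z * (Y₁ * Y₁) = (Y₁ * Y₁) * Z := by
          rw [← mul_assoc, ← c4, mul_assoc, ← c4, mul_assoc]
        have f1 : Z * (X * (Y₁ * Y₁)) = X * (Y₁ * Y₁) * Z := by
          rw [← mul_assoc, ← c2, mul_assoc, f0, mul_assoc, mul_assoc, mul_assoc]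
        have f2 : Z * ((Y₁ * Y₁) * X) = (Y₁ * Y₁) * X * Z := by
          rw [← mul_assoc, f0, mul_assoc, ← c2, mul_assoc, mul_assoc, mul_assoc]
        rw [mul_sub, sub_mul, f1, f2]
      generalize X * (Y₁ * Y₁) - (Y₁ * Y₁) * X = P at e2 d2
      generalize X * Y₁ - Y₁ * X = Q at e2 d1
      have e4 : Z * (P + (2 : K) • (Q * Y₂) + a • Q) - (P + (2 : K) • (Q * Y₂) + a • Q) * Z =
          (Z * P - P * Z) + (2 : K) • (Z * (Q * Y₂) - Q * Y₂ * Z) + a • (Z * Q - Q * Z) := by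
        simp only [mul_add, add_mul, mul_smul_comm, smul_mul_assoc]
        module
      have e5 : Z * (Q * Y₂) = Q * (Z * Y₂) := by rw [← mul_assoc, d1, mul_assoc]
      rw [e4, d1, d2, sub_self, sub_self, smul_zero, zero_add, add_zero, e5] at e2
      have e6 := (smul_eq_zero.1 e2).resolve_left (by norm_num)
      rw [mul_sub, ← e6]
      noncomm_ring
    have c6 := (B5a_prime hcomm hfull (Subalgebra.sub_mem _ (Subalgebra.mul_mem _ (m1 X hX)
      (m1 _ h1)) (Subalgebra.mul_mem _ (m1 _ h1) (m1 X hX)))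
      (Subalgebra.sub_mem _ (Subalgebra.mul_mem _ (m2 Z hZ) (m2 _ h2))
        (Subalgebra.mul_mem _ (m2 _ h2) (m2 Z hZ))) c5).resolve_left (sub_ne_zero.2 hne)
    exact sub_eq_zero.1 c6

/-- Chunk B5b. Let `S = bc K T`, `F = f.map`. `F (S) = 0` on `ext K g` (`B1_aeval`), `F` is
separable (`f` irreducible, characteristic zero) and splits. Let `p` be the monic generator of
`{p : p(S) Y = 0}`; `p ∣ F`, `p ≠ 1`; choose a root `c` of `p`, `F = (X - c) G`, `G(c) ≠ 0`.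
`I₁ = {Z ∈ ext K g : S Z = c Z}`, `I₂ = {Z ∈ ext K g : G(S) Z = 0}`; `ext K g = I₁ ⊕ I₂`
(coprime). They commute: for `X ∈ I₁`, `Z ∈ I₂`, `B = X Z - Z X`: `G(S) B = [X, G(S) Z] = 0` and
`S B = -S[Z, X] = -[Z, S X] = c B`, so `G(c) B = G(S) B = 0`. Write `Y = Y₁ + Y₂`. By `B5_disj`
(`B1_fullK`) `Y₁` or `Y₂` is scalar, hence zero by `B1_traceK`. `Y₁ ≠ 0` because otherwise
`G(S) Y = 0` and `p ∣ G`, `G(c) = 0`. So `Y₂ = 0` and `S Y = c Y`; `aeval c f = 0`. -/
theorem B5_factor [CharZero K] [IsAlgClosed K] {g : Submodule ℚ (Matrix ι ι ℚ)} (hg : QForm g)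
    (hι : 2 ≤ Fintype.card ι) {T : Matrix ι ι ℚ →ₗ[ℚ] Matrix ι ι ℚ} (hT : Cent g T) {f : ℚ[X]}
    (hf : Irreducible f) (hfT : ∀ X ∈ g, (aeval T f) X = 0) {Y : Matrix ι ι K}
    (hY : Y ∈ ext K g) (hY0 : Y ≠ 0) {a b : K}
    (hq : Y * Y + a • Y + b • (1 : Matrix ι ι K) = 0) :
    ∃ c : K, aeval c f = 0 ∧ bc K T Y = c • Y := by
  set S := bc K T with hS
  have hCS : Cent (ext K g) S := B1_cent hT
  obtain ⟨F, hFdef⟩ : ∃ F, F = f.map (algebraMap ℚ K) := ⟨_, rfl⟩
  have hF : ∀ X ∈ ext K g, (aeval S F) X = 0 := fun X hX => by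
    rw [hFdef]; exact B1_aeval hfT hX
  have hFsep : F.Separable := by rw [hFdef]; exact (hf.separable).map
  have hev : ∀ (p : K[X]) {c : K} {Z : Matrix ι ι K}, S Z = c • Z →
      (aeval S p) Z = p.eval c • Z := by
    intro p c Z hZ
    by_cases h0 : Z = 0
    · rw [h0, map_zero, smul_zero]
    · exact Module.End.aeval_apply_of_hasEigenvector
        ⟨Module.End.mem_eigenspace_iff.2 hZ, h0⟩
  have hcommp : ∀ (p q : K[X]) (Z : Matrix ι ι K), (aeval S p) ((aeval S q) Z) =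
      (aeval S q) ((aeval S p) Z) := by
    intro p q Z
    rw [← Module.End.mul_apply, ← Module.End.mul_apply, ← map_mul, ← map_mul, mul_comm]
  -- an eigenvector in the cyclic space
  let φ : K[X] →ₗ[K] Matrix ι ι K :=
    { toFun := fun p => (aeval S p) Y
      map_add' := fun p q => by rw [map_add]; rfl
      map_smul' := fun c p => by rw [map_smul]; rfl }
  have hstab : ∀ Z ∈ LinearMap.range φ, S Z ∈ LinearMap.range φ := by
    rintro _ ⟨p, rfl⟩
    refine ⟨X * p, ?_⟩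
    change (aeval S (X * p)) Y = S ((aeval S p) Y)
    rw [map_mul, aeval_X]; rfl
  have hYr : Y ∈ LinearMap.range φ := ⟨1, by change (aeval S 1) Y = Y; rw [map_one]; rfl⟩
  have hnt : Nontrivial (LinearMap.range φ) :=
    ⟨⟨Y, hYr⟩, 0, fun h0 => hY0 (congrArg Subtype.val h0)⟩
  obtain ⟨c, hc⟩ := Module.End.exists_eigenvalue (S.restrict hstab)
  obtain ⟨⟨y, r, hr⟩, hy⟩ := hc.exists_hasEigenvector
  have hyr : (aeval S r) Y = y := hr
  have hSy : S y = c • y := congrArg Subtype.val hy.apply_eq_smul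
  have hy0 : y ≠ 0 := fun h0 => hy.2 (Subtype.ext h0)
  have hFc : F.eval c = 0 := by
    have h1 := hev F hSy
    rw [← hyr, hcommp, hF Y hY, map_zero] at h1
    exact ((smul_eq_zero.1 h1.symm).resolve_right (by rw [hyr]; exact hy0))
  obtain ⟨G, hG⟩ := Polynomial.dvd_iff_isRoot.2 (show F.IsRoot c from hFc)
  have hGc : G.eval c ≠ 0 := by
    have h1 := hFsep.aeval_derivative_ne_zero (x := c) (by rw [Polynomial.coe_aeval_eq_eval]; exact hFc)
    rw [Polynomial.coe_aeval_eq_eval, hG, derivative_mul, eval_add, eval_mul, eval_mul] at h1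
    simpa using h1
  have hGF : ∀ Z ∈ ext K g, S ((aeval S G) Z) = c • (aeval S G) Z := by
    intro Z hZ
    have h1 := hF Z hZ
    rw [hG, map_mul, map_sub, aeval_X, aeval_C, Module.End.mul_apply, LinearMap.sub_apply,
      Module.algebraMap_end_apply] at h1
    exact sub_eq_zero.1 h1
  have hCG : Cent (ext K g) (aeval S G) := B4_aeval hCS G
  let I₁ : Submodule K (Matrix ι ι K) :=
    { carrier := {Z | Z ∈ ext K g ∧ S Z = c • Z}
      add_mem' := by
        rintro a b ⟨h1, h2⟩ ⟨h3, h4⟩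
        exact ⟨(ext K g).add_mem h1 h3, by rw [map_add, h2, h4, smul_add]⟩
      zero_mem' := ⟨(ext K g).zero_mem, by simp⟩
      smul_mem' := by
        rintro d a ⟨h1, h2⟩
        exact ⟨(ext K g).smul_mem d h1, by rw [map_smul, h2, smul_comm]⟩ }
  let I₂ : Submodule K (Matrix ι ι K) :=
    { carrier := {Z | Z ∈ ext K g ∧ (aeval S G) Z = 0}
      add_mem' := by
        rintro a b ⟨h1, h2⟩ ⟨h3, h4⟩
        exact ⟨(ext K g).add_mem h1 h3, by rw [map_add, h2, h4, add_zero]⟩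
      zero_mem' := ⟨(ext K g).zero_mem, map_zero _⟩
      smul_mem' := by
        rintro d a ⟨h1, h2⟩
        exact ⟨(ext K g).smul_mem d h1, by rw [map_smul, h2, smul_zero]⟩ }
  have hdec : ∀ Z ∈ ext K g, ∃ Z₁ ∈ I₁, ∃ Z₂ ∈ I₂, Z = Z₁ + Z₂ := by
    intro Z hZ
    have hm := hCG.maps Z hZ
    have h1 : (G.eval c)⁻¹ • (aeval S G) Z ∈ I₁ :=
      ⟨(ext K g).smul_mem _ hm, by rw [map_smul, hGF Z hZ, smul_comm]⟩
    refine ⟨_, h1, Z - (G.eval c)⁻¹ • (aeval S G) Z, ⟨(ext K g).sub_mem hZ h1.1, ?_⟩, by abel⟩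
    rw [map_sub, map_smul, hev G (hGF Z hZ), smul_smul, inv_mul_cancel₀ hGc, one_smul, sub_self]
  have hfull : Algebra.adjoin K ((I₁ : Set (Matrix ι ι K)) ∪ I₂) = ⊤ := by
    rw [eq_top_iff, ← B1_fullK hg]
    refine Algebra.adjoin_le fun Z hZ => ?_
    obtain ⟨Z₁, h1, Z₂, h2, rfl⟩ := hdec Z hZ
    exact Subalgebra.add_mem _ (Algebra.subset_adjoin (Or.inl h1))
      (Algebra.subset_adjoin (Or.inr h2))
  have hcomm : ∀ X ∈ I₁, ∀ Z ∈ I₂, X * Z = Z * X := by
    rintro X ⟨hX, hX'⟩ Z ⟨hZ, hZ'⟩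
    have h1 : (aeval S G) (X * Z - Z * X) = 0 := by
      rw [hCG.comm X hX Z hZ, hZ', mul_zero, zero_mul, sub_zero]
    have h2 : S (X * Z - Z * X) = c • (X * Z - Z * X) := by
      have h3 := hCS.comm Z hZ X hX
      rw [hX', mul_smul_comm, smul_mul_assoc, ← smul_sub] at h3
      have h4 : X * Z - Z * X = -(Z * X - X * Z) := by noncomm_ring
      rw [h4, map_neg, h3, smul_neg]
    rw [hev G h2] at h1
    exact sub_eq_zero.1 ((smul_eq_zero.1 h1).resolve_left hGc)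
  obtain ⟨Y₁, h1, Y₂, h2, hYY⟩ := hdec Y hY
  have hscal : ∀ Z ∈ ext K g, (∃ d : K, Z = d • (1 : Matrix ι ι K)) → Z = 0 := by
    rintro Z hZ ⟨d, rfl⟩
    have h3 := B1_traceK hg hι hZ
    rw [Matrix.trace_smul, Matrix.trace_one, smul_eq_mul] at h3
    rcases mul_eq_zero.1 h3 with h4 | h4
    · rw [h4, zero_smul]
    · exfalso
      rw [Nat.cast_eq_zero] at h4
      omega
  rw [hYY] at hq
  rcases B5_disj hcomm hfull h1 h2 hq with h3 | h3
  · exfalso
    have h4 := hscal Y₁ h1.1 h3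
    rw [h4, zero_add] at hYY
    have h5 := hev G hSy
    rw [← hyr, hcommp, hYY, h2.2, map_zero, ← hYY, hyr] at h5
    exact (smul_ne_zero hGc hy0) h5.symm
  · have h4 := hscal Y₂ h2.1 h3
    rw [h4, add_zero] at hYY
    refine ⟨c, ?_, ?_⟩
    · rw [hFdef, Polynomial.eval_map_algebraMap] at hFc
      exact hFc
    · rw [hYY]; exact h1.2

end Pool.Agent.H49M
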