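import Pool.Agent.Lib.H49M.B5

/-!
# B6: the identity component commutes with the centroid
-/

set_option autoImplicit false
set_option linter.unusedSectionVars false
namespace Pool.Agent.H49M
open Module Matrix Polynomial Pool.Agent.H53Toric

variable {ι : Type*} [Fintype ι] [DecidableEq ι]

variable {K : Type*} [Field K]

theorem B6a_spanK [CharZero K] {g : Submodule ℚ (Matrix ι ι ℚ)} (hg : QForm g)
    (hι : 2 ≤ Fintype.card ι) {X : Matrix ι ι K} (hX : X ∈ ext K g) :
    X ∈ Submodule.span K {Z | ∃ X ∈ ext K g, ∃ Y ∈ ext K g, Z = X * Y - Y * X} := by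
  have h1 : ext K g ≤
      Submodule.span K {Z | ∃ X ∈ ext K g, ∃ Y ∈ ext K g, Z = X * Y - Y * X} := by
    rw [ext]
    refine Submodule.span_le.2 ?_
    rintro _ ⟨Y, hY, rfl⟩
    have h2 := B1_span hg hι hY
    clear hY
    induction h2 using Submodule.span_induction with
    | mem Z hZ =>
      obtain ⟨A, hA, B, hB, rfl⟩ := hZ
      rw [B1_map_lie]
      exact Submodule.subset_span ⟨_, B1_mem hA, _, B1_mem hB, rfl⟩
    | zero =>
      have e : (0 : Matrix ι ι ℚ).map (algebraMap ℚ K) = 0 := by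
        ext i j
        simp
      rw [e]
      exact Submodule.zero_mem _
    | add a b _ _ ha hb =>
      rw [Matrix.map_add _ (map_add _)]
      exact Submodule.add_mem _ ha hb
    | smul c a _ ha =>
      have e : (c • a).map (algebraMap ℚ K) = (algebraMap ℚ K c) • a.map (algebraMap ℚ K) := by
        ext i j
        rw [Matrix.map_apply, Matrix.smul_apply, Matrix.smul_apply, Matrix.map_apply,
          smul_eq_mul, smul_eq_mul, map_mul]
      rw [e]
      exact Submodule.smul_mem _ _ ha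
  exact h1 hX

theorem B6a_comm [CharZero K] {g : Submodule ℚ (Matrix ι ι ℚ)} (hg : QForm g)
    (hι : 2 ≤ Fintype.card ι) {S T : Matrix ι ι K →ₗ[K] Matrix ι ι K}
    (hS : Cent (ext K g) S) (hT : Cent (ext K g) T) {X : Matrix ι ι K} (hX : X ∈ ext K g) :
    S (T X) = T (S X) := by
  have h1 := B6a_spanK hg hι hX
  clear hX
  induction h1 using Submodule.span_induction with
  | mem Z hZ =>
    obtain ⟨A, hA, B, hB, rfl⟩ := hZ
    have hl : ∀ {S : Matrix ι ι K →ₗ[K] Matrix ι ι K}, Cent (ext K g) S → ∀ A ∈ ext K g,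
        ∀ B ∈ ext K g, S (A * B - B * A) = S A * B - B * S A := by
      intro S hS A hA B hB
      have e : A * B - B * A = -(B * A - A * B) := by noncomm_ring
      rw [e, map_neg, hS.comm B hB A hA]
      noncomm_ring
    rw [hT.comm A hA B hB, hl hS A hA _ (hT.maps B hB), hl hS A hA B hB,
      hT.comm _ (hS.maps A hA) B hB]
  | zero => simp
  | add a b _ _ ha hb => rw [map_add, map_add, map_add, map_add, ha, hb]
  | smul c a _ ha => rw [map_smul, map_smul, map_smul, map_smul, ha]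

/-- Chunk B6a. The elements of the centroid of `ext K g` (as maps on `ext K g`) killed by the
separable polynomial `f` are finite in number. Let `R` be the set of all maps `S.domRestrict` on
`ext K g`: the centroid is a commutative algebra: for `S, S'` in it and `X, Y ∈ ext K g`,
`S S' [X, Y] = S [X, S' Y] = - S [S' Y, X] = - [S' Y, S X] = [S X, S' Y]`, symmetric, and brackets
span `ext K g` (`B1_span`). It is finite-dimensional and reduced: if `ν² = 0` then
`[ν X, ν Y] = ν² [X, Y] = 0`, so `ν (ext K g)` is an abelian ideal, zero by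
`lieSub_trivialRadical` (H53Toric.Core1, with `B1_irrK`, `B1_traceK`). A reduced commutative
finite-dimensional algebra is a finite product of fields (`IsArtinianRing.equivPi`), so a nonzero
polynomial has finitely many roots in it. (Alternatively: simultaneous diagonalisation of commuting
operators killed by the separable polynomial `f`.) -/
theorem B6_finite [CharZero K] [IsAlgClosed K] {g : Submodule ℚ (Matrix ι ι ℚ)} (hg : QForm g)
    (hι : 2 ≤ Fintype.card ι) {f : ℚ[X]} (hf : Irreducible f) :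
    Set.Finite {S : (ext K g) → Matrix ι ι K | ∃ S' : Matrix ι ι K →ₗ[K] Matrix ι ι K,
      Cent (ext K g) S' ∧ (∀ X ∈ ext K g, (aeval S' (f.map (algebraMap ℚ K))) X = 0) ∧
      S = fun X => S' X.1} := by
  classical
  obtain ⟨F, hFdef⟩ : ∃ F, F = f.map (algebraMap ℚ K) := ⟨_, rfl⟩
  rw [← hFdef]
  have hFsep : F.Separable := by rw [hFdef]; exact (hf.separable).map
  have hF0 : F ≠ 0 := hFsep.ne_zero
  let 𝒮 : Set (Module.End K (ext K g)) := {S | ∃ S' : Matrix ι ι K →ₗ[K] Matrix ι ι K,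
    Cent (ext K g) S' ∧ (∀ X ∈ ext K g, (aeval S' F) X = 0) ∧ ∀ x : ext K g, (S x).1 = S' x.1}
  have hcomm : ∀ S ∈ 𝒮, ∀ T ∈ 𝒮, Commute S T := by
    rintro S ⟨S', hS1, _, hS2⟩ T ⟨T', hT1, _, hT2⟩
    ext x : 1
    apply Subtype.ext
    rw [Module.End.mul_apply, Module.End.mul_apply, hS2, hT2, hT2, hS2,
      B6a_comm hg hι hS1 hT1 x.2]
  have haev : ∀ S ∈ 𝒮, aeval S F = 0 := by
    rintro S ⟨S', hS1, hS3, hS2⟩
    have h1 : S = S'.restrict hS1.maps := by
      ext x : 1
      exact Subtype.ext (hS2 x)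
    ext x : 1
    apply Subtype.ext
    rw [h1, B4_restrict hS1.maps, hS3 _ x.2]; rfl
  have hss : ∀ S ∈ 𝒮, S.IsSemisimple := fun S hS =>
    Module.End.isSemisimple_of_squarefree_aeval_eq_zero hFsep.squarefree (haev S hS)
  let φ : 𝒮 → Module.End K (ext K g) := fun S => S.1
  have hsup := Module.End.iSup_iInf_maxGenEigenspace_eq_top_of_iSup_maxGenEigenspace_eq_top_of_commute
    φ (fun i j _ => hcomm i.1 i.2 j.1 j.2) (fun i => Module.End.iSup_maxGenEigenspace_eq_top _)
  let N : (𝒮 → K) → Submodule K (ext K g) := fun χ => ⨅ i, (φ i).maxGenEigenspace (χ i)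
  have hind : iSupIndep N := Module.End.independent_iInf_maxGenEigenspace_of_forall_mapsTo φ
    (fun i j μ => Module.End.mapsTo_maxGenEigenspace_of_comm (hcomm j.1 j.2 i.1 i.2) μ)
  have hfin : {χ | N χ ≠ ⊥}.Finite := WellFoundedGT.finite_ne_bot_of_iSupIndep hind
  have hfin' : Finite {χ // N χ ≠ ⊥} := hfin
  have heig : ∀ χ : 𝒮 → K, ∀ v ∈ N χ, ∀ i : 𝒮, i.1 v = χ i • v := by
    intro χ v hv i
    have h1 : v ∈ (φ i).maxGenEigenspace (χ i) := (Submodule.mem_iInf _).1 hv i
    have h2 : (φ i).maxGenEigenspace (χ i) = (φ i).eigenspace (χ i) :=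
      (hss i.1 i.2).isFinitelySemisimple.maxGenEigenspace_eq_eigenspace _
    rw [h2] at h1
    exact Module.End.mem_eigenspace_iff.1 h1
  have hroot : ∀ χ : {χ // N χ ≠ ⊥}, ∀ i : 𝒮, χ.1 i ∈ F.roots.toFinset := by
    intro χ i
    obtain ⟨v, hv, hv0⟩ := Submodule.exists_mem_ne_zero_of_ne_bot χ.2
    rw [Multiset.mem_toFinset, Polynomial.mem_roots hF0]
    have h1 := heig χ.1 v hv i
    have h2 : aeval i.1 F v = F.eval (χ.1 i) • v :=
      Module.End.aeval_apply_of_hasEigenvector ⟨Module.End.mem_eigenspace_iff.2 h1, hv0⟩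
    rw [haev i.1 i.2, LinearMap.zero_apply] at h2
    exact (smul_eq_zero.1 h2.symm).resolve_right hv0
  let Φ : 𝒮 → ({χ // N χ ≠ ⊥} → F.roots.toFinset) := fun i χ => ⟨χ.1 i, hroot χ i⟩
  have hinj : Function.Injective Φ := by
    intro i j hij
    apply Subtype.ext
    have h1 : ∀ v : ext K g, v ∈ (⨆ χ : 𝒮 → K, ⨅ i, (φ i).maxGenEigenspace (χ i)) →
        i.1 v = j.1 v := by
      intro v hv
      induction hv using Submodule.iSup_induction' with
      | mem χ v hv =>
        by_cases hχ : N χ = ⊥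
        · have h2 : v ∈ N χ := hv
          rw [hχ, Submodule.mem_bot] at h2
          rw [h2, map_zero, map_zero]
        · rw [heig χ v hv i, heig χ v hv j]
          have h2 := congrArg Subtype.val (congrFun hij ⟨χ, hχ⟩)
          change χ i = χ j at h2
          rw [h2]
      | zero => rw [map_zero, map_zero]
      | add a b _ _ ha hb => rw [map_add, map_add, ha, hb]
    ext v : 1
    exact h1 v (by rw [hsup]; trivial)
  have h𝒮 : 𝒮.Finite := Finite.of_injective Φ hinj
  refine (h𝒮.image (fun S => fun x : ext K g => (S x).1)).subset ?_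
  rintro _ ⟨S', h1, h2, rfl⟩
  exact ⟨S'.restrict h1.maps, ⟨S', h1, h2, fun _ => rfl⟩, rfl⟩

/-- Matrix valued polynomial functions. -/
def B6b_Poly (F : Matrix ι ι K → Matrix ι ι K) : Prop :=
  ∃ M : Matrix ι ι (MvPolynomial (ι × ι) K), ∀ x, M.map (ev x) = F x

theorem B6b_poly_zar {F : Matrix ι ι K → Matrix ι ι K} (hF : B6b_Poly F)
    {S : Set (Matrix ι ι K)} (h0 : ∀ s ∈ S, F s = 0) {x : Matrix ι ι K} (hx : x ∈ zar S) :
    F x = 0 := by
  obtain ⟨M, hM⟩ := hF
  rw [← hM]
  ext i j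
  rw [Matrix.map_apply]
  apply hx
  intro s hs
  have h1 := congrFun (congrFun ((hM s).trans (h0 s hs)) i) j
  rwa [Matrix.map_apply] at h1

theorem B6b_poly_id : B6b_Poly (fun x : Matrix ι ι K => x) := by
  refine ⟨Matrix.of fun i j => MvPolynomial.X (i, j), fun x => ?_⟩
  ext i j
  rw [Matrix.map_apply, Matrix.of_apply, ev_X]

theorem B6b_poly_const (A : Matrix ι ι K) : B6b_Poly (fun _ : Matrix ι ι K => A) := by
  refine ⟨A.map MvPolynomial.C, fun x => ?_⟩
  ext i j
  rw [Matrix.map_apply, Matrix.map_apply, ev_C]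

theorem B6b_poly_mul {F F' : Matrix ι ι K → Matrix ι ι K} (h : B6b_Poly F) (h' : B6b_Poly F') :
    B6b_Poly (fun x => F x * F' x) := by
  obtain ⟨M, hM⟩ := h
  obtain ⟨M', hM'⟩ := h'
  refine ⟨M * M', fun x => ?_⟩
  change _ = F x * F' x
  rw [← hM, ← hM', Matrix.map_mul]

theorem B6b_poly_sub {F F' : Matrix ι ι K → Matrix ι ι K} (h : B6b_Poly F) (h' : B6b_Poly F') :
    B6b_Poly (fun x => F x - F' x) := by
  obtain ⟨M, hM⟩ := h
  obtain ⟨M', hM'⟩ := h'
  refine ⟨M - M', fun x => ?_⟩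
  change _ = F x - F' x
  rw [← hM, ← hM', Matrix.map_sub _ (map_sub _)]

theorem B6b_poly_adj {F : Matrix ι ι K → Matrix ι ι K} (h : B6b_Poly F) :
    B6b_Poly (fun x => (F x).adjugate) := by
  obtain ⟨M, hM⟩ := h
  refine ⟨M.adjugate, fun x => ?_⟩
  change _ = (F x).adjugate
  rw [← hM]
  exact RingHom.map_adjugate (ev x).toRingHom M

theorem B6b_poly_det {F F' : Matrix ι ι K → Matrix ι ι K} (h : B6b_Poly F) (h' : B6b_Poly F') :
    B6b_Poly (fun x => (F x).det • F' x) := by
  obtain ⟨M, hM⟩ := h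
  obtain ⟨M', hM'⟩ := h'
  refine ⟨M.det • M', fun x => ?_⟩
  change _ = (F x).det • F' x
  rw [← hM, ← hM']
  ext i j
  rw [Matrix.map_apply, Matrix.smul_apply, Matrix.smul_apply, smul_eq_mul, map_mul,
    Matrix.map_apply, smul_eq_mul]
  congr 1
  exact RingHom.map_det (ev x).toRingHom M

theorem B6b_poly_lin (T : Matrix ι ι K →ₗ[K] Matrix ι ι K) {F : Matrix ι ι K → Matrix ι ι K}
    (h : B6b_Poly F) : B6b_Poly (fun x => T (F x)) := by
  obtain ⟨M, hM⟩ := h
  refine ⟨Matrix.of fun i j => ∑ k, ∑ l, M k l * MvPolynomial.C (T (Matrix.single k l 1) i j),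
    fun x => ?_⟩
  have h1 : F x = ∑ k, ∑ l, (F x k l) • Matrix.single k l (1 : K) := by
    nth_rw 1 [Matrix.matrix_eq_sum_single (F x)]
    refine Finset.sum_congr rfl fun i _ => Finset.sum_congr rfl fun j _ => ?_
    rw [Matrix.smul_single, smul_eq_mul, mul_one]
  have h2 : T (F x) = ∑ k, ∑ l, (F x k l) • T (Matrix.single k l (1 : K)) := by
    nth_rw 1 [h1]
    rw [map_sum]
    refine Finset.sum_congr rfl fun i _ => ?_
    rw [map_sum]
    refine Finset.sum_congr rfl fun j _ => ?_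
    rw [map_smul]
  change _ = T (F x)
  rw [h2]
  ext i j
  rw [Matrix.map_apply, Matrix.of_apply, map_sum, Matrix.sum_apply]
  refine Finset.sum_congr rfl fun k _ => ?_
  rw [map_sum, Matrix.sum_apply]
  refine Finset.sum_congr rfl fun l _ => ?_
  rw [map_mul, ev_C, Matrix.smul_apply, smul_eq_mul, ← hM, Matrix.map_apply]

theorem B6b_lin_subR (x y a : Matrix ι ι K) (f : MvPolynomial (ι × ι) K) :
    lin x y (subR a f) = lin (x * a) (y * a) f := by
  have h1 : (lin x y).comp (subR a) = lin (x * a) (y * a) := by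
    have hX : ∀ (x y : Matrix ι ι K) (q : ι × ι), lin x y (MvPolynomial.X q) =
        Polynomial.C (x q.1 q.2) + Polynomial.X * Polynomial.C (y q.1 q.2) := by
      intro x y q
      rw [lin, MvPolynomial.aeval_X]
    have hC : ∀ c : K, lin x y (MvPolynomial.C c) = Polynomial.C c := by
      intro c
      rw [lin, MvPolynomial.aeval_C]; rfl
    apply MvPolynomial.algHom_ext
    intro p
    rw [AlgHom.comp_apply, hX, subR, MvPolynomial.aeval_X, map_sum,
      Matrix.mul_apply, Matrix.mul_apply, map_sum, map_sum, Finset.mul_sum,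
      ← Finset.sum_add_distrib]
    refine Finset.sum_congr rfl fun k _ => ?_
    rw [map_mul, hX, hC, map_mul, map_mul]
    ring
  exact congrArg (fun φ => φ f) h1

/-- The Lie algebra is stable under conjugation by the group. -/
theorem B6b_zlie_conj {S : Set (Matrix ι ι K)} (hS : ∀ a ∈ S, ∀ b ∈ S, a * b ∈ S)
    {g g' : Matrix ι ι K} (hg : g ∈ S) (hg' : g' ∈ S) (hgg : g * g' = 1) {A : Matrix ι ι K}
    (hA : A ∈ zlie S) : g * A * g' ∈ zlie S := by
  intro f hf s hs
  have h1 : ∀ t ∈ S, ev t (subR g' f) = 0 := by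
    intro t ht
    rw [ev_subR]
    exact hf _ (hS t ht g' hg')
  have h2 := hA _ h1 (s * g) (hS s hs g hg)
  rw [← eval_derivative_lin, B6b_lin_subR] at h2
  rw [← eval_derivative_lin]
  have e1 : s * g * g' = s := by rw [mul_assoc, hgg, mul_one]
  have e2 : s * g * A * g' = s * (g * A * g') := by noncomm_ring
  rwa [e1, e2] at h2

variable {L : Type*} [Field L] [Algebra L K] {G : Type*} [Group G]

/-- Conjugation by the image, in the coordinates of the form. -/
theorem B6b_stab [CharZero K] {g : Submodule ℚ (Matrix ι ι ℚ)} (hg : QForm g)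
    (hι : 2 ≤ Fintype.card ι) {ρ : G →* Matrix.GeneralLinearGroup ι L} {p p' : Matrix ι ι K}
    (hpp : p' * p = 1) (hP : ∀ X : Matrix ι ι K, X ∈ zlie (img K ρ ⊤) ↔
      ∃ c : K, ∃ Y ∈ ext K g, X = c • (1 : Matrix ι ι K) + p * Y * p') (σ : G)
    {Y : Matrix ι ι K} (hY : Y ∈ ext K g) :
    (p' * (ρ σ).1.map (algebraMap L K) * p) * Y * (p' * (ρ σ⁻¹).1.map (algebraMap L K) * p) ∈
      ext K g := by
  have hpp' : p * p' = 1 := mul_eq_one_comm.1 hpp
  have h1 : p * Y * p' ∈ zlie (img K ρ ⊤) := (hP _).2 ⟨0, Y, hY, by rw [zero_smul, zero_add]⟩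
  have h2 := B6b_zlie_conj (img_mul ρ ⊤) (g := (ρ σ).1.map (algebraMap L K))
    (g' := (ρ σ⁻¹).1.map (algebraMap L K)) ⟨σ, trivial, rfl⟩ ⟨σ⁻¹, trivial, rfl⟩ (img_inv ρ σ) h1
  obtain ⟨c, Y', hY', h3⟩ := (hP _).1 h2
  set r := (ρ σ).1.map (algebraMap L K) with hr
  set r' := (ρ σ⁻¹).1.map (algebraMap L K) with hr'
  have hrr : r' * r = 1 := img_inv' ρ σ
  have h4 : (p' * r * p) * Y * (p' * r' * p) = c • 1 + Y' := by
    calc (p' * r * p) * Y * (p' * r' * p) = p' * (r * (p * Y * p') * r') * p := by noncomm_ring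
      _ = p' * (c • 1 + p * Y' * p') * p := by rw [h3]
      _ = c • (p' * p) + (p' * p) * Y' * (p' * p) := by
        rw [mul_add, add_mul, mul_smul_comm, mul_one, smul_mul_assoc]
        congr 1
        noncomm_ring
      _ = _ := by rw [hpp, one_mul, mul_one]
  have h5 : ((p' * r * p) * Y * (p' * r' * p)).trace = 0 := by
    have e1 : (p' * r' * p) * (p' * r * p) = 1 := by
      calc (p' * r' * p) * (p' * r * p) = p' * r' * (p * p') * r * p := by noncomm_ring
        _ = p' * (r' * r) * p := by rw [hpp']; noncomm_ring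
        _ = 1 := by rw [hrr, mul_one, hpp]
    rw [Matrix.trace_mul_comm, ← mul_assoc, e1, one_mul]
    exact B1_traceK hg hι hY
  rw [h4, Matrix.trace_add, B1_traceK hg hι hY', add_zero, Matrix.trace_smul, Matrix.trace_one,
    smul_eq_mul] at h5
  have h6 : c = 0 := by
    exact (mul_eq_zero.1 h5).resolve_right (Nat.cast_ne_zero.2 (by omega))
  rw [h4, h6, zero_smul, zero_add]
  exact hY'

/-- The conjugate of an endomorphism. -/
noncomputable def B6b_cj (r r' : Matrix ι ι K) (T : Matrix ι ι K →ₗ[K] Matrix ι ι K) :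
    Matrix ι ι K →ₗ[K] Matrix ι ι K where
  toFun X := r * T (r' * X * r) * r'
  map_add' := by
    intro X Y
    rw [mul_add, add_mul, map_add, mul_add, add_mul]
  map_smul' := by
    intro c X
    rw [mul_smul_comm, smul_mul_assoc, map_smul, mul_smul_comm, smul_mul_assoc, RingHom.id_apply]

theorem B6b_cj_apply (r r' : Matrix ι ι K) (T : Matrix ι ι K →ₗ[K] Matrix ι ι K)
    (X : Matrix ι ι K) : B6b_cj r r' T X = r * T (r' * X * r) * r' := rfl

theorem B6b_cj_aeval {r r' : Matrix ι ι K} (h : r * r' = 1) (h' : r' * r = 1)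
    (T : Matrix ι ι K →ₗ[K] Matrix ι ι K) (f : K[X]) (X : Matrix ι ι K) :
    (aeval (B6b_cj r r' T) f) X = r * (aeval T f) (r' * X * r) * r' := by
  have hpow : ∀ (n : ℕ) (X : Matrix ι ι K), (B6b_cj r r' T ^ n) X = r * (T ^ n) (r' * X * r) * r' := by
    intro n
    induction n with
    | zero =>
      intro X
      rw [pow_zero, pow_zero]
      change X = r * (r' * X * r) * r'
      calc X = 1 * X * 1 := by rw [one_mul, mul_one]
        _ = (r * r') * X * (r * r') := by rw [h]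
        _ = _ := by noncomm_ring
    | succ n ih =>
      intro X
      rw [pow_succ, pow_succ, Module.End.mul_apply, Module.End.mul_apply, ih, B6b_cj_apply]
      congr 3
      calc r' * (r * T (r' * X * r) * r') * r = (r' * r) * T (r' * X * r) * (r' * r) := by
            noncomm_ring
        _ = _ := by rw [h', one_mul, mul_one]
  induction f using Polynomial.induction_on' with
  | add p q hp hq =>
    rw [map_add, map_add, LinearMap.add_apply, LinearMap.add_apply, hp, hq, mul_add, add_mul]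
  | monomial n c =>
    rw [aeval_monomial, Algebra.algebraMap_eq_smul_one, smul_mul_assoc, one_mul, aeval_monomial,
      Algebra.algebraMap_eq_smul_one, smul_mul_assoc, one_mul, LinearMap.smul_apply,
      LinearMap.smul_apply, hpow, mul_smul_comm, smul_mul_assoc]

theorem B6b_cj_cent {E : Submodule K (Matrix ι ι K)} {r r' : Matrix ι ι K} (h : r * r' = 1)
    (h' : r' * r = 1) (h1 : ∀ X ∈ E, r * X * r' ∈ E) (h2 : ∀ X ∈ E, r' * X * r ∈ E)
    {T : Matrix ι ι K →ₗ[K] Matrix ι ι K} (hT : Cent E T) : Cent E (B6b_cj r r' T) := by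
  constructor
  · intro X hX
    exact h1 _ (hT.maps _ (h2 X hX))
  · intro X hX Y hY
    rw [B6b_cj_apply, B6b_cj_apply]
    have e1 : r' * (X * Y - Y * X) * r = (r' * X * r) * (r' * Y * r) - (r' * Y * r) * (r' * X * r) := by
      calc r' * (X * Y - Y * X) * r = r' * (X * 1 * Y - Y * 1 * X) * r := by noncomm_ring
        _ = r' * (X * (r * r') * Y - Y * (r * r') * X) * r := by rw [h]
        _ = _ := by noncomm_ring
    rw [e1, hT.comm _ (h2 X hX) _ (h2 Y hY)]
    generalize T (r' * Y * r) = Z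
    calc r * (r' * X * r * Z - Z * (r' * X * r)) * r' =
        (r * r') * X * r * Z * r' - r * Z * r' * X * (r * r') := by noncomm_ring
      _ = X * (r * Z * r') - r * Z * r' * X := by rw [h]; noncomm_ring

/-- Chunk B6b. Let `P` be as in `HasForm`. For `σ ∈ G`, `r = P⁻¹ ρ(σ) P`: conjugation by `ρ σ`
preserves `zlie (img K ρ ⊤)` (left invariant vector fields; use
`zlie` is stable: for `A ∈ zlie`, `ρ A ρ⁻¹ ∈ zlie`, by right and left translations of `img`),
hence `X ↦ r X r⁻¹` preserves `K 1 + ext K g`, and `ext K g` itself (brackets of `K 1 + ext K g`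
span `ext K g`, `B1_span`). It is an automorphism of the Lie algebra `ext K g`, so
`S_σ := r (bc K T (r⁻¹ · r)) r⁻¹` is again in the centroid and killed by `f`. `G` acts on the finite
set of `B6_finite`, and the stabiliser `H` of `bc K T` has finite index. For `σ ∈ H` and
`Y ∈ ext K g`: `bc K T (r Y r⁻¹) = r (bc K T Y) r⁻¹`, i.e.
`bc K T (r Y adj r) r = det(r) r (bc K T Y)` (`adj` = adjugate), a polynomial identity in the
entries of `ρ σ`. It therefore holds for all `γ` in `zar (img K ρ H)`, in particular for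
`γ ∈ idc K ρ`. -/
theorem B6_conj [CharZero K] [IsAlgClosed K] {g : Submodule ℚ (Matrix ι ι ℚ)} (hg : QForm g)
    (hι : 2 ≤ Fintype.card ι) {T : Matrix ι ι ℚ →ₗ[ℚ] Matrix ι ι ℚ} (hT : Cent g T) {f : ℚ[X]}
    (hf : Irreducible f) (hfT : ∀ X ∈ g, (aeval T f) X = 0)
    {ρ : G →* Matrix.GeneralLinearGroup ι L} {P : Matrix.GeneralLinearGroup ι L}
    (hP : ∀ X : Matrix ι ι K, X ∈ zlie (img K ρ ⊤) ↔
      ∃ c : K, ∃ Y ∈ ext K g, X = c • (1 : Matrix ι ι K) +
        P.1.map (algebraMap L K) * Y * (P⁻¹).1.map (algebraMap L K))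
    {γ : Matrix ι ι K} (hγ : γ ∈ idc K ρ) {Y Z : Matrix ι ι K} (hY : Y ∈ ext K g)
    (hZ : Z ∈ ext K g)
    (hYZ : Z * ((P⁻¹).1.map (algebraMap L K) * γ * P.1.map (algebraMap L K)) =
      ((P⁻¹).1.map (algebraMap L K) * γ * P.1.map (algebraMap L K)) * Y) :
    bc K T Z * ((P⁻¹).1.map (algebraMap L K) * γ * P.1.map (algebraMap L K)) =
      ((P⁻¹).1.map (algebraMap L K) * γ * P.1.map (algebraMap L K)) * bc K T Y := by
  classical
  set p := P.1.map (algebraMap L K) with hp
  set p' := (P⁻¹).1.map (algebraMap L K) with hp'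
  have hpp : p' * p = 1 := by
    rw [hp, hp', ← Matrix.map_mul, ← Units.val_mul, inv_mul_cancel]
    simp
  have hpp' : p * p' = 1 := mul_eq_one_comm.1 hpp
  set T' := bc K T with hT'
  have hCT : Cent (ext K g) T' := B1_cent hT
  let r : G → Matrix ι ι K := fun σ => p' * (ρ σ).1.map (algebraMap L K) * p
  have hr1 : r 1 = 1 := by
    change p' * (ρ 1).1.map (algebraMap L K) * p = 1
    rw [map_one]
    simp [hpp]
  have hrm : ∀ σ τ, r (σ * τ) = r σ * r τ := by
    intro σ τ
    change p' * (ρ (σ * τ)).1.map (algebraMap L K) * p = _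
    rw [map_mul, Units.val_mul, Matrix.map_mul]
    change _ = p' * (ρ σ).1.map (algebraMap L K) * p * (p' * (ρ τ).1.map (algebraMap L K) * p)
    calc p' * ((ρ σ).1.map (algebraMap L K) * (ρ τ).1.map (algebraMap L K)) * p =
        p' * (ρ σ).1.map (algebraMap L K) * 1 * (ρ τ).1.map (algebraMap L K) * p := by noncomm_ring
      _ = p' * (ρ σ).1.map (algebraMap L K) * (p * p') * (ρ τ).1.map (algebraMap L K) * p := by
        rw [hpp']
      _ = _ := by noncomm_ring
  have hri : ∀ σ, r σ * r σ⁻¹ = 1 := fun σ => by rw [← hrm, mul_inv_cancel, hr1]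
  have hri' : ∀ σ, r σ⁻¹ * r σ = 1 := fun σ => by rw [← hrm, inv_mul_cancel, hr1]
  have hst : ∀ σ, ∀ X ∈ ext K g, r σ * X * r σ⁻¹ ∈ ext K g := fun σ X hX =>
    B6b_stab hg hι hpp hP σ hX
  have hst' : ∀ σ, ∀ X ∈ ext K g, r σ⁻¹ * X * r σ ∈ ext K g := fun σ X hX => by
    have := hst σ⁻¹ X hX
    rwa [inv_inv] at this
  let Φ : G → (ext K g) → Matrix ι ι K := fun σ X => B6b_cj (r σ) (r σ⁻¹) T' X.1
  have hΦ : ∀ σ, ∀ X (hX : X ∈ ext K g), Φ σ ⟨X, hX⟩ = r σ * T' (r σ⁻¹ * X * r σ) * r σ⁻¹ :=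
    fun σ X hX => rfl
  have hfin : (Set.range Φ).Finite := by
    refine (B6_finite (K := K) hg hι hf).subset ?_
    rintro _ ⟨σ, rfl⟩
    refine ⟨B6b_cj (r σ) (r σ⁻¹) T', B6b_cj_cent (hri σ) (hri' σ) (hst σ) (hst' σ) hCT, ?_, rfl⟩
    intro X hX
    rw [B6b_cj_aeval (hri σ) (hri' σ), B1_aeval hfT (hst' σ X hX), mul_zero, zero_mul]
  let H : Subgroup G :=
    { carrier := {σ | ∀ X ∈ ext K g, T' (r σ * X * r σ⁻¹) = r σ * T' X * r σ⁻¹}
      mul_mem' := by
        intro σ τ hσ hτ X hX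
        rw [_root_.mul_inv_rev, hrm, hrm]
        have e1 : r σ * r τ * X * (r τ⁻¹ * r σ⁻¹) = r σ * (r τ * X * r τ⁻¹) * r σ⁻¹ := by
          noncomm_ring
        rw [e1, hσ _ (hst τ X hX), hτ X hX]
        noncomm_ring
      one_mem' := by
        intro X hX
        rw [inv_one, hr1, one_mul, mul_one, one_mul, mul_one]
      inv_mem' := by
        intro σ hσ X hX
        rw [inv_inv]
        have h1 := hσ _ (hst' σ X hX)
        have e1 : r σ * (r σ⁻¹ * X * r σ) * r σ⁻¹ = X := by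
          calc r σ * (r σ⁻¹ * X * r σ) * r σ⁻¹ = (r σ * r σ⁻¹) * X * (r σ * r σ⁻¹) := by
                noncomm_ring
            _ = X := by rw [hri, one_mul, mul_one]
        rw [e1] at h1
        rw [h1]
        calc T' (r σ⁻¹ * X * r σ) = 1 * T' (r σ⁻¹ * X * r σ) * 1 := by rw [one_mul, mul_one]
          _ = (r σ⁻¹ * r σ) * T' (r σ⁻¹ * X * r σ) * (r σ⁻¹ * r σ) := by rw [hri']
          _ = _ := by noncomm_ring }
  have hHmem : ∀ σ, σ ∈ H ↔ ∀ X ∈ ext K g, T' (r σ * X * r σ⁻¹) = r σ * T' X * r σ⁻¹ :=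
    fun σ => Iff.rfl
  have hΦH : ∀ σ τ, Φ σ = Φ τ → σ⁻¹ * τ ∈ H := by
    intro σ τ hστ
    rw [hHmem]
    intro X hX
    rw [_root_.mul_inv_rev, inv_inv, hrm, hrm]
    -- take the value at r σ X r σ⁻¹ for the pair and translate
    have h1 := congrFun hστ ⟨r τ * X * r τ⁻¹, hst τ X hX⟩
    rw [hΦ, hΦ] at h1
    have e1 : r τ⁻¹ * (r τ * X * r τ⁻¹) * r τ = X := by
      calc r τ⁻¹ * (r τ * X * r τ⁻¹) * r τ = (r τ⁻¹ * r τ) * X * (r τ⁻¹ * r τ) := by noncomm_ring
        _ = X := by rw [hri', one_mul, mul_one]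
    rw [e1] at h1
    have e2 : r σ⁻¹ * r τ * X * (r τ⁻¹ * r σ) = r σ⁻¹ * (r τ * X * r τ⁻¹) * r σ := by noncomm_ring
    rw [e2]
    have e3 : T' (r σ⁻¹ * (r τ * X * r τ⁻¹) * r σ) =
        r σ⁻¹ * (r σ * T' (r σ⁻¹ * (r τ * X * r τ⁻¹) * r σ) * r σ⁻¹) * r σ := by
      calc T' (r σ⁻¹ * (r τ * X * r τ⁻¹) * r σ) =
          1 * T' (r σ⁻¹ * (r τ * X * r τ⁻¹) * r σ) * 1 := by rw [one_mul, mul_one]
        _ = (r σ⁻¹ * r σ) * T' (r σ⁻¹ * (r τ * X * r τ⁻¹) * r σ) * (r σ⁻¹ * r σ) := by rw [hri']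
        _ = _ := by noncomm_ring
    rw [e3, h1]
    noncomm_ring
  have hHfin : H.FiniteIndex := by
    have h1 : Finite (Set.range Φ) := hfin
    have h2 : Finite (G ⧸ H) := by
      refine Finite.of_injective
        (fun q : G ⧸ H => (⟨Φ q.out, Set.mem_range_self _⟩ : Set.range Φ)) ?_
      intro q q' hqq
      have h3 := hΦH _ _ (congrArg Subtype.val hqq)
      rw [← QuotientGroup.eq, QuotientGroup.out_eq', QuotientGroup.out_eq'] at h3
      exact h3
    exact Subgroup.finiteIndex_of_finite_quotient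
  -- the polynomial identity
  have hγ2 := hγ.2 H hHfin
  let F : Matrix ι ι K → Matrix ι ι K := fun x =>
    T' ((p' * x * p) * Y * (p' * x * p).adjugate) * (p' * x * p) -
      (p' * x * p).det • ((p' * x * p) * T' Y)
  have hc : B6b_Poly (fun x : Matrix ι ι K => p' * x * p) :=
    B6b_poly_mul (B6b_poly_mul (B6b_poly_const p') B6b_poly_id) (B6b_poly_const p)
  have hF : B6b_Poly F := B6b_poly_sub (B6b_poly_mul (B6b_poly_lin T'
    (B6b_poly_mul (B6b_poly_mul hc (B6b_poly_const Y)) (B6b_poly_adj hc))) hc)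
    (B6b_poly_det hc (B6b_poly_mul hc (B6b_poly_const (T' Y))))
  have hF0 : ∀ s ∈ img K ρ H, F s = 0 := by
    rintro _ ⟨σ, hσ, rfl⟩
    change T' (r σ * Y * (r σ).adjugate) * r σ - (r σ).det • (r σ * T' Y) = 0
    have h1 : (r σ).adjugate = (r σ).det • r σ⁻¹ := by
      calc (r σ).adjugate = (r σ).adjugate * (r σ * r σ⁻¹) := by rw [hri, mul_one]
        _ = ((r σ).adjugate * r σ) * r σ⁻¹ := (mul_assoc _ _ _).symm
        _ = _ := by rw [Matrix.adjugate_mul, smul_mul_assoc, one_mul]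
    rw [h1, mul_smul_comm, map_smul, (hHmem σ).1 hσ Y hY, smul_mul_assoc, ← smul_sub]
    have e1 : r σ * T' Y * r σ⁻¹ * r σ - r σ * T' Y = 0 := by
      rw [mul_assoc (r σ * T' Y), hri', mul_one, sub_self]
    rw [e1, smul_zero]
  have h1 := B6b_poly_zar hF hF0 hγ2
  change T' ((p' * γ * p) * Y * (p' * γ * p).adjugate) * (p' * γ * p) -
      (p' * γ * p).det • ((p' * γ * p) * T' Y) = 0 at h1
  have hdet : (p' * γ * p).det ≠ 0 := by
    rw [Matrix.det_mul, Matrix.det_mul]
    have h2 : p'.det * p.det = 1 := by rw [← Matrix.det_mul, hpp, Matrix.det_one]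
    intro h3
    have h4 : γ.det * (p'.det * p.det) = 0 := by rw [← h3]; ring
    rw [h2, mul_one] at h4
    exact hγ.1 h4
  rw [← hYZ, mul_assoc Z, Matrix.mul_adjugate, mul_smul_comm, mul_one, map_smul, smul_mul_assoc,
    ← smul_sub] at h1
  exact sub_eq_zero.1 ((smul_eq_zero.1 h1).resolve_left hdet)

end Pool.Agent.H49M
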