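import Pool.Agent.Lib.H49M.B5
import Pool.Agent.Lib.H49M.B6

/-!
# B7: the minimal polynomial has a root in the local field
-/

set_option autoImplicit false
set_option linter.unusedSectionVars false
namespace Pool.Agent.H49M
open Module Matrix Polynomial Pool.Agent.H53Toric

variable {ι : Type*} [Fintype ι] [DecidableEq ι]

variable {K : Type*} [Field K] {L : Type*} [Field L] [Algebra L K] {G : Type*} [Group G]

theorem B7_map_rat [CharZero K] (τ : K ≃ₐ[L] K) (Y : Matrix ι ι ℚ) :
    (Y.map (algebraMap ℚ K)).map τ = Y.map (algebraMap ℚ K) := by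
  ext i j
  rw [Matrix.map_apply, Matrix.map_apply, eq_ratCast, map_ratCast]

theorem B7_ext_map [CharZero K] (τ : K ≃ₐ[L] K) {g : Submodule ℚ (Matrix ι ι ℚ)}
    {X : Matrix ι ι K} (hX : X ∈ ext K g) : X.map τ ∈ ext K g := by
  rw [ext] at hX
  induction hX using Submodule.span_induction with
  | mem Z hZ =>
    obtain ⟨Y, hY, rfl⟩ := hZ
    rw [B7_map_rat]
    exact B1_mem hY
  | zero =>
    have e : (0 : Matrix ι ι K).map τ = 0 := by
      ext i j
      simp
    rw [e]
    exact (ext K g).zero_mem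
  | add a b _ _ ha hb =>
    rw [Matrix.map_add _ (map_add τ)]
    exact (ext K g).add_mem ha hb
  | smul c a _ ha =>
    have e : (c • a).map τ = τ c • a.map τ := by
      ext i j
      rw [Matrix.map_apply, Matrix.smul_apply, Matrix.smul_apply, smul_eq_mul, smul_eq_mul,
        map_mul, Matrix.map_apply]
    rw [e]
    exact (ext K g).smul_mem _ ha

theorem B7_bc_map [CharZero K] (τ : K ≃ₐ[L] K) (T : Matrix ι ι ℚ →ₗ[ℚ] Matrix ι ι ℚ)
    (X : Matrix ι ι K) : bc K T (X.map τ) = (bc K T X).map τ := by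
  change ∑ i, ∑ j, X.map τ i j • (T (Matrix.single i j 1)).map (algebraMap ℚ K) =
    (∑ i, ∑ j, X i j • (T (Matrix.single i j 1)).map (algebraMap ℚ K)).map τ
  ext a b
  rw [Matrix.map_apply, Matrix.sum_apply, Matrix.sum_apply, map_sum]
  refine Finset.sum_congr rfl fun i _ => ?_
  rw [Matrix.sum_apply, Matrix.sum_apply, map_sum]
  refine Finset.sum_congr rfl fun j _ => ?_
  rw [Matrix.smul_apply, Matrix.smul_apply, Matrix.map_apply, Matrix.map_apply, smul_eq_mul,
    smul_eq_mul, map_mul, eq_ratCast, map_ratCast]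

/-- Chunk B7. Let `P` be as in `HasForm`, `p = P.map`, `p' = P⁻¹.map`, and `y` as in `HasPoint`;
`y = c₀ + p Y p'` with `Y ∈ ext K g`. `Y ≠ 0` (`y` is not scalar) and `Y` satisfies a quadratic
equation (from `y² = y` or `y² = 0`), so by `B5_factor` `bc K T Y = c Y`, `aeval c f = 0`. Let
`τ : K ≃ₐ[L] K`. `τ` acts on entries; `p, p'` and rational matrices are fixed, `ext K g` is
`τ`-stable and `bc K T (Y.map τ) = (bc K T Y).map τ = τ(c) Y.map τ`. With `γ` from `HasPoint`,
`r = p' γ p` (invertible): `(τ c₀ + Y.map τ) r = r (c₀ + Y)`. Taking traces of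
`τ c₀ + Y.map τ = r (c₀ + Y) r⁻¹` and `B1_traceK`: `τ c₀ = c₀` (`card ι ≠ 0` in `K`), so
`(Y.map τ) r = r Y`. By `B6_conj` with `Z = Y.map τ`: `τ(c) (Y.map τ) r = r (c Y)`, hence
`(τ c - c) (Y.map τ) r = 0` and `τ c = c`. So `c` is fixed by all automorphisms of `K` over `L`
and `c ∈ L` (`K / L` algebraic, algebraically closed, characteristic zero: Galois;
`InfiniteGalois.mem_bot_iff_fixed` or `IsGalois.mem_bot_iff_fixed`). -/
theorem B7_root [CharZero L] [CharZero K] [IsAlgClosed K] [Algebra.IsAlgebraic L K]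
    {g : Submodule ℚ (Matrix ι ι ℚ)} (hg : QForm g)
    (hι : 2 ≤ Fintype.card ι) {T : Matrix ι ι ℚ →ₗ[ℚ] Matrix ι ι ℚ} (hT : Cent g T) {f : ℚ[X]}
    (hf : Irreducible f) (hfT : ∀ X ∈ g, (aeval T f) X = 0)
    {ρ : G →* Matrix.GeneralLinearGroup ι L} (hform : HasForm K ρ g) (hpt : HasPoint K ρ) :
    ∃ x : L, aeval x f = 0 := by
  obtain ⟨P, hP⟩ := hform
  obtain ⟨y, hy, hyq, hyns, hyτ⟩ := hpt
  obtain ⟨c₀, Y, hY, hyY⟩ := (hP y).1 hy
  have hP' := hP
  set p := P.1.map (algebraMap L K) with hp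
  set p' := (P⁻¹).1.map (algebraMap L K) with hp'
  have hpp : p' * p = 1 := by
    rw [hp, hp', ← Matrix.map_mul, ← Units.val_mul, inv_mul_cancel]
    simp
  have hpp' : p * p' = 1 := mul_eq_one_comm.1 hpp
  have hcard : ((Fintype.card ι : ℕ) : K) ≠ 0 := Nat.cast_ne_zero.2 (by omega)
  have hconj : p' * y * p = c₀ • 1 + Y := by
    rw [hyY, mul_add, add_mul, mul_smul_comm, mul_one, smul_mul_assoc, hpp]
    congr 1
    calc p' * (p * Y * p') * p = (p' * p) * Y * (p' * p) := by noncomm_ring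
      _ = Y := by rw [hpp, one_mul, mul_one]
  have hY0 : Y ≠ 0 := by
    rintro rfl
    rw [mul_zero, zero_mul, add_zero] at hyY
    exact hyns c₀ hyY
  have hsq : (p' * y * p) * (p' * y * p) = p' * (y * y) * p := by
    calc (p' * y * p) * (p' * y * p) = p' * y * (p * p') * y * p := by noncomm_ring
      _ = _ := by rw [hpp', mul_one]; noncomm_ring
  have hquad : ∃ a b : K, Y * Y + a • Y + b • (1 : Matrix ι ι K) = 0 := by
    have e1 : (c₀ • (1 : Matrix ι ι K) + Y) * (c₀ • 1 + Y) =
        (c₀ * c₀) • 1 + (2 * c₀) • Y + Y * Y := by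
      simp only [add_mul, mul_add, smul_mul_assoc, mul_smul_comm, one_mul, mul_one, smul_smul]
      module
    rcases hyq with h1 | h1
    · rw [h1, hconj, e1] at hsq
      refine ⟨2 * c₀ - 1, c₀ * c₀ - c₀, ?_⟩
      have e2 : Y * Y + (2 * c₀ - 1) • Y + (c₀ * c₀ - c₀) • (1 : Matrix ι ι K) =
          ((c₀ * c₀) • 1 + (2 * c₀) • Y + Y * Y) - (c₀ • 1 + Y) := by module
      rw [e2, hsq, sub_self]
    · rw [h1, hconj, e1, mul_zero, zero_mul] at hsq
      refine ⟨2 * c₀, c₀ * c₀, ?_⟩
      rw [← hsq]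
      module
  obtain ⟨a, b, hq⟩ := hquad
  obtain ⟨c, hcf, hcY⟩ := B5_factor hg hι hT hf hfT hY hY0 hq
  have hfix : ∀ τ : K ≃ₐ[L] K, τ c = c := by
    intro τ
    obtain ⟨γ, hγ, hyγ⟩ := hyτ τ
    have hpτ : p.map τ = p := by
      ext i j
      rw [hp, Matrix.map_apply, Matrix.map_apply, AlgEquiv.commutes]
    have hpτ' : p'.map τ = p' := by
      ext i j
      rw [hp', Matrix.map_apply, Matrix.map_apply, AlgEquiv.commutes]
    have h1 : p' * y.map τ * p = τ c₀ • 1 + Y.map τ := by
      have h2 : (p' * y * p).map τ = p' * y.map τ * p := by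
        have h3 : (p' * y * p).map (τ : K →+* K) =
            p'.map (τ : K →+* K) * y.map (τ : K →+* K) * p.map (τ : K →+* K) := by
          rw [Matrix.map_mul, Matrix.map_mul]
        change (p' * y * p).map τ = p'.map τ * y.map τ * p.map τ at h3
        rw [h3, hpτ, hpτ']
      rw [← h2, hconj]
      ext i j
      rw [Matrix.map_apply, Matrix.add_apply, Matrix.smul_apply, map_add, smul_eq_mul, map_mul,
        Matrix.add_apply, Matrix.smul_apply, Matrix.map_apply, smul_eq_mul]
      congr 2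
      rw [Matrix.one_apply]
      split_ifs
      · rw [map_one]
      · rw [map_zero]
    obtain ⟨r, hr⟩ : ∃ r, r = p' * γ * p := ⟨_, rfl⟩
    have hdet : r.det ≠ 0 := by
      rw [hr, Matrix.det_mul, Matrix.det_mul]
      have h2 : p'.det * p.det = 1 := by rw [← Matrix.det_mul, hpp, Matrix.det_one]
      intro h3
      have h4 : γ.det * (p'.det * p.det) = 0 := by rw [← h3]; ring
      rw [h2, mul_one] at h4
      exact hγ.1 h4
    have hru : IsUnit r.det := isUnit_iff_ne_zero.2 hdet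
    have h2 : (τ c₀ • 1 + Y.map τ) * r = r * (c₀ • 1 + Y) := by
      rw [← h1, ← hconj, hr]
      calc p' * y.map τ * p * (p' * γ * p) = p' * y.map τ * (p * p') * γ * p := by noncomm_ring
        _ = p' * (y.map τ * γ) * p := by rw [hpp', mul_one]; noncomm_ring
        _ = p' * γ * 1 * y * p := by rw [hyγ]; noncomm_ring
        _ = p' * γ * (p * p') * y * p := by rw [hpp']
        _ = _ := by noncomm_ring
    have hYτ : Y.map τ ∈ ext K g := B7_ext_map τ hY
    have h3 : τ c₀ = c₀ := by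
      have h4 : ((τ c₀ • 1 + Y.map τ) * r * r⁻¹).trace = (r * (c₀ • 1 + Y) * r⁻¹).trace := by
        rw [h2]
      rw [mul_assoc, Matrix.mul_nonsing_inv _ hru, mul_one, Matrix.trace_mul_comm, ← mul_assoc,
        Matrix.nonsing_inv_mul _ hru, one_mul, Matrix.trace_add, Matrix.trace_add,
        B1_traceK hg hι hY, B1_traceK hg hι hYτ, add_zero, add_zero, Matrix.trace_smul,
        Matrix.trace_smul, Matrix.trace_one, smul_eq_mul, smul_eq_mul] at h4
      exact mul_right_cancel₀ hcard h4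
    have h4 : Y.map τ * r = r * Y := by
      rw [h3, add_mul, mul_add, smul_mul_assoc, mul_smul_comm, one_mul, mul_one] at h2
      exact add_left_cancel h2
    have h5 : bc K T (Y.map τ) * r = r * bc K T Y := by
      rw [hr]
      exact B6_conj hg hι hT hf hfT hP' hγ hY hYτ (by rw [← hr]; exact h4)
    have h6 : (c • Y).map τ = τ c • Y.map τ := by
      ext i j
      rw [Matrix.map_apply, Matrix.smul_apply, Matrix.smul_apply, smul_eq_mul, smul_eq_mul,
        map_mul, Matrix.map_apply]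
    rw [B7_bc_map, hcY, h6, smul_mul_assoc, mul_smul_comm, ← h4, ← sub_eq_zero, ← sub_smul] at h5
    rcases smul_eq_zero.1 h5 with h7 | h7
    · exact sub_eq_zero.1 h7
    · exfalso
      apply hY0
      have h8 : r⁻¹ * (r * Y) = 0 := by rw [← h4, h7, mul_zero]
      rwa [← mul_assoc, Matrix.nonsing_inv_mul _ hru, one_mul] at h8
  have hGal : IsGalois L K := by
    have : IsAlgClosure L K := ⟨inferInstance, inferInstance⟩
    exact IsAlgClosure.isGalois L K
  obtain ⟨x, hx⟩ := IntermediateField.mem_bot.1 ((InfiniteGalois.mem_bot_iff_fixed c).2 hfix)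
  refine ⟨x, ?_⟩
  rw [← hx, Polynomial.aeval_algebraMap_apply] at hcf
  exact (map_eq_zero_iff _ (algebraMap L K).injective).1 hcf

end Pool.Agent.H49M
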