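import Pool.Agent.Lib.H49M.B7

/-!
# B8: the dimension is a power
-/

set_option autoImplicit false
set_option linter.unusedSectionVars false
namespace Pool.Agent.H49M
open Module Matrix Polynomial Pool.Agent.H53Toric

variable {ι : Type*} [Fintype ι] [DecidableEq ι]

/-- Burnside's theorem for a simple module. -/
theorem B8a_burnside {K : Type*} [Field K] [IsAlgClosed K] {A M : Type*} [Ring A] [Algebra K A]
    [AddCommGroup M] [Module K M] [Module A M] [IsScalarTower K A M] [FiniteDimensional K M]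
    [IsSimpleModule A M] (f : M →ₗ[K] M) : ∃ r : A, Algebra.lsmul K K M r = f := by
  classical
  have hbij := IsSimpleModule.algebraMap_end_bijective_of_isAlgClosed (A := A) (V := M) K
  let f' : End (End A M) M :=
    { toFun := f
      map_add' := f.map_add
      map_smul' := by
        intro φ m
        obtain ⟨k, rfl⟩ := hbij.2 φ
        simp }
  let B := Module.finBasis K M
  obtain ⟨r, hr⟩ := jacobson_density f' (Finset.univ.image B)
  refine ⟨r, ?_⟩
  apply B.ext
  intro i
  have := hr (B i) (Finset.mem_image_of_mem _ (Finset.mem_univ i))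
  simpa using! this.symm

/-- A minimal stable subspace. -/
theorem B8a_exists {K : Type*} [Field K] {A V : Type*} [Ring A] [AddCommGroup V] [Module K V]
    [Module A V] [FiniteDimensional K V] [Nontrivial V] : ∃ W : Submodule K V, W ≠ ⊥ ∧
      (∀ a : A, ∀ v ∈ W, a • v ∈ W) ∧ ∀ N : Submodule K V, N ≤ W → N ≠ ⊥ →
        (∀ a : A, ∀ v ∈ N, a • v ∈ N) → N = W := by
  have hwf : WellFounded ((· < ·) : Submodule K V → Submodule K V → Prop) :=
    (inferInstance : WellFoundedLT (Submodule K V)).wf
  obtain ⟨W, ⟨h1, h2⟩, h3⟩ := hwf.has_min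
    {W : Submodule K V | W ≠ ⊥ ∧ ∀ a : A, ∀ v ∈ W, a • v ∈ W}
    ⟨⊤, top_ne_bot, fun a v _ ↦ Submodule.mem_top⟩
  refine ⟨W, h1, h2, fun N hN hN0 hNs ↦ ?_⟩
  by_contra hne
  exact h3 N ⟨hN0, hNs⟩ (lt_of_le_of_ne hN hne)

/-- Burnside's theorem for an irreducible subspace. -/
theorem B8a_irr {K : Type*} [Field K] [IsAlgClosed K] {A V : Type*} [Ring A] [Algebra K A]
    [AddCommGroup V] [Module K V] [Module A V] [IsScalarTower K A V] [FiniteDimensional K V]
    (W : Submodule K V) (hW : W ≠ ⊥) (hst : ∀ a : A, ∀ v ∈ W, a • v ∈ W)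
    (hirr : ∀ N : Submodule K V, N ≤ W → N ≠ ⊥ → (∀ a : A, ∀ v ∈ N, a • v ∈ N) → N = W)
    (f : W →ₗ[K] W) : ∃ a : A, ∀ w : W, ((f w : W) : V) = a • (w : V) := by
  let S : Submodule A V :=
    { carrier := W
      zero_mem' := W.zero_mem
      add_mem' := W.add_mem
      smul_mem' := fun a v hv ↦ hst a v hv }
  have hS : IsAtom S := by
    refine ⟨fun h ↦ ?_, fun T hT ↦ ?_⟩
    · obtain ⟨w, hw, hw0⟩ := W.ne_bot_iff.1 hW
      have h1 : w ∈ S := hw
      rw [h, Submodule.mem_bot] at h1
      exact hw0 h1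
    · by_contra hT0
      obtain ⟨w, hw, hw0⟩ := T.ne_bot_iff.1 hT0
      have h1 := hirr (T.restrictScalars K) (fun v hv ↦ hT.le hv)
        (fun h ↦ hw0 (by
          have h2 : w ∈ T.restrictScalars K := hw
          rw [h, Submodule.mem_bot] at h2
          exact h2)) (fun a v hv ↦ T.smul_mem a hv)
      refine hT.not_ge fun v hv ↦ ?_
      have h2 : v ∈ W := hv
      rw [← h1] at h2
      exact h2
  have hsimple : IsSimpleModule A S := isSimpleModule_iff_isAtom.2 hS
  have hfd : FiniteDimensional K S :=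
    Module.Finite.of_injective (S.restrictScalars K).subtype Subtype.val_injective
  let f' : S →ₗ[K] S :=
    { toFun := fun w ↦ ⟨(f ⟨w.1, w.2⟩ : W), (f ⟨w.1, w.2⟩).2⟩
      map_add' := fun v w ↦ Subtype.ext (congrArg Subtype.val (f.map_add ⟨v.1, v.2⟩ ⟨w.1, w.2⟩))
      map_smul' := fun c v ↦ Subtype.ext (congrArg Subtype.val (f.map_smul c ⟨v.1, v.2⟩)) }
  obtain ⟨a, ha⟩ := B8a_burnside (A := A) f'
  refine ⟨a, fun w ↦ ?_⟩
  have h1 := LinearMap.congr_fun ha ⟨w.1, w.2⟩
  exact (congrArg Subtype.val h1).symm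

section B8a

variable {K : Type*} [Field K] {V : Type*} [AddCommGroup V] [Module K V]

/-- Stable subspaces are trivial. -/
theorem B8a_stable {A₁ A₂ : Subalgebra K (Module.End K V)} (hfull : A₁ ⊔ A₂ = ⊤)
    (N : Submodule K V) (h1 : ∀ a ∈ A₁, ∀ v ∈ N, a v ∈ N) (h2 : ∀ a ∈ A₂, ∀ v ∈ N, a v ∈ N)
    {v : V} (hv : v ∈ N) (hv0 : v ≠ 0) : N = ⊤ := by
  let B : Subalgebra K (Module.End K V) :=
    { carrier := {f | ∀ v ∈ N, f v ∈ N}
      mul_mem' := fun {f g} hf hg v hv ↦ hf _ (hg v hv)
      add_mem' := fun {f g} hf hg v hv ↦ N.add_mem (hf v hv) (hg v hv)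
      algebraMap_mem' := fun c v hv ↦ N.smul_mem c hv }
  have hB : (⊤ : Subalgebra K (Module.End K V)) ≤ B := by
    rw [← hfull]
    exact sup_le h1 h2
  rw [eq_top_iff]
  intro w _
  obtain ⟨f, hf⟩ := Module.Projective.exists_dual_ne_zero K hv0
  have h3 := hB (show ((f.smulRight w : V →ₗ[K] V) : Module.End K V) ∈ _ from Algebra.mem_top) v hv
  have h4 : (f.smulRight w : V →ₗ[K] V) v = f v • w := rfl
  rw [h4] at h3
  exact (N.smul_mem_iff hf).1 h3

theorem B8a_sub {A : Subalgebra K (Module.End K V)} (a : A) (v : V) :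
    a • v = (a : Module.End K V) v := rfl

end B8a

/-- Chunk B8a. Commuting subalgebras generating all operators of `V`. Let `W` be a minimal nonzero
`A₁`-stable subspace; by Burnside (see `P4_burnside`, or `burnside_surj` in Helper71/Kolchin)
`A₁ → End W` is surjective; its kernel `N` kills the span of `A₂ W`, which is stable under `A₁` and
`A₂`, hence is `V`: so `N = 0` and `A₁ ≅ End W`, `dim A₁ = a²`, `a = dim W`. Let `ε ∈ A₁` correspond to
a rank one idempotent of `W` and `M = range ε`; it is `A₂`-stable. For `0 ≠ m ∈ M`: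
`V = A₁ A₂ m`, so `M = ε A₁ A₂ ε m = (ε A₁ ε) A₂ m = A₂ m`: `M` is irreducible under `A₂`, so
`A₂ → End M` is surjective; it is injective because `b M = 0` gives `b V = b A₁ M = A₁ b M = 0`
(`V = A₁ A₂ m = A₁ M`). Finally `1 = ε₁ + ... + ε_a` with conjugate orthogonal idempotents of `A₁`, so
`dim V = a dim M`. -/
theorem B8_two {K : Type*} [Field K] [IsAlgClosed K] {V : Type*} [AddCommGroup V] [Module K V]
    [FiniteDimensional K V] [Nontrivial V] {A₁ A₂ : Subalgebra K (Module.End K V)}
    (hcomm : ∀ X ∈ A₁, ∀ Y ∈ A₂, X * Y = Y * X) (hfull : A₁ ⊔ A₂ = ⊤) :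
    ∃ (a : ℕ) (M : Submodule K V), Nonempty (A₂ ≃ₐ[K] Module.End K M) ∧
      finrank K A₁ = a * a ∧ finrank K V = a * finrank K M := by
  classical
  obtain ⟨S, hSb, hSst, hSirr⟩ := B8a_exists (K := K) (A := A₁) (V := V)
  obtain ⟨s, hs, hs0'⟩ := S.ne_bot_iff.1 hSb
  have hSn : Nontrivial S := ⟨⟨⟨s, hs⟩, 0, fun h ↦ hs0' (congrArg Subtype.val h)⟩⟩
  -- the kernel is trivial
  have hker : ∀ x : A₁, (∀ w ∈ S, (x : Module.End K V) w = 0) → x = 0 := by
    let N : Submodule K V :=
      { carrier := {v | ∀ x : A₁, (∀ w ∈ S, (x : Module.End K V) w = 0) →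
          (x : Module.End K V) v = 0}
        zero_mem' := fun x _ ↦ map_zero _
        add_mem' := fun {v w} hv hw x hx ↦ by rw [map_add, hv x hx, hw x hx, add_zero]
        smul_mem' := fun c v hv x hx ↦ by rw [map_smul, hv x hx, smul_zero] }
    have hN : N = ⊤ := by
      refine B8a_stable hfull N (fun a ha v hv x hx ↦ ?_) (fun a ha v hv x hx ↦ ?_)
        (v := s) (fun x hx ↦ hx s hs) hs0'
      · exact hv (x * ⟨a, ha⟩) fun w hw ↦ hx _ (hSst ⟨a, ha⟩ w hw)
      · have h1 := LinearMap.congr_fun (hcomm x x.2 a ha) v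
        change (x : Module.End K V) (a v) = a ((x : Module.End K V) v) at h1
        rw [h1, hv x hx, map_zero]
    intro x hx
    apply Subtype.ext
    ext v
    have : v ∈ N := hN ▸ Submodule.mem_top
    exact this x hx
  let ρ : A₁ →ₐ[K] Module.End K S :=
    { toFun := fun x ↦ (x : Module.End K V).restrict (hSst x)
      map_one' := rfl
      map_mul' := fun x y ↦ rfl
      map_zero' := rfl
      map_add' := fun x y ↦ rfl
      commutes' := fun c ↦ rfl }
  have hρ : ∀ (x : A₁) (w : S), ((ρ x w : S) : V) = (x : Module.End K V) w := fun x w ↦ rfl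
  have hbij : Function.Bijective ρ := by
    constructor
    · rw [injective_iff_map_eq_zero]
      intro x hx
      refine hker x fun w hw ↦ ?_
      rw [← hρ x ⟨w, hw⟩, hx]
      rfl
    · intro f
      obtain ⟨a, ha⟩ := B8a_irr (A := A₁) S hSb hSst hSirr f
      exact ⟨a, LinearMap.ext fun w ↦ Subtype.ext (ha w).symm⟩
  let θ : A₁ ≃ₐ[K] Module.End K S := AlgEquiv.ofBijective ρ hbij
  have hθ : ∀ (x : A₁) (w : S), ((θ x w : S) : V) = (x : Module.End K V) w := fun x w ↦ rfl
  let b := Module.finBasis K S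
  have hpos : 0 < finrank K S := Module.finrank_pos
  let i0 : Fin (finrank K S) := ⟨0, hpos⟩
  let u : Fin (finrank K S) → Fin (finrank K S) → Module.End K S :=
    fun i j ↦ (b.coord j).smulRight (b i)
  have hu : ∀ i j s, u i j s = b.coord j s • b i := fun i j s ↦ rfl
  have huu : ∀ i j k l, u i j * u k l = (if j = k then (1 : K) else 0) • u i l := by
    intro i j k l
    refine LinearMap.ext fun s ↦ ?_
    have h1 : b.coord j (b k) = if j = k then (1 : K) else 0 := by
      rw [Basis.coord_apply, Basis.repr_self, Finsupp.single_apply]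
      by_cases h : k = j
      · rw [if_pos h, if_pos h.symm]
      · rw [if_neg h, if_neg (Ne.symm h)]
    rw [Module.End.mul_apply, hu k l, map_smul, hu i j, h1, LinearMap.smul_apply, hu i l,
      smul_smul, smul_smul, mul_comm]
  have husum : ∑ i, u i i = 1 := by
    ext s
    rw [LinearMap.sum_apply]
    simp only [hu, Basis.coord_apply]
    rw [b.sum_repr]
    rfl
  let E : Fin (finrank K S) → Fin (finrank K S) → A₁ := fun i j ↦ θ.symm (u i j)
  have hEE : ∀ i j k l, E i j * E k l = (if j = k then (1 : K) else 0) • E i l := by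
    intro i j k l
    change θ.symm (u i j) * θ.symm (u k l) = _ • θ.symm (u i l)
    rw [← map_mul, huu, map_smul]
  have hEsum : ∑ i, E i i = 1 := by
    change ∑ i, θ.symm (u i i) = 1
    rw [← map_sum, husum, map_one]
  -- corners
  have hcor : ∀ x : A₁, ∃ c : K, E i0 i0 * x * E i0 i0 = c • E i0 i0 := by
    intro x
    refine ⟨b.coord i0 (θ x (b i0)), ?_⟩
    apply θ.injective
    rw [map_mul, map_mul, map_smul]
    have h1 : θ (E i0 i0) = u i0 i0 := θ.apply_symm_apply _
    rw [h1]
    refine LinearMap.ext fun s ↦ ?_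
    rw [Module.End.mul_apply, Module.End.mul_apply, LinearMap.smul_apply, hu i0 i0 s, map_smul,
      map_smul, hu i0 i0, smul_smul, smul_smul, mul_comm]
  let ε : Module.End K V := (E i0 i0 : Module.End K V)
  have hε : ε * ε = ε := by
    have := congrArg (Subtype.val) (hEE i0 i0 i0 i0)
    rw [if_pos rfl, one_smul] at this
    exact this
  have hε0 : ε ≠ 0 := by
    intro h
    have h1 : E i0 i0 = 0 := Subtype.ext h
    have h2 : u i0 i0 = 0 := by
      have h3 : θ (E i0 i0) = u i0 i0 := θ.apply_symm_apply _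
      rw [← h3, h1, map_zero]
    have h4 := LinearMap.congr_fun h2 (b i0)
    rw [hu, Basis.coord_apply, Basis.repr_self, Finsupp.single_eq_same, one_smul] at h4
    exact b.ne_zero i0 h4
  let M₂ : Submodule K V :=
    { carrier := {v | ε v = v}
      zero_mem' := map_zero _
      add_mem' := fun {v w} hv hw ↦ by
        change ε (v + w) = v + w
        rw [map_add, hv, hw]
      smul_mem' := fun c v hv ↦ by
        change ε (c • v) = c • v
        rw [map_smul, hv] }
  have hM₂ : ∀ v, v ∈ M₂ ↔ ε v = v := fun v ↦ Iff.rfl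
  have hMst : ∀ a : A₂, ∀ v ∈ M₂, a • v ∈ M₂ := fun a v hv ↦ by
    change ε ((a : Module.End K V) v) = (a : Module.End K V) v
    have h1 := LinearMap.congr_fun (hcomm (E i0 i0) (E i0 i0).2 a a.2) v
    change ε ((a : Module.End K V) v) = (a : Module.End K V) (ε v) at h1
    rw [h1, hv]
  have hεM : ∀ v, ε v ∈ M₂ := fun v ↦ LinearMap.congr_fun hε v
  obtain ⟨v0, hv0⟩ : ∃ v, ε v ≠ 0 := by
    by_contra hcon
    push Not at hcon
    exact hε0 (LinearMap.ext hcon)
  -- the span of `A₁ M'`
  have hspan : ∀ M' : Submodule K V, M' ≤ M₂ → M' ≠ ⊥ → (∀ a : A₂, ∀ v ∈ M', a • v ∈ M') →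
      Submodule.span K {v | ∃ a ∈ A₁, ∃ m ∈ M', v = a m} = ⊤ := by
    intro M' hM' hM0 hMs
    obtain ⟨m, hm, hm0⟩ := M'.ne_bot_iff.1 hM0
    refine B8a_stable hfull _ (fun a ha v hv ↦ ?_) (fun a ha v hv ↦ ?_) (v := m)
      (Submodule.subset_span ⟨1, A₁.one_mem, m, hm, rfl⟩) hm0
    · induction hv using Submodule.span_induction with
      | mem x hx =>
        obtain ⟨a', ha', m', hm', rfl⟩ := hx
        exact Submodule.subset_span ⟨a * a', A₁.mul_mem ha ha', m', hm', rfl⟩
      | zero => rw [map_zero]; exact Submodule.zero_mem _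
      | add x y _ _ hx hy => rw [map_add]; exact Submodule.add_mem _ hx hy
      | smul c x _ hx => rw [map_smul]; exact Submodule.smul_mem _ c hx
    · induction hv using Submodule.span_induction with
      | mem x hx =>
        obtain ⟨a', ha', m', hm', rfl⟩ := hx
        refine Submodule.subset_span ⟨a', ha', a m', hMs ⟨a, ha⟩ m' hm', ?_⟩
        exact (LinearMap.congr_fun (hcomm a' ha' a ha) m').symm
      | zero => rw [map_zero]; exact Submodule.zero_mem _
      | add x y _ _ hx hy => rw [map_add]; exact Submodule.add_mem _ hx hy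
      | smul c x _ hx => rw [map_smul]; exact Submodule.smul_mem _ c hx
  have hMn : M₂ ≠ ⊥ := by
    intro h
    have h1 := hεM v0
    rw [h, Submodule.mem_bot] at h1
    exact hv0 h1
  have hirr : ∀ M' : Submodule K V, M' ≤ M₂ → M' ≠ ⊥ → (∀ a : A₂, ∀ v ∈ M', a • v ∈ M') →
      M' = M₂ := by
    intro M' hM' hM0 hMs
    refine le_antisymm hM' fun m hm ↦ ?_
    have h1 := hspan M' hM' hM0 hMs
    have h2 : ∀ v ∈ Submodule.span K {v | ∃ a ∈ A₁, ∃ m ∈ M', v = a m}, ε v ∈ M' := by
      intro v hv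
      induction hv using Submodule.span_induction with
      | mem x hx =>
        obtain ⟨a, ha, m', hm', rfl⟩ := hx
        obtain ⟨c, hc⟩ := hcor ⟨a, ha⟩
        have h3 := congrArg (fun q : A₁ ↦ (q : Module.End K V) m') hc
        change ε (a (ε m')) = c • ε m' at h3
        rw [(hM₂ m').1 (hM' hm')] at h3
        rw [h3]
        exact M'.smul_mem c hm'
      | zero => rw [map_zero]; exact Submodule.zero_mem _
      | add x y _ _ hx hy => rw [map_add]; exact Submodule.add_mem _ hx hy
      | smul c x _ hx => rw [map_smul]; exact M'.smul_mem c hx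
    rw [h1] at h2
    have h4 := h2 m Submodule.mem_top
    rwa [(hM₂ m).1 hm] at h4
  let ρ₂ : A₂ →ₐ[K] Module.End K M₂ :=
    { toFun := fun x ↦ (x : Module.End K V).restrict (hMst x)
      map_one' := rfl
      map_mul' := fun x y ↦ rfl
      map_zero' := rfl
      map_add' := fun x y ↦ rfl
      commutes' := fun c ↦ rfl }
  have hρ₂ : ∀ (x : A₂) (w : M₂), ((ρ₂ x w : M₂) : V) = (x : Module.End K V) w := fun x w ↦ rfl
  have hbij2 : Function.Bijective ρ₂ := by
    constructor
    · rw [injective_iff_map_eq_zero]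
      intro x hx
      have h1 := hspan M₂ le_rfl hMn hMst
      have h2 : ∀ v ∈ Submodule.span K {v | ∃ a ∈ A₁, ∃ m ∈ M₂, v = a m},
          (x : Module.End K V) v = 0 := by
        intro v hv
        induction hv using Submodule.span_induction with
        | mem y hy =>
          obtain ⟨a, ha, m', hm', rfl⟩ := hy
          have h3 := LinearMap.congr_fun (hcomm a ha x x.2) m'
          change a ((x : Module.End K V) m') = (x : Module.End K V) (a m') at h3
          have h4 : (x : Module.End K V) m' = 0 := by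
            rw [← hρ₂ x ⟨m', hm'⟩, hx]
            rfl
          rw [← h3, h4, map_zero]
        | zero => rw [map_zero]
        | add y z _ _ hy hz => rw [map_add, hy, hz, add_zero]
        | smul c y _ hy => rw [map_smul, hy, smul_zero]
      apply Subtype.ext
      ext v
      exact h2 v (h1 ▸ Submodule.mem_top)
    · intro f
      obtain ⟨a, ha⟩ := B8a_irr (A := A₂) M₂ hMn hMst hirr f
      exact ⟨a, LinearMap.ext fun w ↦ Subtype.ext (ha w).symm⟩
  let θ₂ : A₂ ≃ₐ[K] Module.End K M₂ := AlgEquiv.ofBijective ρ₂ hbij2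
  refine ⟨finrank K S, M₂, ⟨θ₂⟩, ?_, ?_⟩
  · rw [θ.toLinearEquiv.finrank_eq, Module.finrank_linearMap]
  · -- the decomposition
    let Φ : V ≃ₗ[K] (Fin (finrank K S) → M₂) :=
      { toFun := fun v i ↦ ⟨(E i0 i : Module.End K V) v, by
          have h1 := congrArg (fun q : A₁ ↦ (q : Module.End K V) v) (hEE i0 i0 i0 i)
          rw [if_pos rfl, one_smul] at h1
          exact h1⟩
        map_add' := fun v w ↦ by
          funext i
          exact Subtype.ext (map_add _ _ _)
        map_smul' := fun c v ↦ by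
          funext i
          exact Subtype.ext (map_smul _ _ _)
        invFun := fun m ↦ ∑ i, (E i i0 : Module.End K V) (m i : V)
        left_inv := fun v ↦ by
          have h1 : ∀ i, (E i i0 : Module.End K V) ((E i0 i : Module.End K V) v) =
              (E i i : Module.End K V) v := fun i ↦ by
            have h2 := congrArg (fun q : A₁ ↦ (q : Module.End K V) v) (hEE i i0 i0 i)
            rw [if_pos rfl, one_smul] at h2
            exact h2
          change ∑ i, (E i i0 : Module.End K V) ((E i0 i : Module.End K V) v) = v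
          rw [Finset.sum_congr rfl fun i _ ↦ h1 i]
          have h3 := congrArg (fun q : A₁ ↦ (q : Module.End K V) v) hEsum
          rw [← LinearMap.sum_apply]
          have h4 : (∑ i, ((E i i : A₁) : Module.End K V)) = ((∑ i, E i i : A₁) : Module.End K V) :=
            (map_sum A₁.val _ _).symm
          rw [h4]
          exact h3
        right_inv := fun m ↦ by
          funext j
          apply Subtype.ext
          change (E i0 j : Module.End K V) (∑ i, (E i i0 : Module.End K V) (m i : V)) = m j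
          rw [map_sum]
          have h1 : ∀ i, (E i0 j : Module.End K V) ((E i i0 : Module.End K V) (m i : V)) =
              if i = j then (m i : V) else 0 := fun i ↦ by
            have h2 := congrArg (fun q : A₁ ↦ (q : Module.End K V) (m i : V)) (hEE i0 j i i0)
            refine h2.trans ?_
            by_cases h : i = j
            · rw [if_pos h.symm, one_smul, if_pos h]
              exact (m i).2
            · rw [if_neg (Ne.symm h), zero_smul, if_neg h]
              rfl
          rw [Finset.sum_congr rfl fun i _ ↦ h1 i, Finset.sum_ite_eq']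
          simp }
    rw [Φ.finrank_eq, Module.finrank_pi_fintype]
    simp only [Finset.sum_const, Finset.card_univ, Fintype.card_fin, smul_eq_mul]

/-- Chunk B8b. Several factors: induction on `m` (for all `V`; `m = 0`: `⊤ = ⊥`, so `dim V = 1`).
Apply `B8_two` to `A₁ = A 0` and `A₂ = ⨆ A (i+1)`, transport the algebras `A (i+1)` (contained in
`A₂`) through `A₂ ≃ₐ End M` and use the induction hypothesis for `M` (`M ≠ 0` because
`dim V ≠ 0`). -/
theorem B8_many {K : Type*} [Field K] [IsAlgClosed K] (m : ℕ) : ∀ (V : Type*) [AddCommGroup V]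
    [Module K V] [FiniteDimensional K V] [Nontrivial V]
    (A : Fin m → Subalgebra K (Module.End K V)),
    (∀ i j, i ≠ j → ∀ X ∈ A i, ∀ Y ∈ A j, X * Y = Y * X) → (⨆ i, A i) = ⊤ →
    ∃ a : Fin m → ℕ, (∀ i, finrank K (A i) = a i * a i) ∧ finrank K V = ∏ i, a i := by
  induction m with
  | zero =>
    intro V _ _ _ _ A _ htop
    refine ⟨fun _ => 1, fun i => Fin.elim0 i, ?_⟩
    rw [iSup_of_empty] at htop
    have h1 := Subalgebra.bot_eq_top_iff_finrank_eq_one.1 htop
    rw [Module.finrank_linearMap] at h1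
    rw [Nat.dvd_one.1 ⟨finrank K V, h1.symm⟩]
    simp
  | succ m ih =>
    intro V _ _ _ _ A hcomm htop
    let A₂ : Subalgebra K (Module.End K V) := ⨆ i : Fin m, A i.succ
    have hle : ∀ i : Fin m, A i.succ ≤ A₂ := fun i => le_iSup (fun i : Fin m => A i.succ) i
    have hc : ∀ X ∈ A 0, ∀ Y ∈ A₂, X * Y = Y * X := by
      have h1 : A₂ ≤ Subalgebra.centralizer K (A 0 : Set (Module.End K V)) := by
        refine iSup_le fun i Y hY => ?_
        rw [Subalgebra.mem_centralizer_iff]
        exact fun X hX => hcomm 0 i.succ (Fin.succ_ne_zero i).symm X hX Y hY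
      intro X hX Y hY
      have h2 := h1 hY
      rw [Subalgebra.mem_centralizer_iff] at h2
      exact h2 X hX
    have hfull : A 0 ⊔ A₂ = ⊤ := by
      rw [eq_top_iff, ← htop]
      refine iSup_le fun i => ?_
      refine Fin.cases ?_ (fun i => ?_) i
      · exact le_sup_left
      · exact (hle i).trans le_sup_right
    obtain ⟨a, M, ⟨e⟩, ha, hV⟩ := B8_two hc hfull
    have hM : Nontrivial M := by
      rw [← Module.finrank_pos_iff (R := K)]
      have h1 : 0 < finrank K V := finrank_pos
      rw [hV] at h1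
      exact Nat.pos_of_mul_pos_left h1 |> fun h => by
        rcases Nat.eq_zero_or_pos (finrank K M) with h2 | h2
        · rw [h2, mul_zero] at h1; exact absurd h1 (lt_irrefl 0)
        · exact h2
    let C : Fin m → Subalgebra K A₂ := fun i => (A i.succ).comap A₂.val
    have hC : ∀ i (x : A₂), x ∈ C i ↔ x.1 ∈ A i.succ := fun _ _ => Iff.rfl
    let B : Fin m → Subalgebra K (Module.End K M) := fun i => (C i).map e.toAlgHom
    have hCtop : (⨆ i, C i) = ⊤ := by
      have h1 : A₂ ≤ (⨆ i, C i).map A₂.val := by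
        refine iSup_le fun i x hx => ?_
        exact ⟨⟨x, hle i hx⟩, (le_iSup C i) ((hC i _).2 hx), rfl⟩
      rw [eq_top_iff]
      intro x _
      obtain ⟨y, hy, hyx⟩ := h1 x.2
      have : y = x := Subtype.ext hyx
      rw [← this]
      exact hy
    have hBcomm : ∀ i j, i ≠ j → ∀ X ∈ B i, ∀ Y ∈ B j, X * Y = Y * X := by
      rintro i j hij _ ⟨x, hx, rfl⟩ _ ⟨y, hy, rfl⟩
      have h1 : x * y = y * x := by
        apply Subtype.ext
        exact hcomm i.succ j.succ (fun h => hij (Fin.succ_injective _ h)) x.1 ((hC i x).1 hx) y.1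
          ((hC j y).1 hy)
      change e x * e y = e y * e x
      rw [← map_mul, ← map_mul, h1]
    have hBtop : (⨆ i, B i) = ⊤ := by
      have h1 : (⨆ i, C i).map e.toAlgHom ≤ ⨆ i, B i := by
        rw [Subalgebra.map_le]
        refine iSup_le fun i x hx => ?_
        exact (le_iSup B i) ⟨x, hx, rfl⟩
      rw [eq_top_iff]
      refine le_trans ?_ h1
      rw [hCtop]
      intro X _
      exact ⟨e.symm X, trivial, e.apply_symm_apply X⟩
    obtain ⟨b, hb1, hb2⟩ := ih M B hBcomm hBtop
    have hfin : ∀ i, finrank K (B i) = finrank K (A i.succ) := by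
      intro i
      have h1 : finrank K (C i) = finrank K (A i.succ) :=
        (Submodule.comapSubtypeEquivOfLe (p := Subalgebra.toSubmodule (A i.succ))
          (q := Subalgebra.toSubmodule A₂) (hle i)).finrank_eq
      rw [← h1]
      exact LinearEquiv.finrank_map_eq e.toLinearEquiv (Subalgebra.toSubmodule (C i))
    refine ⟨Fin.cons a b, ?_, ?_⟩
    · intro i
      refine Fin.cases ?_ (fun i => ?_) i
      · exact ha
      · rw [← hfin, hb1]; rfl
    · rw [Fin.prod_univ_succ, hV, hb2]; rfl

theorem B8c_closure : IsAlgClosure ℚ (AlgebraicClosure ℚ) := by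
  have key : ∀ A : Algebra ℚ (AlgebraicClosure ℚ),
      @IsAlgClosure ℚ (AlgebraicClosure ℚ) _ _ A _ := by
    intro A
    have e : A = AlgebraicClosure.instAlgebra ℚ := Subsingleton.elim _ _
    subst e
    infer_instance
  exact key _

/-- The eigenspace of the centroid element. -/
def B8c_E (g : Submodule ℚ (Matrix ι ι ℚ)) (T : Matrix ι ι ℚ →ₗ[ℚ] Matrix ι ι ℚ)
    (c : AlgebraicClosure ℚ) : Submodule (AlgebraicClosure ℚ) (Matrix ι ι (AlgebraicClosure ℚ)) where
  carrier := {X | X ∈ ext (AlgebraicClosure ℚ) g ∧ bc (AlgebraicClosure ℚ) T X = c • X}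
  add_mem' := by
    rintro a b ⟨h1, h2⟩ ⟨h3, h4⟩
    exact ⟨(ext _ g).add_mem h1 h3, by rw [map_add, h2, h4, smul_add]⟩
  zero_mem' := ⟨(ext _ g).zero_mem, by simp⟩
  smul_mem' := by
    rintro d a ⟨h1, h2⟩
    exact ⟨(ext _ g).smul_mem d h1, by rw [map_smul, h2, smul_comm]⟩

theorem B8c_comm {g : Submodule ℚ (Matrix ι ι ℚ)} {T : Matrix ι ι ℚ →ₗ[ℚ] Matrix ι ι ℚ}
    (hT : Cent g T) {c d : AlgebraicClosure ℚ} (hcd : c ≠ d) : ∀ X ∈ B8c_E g T c,
    ∀ Y ∈ B8c_E g T d, X * Y = Y * X := by
  rintro X ⟨hX, hX'⟩ Y ⟨hY, hY'⟩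
  have hC := B1_cent (K := AlgebraicClosure ℚ) hT
  have h1 := hC.comm X hX Y hY
  have h2 := hC.comm Y hY X hX
  rw [hY', mul_smul_comm, smul_mul_assoc, ← smul_sub] at h1
  rw [hX', mul_smul_comm, smul_mul_assoc, ← smul_sub] at h2
  have e : Y * X - X * Y = -(X * Y - Y * X) := by noncomm_ring
  rw [e, map_neg, h1, smul_neg, neg_inj, ← sub_eq_zero, ← sub_smul] at h2
  exact sub_eq_zero.1 ((smul_eq_zero.1 h2).resolve_left (sub_ne_zero.2 hcd.symm))

theorem B8c_map {g : Submodule ℚ (Matrix ι ι ℚ)} {T : Matrix ι ι ℚ →ₗ[ℚ] Matrix ι ι ℚ}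
    (τ : AlgebraicClosure ℚ ≃ₐ[ℚ] AlgebraicClosure ℚ) {c : AlgebraicClosure ℚ}
    {X : Matrix ι ι (AlgebraicClosure ℚ)}
    (hX : X ∈ Algebra.adjoin (AlgebraicClosure ℚ) (B8c_E g T c : Set (Matrix ι ι (AlgebraicClosure ℚ)))) :
    X.map τ ∈ Algebra.adjoin (AlgebraicClosure ℚ) (B8c_E g T (τ c) : Set (Matrix ι ι (AlgebraicClosure ℚ))) := by
  induction hX using Algebra.adjoin_induction with
  | mem X hX =>
    refine Algebra.subset_adjoin ⟨B7_ext_map τ hX.1, ?_⟩
    rw [B7_bc_map, hX.2]
    ext i j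
    rw [Matrix.map_apply, Matrix.smul_apply, Matrix.smul_apply, smul_eq_mul, smul_eq_mul,
      map_mul, Matrix.map_apply]
  | algebraMap r =>
    have e : (algebraMap (AlgebraicClosure ℚ) (Matrix ι ι (AlgebraicClosure ℚ)) r).map τ =
        algebraMap _ _ (τ r) := by
      ext i j
      rw [Matrix.map_apply, Matrix.algebraMap_matrix_apply, Matrix.algebraMap_matrix_apply]
      split_ifs
      · rfl
      · rw [map_zero]
    rw [e]
    exact Subalgebra.algebraMap_mem _ _
  | add a b _ _ ha hb =>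
    rw [Matrix.map_add _ (map_add τ)]
    exact Subalgebra.add_mem _ ha hb
  | mul a b _ _ ha hb =>
    have e : (a * b).map (τ : AlgebraicClosure ℚ →+* AlgebraicClosure ℚ) =
        a.map (τ : AlgebraicClosure ℚ →+* AlgebraicClosure ℚ) *
        b.map (τ : AlgebraicClosure ℚ →+* AlgebraicClosure ℚ) := Matrix.map_mul
    change (a * b).map τ = a.map τ * b.map τ at e
    rw [e]
    exact Subalgebra.mul_mem _ ha hb

theorem B8c_rank {g : Submodule ℚ (Matrix ι ι ℚ)} {T : Matrix ι ι ℚ →ₗ[ℚ] Matrix ι ι ℚ}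
    (τ : AlgebraicClosure ℚ ≃ₐ[ℚ] AlgebraicClosure ℚ) (c : AlgebraicClosure ℚ) :
    finrank (AlgebraicClosure ℚ)
      (Algebra.adjoin (AlgebraicClosure ℚ) (B8c_E g T c : Set (Matrix ι ι (AlgebraicClosure ℚ)))) =
    finrank (AlgebraicClosure ℚ)
      (Algebra.adjoin (AlgebraicClosure ℚ) (B8c_E g T (τ c) : Set (Matrix ι ι (AlgebraicClosure ℚ)))) := by
  let j : Algebra.adjoin (AlgebraicClosure ℚ) (B8c_E g T c : Set (Matrix ι ι (AlgebraicClosure ℚ))) ≃+
      Algebra.adjoin (AlgebraicClosure ℚ) (B8c_E g T (τ c) : Set (Matrix ι ι (AlgebraicClosure ℚ))) :=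
    { toFun := fun X => ⟨X.1.map τ, B8c_map τ X.2⟩
      invFun := fun X => ⟨X.1.map τ.symm, by
        have h1 := B8c_map (g := g) (T := T) τ.symm X.2
        rwa [AlgEquiv.symm_apply_apply] at h1⟩
      left_inv := fun X => by
        apply Subtype.ext
        ext i k
        change τ.symm (τ (X.1 i k)) = _
        rw [AlgEquiv.symm_apply_apply]
      right_inv := fun X => by
        apply Subtype.ext
        ext i k
        change τ (τ.symm (X.1 i k)) = _
        rw [AlgEquiv.apply_symm_apply]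
      map_add' := fun X Y => by
        apply Subtype.ext
        exact Matrix.map_add _ (map_add τ) X.1 Y.1 }
  have h1 := _root_.rank_eq_of_equiv_equiv (fun x : AlgebraicClosure ℚ => τ x) j τ.bijective (by
    intro r m
    apply Subtype.ext
    ext i k
    change τ (r * m.1 i k) = τ r * τ (m.1 i k)
    rw [map_mul])
  exact congrArg Cardinal.toNat h1

/-- Chunk B8c. Let `K` be an algebraic closure of `ℚ`, `F = f.map`, `c 1, ..., c d` its roots
(distinct, `d = f.natDegree`), `E i = {X ∈ ext K g : bc K T X = c i X}`. `ext K g` is the sum of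
the `E i` (`B1_aeval`, `F` split separable), and they commute (`[X, Y]` is an eigenvector for
both eigenvalues). Let `A i` be the algebra generated by `E i`; together they generate everything
(`B1_fullK`; pass to operators of `ι → K` by
`Matrix.toLinAlgEquiv'`). An automorphism `τ` of `K` with `τ (c i) = c j` (`f` irreducible) maps `E i` to `E j`
(it acts on entries, commutes with `bc K T`) semilinearly, so `dim A i = dim A j`. By `B8_many`
`card ι = ∏ a i = a ^ d`. -/
theorem B8_power {g : Submodule ℚ (Matrix ι ι ℚ)} (hg : QForm g) (hι : 2 ≤ Fintype.card ι)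
    {T : Matrix ι ι ℚ →ₗ[ℚ] Matrix ι ι ℚ} (hT : Cent g T) {f : ℚ[X]} (hf : Irreducible f)
    (hfT : ∀ X ∈ g, (aeval T f) X = 0) : ∃ a : ℕ, Fintype.card ι = a ^ f.natDegree := by
  classical
  have hne : Nonempty ι := Fintype.card_pos_iff.1 (by omega)
  let K := AlgebraicClosure ℚ
  obtain ⟨F, hFdef⟩ : ∃ F : K[X], F = f.map (algebraMap ℚ K) := ⟨_, rfl⟩
  have hFsep : F.Separable := by rw [hFdef]; exact (hf.separable).map
  set S := bc K T with hS
  have hCS : Cent (ext K g) S := B1_cent hT
  have hF : ∀ X ∈ ext K g, (aeval S F) X = 0 := fun X hX => by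
    rw [hFdef]; exact B1_aeval hfT hX
  have hcard : Fintype.card (f.rootSet K) = f.natDegree :=
    Polynomial.card_rootSet_eq_natDegree hf.separable (IsAlgClosed.splits _)
  let e : f.rootSet K ≃ Fin f.natDegree := Fintype.equivFinOfCardEq hcard
  let c : Fin f.natDegree → K := fun i => (e.symm i).1
  have hc : ∀ i, aeval (c i) f = 0 := fun i => (Polynomial.mem_rootSet.1 (e.symm i).2).2
  have hcinj : ∀ i j, i ≠ j → c i ≠ c j := by
    intro i j hij h
    exact hij (e.symm.injective (Subtype.ext h))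
  have hcsurj : ∀ x : K, aeval x f = 0 → ∃ i, c i = x := by
    intro x hx
    refine ⟨e ⟨x, Polynomial.mem_rootSet.2 ⟨hf.ne_zero, hx⟩⟩, ?_⟩
    change (e.symm (e _)).1 = x
    rw [Equiv.symm_apply_apply]
  let A' : Fin f.natDegree → Subalgebra K (Matrix ι ι K) := fun i =>
    Algebra.adjoin K (B8c_E g T (c i) : Set (Matrix ι ι K))
  let φ := (Matrix.toLinAlgEquiv' (n := ι) (R := K))
  let A : Fin f.natDegree → Subalgebra K (Module.End K (ι → K)) := fun i => (A' i).map φ.toAlgHom
  have hA'top : (⨆ i, A' i) = ⊤ := by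
    rw [eq_top_iff, ← B1_fullK (K := K) hg]
    refine Algebra.adjoin_le fun X hX => ?_
    let S₁ : Module.End K (ext K g) := S.restrict hCS.maps
    have hS₁ : aeval S₁ F = 0 := by
      ext x : 1
      apply Subtype.ext
      rw [B4_restrict hCS.maps, hF _ x.2]; rfl
    have hss : S₁.IsSemisimple :=
      Module.End.isSemisimple_of_squarefree_aeval_eq_zero hFsep.squarefree hS₁
    have htop := Module.End.IsSemisimple.iSup_eigenspace_eq_top hss
    have h1 : ∀ x : ext K g, x ∈ (⨆ μ : K, S₁.eigenspace μ) → x.1 ∈ ⨆ i, A' i := by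
      intro x hx
      induction hx using Submodule.iSup_induction' with
      | mem μ x hx =>
        have h2 : S₁ x = μ • x := Module.End.mem_eigenspace_iff.1 hx
        by_cases hx0 : x = 0
        · rw [hx0]
          exact Subalgebra.zero_mem _
        · have h3 : aeval S₁ F x = F.eval μ • x :=
            Module.End.aeval_apply_of_hasEigenvector ⟨hx, hx0⟩
          rw [hS₁, LinearMap.zero_apply] at h3
          have h4 := (smul_eq_zero.1 h3.symm).resolve_right hx0
          rw [hFdef, Polynomial.eval_map_algebraMap] at h4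
          obtain ⟨i, hi⟩ := hcsurj μ h4
          refine (le_iSup A' i) (Algebra.subset_adjoin ⟨x.2, ?_⟩)
          rw [hi]
          exact congrArg Subtype.val h2
      | zero => exact Subalgebra.zero_mem _
      | add a b _ _ ha hb => exact Subalgebra.add_mem _ ha hb
    exact h1 ⟨X, hX⟩ (by rw [htop]; trivial)
  have hAtop : (⨆ i, A i) = ⊤ := by
    have h1 : (⨆ i, A' i).map φ.toAlgHom ≤ ⨆ i, A i := by
      rw [Subalgebra.map_le]
      refine iSup_le fun i x hx => ?_
      exact (le_iSup A i) ⟨x, hx, rfl⟩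
    rw [eq_top_iff]
    refine le_trans ?_ h1
    rw [hA'top]
    intro X _
    exact ⟨φ.symm X, trivial, φ.apply_symm_apply X⟩
  have hAcomm : ∀ i j, i ≠ j → ∀ X ∈ A i, ∀ Y ∈ A j, X * Y = Y * X := by
    rintro i j hij _ ⟨x, hx, rfl⟩ _ ⟨y, hy, rfl⟩
    have h1 : x * y = y * x := B5a_comm (B8c_comm hT (hcinj i j hij)) hx hy
    change φ x * φ y = φ y * φ x
    rw [← map_mul, ← map_mul, h1]
  obtain ⟨a, ha1, ha2⟩ := B8_many f.natDegree (ι → K) A hAcomm hAtop
  have hfin : ∀ i, finrank K (A i) = finrank K (A' i) := fun i =>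
    LinearEquiv.finrank_map_eq φ.toLinearEquiv (Subalgebra.toSubmodule (A' i))
  have heq : ∀ i j, a i = a j := by
    intro i j
    have hN : Normal ℚ (AlgebraicClosure ℚ) :=
      @IsAlgClosure.normal ℚ (AlgebraicClosure ℚ) _ _ _ B8c_closure
    have h1 : IsConjRoot ℚ (c i) (c j) := by
      rw [IsConjRoot, ← minpoly.eq_of_irreducible hf (hc i), ← minpoly.eq_of_irreducible hf (hc j)]
    obtain ⟨τ, hτ⟩ := (isConjRoot_iff_exists_algEquiv (K := ℚ) (L := AlgebraicClosure ℚ)).1 h1
    have h2 := B8c_rank (g := g) (T := T) τ (c j)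
    rw [hτ] at h2
    have h3 : a i * a i = a j * a j := by
      rw [← ha1, ← ha1, hfin, hfin]
      exact h2.symm
    exact Nat.mul_self_inj.1 h3
  have hdeg : 0 < f.natDegree := hf.natDegree_pos
  refine ⟨a ⟨0, hdeg⟩, ?_⟩
  rw [Module.finrank_pi] at ha2
  rw [ha2, Finset.prod_congr rfl fun i _ => heq i ⟨0, hdeg⟩, Finset.prod_const, Finset.card_univ,
    Fintype.card_fin]

end Pool.Agent.H49M
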