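import Pool.Agent.Lib.H49M.B8

/-!
# B9: only odd degrees occur in the centroid
-/

set_option autoImplicit false
set_option linter.unusedSectionVars false
namespace Pool.Agent.H49M
open Module Matrix Polynomial Pool.Agent.H53Toric

variable {ι : Type*} [Fintype ι] [DecidableEq ι]

theorem B9a_inj {K W U : Type*} [Field K] [AddCommGroup W] [Module K W] [FiniteDimensional K W]
    [AddCommGroup U] [Module K U] [FiniteDimensional K U] (μ : W →ₗ[K] U)
    (hs : Function.Surjective μ) (hfr : finrank K W = finrank K U) : Function.Injective μ :=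
  (LinearMap.injective_iff_surjective_of_finrank_eq_finrank hfr).2 hs

theorem B9a_conj {K W U : Type*} [Field K] [AddCommGroup W] [Module K W]
    [AddCommGroup U] [Module K U] (α : U →ₗ[K] U) (e : W ≃ₗ[K] U) (f : W →ₗ[K] W)
    (h : α = e.conj f) : LinearMap.trace K U α = LinearMap.trace K W f := by
  rw [h, LinearMap.trace_conj']

/-- Chunk B9a. The trace of an antiautomorphism preserving two commuting factors. The map
`A₁ ⊗ A₂ → End V`, `x ⊗ y ↦ x y`, is surjective (the span of the products is a subalgebra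
containing `A₁` and `A₂`), and by `B8_two` `dim A₁ · dim A₂ = a² (dim M)² = (dim V)²`, so it is
bijective (`LinearMap.injective_iff_surjective_of_finrank_eq_finrank`). It carries
`α|A₁ ⊗ α|A₂` to `α` (`α (x y) = α y α x = α x α y`). Use `LinearMap.trace_tensorProduct'` and
`LinearMap.trace_conj'`. -/
theorem B9_two {K : Type*} [Field K] [IsAlgClosed K] {V : Type*} [AddCommGroup V] [Module K V]
    [FiniteDimensional K V] [Nontrivial V] {A₁ A₂ : Subalgebra K (Module.End K V)}
    (hcomm : ∀ X ∈ A₁, ∀ Y ∈ A₂, X * Y = Y * X) (hfull : A₁ ⊔ A₂ = ⊤)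
    (α : Module.End K V →ₗ[K] Module.End K V) (hα : ∀ X Y, α (X * Y) = α Y * α X)
    (h1 : ∀ X ∈ Subalgebra.toSubmodule A₁, α X ∈ Subalgebra.toSubmodule A₁)
    (h2 : ∀ X ∈ Subalgebra.toSubmodule A₂, α X ∈ Subalgebra.toSubmodule A₂) :
    LinearMap.trace K _ α =
      LinearMap.trace K _ (α.restrict h1) * LinearMap.trace K _ (α.restrict h2) := by
  obtain ⟨a, M, ⟨θ⟩, ha, hV⟩ := B8_two hcomm hfull
  let P₁ : Submodule K (Module.End K V) := Subalgebra.toSubmodule A₁
  let P₂ : Submodule K (Module.End K V) := Subalgebra.toSubmodule A₂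
  let μ : TensorProduct K P₁ P₂ →ₗ[K] Module.End K V :=
    (LinearMap.mul' K (Module.End K V)) ∘ₗ TensorProduct.map P₁.subtype P₂.subtype
  have hμ : ∀ (x : P₁) (y : P₂), μ (x ⊗ₜ[K] y) = (x : Module.End K V) * y := fun x y => rfl
  have hsurj : Function.Surjective μ := by
    let ψ : TensorProduct K A₁ A₂ →ₐ[K] Module.End K V :=
      Algebra.TensorProduct.lift A₁.val A₂.val (fun x y => hcomm x x.2 y y.2)
    have hψ : ∀ (x : A₁) (y : A₂), ψ (x ⊗ₜ[K] y) = (x : Module.End K V) * y := fun x y => rfl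
    have htop : (⊤ : Subalgebra K (Module.End K V)) ≤ ψ.range := by
      rw [← hfull]
      refine sup_le (fun x hx => ⟨(⟨x, hx⟩ : A₁) ⊗ₜ[K] (1 : A₂), ?_⟩)
        (fun y hy => ⟨(1 : A₁) ⊗ₜ[K] (⟨y, hy⟩ : A₂), ?_⟩)
      · exact (hψ _ _).trans (mul_one x)
      · exact (hψ _ _).trans (one_mul y)
    intro X
    obtain ⟨t, ht⟩ := htop (show X ∈ (⊤ : Subalgebra K (Module.End K V)) from Algebra.mem_top)
    have hind : ∀ t : TensorProduct K A₁ A₂, ψ t ∈ LinearMap.range μ := by
      intro t
      induction t using TensorProduct.induction_on with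
      | zero => rw [map_zero]; exact Submodule.zero_mem _
      | tmul x y => exact ⟨(⟨x.1, x.2⟩ : P₁) ⊗ₜ[K] (⟨y.1, y.2⟩ : P₂), rfl⟩
      | add s t hs ht => rw [map_add]; exact Submodule.add_mem _ hs ht
    obtain ⟨s, hs⟩ := hind t
    exact ⟨s, hs.trans ht⟩
  have hfr : finrank K (TensorProduct K P₁ P₂) = finrank K (Module.End K V) := by
    rw [Module.finrank_tensorProduct, Module.finrank_linearMap]
    have e1 : finrank K P₁ = a * a := ha
    have e2 : finrank K P₂ = finrank K M * finrank K M := by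
      have := θ.toLinearEquiv.finrank_eq
      rw [Module.finrank_linearMap] at this
      exact this
    rw [e1, e2, hV]
    ring
  have hinj : Function.Injective μ :=
    @B9a_inj K (TensorProduct K P₁ P₂) (Module.End K V) _ _ _ _ _ _ _ μ hsurj hfr
  let e : TensorProduct K P₁ P₂ ≃ₗ[K] Module.End K V := LinearEquiv.ofBijective μ ⟨hinj, hsurj⟩
  have he : ∀ t, e t = μ t := fun t => rfl
  have hconj : α = e.conj (TensorProduct.map (α.restrict h1) (α.restrict h2)) := by
    refine LinearMap.ext fun X => ?_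
    obtain ⟨t, rfl⟩ := e.surjective X
    rw [LinearEquiv.conj_apply_apply, LinearEquiv.symm_apply_apply]
    induction t using TensorProduct.induction_on with
    | zero => simp only [map_zero]
    | tmul x y =>
      rw [TensorProduct.map_tmul, he, he, hμ, hμ, hα]
      exact (hcomm _ (h1 x x.2) _ (h2 y y.2)).symm
    | add s t hs ht => simp only [map_add, hs, ht]
  exact (@B9a_conj K (TensorProduct K P₁ P₂) (Module.End K V) _ _ _ _ _ α e
    (TensorProduct.map (α.restrict h1) (α.restrict h2)) hconj).trans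
    (LinearMap.trace_tensorProduct' (α.restrict h1) (α.restrict h2))

theorem B9b_restr {K W U : Type*} [Field K] [AddCommGroup W] [Module K W]
    [AddCommGroup U] [Module K U] (α : W →ₗ[K] W) (β : U →ₗ[K] U) (e : W ≃ₗ[K] U)
    (h : ∀ x, β (e x) = e (α x)) : LinearMap.trace K U β = LinearMap.trace K W α := by
  refine B9a_conj β e α (LinearMap.ext fun y => ?_)
  obtain ⟨x, rfl⟩ := e.surjective y
  rw [h, LinearEquiv.conj_apply_apply, LinearEquiv.symm_apply_apply]

/-- Chunk B9b. Several factors: induction on `m` (for all `V`; `m = 0`: `⊤ = ⊥`, every operator is a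
scalar and `α = 1`, `dim (End V) = 1`). Apply `B9_two` to `A₁ = A 0` and `A₂ = ⨆ A (i+1)` (stable
under `α`: `Subalgebra` generated, or `Subalgebra.comap`-like argument with the opposite: the set of
`X ∈ A₂` with `α X ∈ A₂` is a subalgebra), transport `α|A₂` and the algebras `A (i+1)` through
`A₂ ≃ₐ End M` of `B8_two` exactly as in `B8_many` and use the induction hypothesis for `M`. -/
theorem B9_many {K : Type*} [Field K] [IsAlgClosed K] (m : ℕ) : ∀ (V : Type*) [AddCommGroup V]
    [Module K V] [FiniteDimensional K V] [Nontrivial V]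
    (A : Fin m → Subalgebra K (Module.End K V)),
    (∀ i j, i ≠ j → ∀ X ∈ A i, ∀ Y ∈ A j, X * Y = Y * X) → (⨆ i, A i) = ⊤ →
    ∀ (α : Module.End K V →ₗ[K] Module.End K V), (∀ X Y, α (X * Y) = α Y * α X) → α 1 = 1 →
    ∀ h : ∀ i, ∀ X ∈ Subalgebra.toSubmodule (A i), α X ∈ Subalgebra.toSubmodule (A i),
    LinearMap.trace K _ α = ∏ i, LinearMap.trace K _ (α.restrict (h i)) := by
  induction m with
  | zero =>
    intro V _ _ _ _ A _ htop α hα hα1 h
    rw [iSup_of_empty] at htop
    have h1 := Subalgebra.bot_eq_top_iff_finrank_eq_one.1 htop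
    have hid : α = LinearMap.id := by
      refine LinearMap.ext fun X => ?_
      have hX : X ∈ (⊥ : Subalgebra K (Module.End K V)) := htop ▸ Algebra.mem_top
      obtain ⟨c, rfl⟩ := Algebra.mem_bot.1 hX
      rw [Algebra.algebraMap_eq_smul_one, map_smul, hα1]
      rfl
    refine ((congrArg (LinearMap.trace K _) hid).trans ?_).trans (Finset.prod_of_isEmpty _).symm
    rw [LinearMap.trace_id, h1, Nat.cast_one]
  | succ m ih =>
    intro V _ _ _ _ A hcomm htop α hα hα1 h
    let A₂ : Subalgebra K (Module.End K V) := ⨆ i : Fin m, A i.succ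
    have hle : ∀ i : Fin m, A i.succ ≤ A₂ := fun i => le_iSup (fun i : Fin m => A i.succ) i
    have hc : ∀ X ∈ A 0, ∀ Y ∈ A₂, X * Y = Y * X := by
      have h1 : A₂ ≤ Subalgebra.centralizer K (A 0 : Set (Module.End K V)) := by
        refine iSup_le fun i Y hY => ?_
        rw [Subalgebra.mem_centralizer_iff]
        exact fun X hX => hcomm 0 i.succ (Fin.succ_ne_zero i).symm X hX Y hY
      intro X hX Y hY
      have h2 := h1 hY
      rw [Subalgebra.mem_centralizer_iff] at h2
      exact h2 X hX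
    have hfull : A 0 ⊔ A₂ = ⊤ := by
      rw [eq_top_iff, ← htop]
      refine iSup_le fun i => ?_
      refine Fin.cases ?_ (fun i => ?_) i
      · exact le_sup_left
      · exact (hle i).trans le_sup_right
    have hA₂ : ∀ X ∈ Subalgebra.toSubmodule A₂, α X ∈ Subalgebra.toSubmodule A₂ := by
      let D : Subalgebra K (Module.End K V) :=
        { carrier := {X | α X ∈ A₂}
          mul_mem' := fun {X Y} hX hY => by
            change α (X * Y) ∈ A₂
            rw [hα]
            exact A₂.mul_mem hY hX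
          add_mem' := fun {X Y} hX hY => by
            change α (X + Y) ∈ A₂
            rw [map_add]
            exact A₂.add_mem hX hY
          algebraMap_mem' := fun c => by
            change α (algebraMap K _ c) ∈ A₂
            rw [Algebra.algebraMap_eq_smul_one, map_smul, hα1, ← Algebra.algebraMap_eq_smul_one]
            exact A₂.algebraMap_mem c }
      have hD : A₂ ≤ D := iSup_le fun i X hX => hle i (h i.succ X hX)
      exact fun X hX => hD hX
    have hstep := B9_two hc hfull α hα (h 0) hA₂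
    obtain ⟨a, M, ⟨e⟩, ha, hV⟩ := B8_two hc hfull
    have hM : Nontrivial M := by
      rw [← Module.finrank_pos_iff (R := K)]
      have h1 : 0 < finrank K V := finrank_pos
      rw [hV] at h1
      rcases Nat.eq_zero_or_pos (finrank K M) with h2 | h2
      · rw [h2, mul_zero] at h1; exact absurd h1 (lt_irrefl 0)
      · exact h2
    let C : Fin m → Subalgebra K A₂ := fun i => (A i.succ).comap A₂.val
    have hC : ∀ i (x : A₂), x ∈ C i ↔ x.1 ∈ A i.succ := fun _ _ => Iff.rfl
    let B : Fin m → Subalgebra K (Module.End K M) := fun i => (C i).map e.toAlgHom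
    have hCtop : (⨆ i, C i) = ⊤ := by
      have h1 : A₂ ≤ (⨆ i, C i).map A₂.val := by
        refine iSup_le fun i x hx => ?_
        exact ⟨⟨x, hle i hx⟩, (le_iSup C i) ((hC i _).2 hx), rfl⟩
      rw [eq_top_iff]
      intro x _
      obtain ⟨y, hy, hyx⟩ := h1 x.2
      have : y = x := Subtype.ext hyx
      rw [← this]
      exact hy
    have hBcomm : ∀ i j, i ≠ j → ∀ X ∈ B i, ∀ Y ∈ B j, X * Y = Y * X := by
      rintro i j hij _ ⟨x, hx, rfl⟩ _ ⟨y, hy, rfl⟩
      have h1 : x * y = y * x := by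
        apply Subtype.ext
        exact hcomm i.succ j.succ (fun h => hij (Fin.succ_injective _ h)) x.1 ((hC i x).1 hx) y.1
          ((hC j y).1 hy)
      change e x * e y = e y * e x
      rw [← map_mul, ← map_mul, h1]
    have hBtop : (⨆ i, B i) = ⊤ := by
      have h1 : (⨆ i, C i).map e.toAlgHom ≤ ⨆ i, B i := by
        rw [Subalgebra.map_le]
        refine iSup_le fun i x hx => ?_
        exact (le_iSup B i) ⟨x, hx, rfl⟩
      rw [eq_top_iff]
      refine le_trans ?_ h1
      rw [hCtop]
      intro X _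
      exact ⟨e.symm X, trivial, e.apply_symm_apply X⟩
    let α₂ : A₂ →ₗ[K] A₂ := α.restrict hA₂
    have hα₂ : ∀ x : A₂, ((α₂ x : A₂) : Module.End K V) = α x := fun x => rfl
    have hα₂m : ∀ x y : A₂, α₂ (x * y) = α₂ y * α₂ x := fun x y => Subtype.ext (hα x y)
    have hα₂1 : α₂ 1 = 1 := Subtype.ext hα1
    let β : Module.End K M →ₗ[K] Module.End K M :=
      e.toLinearEquiv.toLinearMap ∘ₗ α₂ ∘ₗ e.symm.toLinearEquiv.toLinearMap
    have hβ : ∀ X, β X = e (α₂ (e.symm X)) := fun X => rfl
    have hβm : ∀ X Y, β (X * Y) = β Y * β X := by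
      intro X Y
      rw [hβ, hβ, hβ, map_mul, hα₂m, map_mul]
    have hβ1 : β 1 = 1 := by rw [hβ, map_one, hα₂1, map_one]
    have hβe : ∀ x, β (e x) = e (α₂ x) := fun x => by rw [hβ, e.symm_apply_apply]
    have hB : ∀ i, ∀ X ∈ Subalgebra.toSubmodule (B i), β X ∈ Subalgebra.toSubmodule (B i) := by
      rintro i _ ⟨x, hx, rfl⟩
      refine ⟨α₂ x, (hC i _).2 (h i.succ _ ((hC i x).1 hx)), ?_⟩
      exact (hβe x).symm
    have key := ih M B hBcomm hBtop β hβm hβ1 hB
    have h2 : LinearMap.trace K _ β = LinearMap.trace K _ (α.restrict hA₂) :=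
      B9b_restr (α.restrict hA₂) β e.toLinearEquiv hβe
    have h3 : ∀ i : Fin m, LinearMap.trace K _ (β.restrict (hB i)) =
        LinearMap.trace K _ (α.restrict (h i.succ)) := by
      intro i
      have hmem : ∀ x : Subalgebra.toSubmodule (A i.succ),
          e ⟨x.1, hle i x.2⟩ ∈ Subalgebra.toSubmodule (B i) := fun x =>
        ⟨⟨x.1, hle i x.2⟩, (hC i _).2 x.2, rfl⟩
      let φ : Subalgebra.toSubmodule (A i.succ) →ₗ[K] Subalgebra.toSubmodule (B i) :=
        { toFun := fun x => ⟨e ⟨x.1, hle i x.2⟩, hmem x⟩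
          map_add' := fun x y => Subtype.ext (map_add e ⟨x.1, hle i x.2⟩ ⟨y.1, hle i y.2⟩)
          map_smul' := fun c x => Subtype.ext (map_smul e c ⟨x.1, hle i x.2⟩) }
      have hφ : ∀ x, ((φ x : Subalgebra.toSubmodule (B i)) : Module.End K M) =
        e ⟨x.1, hle i x.2⟩ := fun x => rfl
      have hφb : Function.Bijective φ := by
        constructor
        · intro x y hxy
          have h4 : e ⟨x.1, hle i x.2⟩ = e ⟨y.1, hle i y.2⟩ := congrArg Subtype.val hxy
          have h5 := congrArg Subtype.val (e.injective h4)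
          exact Subtype.ext h5
        · rintro ⟨_, ⟨x, hx, rfl⟩⟩
          exact ⟨⟨x.1, (hC i x).1 hx⟩, rfl⟩
      refine @B9b_restr K (Subalgebra.toSubmodule (A i.succ)) (Subalgebra.toSubmodule (B i))
        _ _ _ _ _ (α.restrict (h i.succ)) (β.restrict (hB i))
        (LinearEquiv.ofBijective φ hφb) fun x => ?_
      exact Subtype.ext (hβe ⟨x.1, hle i x.2⟩)
    rw [Fin.prod_univ_succ, hstep, ← h2, key]
    exact congrArg _ (Finset.prod_congr rfl fun i _ => h3 i)

/-- Chunk B9c. The trace is `∑ i j, (J⁻¹ (E i j)ᵀ J) i j = ∑ i j, J⁻¹ i j * J i j =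
- ∑ i j, J⁻¹ i j * J j i = - tr (J⁻¹ J)` (`LinearMap.trace_eq_matrix_trace` with the basis
`Matrix.stdBasis`, or `Matrix.single`). -/
theorem B9_mat {K : Type*} [Field K] {J : Matrix ι ι K} (hJ : Jᵀ = -J) (hdet : J.det ≠ 0)
    (α : Matrix ι ι K →ₗ[K] Matrix ι ι K) (hα : ∀ X, α X = J⁻¹ * Xᵀ * J) :
    LinearMap.trace K _ α = -(Fintype.card ι : K) := by
  have hcoef : ∀ i j : ι, α (Matrix.single i j (1 : K)) i j = J⁻¹ i j * J i j := by
    intro i j
    rw [hα, Matrix.transpose_single, Matrix.mul_apply, Finset.sum_eq_single i]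
    · rw [Matrix.mul_single_apply_same, mul_one]
    · intro k _ hk
      rw [Matrix.mul_single_apply_of_ne _ _ _ _ _ hk, zero_mul]
    · intro hi
      exact absurd (Finset.mem_univ i) hi
  have htr : LinearMap.trace K _ α = ∑ i, ∑ j, J⁻¹ i j * J i j := by
    rw [LinearMap.trace_eq_matrix_trace K (Matrix.stdBasis K ι ι), Matrix.trace]
    rw [Fintype.sum_prod_type]
    refine Finset.sum_congr rfl fun i _ => Finset.sum_congr rfl fun j _ => ?_
    rw [Matrix.diag_apply, LinearMap.toMatrix_apply, Matrix.stdBasis_eq_single, ← hcoef i j]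
    rfl
  have hJij : ∀ i j, J i j = - J j i := fun i j => by
    have := congrFun (congrFun hJ j) i
    rw [Matrix.transpose_apply, Matrix.neg_apply] at this
    exact this
  rw [htr]
  have h1 : J⁻¹ * J = 1 := Matrix.nonsing_inv_mul _ (isUnit_iff_ne_zero.2 hdet)
  have h2 : ∀ i, ∑ j, J⁻¹ i j * J i j = -1 := by
    intro i
    have h3 := congrFun (congrFun h1 i) i
    rw [Matrix.mul_apply, Matrix.one_apply_eq] at h3
    rw [← h3, ← Finset.sum_neg_distrib]
    refine Finset.sum_congr rfl fun j _ => ?_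
    rw [hJij i j, mul_neg]
  rw [Finset.sum_congr rfl fun i _ => h2 i]
  simp

/-- The trace of an involution on a stable subspace. -/
theorem B9d_trace {K E : Type*} [Field K] [CharZero K] [AddCommGroup E] [Module K E]
    [FiniteDimensional K E] (A P : Submodule K E) (α : E →ₗ[K] E) (hA : ∀ x ∈ A, α x ∈ A)
    (hinv : ∀ x, α (α x) = x) (hP : ∀ x, x ∈ P ↔ x ∈ A ∧ α x = x) :
    LinearMap.trace K A (α.restrict hA) =
      ((2 * (finrank K P : ℤ) - (finrank K A : ℤ) : ℤ) : K) := by
  let p : Submodule K A := P.comap A.subtype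
  have hp : finrank K p = finrank K P := by
    have h1 : p.map A.subtype = P := by
      ext x
      rw [Submodule.mem_map]
      constructor
      · rintro ⟨y, hy, rfl⟩
        exact hy
      · intro hx
        exact ⟨⟨x, ((hP x).1 hx).1⟩, hx, rfl⟩
    rw [← h1]
    exact (Submodule.finrank_map_subtype_eq A p).symm
  let β : A →ₗ[K] A := (1 / 2 : K) • (α.restrict hA + LinearMap.id)
  have hβ : ∀ x : A, ((β x : A) : E) = (1 / 2 : K) • (α x + x) := fun x => rfl
  have hproj : LinearMap.IsProj p β := by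
    constructor
    · intro x
      change ((β x : A) : E) ∈ P
      rw [hP]
      refine ⟨(β x).2, ?_⟩
      rw [hβ, map_smul, map_add, hinv, add_comm]
    · intro x hx
      apply Subtype.ext
      rw [hβ]
      have h1 : α x = x := ((hP _).1 hx).2
      rw [h1, ← two_smul K (x : E), smul_smul]
      norm_num
  have h1 := hproj.trace
  rw [hp] at h1
  have h2 : LinearMap.trace K A β = (1 / 2 : K) * (LinearMap.trace K A (α.restrict hA) +
      finrank K A) := by
    change LinearMap.trace K A ((1 / 2 : K) • (α.restrict hA + LinearMap.id)) = _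
    rw [map_smul, map_add, LinearMap.trace_id, smul_eq_mul]
  rw [h2] at h1
  push_cast
  have h3 : LinearMap.trace K A (α.restrict hA) + finrank K A = 2 * (finrank K P : K) := by
    rw [← h1]
    ring
  rw [← h3]
  ring

/-- Semilinear maps preserve dimensions. -/
theorem B9d_rank (τ : AlgebraicClosure ℚ ≃ₐ[ℚ] AlgebraicClosure ℚ)
    (P P' : Submodule (AlgebraicClosure ℚ) (Matrix ι ι (AlgebraicClosure ℚ)))
    (h1 : ∀ X ∈ P, X.map τ ∈ P') (h2 : ∀ X ∈ P', X.map τ.symm ∈ P) :
    finrank (AlgebraicClosure ℚ) P = finrank (AlgebraicClosure ℚ) P' := by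
  let j : P ≃+ P' :=
    { toFun := fun X => ⟨X.1.map τ, h1 X.1 X.2⟩
      invFun := fun X => ⟨X.1.map τ.symm, h2 X.1 X.2⟩
      left_inv := fun X => by
        apply Subtype.ext
        ext i k
        change τ.symm (τ (X.1 i k)) = _
        rw [AlgEquiv.symm_apply_apply]
      right_inv := fun X => by
        apply Subtype.ext
        ext i k
        change τ (τ.symm (X.1 i k)) = _
        rw [AlgEquiv.apply_symm_apply]
      map_add' := fun X Y => by
        apply Subtype.ext
        exact Matrix.map_add _ (map_add τ) X.1 Y.1 }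
  have h3 := _root_.rank_eq_of_equiv_equiv (fun x : AlgebraicClosure ℚ => τ x) j τ.bijective (by
    intro r m
    apply Subtype.ext
    ext i k
    change τ (r * m.1 i k) = τ r * τ (m.1 i k)
    rw [map_mul])
  exact congrArg Cardinal.toNat h3

/-- The antiautomorphism. -/
def B9d_al {k K : Type*} [Field k] [Field K] [Algebra k K] (J J' : Matrix ι ι k) :
    Matrix ι ι K →ₗ[K] Matrix ι ι K where
  toFun X := J'.map (algebraMap k K) * Xᵀ * J.map (algebraMap k K)
  map_add' := by
    intro X Y
    rw [Matrix.transpose_add, mul_add, add_mul]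
  map_smul' := by
    intro c X
    rw [Matrix.transpose_smul, mul_smul_comm, smul_mul_assoc, RingHom.id_apply]

theorem B9d_al_apply {k K : Type*} [Field k] [Field K] [Algebra k K] (J J' : Matrix ι ι k)
    (X : Matrix ι ι K) : B9d_al J J' X = J'.map (algebraMap k K) * Xᵀ * J.map (algebraMap k K) :=
  rfl

theorem B9d_mapmul {k K : Type*} [Field k] [Field K] [Algebra k K] (A B : Matrix ι ι k) :
    A.map (algebraMap k K) * B.map (algebraMap k K) = (A * B).map (algebraMap k K) :=
  (Matrix.map_mul).symm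

theorem B9d_mapone {k K : Type*} [Field k] [Field K] [Algebra k K] :
    (1 : Matrix ι ι k).map (algebraMap k K) = 1 :=
  Matrix.map_one _ (map_zero _) (map_one _)

/-- Chunk B9d. Setup and notation as in the proof of `B8_power`: `K = AlgebraicClosure ℚ`, `c i`
the roots of `f`, `A' i` the algebra generated by `B8c_E g T (c i)`, `A i` its image in operators.
`α X = J⁻¹ Xᵀ J` is an antiautomorphism, `α 1 = 1`, `α (α X) = X`, `α X = - X` for `X ∈ ext K g`, so
`α` preserves `A' i` (`Algebra.adjoin_induction`). By `B9_many` and `B9_mat`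
`∏ t i = - card ι`, where `t i` is the trace of `α` on `A i` (or `A' i`). `t i = t j`: an
automorphism `τ` of `K` with `τ (c i) = c j` acts on entries, maps `A' i` onto `A' j`
(`B8c_map`) and commutes with `α` (`J` is rational). `α` is an involution, so
`A' i = ker (α - 1) ⊕ ker (α + 1)` and `t i = dim ker (α - 1) - dim ker (α + 1)` is an integer
(e.g. `(α + 1) / 2` is an idempotent with `trace = finrank of the range`); `τ` maps
`ker (α - 1)` on `A' i` onto the same for `A' j` semilinearly, so the dimensions agree as in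
`B8c_rank`. Hence `- card ι = t ^ d` with an integer `t` and `d = f.natDegree`; so `d` is odd. -/
theorem B9_odd {g : Submodule ℚ (Matrix ι ι ℚ)} (hg : QForm g) (hι : 2 ≤ Fintype.card ι)
    {T : Matrix ι ι ℚ →ₗ[ℚ] Matrix ι ι ℚ} (hT : Cent g T) {f : ℚ[X]} (hf : Irreducible f)
    (hfT : ∀ X ∈ g, (aeval T f) X = 0) {J : Matrix ι ι ℚ} (hJ : Jᵀ = -J) (hJ0 : J.det ≠ 0)
    (hskew : ∀ X ∈ g, Xᵀ * J + J * X = 0) : Odd f.natDegree := by
  classical
  have hne : Nonempty ι := Fintype.card_pos_iff.1 (by omega)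
  let K := AlgebraicClosure ℚ
  obtain ⟨F, hFdef⟩ : ∃ F : K[X], F = f.map (algebraMap ℚ K) := ⟨_, rfl⟩
  have hFsep : F.Separable := by rw [hFdef]; exact (hf.separable).map
  set S := bc K T with hS
  have hCS : Cent (ext K g) S := B1_cent hT
  have hF : ∀ X ∈ ext K g, (aeval S F) X = 0 := fun X hX => by
    rw [hFdef]; exact B1_aeval hfT hX
  have hcard : Fintype.card (f.rootSet K) = f.natDegree :=
    Polynomial.card_rootSet_eq_natDegree hf.separable (IsAlgClosed.splits _)
  let e : f.rootSet K ≃ Fin f.natDegree := Fintype.equivFinOfCardEq hcard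
  let c : Fin f.natDegree → K := fun i => (e.symm i).1
  have hc : ∀ i, aeval (c i) f = 0 := fun i => (Polynomial.mem_rootSet.1 (e.symm i).2).2
  have hcinj : ∀ i j, i ≠ j → c i ≠ c j := by
    intro i j hij h
    exact hij (e.symm.injective (Subtype.ext h))
  have hcsurj : ∀ x : K, aeval x f = 0 → ∃ i, c i = x := by
    intro x hx
    refine ⟨e ⟨x, Polynomial.mem_rootSet.2 ⟨hf.ne_zero, hx⟩⟩, ?_⟩
    change (e.symm (e _)).1 = x
    rw [Equiv.symm_apply_apply]
  let A₀ : K → Subalgebra K (Matrix ι ι K) := fun x =>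
    Algebra.adjoin K (B8c_E g T x : Set (Matrix ι ι K))
  let A' : Fin f.natDegree → Subalgebra K (Matrix ι ι K) := fun i => A₀ (c i)
  let φ := (Matrix.toLinAlgEquiv' (n := ι) (R := K))
  let A : Fin f.natDegree → Subalgebra K (Module.End K (ι → K)) := fun i => (A' i).map φ.toAlgHom
  have hA'top : (⨆ i, A' i) = ⊤ := by
    rw [eq_top_iff, ← B1_fullK (K := K) hg]
    refine Algebra.adjoin_le fun X hX => ?_
    let S₁ : Module.End K (ext K g) := S.restrict hCS.maps
    have hS₁ : aeval S₁ F = 0 := by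
      ext x : 1
      apply Subtype.ext
      rw [B4_restrict hCS.maps, hF _ x.2]; rfl
    have hss : S₁.IsSemisimple :=
      Module.End.isSemisimple_of_squarefree_aeval_eq_zero hFsep.squarefree hS₁
    have htop := Module.End.IsSemisimple.iSup_eigenspace_eq_top hss
    have h1 : ∀ x : ext K g, x ∈ (⨆ μ : K, S₁.eigenspace μ) → x.1 ∈ ⨆ i, A' i := by
      intro x hx
      induction hx using Submodule.iSup_induction' with
      | mem μ x hx =>
        have h2 : S₁ x = μ • x := Module.End.mem_eigenspace_iff.1 hx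
        by_cases hx0 : x = 0
        · rw [hx0]
          exact Subalgebra.zero_mem _
        · have h3 : aeval S₁ F x = F.eval μ • x :=
            Module.End.aeval_apply_of_hasEigenvector ⟨hx, hx0⟩
          rw [hS₁, LinearMap.zero_apply] at h3
          have h4 := (smul_eq_zero.1 h3.symm).resolve_right hx0
          rw [hFdef, Polynomial.eval_map_algebraMap] at h4
          obtain ⟨i, hi⟩ := hcsurj μ h4
          refine (le_iSup A' i) (Algebra.subset_adjoin ⟨x.2, ?_⟩)
          rw [hi]
          exact congrArg Subtype.val h2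
      | zero => exact Subalgebra.zero_mem _
      | add a b _ _ ha hb => exact Subalgebra.add_mem _ ha hb
    exact h1 ⟨X, hX⟩ (by rw [htop]; trivial)
  have hAtop : (⨆ i, A i) = ⊤ := by
    have h1 : (⨆ i, A' i).map φ.toAlgHom ≤ ⨆ i, A i := by
      rw [Subalgebra.map_le]
      refine iSup_le fun i x hx => ?_
      exact (le_iSup A i) ⟨x, hx, rfl⟩
    rw [eq_top_iff]
    refine le_trans ?_ h1
    rw [hA'top]
    intro X _
    exact ⟨φ.symm X, trivial, φ.apply_symm_apply X⟩
  have hAcomm : ∀ i j, i ≠ j → ∀ X ∈ A i, ∀ Y ∈ A j, X * Y = Y * X := by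
    rintro i j hij _ ⟨x, hx, rfl⟩ _ ⟨y, hy, rfl⟩
    have h1 : x * y = y * x := B5a_comm (B8c_comm hT (hcinj i j hij)) hx hy
    change φ x * φ y = φ y * φ x
    rw [← map_mul, ← map_mul, h1]
  -- the antiautomorphism
  have hJu : IsUnit J.det := isUnit_iff_ne_zero.2 hJ0
  let J1 : Matrix ι ι K := J.map (algebraMap ℚ K)
  let J2 : Matrix ι ι K := J⁻¹.map (algebraMap ℚ K)
  have hJ12 : J1 * J2 = 1 := by
    change J.map (algebraMap ℚ K) * J⁻¹.map (algebraMap ℚ K) = 1
    rw [B9d_mapmul, Matrix.mul_nonsing_inv J hJu, B9d_mapone]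
  have hJ21 : J2 * J1 = 1 := by
    change J⁻¹.map (algebraMap ℚ K) * J.map (algebraMap ℚ K) = 1
    rw [B9d_mapmul, Matrix.nonsing_inv_mul J hJu, B9d_mapone]
  have hJ1t : J1ᵀ = -J1 := by
    change (J.map (algebraMap ℚ K))ᵀ = -(J.map (algebraMap ℚ K))
    rw [← Matrix.transpose_map, hJ]
    ext i j
    rw [Matrix.map_apply, Matrix.neg_apply, Matrix.neg_apply, Matrix.map_apply, map_neg]
  have hJ2t : J2ᵀ = -J2 := by
    have h1 : J2ᵀ * J1ᵀ = 1 := by rw [← Matrix.transpose_mul, hJ12, Matrix.transpose_one]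
    rw [hJ1t, mul_neg, neg_eq_iff_eq_neg] at h1
    calc J2ᵀ = J2ᵀ * (J1 * J2) := by rw [hJ12, mul_one]
      _ = (J2ᵀ * J1) * J2 := by rw [mul_assoc]
      _ = -J2 := by rw [h1, neg_mul, one_mul]
  let al : Matrix ι ι K →ₗ[K] Matrix ι ι K := B9d_al J J⁻¹
  have hal : ∀ X, al X = J2 * Xᵀ * J1 := fun X => rfl
  have halmul : ∀ X Y, al (X * Y) = al Y * al X := by
    intro X Y
    rw [hal, hal, hal, Matrix.transpose_mul]
    calc J2 * (Yᵀ * Xᵀ) * J1 = J2 * Yᵀ * 1 * Xᵀ * J1 := by noncomm_ring
      _ = J2 * Yᵀ * (J1 * J2) * Xᵀ * J1 := by rw [hJ12]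
      _ = J2 * Yᵀ * J1 * (J2 * Xᵀ * J1) := by noncomm_ring
  have halone : al 1 = 1 := by rw [hal, Matrix.transpose_one, mul_one, hJ21]
  have halinv : ∀ X, al (al X) = X := by
    intro X
    rw [hal (al X), hal X, Matrix.transpose_mul, Matrix.transpose_mul, Matrix.transpose_transpose,
      hJ1t, hJ2t]
    calc J2 * (-J1 * (X * -J2)) * J1 = (J2 * J1) * X * (J2 * J1) := by
          rw [Matrix.mul_neg X J2, Matrix.neg_mul, Matrix.mul_neg J1, neg_neg]
          simp only [Matrix.mul_assoc]
      _ = X := by rw [hJ21, one_mul, mul_one]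
  have halskew : ∀ X ∈ ext K g, al X = -X := by
    intro X hX
    have h1 : Xᵀ * J1 + J1 * X = 0 := by
      rw [ext] at hX
      induction hX using Submodule.span_induction with
      | mem Z hZ =>
        obtain ⟨Y, hY, rfl⟩ := hZ
        change (Y.map (algebraMap ℚ K))ᵀ * J.map (algebraMap ℚ K) +
          J.map (algebraMap ℚ K) * Y.map (algebraMap ℚ K) = 0
        rw [← Matrix.transpose_map, B9d_mapmul, B9d_mapmul,
          ← Matrix.map_add _ (map_add (algebraMap ℚ K)), hskew Y hY]
        exact Matrix.map_zero _ (map_zero _)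
      | zero => rw [Matrix.transpose_zero, zero_mul, mul_zero, add_zero]
      | add a b _ _ ha hb =>
        rw [Matrix.transpose_add, add_mul, mul_add]
        rw [add_add_add_comm, ha, hb, add_zero]
      | smul r a _ ha =>
        rw [Matrix.transpose_smul, smul_mul_assoc, mul_smul_comm, ← smul_add, ha, smul_zero]
    rw [hal]
    have h2 : Xᵀ * J1 = -(J1 * X) := eq_neg_of_add_eq_zero_left h1
    calc J2 * Xᵀ * J1 = J2 * (Xᵀ * J1) := by rw [mul_assoc]
      _ = -((J2 * J1) * X) := by rw [h2, Matrix.mul_neg, Matrix.mul_assoc]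
      _ = -X := by rw [hJ21, one_mul]
  have halA : ∀ x : K, ∀ X ∈ A₀ x, al X ∈ A₀ x := by
    intro x X hX
    induction hX using Algebra.adjoin_induction with
    | mem X hX =>
      rw [halskew X hX.1]
      exact Subalgebra.neg_mem _ (Algebra.subset_adjoin hX)
    | algebraMap r =>
      rw [Algebra.algebraMap_eq_smul_one, map_smul, halone]
      exact Subalgebra.smul_mem _ (Subalgebra.one_mem _) r
    | add a b _ _ ha hb =>
      rw [map_add]
      exact Subalgebra.add_mem _ ha hb
    | mul a b _ _ ha hb =>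
      rw [halmul]
      exact Subalgebra.mul_mem _ hb ha
  -- transport to operators
  let φl : Matrix ι ι K ≃ₗ[K] Module.End K (ι → K) := φ.toLinearEquiv
  let α : Module.End K (ι → K) →ₗ[K] Module.End K (ι → K) := φl.conj al
  have hα : ∀ X, α X = φ (al (φ.symm X)) := fun X => rfl
  have hαmul : ∀ X Y, α (X * Y) = α Y * α X := by
    intro X Y
    rw [hα, hα, hα, map_mul, halmul, map_mul]
  have hαone : α 1 = 1 := by rw [hα, map_one, halone, map_one]
  have hαinv : ∀ X, α (α X) = X := by
    intro X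
    rw [hα (α X), hα X, AlgEquiv.symm_apply_apply, halinv, AlgEquiv.apply_symm_apply]
  have hαA : ∀ i, ∀ X ∈ Subalgebra.toSubmodule (A i), α X ∈ Subalgebra.toSubmodule (A i) := by
    rintro i _ ⟨x, hx, rfl⟩
    refine ⟨al x, halA (c i) x hx, ?_⟩
    change φ (al x) = φ (al (φ.symm (φ x)))
    rw [AlgEquiv.symm_apply_apply]
  have hmany := B9_many f.natDegree (ι → K) A hAcomm hAtop α hαmul hαone hαA
  -- the total trace
  have hJ1det : J1.det ≠ 0 := by
    intro h
    have h1 := congrArg Matrix.det hJ12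
    rw [Matrix.det_mul, h, zero_mul, Matrix.det_one] at h1
    exact zero_ne_one h1
  have hJinv : J1⁻¹ = J2 := Matrix.inv_eq_right_inv hJ12
  have htr : LinearMap.trace K _ α = -(Fintype.card ι : K) := by
    rw [LinearMap.trace_conj']
    exact B9_mat hJ1t hJ1det al (fun X => by rw [hJinv, hal])
  -- the local traces
  let P₀ : K → Submodule K (Matrix ι ι K) := fun x =>
    Subalgebra.toSubmodule (A₀ x) ⊓ LinearMap.ker (al - LinearMap.id)
  have hP₀ : ∀ x X, X ∈ P₀ x ↔ X ∈ A₀ x ∧ al X = X := by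
    intro x X
    rw [Submodule.mem_inf, LinearMap.mem_ker, LinearMap.sub_apply, LinearMap.id_apply, sub_eq_zero]
    rfl
  let n : K → ℤ := fun x => 2 * (finrank K (P₀ x) : ℤ) - (finrank K (A₀ x) : ℤ)
  have hlocal : ∀ i, LinearMap.trace K _ (α.restrict (hαA i)) = ((n (c i) : ℤ) : K) := by
    intro i
    have h1 := B9d_trace (K := K) (Subalgebra.toSubmodule (A i)) ((P₀ (c i)).map φl.toLinearMap) α
      (hαA i) hαinv (by
      intro X
      constructor
      · rintro ⟨x, hx, rfl⟩
        obtain ⟨h2, h3⟩ := (hP₀ _ _).1 hx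
        refine ⟨⟨x, h2, rfl⟩, ?_⟩
        change φ (al (φ.symm (φ x))) = φ x
        rw [AlgEquiv.symm_apply_apply, h3]
      · rintro ⟨⟨x, hx, rfl⟩, h3⟩
        refine ⟨x, (hP₀ _ _).2 ⟨hx, ?_⟩, rfl⟩
        change φ (al (φ.symm (φ x))) = φ x at h3
        rw [AlgEquiv.symm_apply_apply] at h3
        exact φ.injective h3)
    rw [h1]
    have h2 : finrank K ((P₀ (c i)).map φl.toLinearMap) = finrank K (P₀ (c i)) :=
      LinearEquiv.finrank_map_eq φl (P₀ (c i))
    have h3 : finrank K (Subalgebra.toSubmodule (A i)) = finrank K (A₀ (c i)) :=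
      LinearEquiv.finrank_map_eq φl (Subalgebra.toSubmodule (A' i))
    rw [h2, h3]
  have hconj : ∀ i j, n (c i) = n (c j) := by
    intro i j
    have hN : Normal ℚ (AlgebraicClosure ℚ) :=
      @IsAlgClosure.normal ℚ (AlgebraicClosure ℚ) _ _ _ B8c_closure
    have h1 : IsConjRoot ℚ (c i) (c j) := by
      rw [IsConjRoot, ← minpoly.eq_of_irreducible hf (hc i), ← minpoly.eq_of_irreducible hf (hc j)]
    obtain ⟨τ, hτ⟩ := (isConjRoot_iff_exists_algEquiv (K := ℚ) (L := AlgebraicClosure ℚ)).1 h1
    have h2 := B8c_rank (g := g) (T := T) τ (c j)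
    rw [hτ] at h2
    have hcomm : ∀ (σ : AlgebraicClosure ℚ ≃ₐ[ℚ] AlgebraicClosure ℚ) (X : Matrix ι ι K),
        al (X.map σ) = (al X).map σ := by
      intro σ X
      have e1 : (al X).map σ = J2.map σ * (Xᵀ).map σ * J1.map σ := by
        rw [hal]
        have h3 : ∀ a b : Matrix ι ι K, (a * b).map σ = a.map σ * b.map σ := by
          intro a b
          have e : (a * b).map (σ : AlgebraicClosure ℚ →+* AlgebraicClosure ℚ) =
            a.map (σ : AlgebraicClosure ℚ →+* AlgebraicClosure ℚ) *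
            b.map (σ : AlgebraicClosure ℚ →+* AlgebraicClosure ℚ) := Matrix.map_mul
          exact e
        rw [h3, h3]
      have e2 : J1.map σ = J1 := B7_map_rat σ J
      have e3 : J2.map σ = J2 := B7_map_rat σ J⁻¹
      rw [e1, e2, e3, hal, Matrix.transpose_map]
    have h3 : finrank K (P₀ (c j)) = finrank K (P₀ (c i)) := by
      refine B9d_rank τ (P₀ (c j)) (P₀ (c i)) (fun X hX => ?_) (fun X hX => ?_)
      · obtain ⟨h4, h5⟩ := (hP₀ _ _).1 hX
        refine (hP₀ _ _).2 ⟨?_, ?_⟩
        · have h6 := B8c_map (g := g) (T := T) τ h4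
          rw [hτ] at h6
          exact h6
        · rw [hcomm, h5]
      · obtain ⟨h4, h5⟩ := (hP₀ _ _).1 hX
        refine (hP₀ _ _).2 ⟨?_, ?_⟩
        · have h6 := B8c_map (g := g) (T := T) τ.symm h4
          rw [← hτ, AlgEquiv.symm_apply_apply] at h6
          exact h6
        · rw [hcomm, h5]
    change 2 * (finrank K (P₀ (c i)) : ℤ) - (finrank K (A₀ (c i)) : ℤ) =
      2 * (finrank K (P₀ (c j)) : ℤ) - (finrank K (A₀ (c j)) : ℤ)
    rw [h3]
    have h4 : finrank K (A₀ (c j)) = finrank K (A₀ (c i)) := h2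
    rw [h4]
  have hdeg : 0 < f.natDegree := hf.natDegree_pos
  set m : ℤ := n (c ⟨0, hdeg⟩) with hm
  rw [htr, Finset.prod_congr rfl fun i _ => (hlocal i).trans (by rw [hconj i ⟨0, hdeg⟩]),
    Finset.prod_const, Finset.card_univ, Fintype.card_fin] at hmany
  have hint : -(Fintype.card ι : ℤ) = m ^ f.natDegree := by
    have h1 : ((-(Fintype.card ι : ℤ) : ℤ) : K) = ((m ^ f.natDegree : ℤ) : K) := by
      push_cast
      exact hmany
    exact_mod_cast h1
  by_contra hodd
  rw [Nat.not_odd_iff_even] at hodd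
  have h1 : 0 ≤ m ^ f.natDegree := hodd.pow_nonneg m
  have h2 : (0 : ℤ) < Fintype.card ι := by exact_mod_cast (by omega : 0 < Fintype.card ι)
  omega

end Pool.Agent.H49M
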