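import Pool.Agent.Lib.H53Toric.Monodromy

/-!
# Project H49M, part B: rational forms of the Lie algebra (definitions)
-/

set_option autoImplicit false
set_option linter.unusedSectionVars false
namespace Pool.Agent.H49M
open Module Matrix Pool.Agent.H53Toric

variable {ι : Type*} [Fintype ι] [DecidableEq ι]

/-- A simple Lie algebra of rational matrices which generates the algebra of all matrices. -/
structure QForm (g : Submodule ℚ (Matrix ι ι ℚ)) : Prop where
  lie : ∀ X ∈ g, ∀ Y ∈ g, X * Y - Y * X ∈ g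
  simple : ∀ I : Submodule ℚ (Matrix ι ι ℚ), I ≤ g →
    (∀ X ∈ g, ∀ Y ∈ I, X * Y - Y * X ∈ I) → I = ⊥ ∨ I = g
  full : Algebra.adjoin ℚ (g : Set (Matrix ι ι ℚ)) = ⊤

/-- The span over `K` of a space of rational matrices. -/
def ext (K : Type*) [Field K] [Algebra ℚ K] (g : Submodule ℚ (Matrix ι ι ℚ)) :
    Submodule K (Matrix ι ι K) :=
  Submodule.span K {X | ∃ Y ∈ g, X = Y.map (algebraMap ℚ K)}

/-- The map `T` commutes with the adjoint action on the Lie algebra `g`. -/
structure Cent {k : Type*} [Field k] (g : Submodule k (Matrix ι ι k))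
    (T : Matrix ι ι k →ₗ[k] Matrix ι ι k) : Prop where
  maps : ∀ X ∈ g, T X ∈ g
  comm : ∀ X ∈ g, ∀ Y ∈ g, T (X * Y - Y * X) = X * T Y - T Y * X

/-- The extension of scalars of a linear map between spaces of matrices. -/
noncomputable def bc (K : Type*) [Field K] [Algebra ℚ K]
    (T : Matrix ι ι ℚ →ₗ[ℚ] Matrix ι ι ℚ) : Matrix ι ι K →ₗ[K] Matrix ι ι K where
  toFun A := ∑ i, ∑ j, A i j • (T (Matrix.single i j 1)).map (algebraMap ℚ K)
  map_add' := by
    intro A B
    simp only [Matrix.add_apply, add_smul, Finset.sum_add_distrib]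
  map_smul' := by
    intro c A
    simp only [Matrix.smul_apply, smul_eq_mul, mul_smul, RingHom.id_apply, Finset.smul_sum]

/-- The centroid of `g` is trivial. -/
def TrivCent (g : Submodule ℚ (Matrix ι ι ℚ)) : Prop :=
  ∀ T : Matrix ι ι ℚ →ₗ[ℚ] Matrix ι ι ℚ, Cent g T → ∃ c : ℚ, ∀ X ∈ g, T X = c • X

section group

variable {L : Type*} [Field L] {G : Type*} [Group G]

/-- The `K`-points of the identity component of the Zariski closure of the image of `ρ`: the
invertible matrices in the Zariski closure of `ρ H` for every subgroup `H` of finite index. -/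
def idc (K : Type*) [Field K] [Algebra L K] (ρ : G →* Matrix.GeneralLinearGroup ι L) :
    Set (Matrix ι ι K) :=
  {x | x.det ≠ 0 ∧ ∀ H : Subgroup G, H.FiniteIndex → x ∈ zar (img K ρ H)}

/-- The Lie algebra of the Zariski closure of the image of `ρ` consists of the scalars and a
conjugate (over `L`) of the rational form `g`. -/
def HasForm (K : Type*) [Field K] [Algebra L K] [Algebra ℚ K]
    (ρ : G →* Matrix.GeneralLinearGroup ι L) (g : Submodule ℚ (Matrix ι ι ℚ)) : Prop :=
  ∃ P : Matrix.GeneralLinearGroup ι L, ∀ X : Matrix ι ι K, X ∈ zlie (img K ρ ⊤) ↔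
    ∃ c : K, ∃ Y ∈ ext K g, X = c • (1 : Matrix ι ι K) +
      P.1.map (algebraMap L K) * Y * (P⁻¹).1.map (algebraMap L K)

/-- The Lie algebra contains a nonscalar element `y`, idempotent or of square zero, whose
conjugacy class under the identity component is stable under the automorphisms of `K` over `L`. -/
def HasPoint (K : Type*) [Field K] [Algebra L K] (ρ : G →* Matrix.GeneralLinearGroup ι L) :
    Prop :=
  ∃ y ∈ zlie (img K ρ ⊤), (y * y = y ∨ y * y = 0) ∧ (∀ c : K, y ≠ c • 1) ∧
    ∀ τ : K ≃ₐ[L] K, ∃ γ ∈ idc K ρ, y.map τ * γ = γ * y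

/-- Every element of the identity component which commutes with `ρ σ` is in the Zariski closure
of the powers of `ρ σ`. -/
def TorusCond (K : Type*) [Field K] [Algebra L K] (ρ : G →* Matrix.GeneralLinearGroup ι L)
    (σ : G) : Prop :=
  ∀ x ∈ idc K ρ, x * (ρ σ).1.map (algebraMap L K) = (ρ σ).1.map (algebraMap L K) * x →
    x ∈ zar {m | ∃ n : ℕ, m = ((ρ σ).1.map (algebraMap L K)) ^ n}

end group

end Pool.Agent.H49M
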