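import Pool.Agent.Lib.H49M.BDefs

/-!
# C0: the Lie algebra of a group of similitudes
-/

set_option autoImplicit false
set_option linter.unusedSectionVars false
namespace Pool.Agent.H49M
open Module Matrix Polynomial Pool.Agent.H53Toric

variable {ι : Type*} [Fintype ι] [DecidableEq ι]

/-- Chunk C0a. Let `A ∈ zlie S`. For the polynomials `F i j` of the proof of `zar_sim`
(H53Toric.Assemble), `ev y (F i j) = (yᵀ J y)_ij`, the polynomial
`f = F i j * C (J k l) - F k l * C (J i j)` vanishes on `S`, so `ev 1 (der A f) = 0` (`1 ∈ S`, and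
`A ∈ zlie S` means that `der A` preserves the polynomials vanishing on `S`: look at the
definition in H53Toric.Zar). With `eval_derivative_lin` (derivative of `t ↦ f (1 + t A)` at `0`)
this reads `(Aᵀ J + J A)_ij J_kl = (Aᵀ J + J A)_kl J_ij`. -/
theorem C0_sim {K : Type*} [Field K] {J : Matrix ι ι K} {k l : ι} (hkl : J k l ≠ 0)
    {S : Set (Matrix ι ι K)} (hS1 : (1 : Matrix ι ι K) ∈ S)
    (hsim : ∀ s ∈ S, ∃ c : K, sᵀ * J * s = c • J) {A : Matrix ι ι K} (hA : A ∈ zlie S) :
    ∃ c : K, Aᵀ * J + J * A = c • J := by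
  let F : ι → ι → MvPolynomial (ι × ι) K := fun i j =>
    ∑ b, (∑ a, MvPolynomial.X (a, i) * MvPolynomial.C (J a b)) * MvPolynomial.X (b, j)
  have hF : ∀ (y : Matrix ι ι K) (i j : ι), ev y (F i j) = (yᵀ * J * y) i j := by
    intro y i j
    simp only [F, map_sum, map_mul, ev_X, ev_C, Matrix.mul_apply, Matrix.transpose_apply]
  have hlin : ∀ a i : ι, ev (1 : Matrix ι ι K) (der A (MvPolynomial.X (a, i))) = A a i := by
    intro a i
    rw [der_X, map_sum]
    rw [Finset.sum_eq_single a]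
    · rw [map_mul, ev_X, ev_C, Matrix.one_apply_eq, one_mul]
    · intro b _ hb
      rw [map_mul, ev_X, ev_C, Matrix.one_apply_ne hb.symm, zero_mul]
    · intro h
      exact absurd (Finset.mem_univ a) h
  have hmul : ∀ p q : MvPolynomial (ι × ι) K, ev (1 : Matrix ι ι K) (der A (p * q)) =
      ev 1 p * ev 1 (der A q) + ev 1 q * ev 1 (der A p) := by
    intro p q
    rw [Derivation.leibniz, map_add, smul_eq_mul, smul_eq_mul, map_mul, map_mul]
  have hC : ∀ c : K, ev (1 : Matrix ι ι K) (der A (MvPolynomial.C c)) = 0 := by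
    intro c
    rw [MvPolynomial.derivation_C, map_zero]
  have hder : ∀ i j, ev (1 : Matrix ι ι K) (der A (F i j)) = (Aᵀ * J + J * A) i j := by
    intro i j
    have h1 : ∀ b, ev (1 : Matrix ι ι K)
        (∑ a, MvPolynomial.X (a, i) * MvPolynomial.C (J a b)) = J i b := by
      intro b
      rw [map_sum, Finset.sum_eq_single i]
      · rw [map_mul, ev_X, ev_C, Matrix.one_apply_eq, one_mul]
      · intro a _ ha
        rw [map_mul, ev_X, ev_C, Matrix.one_apply_ne ha, zero_mul]
      · intro h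
        exact absurd (Finset.mem_univ i) h
    have h2 : ∀ b, ev (1 : Matrix ι ι K)
        (der A (∑ a, MvPolynomial.X (a, i) * MvPolynomial.C (J a b))) = (Aᵀ * J) i b := by
      intro b
      rw [map_sum, map_sum, Matrix.mul_apply]
      refine Finset.sum_congr rfl fun a _ => ?_
      rw [hmul, hC, mul_zero, zero_add, hlin, ev_C, Matrix.transpose_apply, mul_comm]
    have h3 : ∀ b, ev (1 : Matrix ι ι K) (der A
        ((∑ a, MvPolynomial.X (a, i) * MvPolynomial.C (J a b)) * MvPolynomial.X (b, j))) =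
        J i b * A b j + (1 : Matrix ι ι K) b j * (Aᵀ * J) i b := by
      intro b
      rw [hmul, h1, h2, hlin, ev_X]
    change ev (1 : Matrix ι ι K) (der A (∑ b, _)) = _
    rw [map_sum, map_sum, Finset.sum_congr rfl fun b _ => h3 b, Finset.sum_add_distrib,
      Matrix.add_apply, Matrix.mul_apply (M := J), add_comm]
    congr 1
    rw [Finset.sum_eq_single j]
    · rw [Matrix.one_apply_eq, one_mul]
    · intro b _ hb
      rw [Matrix.one_apply_ne hb, zero_mul]
    · intro h
      exact absurd (Finset.mem_univ j) h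
  refine ⟨(Aᵀ * J + J * A) k l / J k l, ?_⟩
  ext i j
  have h1 := hA (F i j * MvPolynomial.C (J k l) - F k l * MvPolynomial.C (J i j)) (by
    intro s hs
    obtain ⟨c, hc⟩ := hsim s hs
    rw [map_sub, map_mul, map_mul, ev_C, ev_C, hF, hF, hc, Matrix.smul_apply,
      Matrix.smul_apply, smul_eq_mul, smul_eq_mul]
    ring) 1 hS1
  rw [map_sub, map_sub, hmul, hmul, hC, hC, mul_zero, mul_zero, zero_add, zero_add, ev_C, ev_C,
    hder, hder, sub_eq_zero] at h1
  rw [Matrix.smul_apply, smul_eq_mul, div_mul_eq_mul_div, eq_div_iff hkl, mul_comm, h1, mul_comm]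

/-- The trace: multiply `Aᵀ J + J A = c J` by `J⁻¹`: `2 tr A = c (card ι)`. -/
theorem C0_trace {K : Type*} [Field K] {J : Matrix ι ι K} (hdet : IsUnit J.det)
    {A : Matrix ι ι K} {c : K} (hA : Aᵀ * J + J * A = c • J) :
    2 * A.trace = c * (Fintype.card ι : K) := by
  have h1 : Aᵀ + J * A * J⁻¹ = c • (1 : Matrix ι ι K) := by
    have h2 := congrArg (fun X => X * J⁻¹) hA
    simp only [add_mul, smul_mul_assoc] at h2
    rwa [mul_assoc Aᵀ, Matrix.mul_nonsing_inv _ hdet, mul_one] at h2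
  have h2 := congrArg Matrix.trace h1
  rw [Matrix.trace_add, Matrix.trace_transpose, Matrix.trace_mul_comm, ← mul_assoc,
    Matrix.nonsing_inv_mul _ hdet, one_mul, Matrix.trace_smul, Matrix.trace_one, smul_eq_mul] at h2
  rw [two_mul, h2]

/-- The adjoint of `Matrix.toLin'`: `ω (X v, w) = ω (v, adj X w)`. -/
theorem C0_spec {K : Type*} [Field K] {J : Matrix ι ι K} (hdet : IsUnit J.det)
    (X : Module.End K (ι → K)) (v w : ι → K) : om J (X v) w = om J v (adjE J X w) := by
  obtain ⟨x, rfl⟩ := (phi (ι := ι) (K := K)).surjective X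
  rw [adjE_phi, phi_apply, phi_apply, om_apply, om_apply, Matrix.mulVec_mulVec]
  have h1 : J * (J⁻¹ * xᵀ * J) = xᵀ * J := by
    rw [← mul_assoc, ← mul_assoc, Matrix.mul_nonsing_inv _ hdet, one_mul]
  rw [h1, ← Matrix.mulVec_mulVec, Matrix.dotProduct_mulVec v, Matrix.vecMul_transpose]

/-- The form over `K`. -/
theorem C0_setup {K : Type*} [Field K] [CharZero K] {L : Type*} [Field L]
    [CharZero L] [Algebra L K] {ψ : Matrix ι ι ℚ} (hψ : ψᵀ = -ψ) (hψ0 : ψ.det ≠ 0)
    {G : Type*} [Group G] (ρ : G →* Matrix.GeneralLinearGroup ι L)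
    (sim : ∀ σ : G, ∃ c : L, (ρ σ).1ᵀ * ψ.map (algebraMap ℚ L) * (ρ σ).1 =
      c • ψ.map (algebraMap ℚ L)) :
    (ψ.map (algebraMap ℚ K))ᵀ = -(ψ.map (algebraMap ℚ K)) ∧
    IsUnit (ψ.map (algebraMap ℚ K)).det ∧
    (Nonempty ι → ∃ k l, (ψ.map (algebraMap ℚ K)) k l ≠ 0) ∧
    ∀ (H : Subgroup G), ∀ s ∈ img K ρ H, ∃ c : K,
      sᵀ * ψ.map (algebraMap ℚ K) * s = c • ψ.map (algebraMap ℚ K) := by
  set J : Matrix ι ι K := ψ.map (algebraMap ℚ K) with hJdef
  have hJ : Jᵀ = -J := by
    rw [hJdef, ← Matrix.transpose_map, hψ]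
    ext i j
    simp
  have hdet : IsUnit J.det := by
    have h1 : J.det = algebraMap ℚ K ψ.det := by
      rw [hJdef]
      exact (RingHom.map_det (algebraMap ℚ K) ψ).symm
    rw [h1, isUnit_iff_ne_zero]
    exact (_root_.map_ne_zero _).2 hψ0
  refine ⟨hJ, hdet, ?_, ?_⟩
  · intro hι
    by_contra hcon
    push Not at hcon
    have : J = 0 := by
      ext i j
      exact hcon i j
    rw [this, Matrix.det_zero] at hdet
    exact not_isUnit_zero hdet
  · rintro H _ ⟨σ, -, rfl⟩
    obtain ⟨c, hc⟩ := sim σ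
    refine ⟨algebraMap L K c, ?_⟩
    have h1 := congrArg (fun m : Matrix ι ι L => m.map (algebraMap L K)) hc
    have h2 : (ψ.map (algebraMap ℚ L)).map (algebraMap L K) = J := by
      rw [hJdef]
      ext i j
      simp
    have h3 : (c • ψ.map (algebraMap ℚ L)).map (algebraMap L K) = algebraMap L K c • J := by
      rw [← h2]
      ext i j
      simp
    simp only [Matrix.map_mul, Matrix.transpose_map] at h1
    rw [h3, h2] at h1
    exact h1

end Pool.Agent.H49M
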