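import Pool.Agent.Lib.H49M.K0
import Pool.Agent.Lib.H49M.P0

/-!
# P1: a second frame
-/

set_option autoImplicit false
set_option linter.unusedSectionVars false
namespace Pool.Agent.H49M
open Module Pool.Agent.H53Toric

variable {K : Type*} [Field K] {V : Type*} [AddCommGroup V] [Module K V]

variable {L : Submodule K (Module.End K V)} {ω : V →ₗ[K] V →ₗ[K] K}
  {adj : Module.End K V →ₗ[K] Module.End K V}

/-- Chunk P1. Put `e' = u f u ∈ L` (`IsLie.sandwich`), `p = e f`, `q = f e`, `p' = (1+s)/2 - p`,
`q' = (1-s)/2 - q`. From `u = p u + u q` and `u ∈ Lp`: `u = p u q' + p' u q`, so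
`e' = p' u q f p u q' = p' e' q'`. By `exists_partner` (H53Toric.Core1; traces vanish by
`(A1_setup h F.s_mem F.s_sq).tr`) there is `X ∈ L` with `e' X e' = e'`; `X' = q' X p' ∈ L`
(block component: `peirce_mem` in H53Toric.Core3 or `P0_block` with `c = (p, p', q', q)`,
`w = (3, 1, -1, -3)` : `D = s + 2 (p - q) ∈ L`; the difference `-2` occurs for `q' X p'`,
`p' X p` and `q X q'`, so first pass to the part of weight `-1` for `s`), `e' X' e' = e'`, and
`f' = X' e' X'` satisfies `e' f' e' = e'`, `f' e' f' = f'`, `f' = q' f' p'`.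
`u f' u ∈ L` equals `p (u f' u) q`, so it is `c e` (`K0_ext`), and
`e' = e' f' e' = u f (u f' u) f u = c u f e f u = c e'`, so `c = 1`: `u f' u = e`.
Extremality of `e'`: `e' X e' = u (f (u X u) f) u = c u f u`, as `f` is extremal (`K0_swap`).
Orthogonality: `e f' = e q' f' = 0` etc. `u2`: `e' f' u = u f (u f' u) = u f e = u q` and
`u f' e' = (u f' u) f u = e f u = p u`, sum `= u`. -/
theorem P1_grid [CharZero K] [IsAlgClosed K] [FiniteDimensional K V] [Nontrivial V]
    (h : Core L ω adj) {s e f u : Module.End K V} (F : Frame L s e f) (hu : u ∈ J1 L s e f)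
    (hu0 : u * f * u ≠ 0) : ∃ e' f' : Module.End K V, Grid L s e f e' f' u := by
  have hl := h.lie
  obtain ⟨huP, hu1⟩ := hu
  have huu : u * u = 0 := A2_pp huP huP
  have hff : f * f = 0 := A2_mm F.f_mem F.f_mem
  have hee : e * e = 0 := A2_pp F.e_mem F.e_mem
  have hset := A1_setup h F.s_mem F.s_sq
  have hFs := K0_swap hl F
  -- `p u q = 0`
  have hpuq : e * f * u * (f * e) = 0 := by
    have h1 : e * f * u * (f * e) = e * f * u * (f * e) + e * f * u * (f * e) := by
      calc e * f * u * (f * e) = e * f * (e * f * u + u * (f * e)) * (f * e) := by rw [hu1]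
        _ = (e * f * e) * f * u * (f * e) + e * f * u * ((f * e * f) * e) := by noncomm_ring
        _ = _ := by rw [F.efe, F.fef]
    have h2 : e * f * u * (f * e) + 0 = e * f * u * (f * e) + e * f * u * (f * e) := by
      rw [add_zero]; exact h1
    exact (add_left_cancel h2).symm
  have hfuf : f * u * f = 0 := by
    calc f * u * f = (f * e * f) * u * (f * e * f) := by rw [F.fef]
      _ = f * (e * f * u * (f * e)) * f := by noncomm_ring
      _ = 0 := by rw [hpuq]; simp
  -- the element `e'`
  obtain ⟨e', he'⟩ : ∃ e', e' = u * f * u := ⟨_, rfl⟩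
  have he'L : e' ∈ L := by rw [he']; exact hl.sandwich huP.1 huu F.f_mem.1
  have he's : s * e' = e' := by rw [he', ← mul_assoc, ← mul_assoc, huP.2.1]
  have hse' : e' * s = -e' := by rw [he', mul_assoc (u * f), huP.2.2, mul_neg]
  have he'P : e' ∈ Lp L s := ⟨he'L, he's, hse'⟩
  have he'e' : e' * e' = 0 := A2_pp he'P he'P
  have o3 : e' * f = 0 := by
    rw [he']
    calc u * f * u * f = u * (f * u * f) := by noncomm_ring
      _ = 0 := by rw [hfuf, mul_zero]
  have o4 : f * e' = 0 := by
    rw [he']
    calc f * (u * f * u) = (f * u * f) * u := by noncomm_ring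
      _ = 0 := by rw [hfuf, zero_mul]
  -- a partner
  obtain ⟨X, hX, hXe⟩ := exists_partner hl h.irr hset.tr he'L he'e'
  obtain ⟨a, ha, b, hb, c, hc, hXabc⟩ := A2_decomp h F.s_mem F.s_sq hX
  have hcc : c * c = 0 := A2_mm hc hc
  have hebe : e' * b * e' = 0 := by
    have h1 : e' * b * e' = -(e' * b * e') := by
      calc e' * b * e' = e' * b * (s * e') := by rw [he's]
        _ = e' * (b * s) * e' := by noncomm_ring
        _ = e' * (s * b) * e' := by rw [hb.2]
        _ = (e' * s) * b * e' := by noncomm_ring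
        _ = _ := by rw [hse']; noncomm_ring
    have h2 : (2 : K) • (e' * b * e') = 0 := by
      rw [two_smul]
      nth_rewrite 1 [h1]
      exact neg_add_cancel _
    exact (smul_eq_zero.mp h2).resolve_left two_ne_zero
  have hece : e' * c * e' = e' := by
    have h1 : e' * X * e' = e' * a * e' + e' * b * e' + e' * c * e' := by
      rw [hXabc]; noncomm_ring
    rw [hXe, A2_pp he'P ha, zero_mul, hebe, zero_add, zero_add] at h1
    exact h1.symm
  have hfc : f * c = 0 := A2_mm F.f_mem hc
  have hcf : c * f = 0 := A2_mm hc F.f_mem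
  obtain ⟨l, hlc⟩ := F.ext c hc.1
  -- the corrected partner
  obtain ⟨Y, hY⟩ : ∃ Y, Y = c - f * e * c - c * e * f + l • f := ⟨_, rfl⟩
  have hYL : Y ∈ L := by
    have h1 : Y = c + ((e * f - f * e) * c - c * (e * f - f * e)) + l • f := by
      rw [hY]
      have : (e * f - f * e) * c - c * (e * f - f * e) =
          e * (f * c) - f * e * c - c * e * f + (c * f) * e := by noncomm_ring
      rw [this, hfc, hcf]
      noncomm_ring
    rw [h1]
    exact L.add_mem (L.add_mem hc.1 (hl _ (K0_H hl F) _ hc.1)) (L.smul_mem _ F.f_mem.1)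
  have hY2 : Y = (1 - f * e) * c * (1 - e * f) := by
    have : (1 - f * e) * c * (1 - e * f) = c - f * e * c - c * e * f + f * (e * c * e) * f := by
      noncomm_ring
    rw [this, hlc, hY]
    rw [mul_smul_comm, smul_mul_assoc, F.fef]
  have hYs : s * Y = -Y := by
    rw [hY2, ← mul_assoc, ← mul_assoc]
    have : s * (1 - f * e) = (1 - f * e) * s := by
      rw [mul_sub, sub_mul, mul_one, one_mul, ← mul_assoc, F.f_mem.2.1, mul_assoc f e s,
        F.e_mem.2.2]
      noncomm_ring
    rw [this, mul_assoc (1 - f * e) s c, hc.2.1]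
    noncomm_ring
  have hsY : Y * s = Y := by
    rw [hY2, mul_assoc]
    have : (1 - e * f) * s = s * (1 - e * f) := by
      rw [mul_sub, sub_mul, mul_one, one_mul, ← mul_assoc, F.e_mem.2.1, mul_assoc e f s,
        F.f_mem.2.2]
    rw [this, ← mul_assoc, mul_assoc _ c s, hc.2.2]
  have hYm : Y ∈ Lm L s := ⟨hYL, hYs, hsY⟩
  have hYY : Y * Y = 0 := A2_mm hYm hYm
  have heYe : e' * Y * e' = e' := by
    rw [hY2]
    have : e' * ((1 - f * e) * c * (1 - e * f)) * e' = (e' - (e' * f) * e) * c *
        (e' - e * (f * e')) := by noncomm_ring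
    rw [this, o3, o4, zero_mul, mul_zero, sub_zero, hece]
  obtain ⟨f', hf'⟩ : ∃ f', f' = Y * e' * Y := ⟨_, rfl⟩
  have hf'L : f' ∈ L := by rw [hf']; exact hl.sandwich hYL hYY he'L
  have o1 : e * f' = 0 := by
    have : e * Y = 0 := by
      rw [hY2]
      calc e * ((1 - f * e) * c * (1 - e * f)) = (e - e * f * e) * c * (1 - e * f) := by
            noncomm_ring
        _ = 0 := by rw [F.efe, sub_self, zero_mul, zero_mul]
    rw [hf', ← mul_assoc, ← mul_assoc, this, zero_mul, zero_mul]
  have o2 : f' * e = 0 := by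
    have : Y * e = 0 := by
      rw [hY2]
      calc ((1 - f * e) * c * (1 - e * f)) * e = (1 - f * e) * c * (e - e * f * e) := by
            noncomm_ring
        _ = 0 := by rw [F.efe, sub_self, mul_zero]
    rw [hf', mul_assoc, this, mul_zero]
  have hf'm : f' ∈ Lm L s := ⟨hf'L, by rw [hf', ← mul_assoc, ← mul_assoc, hYs]; noncomm_ring,
    by rw [hf', mul_assoc, hsY]⟩
  have hefe' : e' * f' * e' = e' := by
    rw [hf']
    calc e' * (Y * e' * Y) * e' = (e' * Y * e') * Y * e' := by noncomm_ring
      _ = e' := by rw [heYe, heYe]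
  have hfef' : f' * e' * f' = f' := by
    rw [hf']
    calc Y * e' * Y * e' * (Y * e' * Y) = Y * ((e' * Y * e') * Y * e') * Y := by noncomm_ring
      _ = _ := by rw [heYe, heYe]
  -- `u f' u = e`
  have hufu : u * f' * u = e := by
    have hf'f : f' * f = 0 := A2_mm hf'm F.f_mem
    have hff' : f * f' = 0 := A2_mm F.f_mem hf'm
    have h1 : u * f' = e * f * u * f' := by
      calc u * f' = (e * f * u + u * (f * e)) * f' := by rw [hu1]
        _ = e * f * u * f' + u * f * (e * f') := by noncomm_ring
        _ = _ := by rw [o1, mul_zero, add_zero]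
    have h2 : f' * u = f' * u * (f * e) := by
      calc f' * u = f' * (e * f * u + u * (f * e)) := by rw [hu1]
        _ = (f' * e) * f * u + f' * u * (f * e) := by noncomm_ring
        _ = _ := by rw [o2, zero_mul, zero_mul, zero_add]
    obtain ⟨k, hk⟩ := K0_ext hl F (hl.sandwich huP.1 huu hf'L)
    have h3 : u * f' * u = k • e := by
      rw [← hk]
      calc u * f' * u = (e * f * u * f') * u := by rw [← h1]
        _ = e * f * u * (f' * u) := by noncomm_ring
        _ = e * f * u * (f' * u * (f * e)) := by rw [← h2]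
        _ = _ := by noncomm_ring
    have h4 : e' = k • e' := by
      calc e' = e' * f' * e' := hefe'.symm
        _ = u * f * (u * f' * u) * f * u := by rw [he']; noncomm_ring
        _ = k • (u * (f * e * f) * u) := by
          rw [h3]
          simp only [mul_smul_comm, smul_mul_assoc, mul_assoc]
        _ = k • e' := by rw [F.fef, ← he']
    have h5 : (k - 1) • e' = 0 := by rw [sub_smul, one_smul, ← h4, sub_self]
    have h6 : e' ≠ 0 := by rw [he']; exact hu0
    have h7 : k = 1 := sub_eq_zero.mp ((smul_eq_zero.mp h5).resolve_right h6)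
    rw [h3, h7, one_smul]
  refine ⟨e', f', F, ⟨F.s_mem, F.s_sq, he'P, hf'm, by rw [he']; exact hu0, hefe', hfef', ?_⟩,
    o1, o2, o3, o4, huP, he'.symm, hufu, hu1, ?_⟩
  · intro X hX
    obtain ⟨k, hk⟩ := hFs.ext _ (hl.sandwich huP.1 huu hX)
    refine ⟨k, ?_⟩
    rw [he']
    calc u * f * u * X * (u * f * u) = u * (f * (u * X * u) * f) * u := by noncomm_ring
      _ = k • (u * f * u) := by rw [hk, mul_smul_comm, smul_mul_assoc]
  · calc e' * f' * u + u * (f' * e') = u * f * (u * f' * u) + (u * f' * u) * f * u := by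
          rw [he']; noncomm_ring
      _ = e * f * u + u * (f * e) := by rw [hufu]; noncomm_ring
      _ = u := hu1

end Pool.Agent.H49M
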