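import Pool.Agent.Lib.H49M.P8
import Pool.Agent.Lib.H49M.P1
import Pool.Agent.Lib.H49M.A4

/-!
# The main theorem of part A
-/

set_option autoImplicit false
set_option linter.unusedSectionVars false
namespace Pool.Agent.H49M
open Module Pool.Agent.H53Toric

variable {K : Type*} [Field K] {V : Type*} [AddCommGroup V] [Module K V]
variable {L : Submodule K (Module.End K V)} {ω : V →ₗ[K] V →ₗ[K] K}
  {adj : Module.End K V →ₗ[K] Module.End K V}

/-- A simple irreducible Lie algebra of skew operators containing an involution is the full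
symplectic Lie algebra if it contains a square zero operator of rank less than a quarter of the
dimension, or if the dimension is neither a power of two greater than eight nor a central binomial
coefficient. -/
theorem coreA [CharZero K] [IsAlgClosed K] [FiniteDimensional K V] [Nontrivial V]
    (h : Core L ω adj) {s : Module.End K V} (hs : s ∈ L) (hs2 : s * s = 1)
    (hnum : (∃ N ∈ L, N * N = 0 ∧ N ≠ 0 ∧
      4 * finrank K (LinearMap.range N) < finrank K V) ∨
      ((∀ m : ℕ, 4 ≤ m → finrank K V ≠ 2 ^ m) ∧
        (∀ k : ℕ, 2 ≤ k → finrank K V ≠ k.centralBinom)))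
    {X : Module.End K V} (hX : adj X = -X) : X ∈ L := by
  -- a frame
  have key : ∃ s' e f : Module.End K V, Frame L s' e f ∧
      (4 * finrank K (LinearMap.range e) < finrank K V ∨
      ((∀ m : ℕ, 4 ≤ m → finrank K V ≠ 2 ^ m) ∧
        (∀ k : ℕ, 2 ≤ k → finrank K V ≠ k.centralBinom))) := by
    rcases hnum with ⟨N, hN, hN2, hN0, hr⟩ | hnum
    · obtain ⟨s', e, f, F, hle⟩ := A4_frame h hs hs2 hN hN2 hN0
      exact ⟨s', e, f, F, Or.inl (by omega)⟩
    · obtain ⟨N, hN, hN0⟩ := Submodule.exists_mem_ne_zero_of_ne_bot (A2_ne h hs hs2)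
      obtain ⟨s', e, f, F, -⟩ := A4_frame h hs hs2 hN.1 (A2_pp hN hN) hN0
      exact ⟨s', e, f, F, Or.inr hnum⟩
  obtain ⟨s', e, f, F, hnum'⟩ := key
  have hset := A1_setup h hs hs2
  have hee : e * e = 0 := A2_pp F.e_mem F.e_mem
  -- it is enough to have rank one
  suffices hr : finrank K (LinearMap.range e) = 1 by
    exact Setup.full hset F.e_mem.1 hee (by rw [hr]; decide) hX
  by_cases ha : ∀ u ∈ J1 L s' e f, u * f * u = 0
  · rcases K5_final h F ha with h1 | ⟨k, hk, h1, h2⟩
    · exact h1
    · rcases hnum' with h3 | h3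
      · omega
      · exact absurd h1 (h3.2 k hk)
  · push Not at ha
    obtain ⟨u, hu, hu0⟩ := ha
    obtain ⟨e', f', G⟩ := P1_grid h F hu hu0
    rcases P5_dich h G with h1 | h1
    · exact P6_one h G h1
    · have h4 := P8_four h G h1
      obtain ⟨t, ht⟩ := P8_pow h G h1
      have h5 := (K5_eig h G.F.s_mem G.F.s_sq).2
      have h2 := P8_two h G
      rcases hnum' with h3 | h3
      · omega
      · have h6 : finrank K V = 2 ^ (t + 1) := by rw [h5, ht, pow_succ]; ring
        by_cases ht4 : 4 ≤ t + 1
        · exact absurd h6 (h3.1 (t + 1) ht4)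
        · have : t ≤ 2 := by omega
          interval_cases t <;> omega
end Pool.Agent.H49M
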