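import Pool.Agent.Lib.H49M.C0
import Pool.Agent.Lib.H49M.B3
import Pool.Agent.Lib.H49M.CoreA

/-!
# C1: the Lie algebra is the full symplectic one
-/

set_option autoImplicit false
set_option linter.unusedSectionVars false
namespace Pool.Agent.H49M
open Module Matrix Polynomial Pool.Agent.H53Toric

variable {ι : Type*} [Fintype ι] [DecidableEq ι]

/-- The operators `phi (p Y p')`. -/
noncomputable def C1_Psi {K : Type*} [Field K] (p p' : Matrix ι ι K) :
    Matrix ι ι K →ₗ[K] Module.End K (ι → K) where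
  toFun Y := phi (p * Y * p')
  map_add' := by
    intro X Y
    rw [mul_add, add_mul, map_add]
  map_smul' := by
    intro c X
    rw [mul_smul_comm, smul_mul_assoc, map_smul, RingHom.id_apply]

theorem C1_Psi_apply {K : Type*} [Field K] (p p' Y : Matrix ι ι K) :
    C1_Psi p p' Y = phi (p * Y * p') := rfl

theorem C1_Psi_mul {K : Type*} [Field K] {p p' : Matrix ι ι K} (hpp : p' * p = 1)
    (X Y : Matrix ι ι K) : C1_Psi p p' (X * Y) = C1_Psi p p' X * C1_Psi p p' Y := by
  rw [C1_Psi_apply, C1_Psi_apply, C1_Psi_apply, ← map_mul]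
  congr 1
  calc p * (X * Y) * p' = p * X * 1 * Y * p' := by noncomm_ring
    _ = p * X * (p' * p) * Y * p' := by rw [hpp]
    _ = _ := by noncomm_ring

theorem C1_Psi_inj {K : Type*} [Field K] {p p' : Matrix ι ι K} (hpp : p' * p = 1)
    {X : Matrix ι ι K} (hX : C1_Psi p p' X = 0) : X = 0 := by
  rw [C1_Psi_apply] at hX
  have h1 := (map_eq_zero_iff _ (phi (ι := ι) (K := K)).injective).1 hX
  calc X = (p' * p) * X * (p' * p) := by rw [hpp, one_mul, mul_one]
    _ = p' * (p * X * p') * p := by noncomm_ring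
    _ = 0 := by rw [h1, mul_zero, zero_mul]

/-- Chunk C1. Let `J = ψ` over `K`, `P` as in `HasForm`, `p = P.map`, `p' = P⁻¹.map`, `ω = om J`,
`adj = adjE J` and `L' = {phi (p Y p') : Y ∈ ext K g}` (a submodule of `End (ι → K)`). Then
`Core L' ω adj`: `lie` by `B1_lieK`, `irr` by `B1_irrK` (conjugate), `simple` by `B3_simple`
(conjugate), `alt`, `nd` by `om_alt`, `om_nd`, `spec` by `C0_spec`, `skew`: `p Y p' ∈ zlie`, so
`C0_sim` gives a scalar `c`, which is zero by `C0_trace`, `B1_traceK`, and `skew_iff`. The involution: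
`h ∈ zlie` (`hodgeProj_zlie`), `hᵀ J + J h = J` (`proj_sim'`), so `2 tr h = card ι`;
`h = c + p Y p'` and traces give `c = 1/2`, `s = phi (2 h - 1) = 2 phi (p Y p') ∈ L'`. If
`N = c + p Y p'` has square zero, its trace is zero, so `c = 0` and `phi N ∈ L'`;
`N.rank = finrank (range (phi N))`. `2 ≤ card ι` because `h ≠ 0, 1`. Now `coreA` and
`L' ⊆ phi (zlie)`. -/
theorem C1_full {K : Type*} [Field K] [CharZero K] [IsAlgClosed K] {L : Type*} [Field L]
    [CharZero L] [Algebra L K] {ψ : Matrix ι ι ℚ} (hψ : ψᵀ = -ψ) (hψ0 : ψ.det ≠ 0)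
    {G : Type*} [Group G] (ρ : G →* Matrix.GeneralLinearGroup ι L)
    (sim : ∀ σ : G, ∃ c : L, (ρ σ).1ᵀ * ψ.map (algebraMap ℚ L) * (ρ σ).1 =
      c • ψ.map (algebraMap ℚ L))
    {g : Submodule ℚ (Matrix ι ι ℚ)} (hg : QForm g) (hc : TrivCent g)
    (hform : HasForm K ρ g) {h : Matrix ι ι K} (hh : h ∈ hodgeProj (img K ρ ⊤)) (h0 : h ≠ 0)
    (h1 : h ≠ 1)
    (hnum : (∃ N ∈ zlie (img K ρ ⊤), N * N = 0 ∧ N ≠ 0 ∧ 4 * N.rank < Fintype.card ι) ∨
      ((∀ m : ℕ, 4 ≤ m → Fintype.card ι ≠ 2 ^ m) ∧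
        (∀ k : ℕ, 2 ≤ k → Fintype.card ι ≠ k.centralBinom)))
    {X : Matrix ι ι K}
    (hX : Xᵀ * ψ.map (algebraMap ℚ K) + ψ.map (algebraMap ℚ K) * X = 0) :
    X ∈ zlie (img K ρ ⊤) := by
  classical
  obtain ⟨hJ, hdet, hJ0, hsimH⟩ := C0_setup (K := K) hψ hψ0 ρ sim
  obtain ⟨J, hJdef⟩ : ∃ J, J = ψ.map (algebraMap ℚ K) := ⟨_, rfl⟩
  rw [← hJdef] at hJ hdet hX
  simp only [← hJdef] at hJ0 hsimH
  have hι : Nonempty ι := by
    by_contra hemp
    rw [not_nonempty_iff] at hemp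
    apply h0
    ext i
    exact (hemp.false i).elim
  obtain ⟨k, l, hkl⟩ := hJ0 hι
  have hsim := hsimH ⊤
  obtain ⟨P, hP⟩ := hform
  set p := P.1.map (algebraMap L K) with hp
  set p' := (P⁻¹).1.map (algebraMap L K) with hp'
  have hpp : p' * p = 1 := by
    rw [hp, hp', ← Matrix.map_mul, ← Units.val_mul, inv_mul_cancel]
    simp
  have hpp' : p * p' = 1 := mul_eq_one_comm.1 hpp
  have htrc : ∀ Y : Matrix ι ι K, (p * Y * p').trace = Y.trace := by
    intro Y
    rw [Matrix.trace_mul_comm, ← mul_assoc, hpp, one_mul]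
  have hcard0 : ((Fintype.card ι : ℕ) : K) ≠ 0 := Nat.cast_ne_zero.2 Fintype.card_ne_zero
  -- the projector
  have hhz := hodgeProj_zlie (img_mul ρ ⊤) hh
  obtain ⟨-, hh2⟩ := proj_sim' hdet hkl hsim hh h0 h1
  have htrh : 2 * h.trace = (Fintype.card ι : K) := by
    have := C0_trace hdet (c := 1) (by rw [one_smul]; exact hh2)
    rwa [one_mul] at this
  have hcard : 2 ≤ Fintype.card ι := by
    have h2 : phi h * phi h = phi h := by rw [← map_mul, hh.1]
    have h3 := trace_idem h2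
    have h4 : LinearMap.trace K (ι → K) (phi h) = h.trace := Matrix.trace_toLin'_eq h
    rw [h4] at h3
    rw [h3] at htrh
    have h5 : 2 * finrank K (LinearMap.range (phi h)) = Fintype.card ι := by exact_mod_cast htrh
    have h6 : 0 < finrank K (LinearMap.range (phi h)) := by
      rw [Nat.pos_iff_ne_zero]
      intro h7
      have h8 := LinearMap.range_eq_bot.1 (Submodule.finrank_eq_zero.1 h7)
      exact h0 ((map_eq_zero_iff _ (phi (ι := ι) (K := K)).injective).1 h8)
    omega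
  have htr0 : ∀ Y ∈ ext K g, Y.trace = 0 := fun Y hY => B1_traceK hg hcard hY
  have hzl : ∀ Y ∈ ext K g, p * Y * p' ∈ zlie (img K ρ ⊤) := fun Y hY =>
    (hP _).2 ⟨0, Y, hY, by rw [zero_smul, zero_add]⟩
  let Ψ := C1_Psi p p'
  have hΨ : ∀ Y, Ψ Y = phi (p * Y * p') := fun _ => rfl
  have hΨmul : ∀ X Y, Ψ (X * Y) = Ψ X * Ψ Y := C1_Psi_mul hpp
  let L' : Submodule K (Module.End K (ι → K)) := (ext K g).map Ψ
  have hC : Core L' (om J) (adjE J) := by
    refine ⟨?_, ?_, ?_, om_alt hJ, ?_, C0_spec hdet, ?_⟩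
    · rintro _ ⟨X, hX, rfl⟩ _ ⟨Y, hY, rfl⟩
      exact ⟨X * Y - Y * X, B1_lieK hg hX hY, by rw [map_sub, hΨmul, hΨmul]⟩
    · intro W hW
      have h2 := B1_irrK (K := K) hg (W.comap (Matrix.toLin' p)) (by
        intro X hX w hw
        have h3 := hW (Ψ X) ⟨X, hX, rfl⟩ (p *ᵥ w) hw
        rw [hΨ, phi_apply, Matrix.mulVec_mulVec] at h3
        have h4 : p * X * p' * p = p * X := by rw [mul_assoc, hpp, mul_one]
        rw [h4, ← Matrix.mulVec_mulVec] at h3
        exact h3)
      have h5 : ∀ w : ι → K, p *ᵥ (p' *ᵥ w) = w := by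
        intro w
        rw [Matrix.mulVec_mulVec, hpp', Matrix.one_mulVec]
      rcases h2 with h2 | h2
      · left
        rw [eq_bot_iff]
        intro w hw
        have h6 : p' *ᵥ w ∈ W.comap (Matrix.toLin' p) := by
          change p *ᵥ (p' *ᵥ w) ∈ W
          rw [h5]; exact hw
        rw [h2, Submodule.mem_bot] at h6
        rw [Submodule.mem_bot, ← h5 w, h6, Matrix.mulVec_zero]
      · right
        rw [eq_top_iff]
        intro w _
        have h6 : p' *ᵥ w ∈ W.comap (Matrix.toLin' p) := by rw [h2]; trivial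
        change p *ᵥ (p' *ᵥ w) ∈ W at h6
        rwa [h5] at h6
    · intro I hI hid
      have h2 := B3_simple (K := K) hg hcard hc (I.comap Ψ ⊓ ext K g) inf_le_right (by
        rintro X hX Y ⟨hY, hY'⟩
        refine ⟨?_, B1_lieK hg hX hY'⟩
        change Ψ (X * Y - Y * X) ∈ I
        rw [map_sub, hΨmul, hΨmul]
        exact hid _ ⟨X, hX, rfl⟩ _ hY)
      rcases h2 with h2 | h2
      · left
        rw [eq_bot_iff]
        intro Z hZ
        obtain ⟨Y, hY, rfl⟩ := hI hZ
        have h3 : Y ∈ I.comap Ψ ⊓ ext K g := ⟨hZ, hY⟩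
        rw [h2, Submodule.mem_bot] at h3
        rw [h3, map_zero]
        exact Submodule.zero_mem _
      · right
        apply le_antisymm hI
        rintro _ ⟨Y, hY, rfl⟩
        have h3 : Y ∈ I.comap Ψ ⊓ ext K g := by rw [h2]; exact hY
        exact h3.1
    · intro v hv
      apply om_nd hdet
      intro w
      have h2 := om_alt hJ (v + w)
      simp only [map_add, LinearMap.add_apply, om_alt hJ, zero_add, add_zero, hv] at h2
      exact h2
    · rintro _ ⟨Y, hY, rfl⟩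
      rw [hΨ, skew_iff hdet]
      obtain ⟨c, hc'⟩ := C0_sim hkl (img_one ρ ⊤) hsim (hzl Y hY)
      have h2 := C0_trace hdet hc'
      rw [htrc, htr0 Y hY, mul_zero] at h2
      rw [hc', (mul_eq_zero.1 h2.symm).resolve_right hcard0, zero_smul]
  -- the involution
  obtain ⟨c₀, Y₀, hY₀, hhY⟩ := (hP h).1 hhz
  have hc₀ : 2 * c₀ = 1 := by
    rw [hhY, Matrix.trace_add, htrc, htr0 Y₀ hY₀, add_zero, Matrix.trace_smul, Matrix.trace_one,
      smul_eq_mul, ← mul_assoc] at htrh
    exact mul_right_cancel₀ hcard0 (by rw [htrh, one_mul])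
  have hs : phi ((2 : K) • h - 1) ∈ L' := by
    refine ⟨(2 : K) • Y₀, (ext K g).smul_mem _ hY₀, ?_⟩
    rw [hΨ]
    congr 1
    rw [hhY, smul_add, smul_smul, hc₀, one_smul, mul_smul_comm, smul_mul_assoc]
    abel
  have hs2 : phi ((2 : K) • h - 1) * phi ((2 : K) • h - 1) = 1 := by
    rw [← map_mul, ← map_one (phi (ι := ι) (K := K))]
    congr 1
    simp only [sub_mul, mul_sub, smul_mul_assoc, mul_smul_comm, hh.1, mul_one, one_mul]
    module
  have hfin : finrank K (ι → K) = Fintype.card ι := Module.finrank_pi K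
  have hmem := coreA hC hs hs2 (X := phi X) (by
    rw [hfin]
    rcases hnum with ⟨N, hN, hN2, hN0, hr⟩ | h2
    · left
      obtain ⟨c, Y, hY, hNY⟩ := (hP N).1 hN
      have h3 : N.trace = 0 := by
        have h4 : IsNilpotent N := ⟨2, by rw [pow_two, hN2]⟩
        exact (Matrix.isNilpotent_trace_of_isNilpotent h4).eq_zero
      rw [hNY, Matrix.trace_add, htrc, htr0 Y hY, add_zero, Matrix.trace_smul, Matrix.trace_one,
        smul_eq_mul] at h3
      have h5 : c = 0 := (mul_eq_zero.1 h3).resolve_right hcard0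
      rw [h5, zero_smul, zero_add] at hNY
      refine ⟨phi N, ⟨Y, hY, by rw [hNY]; rfl⟩, by rw [← map_mul, hN2, map_zero], ?_, hr⟩
      intro h6
      exact hN0 ((map_eq_zero_iff _ (phi (ι := ι) (K := K)).injective).1 h6)
    · exact Or.inr h2) ((skew_iff hdet X).2 hX)
  obtain ⟨Y, hY, hYX⟩ := hmem
  have h2 : p * Y * p' = X := (phi (ι := ι) (K := K)).injective hYX
  rw [← h2]
  exact hzl Y hY

end Pool.Agent.H49M
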