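import Pool.Agent.Lib.H49M.P7

/-!
# P7s: irreducible Clifford modules with a form
-/

set_option autoImplicit false
set_option linter.unusedSectionVars false
namespace Pool.Agent.H49M
open Module

variable {K : Type*} [Field K]

/-- On a line a nonzero form is symmetric. -/
theorem P7s_line {W : Type*} [AddCommGroup W] [Module K W] (h1 : finrank K W = 1)
    {b : W →ₗ[K] W →ₗ[K] K} (hb : b ≠ 0) {ε : K} (hε : ∀ v w, b v w = ε * b w v) : ε = 1 := by
  obtain ⟨v, hv, hspan⟩ := finrank_eq_one_iff'.1 h1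
  have h2 : b v v ≠ 0 := by
    intro h0
    apply hb
    ext x y
    obtain ⟨c, rfl⟩ := hspan x
    obtain ⟨d, rfl⟩ := hspan y
    simp [h0]
  have h3 := hε v v
  have h4 : (ε - 1) * b v v = 0 := by rw [sub_mul, one_mul, ← h3, sub_self]
  exact sub_eq_zero.1 ((mul_eq_zero.1 h4).resolve_right h2)

/-- The radical is trivial. -/
theorem P7s_rad {W : Type*} [AddCommGroup W] [Module K W] {J : Submodule K (Module.End K W)}
    (hirr : ∀ U : Submodule K W, (∀ w ∈ J, ∀ u ∈ U, w u ∈ U) → U = ⊥ ∨ U = ⊤)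
    {b : W →ₗ[K] W →ₗ[K] K} (hb : b ≠ 0) {δ : K}
    (hδ : ∀ c ∈ J, ∀ v w, b (c v) w = δ * b v (c w)) {v : W} (hv : ∀ w, b v w = 0) : v = 0 := by
  rcases hirr (LinearMap.ker b) (by
    intro c hc u hu
    rw [LinearMap.mem_ker] at hu ⊢
    ext w
    rw [hδ c hc, hu, LinearMap.zero_apply, mul_zero, LinearMap.zero_apply]) with h1 | h1
  · have h2 : v ∈ LinearMap.ker b := by
      rw [LinearMap.mem_ker]
      ext w
      exact hv w
    rw [h1, Submodule.mem_bot] at h2
    exact h2
  · exact absurd (LinearMap.ker_eq_top.1 h1) hb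

/-- Chunk P7s. As `P7_cliff`, with a form for which the operators are self-adjoint or skew. Step:
`b₁ (v, w) = b (v, w₁ w)` on `W₁`; `W₁` is isotropic for `b` because `b (θ v, w) = - b (v, θ w)`. -/
theorem P7_sign [CharZero K] [IsAlgClosed K] (n : ℕ) : ∀ (W : Type*) [AddCommGroup W]
    [Module K W] [FiniteDimensional K W] [Nontrivial W] (J : Submodule K (Module.End K W)),
    finrank K W = n → (∀ w ∈ J, ∃ c : K, w * w = c • 1) →
    (∀ U : Submodule K W, (∀ w ∈ J, ∀ u ∈ U, w u ∈ U) → U = ⊥ ∨ U = ⊤) →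
    ∀ (b : W →ₗ[K] W →ₗ[K] K) (ε δ : K), b ≠ 0 → (∀ v w, b v w = ε * b w v) →
    (∀ c ∈ J, ∀ v w, b (c v) w = δ * b v (c w)) → δ * δ = 1 →
    ∃ t : ℕ, finrank K W = 2 ^ t ∧ ε * δ ^ t * (-1) ^ (t.choose 2) = 1 := by
  induction n using Nat.strong_induction_on with
  | _ n ih =>
  intro W _ _ _ _ J hn hJ hirr b ε δ hb hε hδ hδδ
  by_cases hA : ∃ w₁ ∈ J, ∃ w₂ ∈ J, w₁ * w₁ = 1 ∧ w₂ * w₂ = 1 ∧ w₁ * w₂ = -(w₂ * w₁)
  · obtain ⟨w₁, hw₁, w₂, hw₂, h11, h22, h12⟩ := hA
    obtain ⟨i, hi⟩ := IsAlgClosed.exists_pow_nat_eq (-1 : K) (n := 2) (by norm_num)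
    have hi0 : i ≠ 0 := by rintro rfl; norm_num at hi
    obtain ⟨θ, hθ⟩ : ∃ θ, θ = w₁ * w₂ := ⟨_, rfl⟩
    have h21 : w₂ * w₁ = -(w₁ * w₂) := by rw [h12, neg_neg]
    have hθθ : θ * θ = -1 := by
      rw [hθ]
      calc w₁ * w₂ * (w₁ * w₂) = w₁ * (w₂ * w₁) * w₂ := by noncomm_ring
        _ = -((w₁ * w₁) * (w₂ * w₂)) := by rw [h21]; noncomm_ring
        _ = -1 := by rw [h11, h22, one_mul]
    have hw1θ : w₁ * θ = w₂ := by rw [hθ, ← mul_assoc, h11, one_mul]
    have hθw1 : θ * w₁ = -w₂ := by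
      rw [hθ, mul_assoc, h21, mul_neg, ← mul_assoc, h11, one_mul]
    obtain ⟨W₁, hW₁⟩ : ∃ W₁ : Submodule K W, W₁ = LinearMap.ker (θ - i • 1) := ⟨_, rfl⟩
    obtain ⟨W₂, hW₂⟩ : ∃ W₂ : Submodule K W, W₂ = LinearMap.ker (θ + i • 1) := ⟨_, rfl⟩
    have m1 : ∀ {v : W}, v ∈ W₁ ↔ θ v = i • v := by
      intro v
      rw [hW₁, LinearMap.mem_ker, LinearMap.sub_apply, LinearMap.smul_apply,
        Module.End.one_apply, sub_eq_zero]
    have m2 : ∀ {v : W}, v ∈ W₂ ↔ θ v = -(i • v) := by
      intro v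
      rw [hW₂, LinearMap.mem_ker, LinearMap.add_apply, LinearMap.smul_apply,
        Module.End.one_apply]
      constructor
      · intro h; exact eq_neg_of_add_eq_zero_left h
      · intro h; rw [h]; simp
    have hθv : ∀ v, θ (θ v) = -v := by
      intro v
      rw [← Module.End.mul_apply, hθθ]; rfl
    have h1v : ∀ v, w₁ (w₁ v) = v := by
      intro v
      rw [← Module.End.mul_apply, h11]; rfl
    have hθ1 : ∀ v, θ (w₁ v) = -(w₁ (θ v)) := by
      intro v
      rw [← Module.End.mul_apply, hθw1, ← Module.End.mul_apply, hw1θ]; rfl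
    have hinj : Function.Injective w₁ := by
      intro a b hab
      rw [← h1v a, hab, h1v]
    have hmap : W₁.map w₁ = W₂ := by
      ext v
      constructor
      · rintro ⟨u, hu, rfl⟩
        rw [m2, hθ1, m1.mp hu, map_smul]
      · intro hv
        refine ⟨w₁ v, ?_, h1v v⟩
        rw [SetLike.mem_coe, m1, hθ1, m2.mp hv, map_neg, neg_neg, map_smul]
    have hfin : finrank K W₁ = finrank K W₂ := by
      rw [← hmap]
      exact (Submodule.equivMapOfInjective w₁ hinj W₁).finrank_eq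
    have hinf : W₁ ⊓ W₂ = ⊥ := by
      rw [eq_bot_iff]
      rintro v ⟨hv1, hv2⟩
      have e1 := m1.mp hv1
      have e2 := m2.mp hv2
      rw [e1] at e2
      have e3 : (2 * i) • v = 0 := by
        rw [two_mul, add_smul]
        nth_rewrite 1 [e2]
        exact neg_add_cancel _
      rw [Submodule.mem_bot]
      exact (smul_eq_zero.mp e3).resolve_left (mul_ne_zero two_ne_zero hi0)
    have hsup : W₁ ⊔ W₂ = ⊤ := by
      rw [eq_top_iff]
      intro v _
      rw [Submodule.mem_sup]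
      have hii : i * i = -1 := by rw [← hi]; ring
      refine ⟨(1 / 2 : K) • (v - i • θ v), ?_, (1 / 2 : K) • (v + i • θ v), ?_, ?_⟩
      · have e1 : i • (v - i • θ v) = i • v + θ v := by
          rw [smul_sub, smul_smul, hii, neg_one_smul, sub_neg_eq_add]
        rw [m1, map_smul, map_sub, map_smul, hθv, smul_comm i, e1, smul_neg, sub_neg_eq_add,
          add_comm]
      · have e1 : i • (v + i • θ v) = i • v - θ v := by
          rw [smul_add, smul_smul, hii, neg_one_smul, ← sub_eq_add_neg]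
        rw [m2, map_smul, map_add, map_smul, hθv, smul_comm i, e1]
        module
      · rw [← smul_add]
        have : v - i • θ v + (v + i • θ v) = (2 : K) • v := by rw [two_smul]; abel
        rw [this, smul_smul]; norm_num
    have hdim : finrank K W = 2 * finrank K W₁ := by
      have := Submodule.finrank_sup_add_finrank_inf_eq W₁ W₂
      rw [hinf, hsup, finrank_bot, finrank_top, ← hfin] at this
      omega
    have hpos : 0 < finrank K W := finrank_pos
    have hW₁pos : 0 < finrank K W₁ := by omega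
    have : Nontrivial W₁ := finrank_pos_iff.mp hW₁pos
    -- the smaller space of operators
    let J' : Submodule K (Module.End K W₁) :=
      { carrier := {T | ∃ w ∈ J, w * w₁ = -(w₁ * w) ∧ w * w₂ = -(w₂ * w) ∧
          ∀ u : W₁, ((T u : W₁) : W) = w u}
        add_mem' := by
          rintro S T ⟨a, ha, a1, a2, a3⟩ ⟨b, hb, b1, b2, b3⟩
          refine ⟨a + b, J.add_mem ha hb, ?_, ?_, ?_⟩
          · rw [add_mul, a1, b1, mul_add]; abel
          · rw [add_mul, a2, b2, mul_add]; abel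
          · intro u
            rw [LinearMap.add_apply, LinearMap.add_apply, Submodule.coe_add, a3, b3]
        zero_mem' := ⟨0, J.zero_mem, by simp, by simp, by simp⟩
        smul_mem' := by
          rintro c T ⟨a, ha, a1, a2, a3⟩
          refine ⟨c • a, J.smul_mem c ha, ?_, ?_, ?_⟩
          · rw [smul_mul_assoc, a1, mul_smul_comm, smul_neg]
          · rw [smul_mul_assoc, a2, mul_smul_comm, smul_neg]
          · intro u
            rw [LinearMap.smul_apply, LinearMap.smul_apply, Submodule.coe_smul, a3] }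
    have hstab : ∀ w : Module.End K W, w * w₁ = -(w₁ * w) → w * w₂ = -(w₂ * w) →
        ∀ u ∈ W₁, w u ∈ W₁ := by
      intro w a1 a2 u hu
      have : w * θ = θ * w := by
        rw [hθ, ← mul_assoc, a1, neg_mul, mul_assoc w₁ w, a2, mul_neg, neg_neg, mul_assoc]
      rw [m1] at hu ⊢
      rw [← Module.End.mul_apply, ← this, Module.End.mul_apply, hu, map_smul]
    have hsq : ∀ w ∈ J', ∃ c : K, w * w = c • 1 := by
      rintro T ⟨w, hw, a1, a2, a3⟩
      obtain ⟨c, hc⟩ := hJ w hw
      refine ⟨c, ?_⟩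
      ext u
      have : w (w u) = c • (u : W) := by
        rw [← Module.End.mul_apply, hc]; rfl
      rw [Module.End.mul_apply, a3, a3, this]; rfl
    have hirr' : ∀ U : Submodule K W₁, (∀ w ∈ J', ∀ u ∈ U, w u ∈ U) → U = ⊥ ∨ U = ⊤ := by
      intro Y hY
      by_cases hY0 : Y = ⊥
      · exact Or.inl hY0
      right
      obtain ⟨Z, hZ⟩ : ∃ Z : Submodule K W, Z = Y.map W₁.subtype := ⟨_, rfl⟩
      have hZW : ∀ z ∈ Z, z ∈ W₁ := by
        rw [hZ]; rintro _ ⟨y, _, rfl⟩; exact y.2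
      have hZst : ∀ w ∈ J, w * w₁ = -(w₁ * w) → w * w₂ = -(w₂ * w) → ∀ z ∈ Z, w z ∈ Z := by
        intro w hw a1 a2
        rw [hZ]
        rintro _ ⟨y, hy, rfl⟩
        refine ⟨_, hY (w.restrict (hstab w a1 a2)) ⟨w, hw, a1, a2, fun u => rfl⟩ y hy, rfl⟩
      have htop : Z ⊔ Z.map w₁ = ⊤ := by
        refine (hirr _ ?_).resolve_left ?_
        · intro w hw u hu
          obtain ⟨c1, hc1⟩ := P7_polar hJ hw hw₁
          obtain ⟨c2, hc2⟩ := P7_polar hJ hw hw₂
          obtain ⟨w', hw'⟩ : ∃ w', w' = w - (c1 / 2) • w₁ - (c2 / 2) • w₂ := ⟨_, rfl⟩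
          have hw'J : w' ∈ J := by
            rw [hw']
            exact J.sub_mem (J.sub_mem hw (J.smul_mem _ hw₁)) (J.smul_mem _ hw₂)
          have a1 : w' * w₁ = -(w₁ * w') := by
            rw [eq_neg_iff_add_eq_zero, hw']
            have : (w - (c1 / 2) • w₁ - (c2 / 2) • w₂) * w₁ +
                w₁ * (w - (c1 / 2) • w₁ - (c2 / 2) • w₂) = (w * w₁ + w₁ * w) -
                (c1 / 2) • (w₁ * w₁ + w₁ * w₁) - (c2 / 2) • (w₂ * w₁ + w₁ * w₂) := by
              simp only [sub_mul, mul_sub, smul_mul_assoc, mul_smul_comm, smul_add]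
              abel
            rw [this, hc1, h11, h21, neg_add_cancel, smul_zero, sub_zero, ← two_smul K, smul_smul,
              ← sub_smul]
            rw [div_mul_cancel₀ c1 two_ne_zero, sub_self, zero_smul]
          have a2 : w' * w₂ = -(w₂ * w') := by
            rw [eq_neg_iff_add_eq_zero, hw']
            have : (w - (c1 / 2) • w₁ - (c2 / 2) • w₂) * w₂ +
                w₂ * (w - (c1 / 2) • w₁ - (c2 / 2) • w₂) = (w * w₂ + w₂ * w) -
                (c2 / 2) • (w₂ * w₂ + w₂ * w₂) - (c1 / 2) • (w₂ * w₁ + w₁ * w₂) := by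
              simp only [sub_mul, mul_sub, smul_mul_assoc, mul_smul_comm, smul_add]
              abel
            rw [this, hc2, h22, h21, neg_add_cancel, smul_zero, sub_zero, ← two_smul K, smul_smul,
              ← sub_smul]
            rw [div_mul_cancel₀ c2 two_ne_zero, sub_self, zero_smul]
          have hwe : w = w' + (c1 / 2) • w₁ + (c2 / 2) • w₂ := by rw [hw']; abel
          have s1 : ∀ z ∈ Z ⊔ Z.map w₁, w₁ z ∈ Z ⊔ Z.map w₁ := by
            intro z hz
            rw [Submodule.mem_sup] at hz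
            obtain ⟨y, hy, _, ⟨x, hx, rfl⟩, rfl⟩ := hz
            rw [map_add, h1v]
            exact add_mem (Submodule.mem_sup_right ⟨y, hy, rfl⟩) (Submodule.mem_sup_left hx)
          have s2 : ∀ z ∈ Z ⊔ Z.map w₁, θ z ∈ Z ⊔ Z.map w₁ := by
            intro z hz
            rw [Submodule.mem_sup] at hz
            obtain ⟨y, hy, _, ⟨x, hx, rfl⟩, rfl⟩ := hz
            rw [map_add, hθ1, m1.mp (hZW y hy), m1.mp (hZW x hx), map_smul]
            exact add_mem (Submodule.mem_sup_left (Z.smul_mem _ hy))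
              (neg_mem (Submodule.smul_mem _ _ (Submodule.mem_sup_right ⟨x, hx, rfl⟩)))
          have s3 : ∀ z ∈ Z ⊔ Z.map w₁, w' z ∈ Z ⊔ Z.map w₁ := by
            intro z hz
            rw [Submodule.mem_sup] at hz
            obtain ⟨y, hy, _, ⟨x, hx, rfl⟩, rfl⟩ := hz
            have e1 : w' (w₁ x) = -(w₁ (w' x)) := by
              rw [← Module.End.mul_apply, a1]; rfl
            rw [map_add, e1]
            exact add_mem (Submodule.mem_sup_left (hZst w' hw'J a1 a2 y hy))
              (neg_mem (Submodule.mem_sup_right ⟨_, hZst w' hw'J a1 a2 x hx, rfl⟩))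
          rw [hwe]
          have e2 : (w' + (c1 / 2) • w₁ + (c2 / 2) • w₂) u =
              w' u + (c1 / 2) • w₁ u + (c2 / 2) • w₁ (θ u) := by
            rw [← Module.End.mul_apply w₁ θ, hw1θ]; rfl
          rw [e2]
          exact add_mem (add_mem (s3 u hu) (Submodule.smul_mem _ _ (s1 u hu)))
            (Submodule.smul_mem _ _ (s1 _ (s2 u hu)))
        · intro h0
          apply hY0
          rw [eq_bot_iff]
          intro y hy
          have h4 : (y : W) ∈ Z ⊔ Z.map w₁ := Submodule.mem_sup_left (by rw [hZ]; exact ⟨y, hy, rfl⟩)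
          rw [h0, Submodule.mem_bot] at h4
          exact Subtype.ext h4
      rw [eq_top_iff]
      rintro ⟨u, hu⟩ -
      have hu1 : u ∈ Z ⊔ Z.map w₁ := by rw [htop]; trivial
      rw [Submodule.mem_sup] at hu1
      obtain ⟨y, hy, _, ⟨x, hx, rfl⟩, hyx⟩ := hu1
      have hx2 : w₁ x ∈ W₁ ⊓ W₂ := by
        constructor
        · have : w₁ x = u - y := by rw [← hyx]; abel
          rw [SetLike.mem_coe, this]
          exact W₁.sub_mem hu (hZW y hy)
        · rw [SetLike.mem_coe, m2, hθ1, m1.mp (hZW x hx), map_smul]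
      rw [hinf, Submodule.mem_bot] at hx2
      rw [hx2, add_zero] at hyx
      rw [hZ] at hy
      obtain ⟨y', hy', hyy⟩ := hy
      have : y' = ⟨u, hu⟩ := Subtype.ext (hyy.trans hyx)
      rwa [← this]
    -- the form on `W₁`
    have hbw : ∀ v w, b v (w₁ w) = δ * b (w₁ v) w := by
      intro v w
      rw [hδ w₁ hw₁, ← mul_assoc, hδδ, one_mul]
    have hiso : ∀ v ∈ W₁, ∀ w ∈ W₁, b v w = 0 := by
      intro v hv w hw
      have e1 : b (θ v) w = -(b v (θ w)) := by
        have e2 : θ v = w₁ (w₂ v) := by rw [hθ]; rfl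
        have e3 : θ w = -(w₂ (w₁ w)) := by
          rw [hθ, h12]; rfl
        rw [e2, hδ w₁ hw₁, hδ w₂ hw₂, ← mul_assoc, hδδ, one_mul, e3, map_neg, neg_neg]
      rw [m1.mp hv, m1.mp hw, map_smul, map_smul, LinearMap.smul_apply, smul_eq_mul] at e1
      have e4 : (2 * i) * b v w = 0 := by
        rw [two_mul, add_mul]
        nth_rewrite 1 [e1]
        exact neg_add_cancel _
      exact (mul_eq_zero.1 e4).resolve_left (mul_ne_zero two_ne_zero hi0)
    let b₁ : W₁ →ₗ[K] W₁ →ₗ[K] K := LinearMap.mk₂ K (fun v w => b v (w₁ w))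
      (fun v v' w => by rw [Submodule.coe_add, map_add, LinearMap.add_apply])
      (fun c v w => by rw [Submodule.coe_smul, map_smul, LinearMap.smul_apply])
      (fun v w w' => by rw [Submodule.coe_add, map_add, map_add])
      (fun c v w => by rw [Submodule.coe_smul, map_smul, map_smul])
    have hb₁ : ∀ v w : W₁, b₁ v w = b v (w₁ w) := fun v w => rfl
    have hb₁0 : b₁ ≠ 0 := by
      intro h0
      obtain ⟨v, hv⟩ := exists_ne (0 : W₁)
      apply hv
      apply Subtype.ext
      refine P7s_rad hirr hb hδ fun w => ?_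
      have hw : w ∈ W₁ ⊔ W₂ := by rw [hsup]; trivial
      rw [← hmap, Submodule.mem_sup] at hw
      obtain ⟨y, hy, _, ⟨x, hx, rfl⟩, rfl⟩ := hw
      have e1 : b v (w₁ x) = 0 := by
        have := hb₁ v ⟨x, hx⟩
        rw [h0] at this
        exact this.symm
      rw [map_add, hiso v v.2 y hy, e1, add_zero]
    have hε₁ : ∀ v w : W₁, b₁ v w = (δ * ε) * b₁ w v := by
      intro v w
      rw [hb₁, hb₁, hbw, hε, mul_assoc]
    have hδ₁ : ∀ c ∈ J', ∀ v w : W₁, b₁ (c v) w = (-δ) * b₁ v (c w) := by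
      rintro T ⟨c, hc, a1, a2, a3⟩ v w
      rw [hb₁, hb₁, a3, a3, hδ c hc, neg_mul, ← mul_neg]
      congr 1
      have e1 : c (w₁ w) = -(w₁ (c w)) := by
        rw [← Module.End.mul_apply, a1]; rfl
      rw [e1, map_neg]
    obtain ⟨t, ht, hts⟩ := ih (finrank K W₁) (by omega) W₁ J' rfl hsq hirr' b₁ (δ * ε) (-δ) hb₁0 hε₁
      hδ₁ (by rw [neg_mul_neg, hδδ])
    refine ⟨t + 1, by rw [hdim, ht, pow_succ]; ring, ?_⟩
    have e1 : (t + 1).choose 2 = t + t.choose 2 := by
      rw [Nat.choose_succ_succ, Nat.choose_one_right]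
    calc ε * δ ^ (t + 1) * (-1) ^ (t + 1).choose 2
        = δ * ε * ((-1) ^ t * δ ^ t) * (-1) ^ t.choose 2 := by rw [e1, pow_add, pow_succ]; ring
      _ = δ * ε * (-δ) ^ t * (-1) ^ t.choose 2 := by rw [neg_pow δ t]
      _ = 1 := hts
  · -- no pair
    suffices hline : finrank K W = 1 by
      have := P7s_line hline hb hε
      exact ⟨0, by rw [hline, pow_zero], by rw [this]; simp⟩
    push Not at hA
    by_cases hB : ∃ w₁ ∈ J, w₁ * w₁ = 1
    · obtain ⟨w₁, hw₁, h11⟩ := hB
      refine P7_line (w₁ := w₁) hirr fun w hw => ?_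
      obtain ⟨c1, hc1⟩ := P7_polar hJ hw hw₁
      refine ⟨c1 / 2, ?_⟩
      rw [← sub_eq_zero]
      obtain ⟨w₀, hw₀⟩ : ∃ w₀, w₀ = w - (c1 / 2) • w₁ := ⟨_, rfl⟩
      have hJ₁ : ∀ v ∈ J, v * w₁ + w₁ * v = 0 → v * v = 0 := by
        intro v hv h1
        obtain ⟨c, hc⟩ := hJ v hv
        by_cases hc0 : c = 0
        · rw [hc, hc0, zero_smul]
        · exfalso
          obtain ⟨t, ht, htt⟩ := P7_scale hc hc0
          apply hA w₁ hw₁ (t • v) (J.smul_mem t hv) h11 htt
          rw [mul_smul_comm, smul_mul_assoc, ← smul_neg]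
          congr 1
          exact eq_neg_of_add_eq_zero_right h1
      have hw₀J : w₀ ∈ J := by rw [hw₀]; exact J.sub_mem hw (J.smul_mem _ hw₁)
      have hw₀1 : w₀ * w₁ + w₁ * w₀ = 0 := by
        rw [hw₀]
        have : (w - (c1 / 2) • w₁) * w₁ + w₁ * (w - (c1 / 2) • w₁) = (w * w₁ + w₁ * w) -
            (c1 / 2) • (w₁ * w₁ + w₁ * w₁) := by
          simp only [sub_mul, mul_sub, smul_mul_assoc, mul_smul_comm, smul_add]
          abel
        rw [this, hc1, h11, ← two_smul K, smul_smul, ← sub_smul, div_mul_cancel₀ c1 two_ne_zero,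
          sub_self, zero_smul]
      rw [← hw₀]
      refine P7_zero hirr (hJ₁ w₀ hw₀J hw₀1) fun v hv => ?_
      obtain ⟨c2, hc2⟩ := P7_polar hJ hv hw₁
      obtain ⟨v', hv'⟩ : ∃ v', v' = v - (c2 / 2) • w₁ := ⟨_, rfl⟩
      have hv'J : v' ∈ J := by rw [hv']; exact J.sub_mem hv (J.smul_mem _ hw₁)
      have hv'1 : v' * w₁ + w₁ * v' = 0 := by
        rw [hv']
        have : (v - (c2 / 2) • w₁) * w₁ + w₁ * (v - (c2 / 2) • w₁) = (v * w₁ + w₁ * v) -
            (c2 / 2) • (w₁ * w₁ + w₁ * w₁) := by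
          simp only [sub_mul, mul_sub, smul_mul_assoc, mul_smul_comm, smul_add]
          abel
        rw [this, hc2, h11, ← two_smul K, smul_smul, ← sub_smul, div_mul_cancel₀ c2 two_ne_zero,
          sub_self, zero_smul]
      have h3 := hJ₁ v' hv'J hv'1
      have h4 := hJ₁ w₀ hw₀J hw₀1
      have h5 := hJ₁ (v' + w₀) (J.add_mem hv'J hw₀J) (by
        rw [add_mul, mul_add]
        calc v' * w₁ + w₀ * w₁ + (w₁ * v' + w₁ * w₀) = (v' * w₁ + w₁ * v') +
              (w₀ * w₁ + w₁ * w₀) := by abel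
          _ = 0 := by rw [hv'1, hw₀1, add_zero])
      have h6 : v' * w₀ = -(w₀ * v') := by
        have : (v' + w₀) * (v' + w₀) = v' * v' + w₀ * w₀ + (v' * w₀ + w₀ * v') := by noncomm_ring
        rw [this, h3, h4, zero_add, zero_add] at h5
        exact eq_neg_of_add_eq_zero_left h5
      refine ⟨-v' - (c2 / 2) • w₁, ?_⟩
      have h7 : v = v' + (c2 / 2) • w₁ := by rw [hv']; abel
      rw [h7, add_mul, h6, smul_mul_assoc, eq_neg_of_add_eq_zero_right hw₀1, mul_sub, mul_neg,
        mul_smul_comm, smul_neg, sub_eq_add_neg]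
    · push Not at hB
      have h0 : ∀ v ∈ J, v * v = 0 := by
        intro v hv
        obtain ⟨c, hc⟩ := hJ v hv
        by_cases hc0 : c = 0
        · rw [hc, hc0, zero_smul]
        · exfalso
          obtain ⟨t, ht, htt⟩ := P7_scale hc hc0
          exact hB _ (J.smul_mem t hv) htt
      refine P7_line (w₁ := 0) hirr fun w hw => ⟨0, ?_⟩
      rw [smul_zero]
      refine P7_zero hirr (h0 w hw) fun v hv => ⟨-v, ?_⟩
      have h5 := h0 _ (J.add_mem hv hw)
      have : (v + w) * (v + w) = v * v + w * w + (v * w + w * v) := by noncomm_ring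
      rw [this, h0 v hv, h0 w hw, zero_add, zero_add] at h5
      rw [mul_neg]
      exact eq_neg_of_add_eq_zero_left h5

end Pool.Agent.H49M
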