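import Pool.Agent.Lib.H49M.C1
import Pool.Agent.Lib.H49M.R3

/-!
# C1R: the Lie algebra is the full symplectic one (exact list of exceptions)
-/

set_option autoImplicit false
set_option linter.unusedSectionVars false
namespace Pool.Agent.H49M
open Module Matrix Polynomial Pool.Agent.H53Toric

variable {ι : Type*} [Fintype ι] [DecidableEq ι]

/-- As `C1_full`, with the exact list of exceptions `coreR`. -/
theorem C1_fullR {K : Type*} [Field K] [CharZero K] [IsAlgClosed K] {L : Type*} [Field L]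
    [CharZero L] [Algebra L K] {ψ : Matrix ι ι ℚ} (hψ : ψᵀ = -ψ) (hψ0 : ψ.det ≠ 0)
    {G : Type*} [Group G] (ρ : G →* Matrix.GeneralLinearGroup ι L)
    (sim : ∀ σ : G, ∃ c : L, (ρ σ).1ᵀ * ψ.map (algebraMap ℚ L) * (ρ σ).1 =
      c • ψ.map (algebraMap ℚ L))
    {g : Submodule ℚ (Matrix ι ι ℚ)} (hg : QForm g) (hc : TrivCent g)
    (hform : HasForm K ρ g) {h : Matrix ι ι K} (hh : h ∈ hodgeProj (img K ρ ⊤)) (h0 : h ≠ 0)
    (h1 : h ≠ 1)
    (num₁ : ∀ m : ℕ, 5 ≤ m → (m % 4 = 1 ∨ m % 4 = 2) → Fintype.card ι = 2 ^ m →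
      ∃ N ∈ zlie (img K ρ ⊤), N * N = 0 ∧ N ≠ 0 ∧ 4 * N.rank ≠ Fintype.card ι ∧
        2 * N.rank ≠ Fintype.card ι)
    (num₂ : ∀ k : ℕ, 3 ≤ k → Odd k → Fintype.card ι = k.centralBinom →
      ∃ N ∈ zlie (img K ρ ⊤), N * N = 0 ∧ N ≠ 0 ∧ N.rank ≠ (k - 1).centralBinom)
    {X : Matrix ι ι K}
    (hX : Xᵀ * ψ.map (algebraMap ℚ K) + ψ.map (algebraMap ℚ K) * X = 0) :
    X ∈ zlie (img K ρ ⊤) := by
  classical
  obtain ⟨hJ, hdet, hJ0, hsimH⟩ := C0_setup (K := K) hψ hψ0 ρ sim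
  obtain ⟨J, hJdef⟩ : ∃ J, J = ψ.map (algebraMap ℚ K) := ⟨_, rfl⟩
  rw [← hJdef] at hJ hdet hX
  simp only [← hJdef] at hJ0 hsimH
  have hι : Nonempty ι := by
    by_contra hemp
    rw [not_nonempty_iff] at hemp
    apply h0
    ext i
    exact (hemp.false i).elim
  obtain ⟨k, l, hkl⟩ := hJ0 hι
  have hsim := hsimH ⊤
  obtain ⟨P, hP⟩ := hform
  set p := P.1.map (algebraMap L K) with hp
  set p' := (P⁻¹).1.map (algebraMap L K) with hp'
  have hpp : p' * p = 1 := by
    rw [hp, hp', ← Matrix.map_mul, ← Units.val_mul, inv_mul_cancel]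
    simp
  have hpp' : p * p' = 1 := mul_eq_one_comm.1 hpp
  have htrc : ∀ Y : Matrix ι ι K, (p * Y * p').trace = Y.trace := by
    intro Y
    rw [Matrix.trace_mul_comm, ← mul_assoc, hpp, one_mul]
  have hcard0 : ((Fintype.card ι : ℕ) : K) ≠ 0 := Nat.cast_ne_zero.2 Fintype.card_ne_zero
  -- the projector
  have hhz := hodgeProj_zlie (img_mul ρ ⊤) hh
  obtain ⟨-, hh2⟩ := proj_sim' hdet hkl hsim hh h0 h1
  have htrh : 2 * h.trace = (Fintype.card ι : K) := by
    have := C0_trace hdet (c := 1) (by rw [one_smul]; exact hh2)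
    rwa [one_mul] at this
  have hcard : 2 ≤ Fintype.card ι := by
    have h2 : phi h * phi h = phi h := by rw [← map_mul, hh.1]
    have h3 := trace_idem h2
    have h4 : LinearMap.trace K (ι → K) (phi h) = h.trace := Matrix.trace_toLin'_eq h
    rw [h4] at h3
    rw [h3] at htrh
    have h5 : 2 * finrank K (LinearMap.range (phi h)) = Fintype.card ι := by exact_mod_cast htrh
    have h6 : 0 < finrank K (LinearMap.range (phi h)) := by
      rw [Nat.pos_iff_ne_zero]
      intro h7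
      have h8 := LinearMap.range_eq_bot.1 (Submodule.finrank_eq_zero.1 h7)
      exact h0 ((map_eq_zero_iff _ (phi (ι := ι) (K := K)).injective).1 h8)
    omega
  have htr0 : ∀ Y ∈ ext K g, Y.trace = 0 := fun Y hY => B1_traceK hg hcard hY
  have hzl : ∀ Y ∈ ext K g, p * Y * p' ∈ zlie (img K ρ ⊤) := fun Y hY =>
    (hP _).2 ⟨0, Y, hY, by rw [zero_smul, zero_add]⟩
  let Ψ := C1_Psi p p'
  have hΨ : ∀ Y, Ψ Y = phi (p * Y * p') := fun _ => rfl
  have hΨmul : ∀ X Y, Ψ (X * Y) = Ψ X * Ψ Y := C1_Psi_mul hpp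
  let L' : Submodule K (Module.End K (ι → K)) := (ext K g).map Ψ
  have hC : Core L' (om J) (adjE J) := by
    refine ⟨?_, ?_, ?_, om_alt hJ, ?_, C0_spec hdet, ?_⟩
    · rintro _ ⟨X, hX, rfl⟩ _ ⟨Y, hY, rfl⟩
      exact ⟨X * Y - Y * X, B1_lieK hg hX hY, by rw [map_sub, hΨmul, hΨmul]⟩
    · intro W hW
      have h2 := B1_irrK (K := K) hg (W.comap (Matrix.toLin' p)) (by
        intro X hX w hw
        have h3 := hW (Ψ X) ⟨X, hX, rfl⟩ (p *ᵥ w) hw
        rw [hΨ, phi_apply, Matrix.mulVec_mulVec] at h3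
        have h4 : p * X * p' * p = p * X := by rw [mul_assoc, hpp, mul_one]
        rw [h4, ← Matrix.mulVec_mulVec] at h3
        exact h3)
      have h5 : ∀ w : ι → K, p *ᵥ (p' *ᵥ w) = w := by
        intro w
        rw [Matrix.mulVec_mulVec, hpp', Matrix.one_mulVec]
      rcases h2 with h2 | h2
      · left
        rw [eq_bot_iff]
        intro w hw
        have h6 : p' *ᵥ w ∈ W.comap (Matrix.toLin' p) := by
          change p *ᵥ (p' *ᵥ w) ∈ W
          rw [h5]; exact hw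
        rw [h2, Submodule.mem_bot] at h6
        rw [Submodule.mem_bot, ← h5 w, h6, Matrix.mulVec_zero]
      · right
        rw [eq_top_iff]
        intro w _
        have h6 : p' *ᵥ w ∈ W.comap (Matrix.toLin' p) := by rw [h2]; trivial
        change p *ᵥ (p' *ᵥ w) ∈ W at h6
        rwa [h5] at h6
    · intro I hI hid
      have h2 := B3_simple (K := K) hg hcard hc (I.comap Ψ ⊓ ext K g) inf_le_right (by
        rintro X hX Y ⟨hY, hY'⟩
        refine ⟨?_, B1_lieK hg hX hY'⟩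
        change Ψ (X * Y - Y * X) ∈ I
        rw [map_sub, hΨmul, hΨmul]
        exact hid _ ⟨X, hX, rfl⟩ _ hY)
      rcases h2 with h2 | h2
      · left
        rw [eq_bot_iff]
        intro Z hZ
        obtain ⟨Y, hY, rfl⟩ := hI hZ
        have h3 : Y ∈ I.comap Ψ ⊓ ext K g := ⟨hZ, hY⟩
        rw [h2, Submodule.mem_bot] at h3
        rw [h3, map_zero]
        exact Submodule.zero_mem _
      · right
        apply le_antisymm hI
        rintro _ ⟨Y, hY, rfl⟩
        have h3 : Y ∈ I.comap Ψ ⊓ ext K g := by rw [h2]; exact hY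
        exact h3.1
    · intro v hv
      apply om_nd hdet
      intro w
      have h2 := om_alt hJ (v + w)
      simp only [map_add, LinearMap.add_apply, om_alt hJ, zero_add, add_zero, hv] at h2
      exact h2
    · rintro _ ⟨Y, hY, rfl⟩
      rw [hΨ, skew_iff hdet]
      obtain ⟨c, hc'⟩ := C0_sim hkl (img_one ρ ⊤) hsim (hzl Y hY)
      have h2 := C0_trace hdet hc'
      rw [htrc, htr0 Y hY, mul_zero] at h2
      rw [hc', (mul_eq_zero.1 h2.symm).resolve_right hcard0, zero_smul]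
  -- the involution
  obtain ⟨c₀, Y₀, hY₀, hhY⟩ := (hP h).1 hhz
  have hc₀ : 2 * c₀ = 1 := by
    rw [hhY, Matrix.trace_add, htrc, htr0 Y₀ hY₀, add_zero, Matrix.trace_smul, Matrix.trace_one,
      smul_eq_mul, ← mul_assoc] at htrh
    exact mul_right_cancel₀ hcard0 (by rw [htrh, one_mul])
  have hs : phi ((2 : K) • h - 1) ∈ L' := by
    refine ⟨(2 : K) • Y₀, (ext K g).smul_mem _ hY₀, ?_⟩
    rw [hΨ]
    congr 1
    rw [hhY, smul_add, smul_smul, hc₀, one_smul, mul_smul_comm, smul_mul_assoc]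
    abel
  have hs2 : phi ((2 : K) • h - 1) * phi ((2 : K) • h - 1) = 1 := by
    rw [← map_mul, ← map_one (phi (ι := ι) (K := K))]
    congr 1
    simp only [sub_mul, mul_sub, smul_mul_assoc, mul_smul_comm, hh.1, mul_one, one_mul]
    module
  have hfin : finrank K (ι → K) = Fintype.card ι := Module.finrank_pi K
  have hNL : ∀ N ∈ zlie (img K ρ ⊤), N * N = 0 → phi N ∈ L' := by
    intro N hN hN2
    obtain ⟨c, Y, hY, hNY⟩ := (hP N).1 hN
    have h3 : N.trace = 0 := by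
      have h4 : IsNilpotent N := ⟨2, by rw [pow_two, hN2]⟩
      exact (Matrix.isNilpotent_trace_of_isNilpotent h4).eq_zero
    rw [hNY, Matrix.trace_add, htrc, htr0 Y hY, add_zero, Matrix.trace_smul, Matrix.trace_one,
      smul_eq_mul] at h3
    have h5 : c = 0 := (mul_eq_zero.1 h3).resolve_right hcard0
    rw [h5, zero_smul, zero_add] at hNY
    exact ⟨Y, hY, by rw [hNY]; rfl⟩
  have hN2 : ∀ N : Matrix ι ι K, N * N = 0 → phi N * phi N = 0 := by
    intro N hN
    rw [← map_mul, hN, map_zero]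
  have hN0 : ∀ N : Matrix ι ι K, N ≠ 0 → phi N ≠ 0 := by
    intro N hN h6
    exact hN ((map_eq_zero_iff _ (phi (ι := ι) (K := K)).injective).1 h6)
  have hrk : ∀ N : Matrix ι ι K, finrank K (LinearMap.range (phi N)) = N.rank := fun N => rfl
  rcases coreR hC hs hs2 with h3 | ⟨m, hm5, hm4, hmV, hmN⟩ | ⟨k, hk3, hko, hkV, hkN⟩
  · obtain ⟨Y, hY, hYX⟩ := h3 (phi X) ((skew_iff hdet X).2 hX)
    have h2 : p * Y * p' = X := (phi (ι := ι) (K := K)).injective hYX
    rw [← h2]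
    exact hzl Y hY
  · exfalso
    rw [hfin] at hmV
    obtain ⟨N, hN, hNN, hN0', hr1, hr2⟩ := num₁ m hm5 hm4 hmV
    rcases hmN (phi N) (hNL N hN hNN) (hN2 N hNN) (hN0 N hN0') with h4 | h4
    · exact hr1 (by rw [← hfin, ← h4, hrk])
    · exact hr2 (by rw [← hfin, ← h4, hrk])
  · exfalso
    rw [hfin] at hkV
    obtain ⟨N, hN, hNN, hN0', hr1⟩ := num₂ k hk3 hko hkV
    exact hr1 (by rw [← hkN (phi N) (hNL N hN hNN) (hN2 N hNN) (hN0 N hN0'), hrk])

end Pool.Agent.H49M
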