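import Pool.Agent.Lib.H49M.C0

/-!
# C2: from the Lie algebra to the group
-/

set_option autoImplicit false
set_option linter.unusedSectionVars false
namespace Pool.Agent.H49M
open Module Matrix Polynomial Pool.Agent.H53Toric

variable {ι : Type*} [Fintype ι] [DecidableEq ι]

theorem C2_aux {K : Type*} [Field K] [CharZero K] [IsAlgClosed K] {J : Matrix ι ι K}
    (hJ : Jᵀ = -J) (hdet : IsUnit J.det) {k l : ι} (hkl : J k l ≠ 0) {S : Set (Matrix ι ι K)}
    (hS1 : (1 : Matrix ι ι K) ∈ S) (hS : ∀ a ∈ S, ∀ b ∈ S, a * b ∈ S)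
    (hsim : ∀ s ∈ S, ∃ c : K, sᵀ * J * s = c • J)
    (htrv : ∀ (a : K) (d : ι → K), 1 + a • Matrix.vecMulVec d (J *ᵥ d) ∈ zar S)
    {h : Matrix ι ι K} (hh : h ∈ hodgeProj S) (h0 : h ≠ 0) (h1 : h ≠ 1)
    {x : Matrix ι ι K} (hx : IsUnit x.det) {c : K} (hc : xᵀ * J * x = c • J) : x ∈ zar S := by
  have hne : Nonempty ι := ⟨k⟩
  -- isometries
  have hiso : ∀ y : Matrix ι ι K, yᵀ * J * y = J → y ∈ zar S := by
    intro y hy
    have h1 := sp_mem (ω := om J) (Z := {X | (phi (ι := ι) (K := K)).symm X ∈ zar S})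
      (om_alt hJ) (om_nd hdet) (by
        change (phi (ι := ι) (K := K)).symm 1 ∈ zar S
        rw [map_one]; exact subset_zar S hS1) (by
        intro a ha b hb
        change (phi (ι := ι) (K := K)).symm (a * b) ∈ zar S
        rw [map_mul]; exact zar_mul hS ha hb) (by
        intro a d
        change (phi (ι := ι) (K := K)).symm (1 + a • trv (om J) d) ∈ zar S
        rw [← phi_trv, ← map_smul, ← map_one (phi (ι := ι) (K := K)), ← map_add,
          AlgEquiv.symm_apply_apply]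
        exact htrv a d) (finrank K (ι → K)) (phi y) (by
        intro v w
        rw [phi_apply, phi_apply, om_mul, hy]) (Nat.le_add_left _ _)
    change (phi (ι := ι) (K := K)).symm (phi y) ∈ zar S at h1
    rwa [AlgEquiv.symm_apply_apply] at h1
  obtain ⟨p1, p2⟩ := proj_sim' hdet hkl hsim hh h0 h1
  have hmult : ∀ t : K, (1 + (t - 1) • h)ᵀ * J * (1 + (t - 1) • h) = t • J := by
    intro t
    rw [Matrix.transpose_add, Matrix.transpose_one, Matrix.transpose_smul]
    have e : (1 + (t - 1) • hᵀ) * J * (1 + (t - 1) • h) =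
        J + (t - 1) • (hᵀ * J + J * h) + ((t - 1) * (t - 1)) • (hᵀ * J * h) := by
      simp only [add_mul, mul_add, mul_one, one_mul, smul_mul_assoc, mul_smul_comm]
      module
    rw [e, p1, p2]
    module
  have hc0 : c ≠ 0 := by
    rintro rfl
    rw [zero_smul] at hc
    have h3 := congrArg Matrix.det hc
    rw [Matrix.det_mul, Matrix.det_mul, Matrix.det_transpose, Matrix.det_zero] at h3
    exact (mul_ne_zero (mul_ne_zero hx.ne_zero hdet.ne_zero) hx.ne_zero) h3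
  have hiso1 : x * (1 + (c⁻¹ - 1) • h) ∈ zar S := by
    apply hiso
    rw [Matrix.transpose_mul]
    calc (1 + (c⁻¹ - 1) • h)ᵀ * xᵀ * J * (x * (1 + (c⁻¹ - 1) • h)) =
        (1 + (c⁻¹ - 1) • h)ᵀ * (xᵀ * J * x) * (1 + (c⁻¹ - 1) • h) := by noncomm_ring
      _ = c • ((1 + (c⁻¹ - 1) • h)ᵀ * J * (1 + (c⁻¹ - 1) • h)) := by
        rw [hc, mul_smul_comm, smul_mul_assoc]
      _ = J := by rw [hmult, smul_smul, mul_inv_cancel₀ hc0, one_smul]
  have hfin := zar_mul hS hiso1 (hh.2 c hc0)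
  have e : x * (1 + (c⁻¹ - 1) • h) * (1 + (c - 1) • h) = x := by
    have e2 : (1 + (c⁻¹ - 1) • h) * (1 + (c - 1) • h) = 1 := by
      have e3 : (1 + (c⁻¹ - 1) • h) * (1 + (c - 1) • h) =
          1 + ((c⁻¹ - 1) + (c - 1)) • h + ((c⁻¹ - 1) * (c - 1)) • (h * h) := by
        simp only [add_mul, mul_add, mul_one, one_mul, smul_mul_assoc, mul_smul_comm]
        module
      rw [e3, hh.1]
      have e4 : (c⁻¹ - 1) * (c - 1) = -((c⁻¹ - 1) + (c - 1)) := by
        field_simp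
        ring
      rw [e4]
      module
    rw [mul_assoc, e2, mul_one]
  rwa [e] at hfin

/-- Chunk C2. Copy the proof of `gsp_mem` (H53Toric.Assemble) with `S = img K ρ H`: the
transvections `1 + a v ω(·, v)` are in `zar (img K ρ ⊤)` by `hfull`, `trv_skew`, `zlie_exp`, for all
`a`, hence in `zar (img K ρ H)` by `line_finite` (H53Toric.Monodromy); they generate the isometries
(`sp_mem`); `h ∈ hodgeProj (img K ρ H)` by `hodgeProj_finite`, and `t ^ h` has multiplier `t`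
(`proj_sim'`). See also `monodromy_eq` in H53Toric.Full for `hsim`, `hkl`, `hdet`. -/
theorem C2_mem {K : Type*} [Field K] [CharZero K] [IsAlgClosed K] {L : Type*} [Field L]
    [CharZero L] [Algebra L K] {ψ : Matrix ι ι ℚ} (hψ : ψᵀ = -ψ) (hψ0 : ψ.det ≠ 0)
    {G : Type*} [Group G] (ρ : G →* Matrix.GeneralLinearGroup ι L)
    (sim : ∀ σ : G, ∃ c : L, (ρ σ).1ᵀ * ψ.map (algebraMap ℚ L) * (ρ σ).1 =
      c • ψ.map (algebraMap ℚ L))
    {h : Matrix ι ι K} (hh : h ∈ hodgeProj (img K ρ ⊤)) (h0 : h ≠ 0) (h1 : h ≠ 1)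
    (hfull : ∀ X : Matrix ι ι K,
      Xᵀ * ψ.map (algebraMap ℚ K) + ψ.map (algebraMap ℚ K) * X = 0 → X ∈ zlie (img K ρ ⊤)) :
    simil K ψ ⊆ idc K ρ := by
  obtain ⟨hJ, hdet, hJ0, hsimH⟩ := C0_setup (K := K) hψ hψ0 ρ sim
  have hι : Nonempty ι := by
    by_contra hemp
    rw [not_nonempty_iff] at hemp
    apply h0
    ext i
    exact (hemp.false i).elim
  obtain ⟨k, l, hkl⟩ := hJ0 hι
  rintro x ⟨hx, c, hc⟩
  refine ⟨hx, fun H hH => ?_⟩
  refine C2_aux hJ hdet hkl (img_one ρ H) (img_mul ρ H) (hsimH H) ?_ (hodgeProj_finite ρ H hh)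
    h0 h1 (isUnit_iff_ne_zero.2 hx) hc
  intro a d
  have h2 : Matrix.vecMulVec d (ψ.map (algebraMap ℚ K) *ᵥ d) *
      Matrix.vecMulVec d (ψ.map (algebraMap ℚ K) *ᵥ d) = 0 := by
    apply (phi (ι := ι) (K := K)).injective
    rw [map_mul, phi_trv, map_zero, trv_sq (om_alt hJ)]
  have h3 := hfull _ (trv_skew hJ d)
  refine line_finite ρ H (T := Set.univ) Set.infinite_univ ?_ a
  intro t _
  have := zlie_exp h3 h2 1 (img_one ρ ⊤) t
  rwa [one_mul] at this

end Pool.Agent.H49M
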