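import Pool.Agent.Lib.H49M.BDefs
import Pool.Agent.Lib.H53Toric.Weil

/-!
# C3: a Frobenius with an independent root
-/

set_option autoImplicit false
set_option linter.unusedSectionVars false
namespace Pool.Agent.H49M
open Module Matrix Polynomial Pool.Agent.H53Toric

variable {ι : Type*} [Fintype ι] [DecidableEq ι]

variable {K : Type*} [Field K] [CharZero K] {J : Matrix ι ι K}

/-- The matrix of `u ↦ ω (w, u) v + ω (v, u) w`. -/
noncomputable def C3a_N (J : Matrix ι ι K) (v w : ι → K) : Matrix ι ι K :=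
  LinearMap.toMatrix' ((om J w).smulRight v + (om J v).smulRight w)

theorem C3a_N_mulVec (J : Matrix ι ι K) (v w u : ι → K) :
    C3a_N J v w *ᵥ u = om J w u • v + om J v u • w := by
  rw [← Matrix.toLin'_apply, C3a_N, Matrix.toLin'_toMatrix']
  rfl

theorem C3a_ext {A B : Matrix ι ι K} (h : ∀ u v, om A u v = om B u v) : A = B := by
  ext i j
  have h1 := h (Pi.single i 1) (Pi.single j 1)
  rw [om_apply, om_apply, Matrix.mulVec_single_one, Matrix.mulVec_single_one,
    single_one_dotProduct, single_one_dotProduct] at h1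
  exact h1

theorem C3a_ext' {A B : Matrix ι ι K} (h : ∀ u, A *ᵥ u = B *ᵥ u) : A = B := by
  apply Matrix.toLin'.injective
  exact LinearMap.ext fun u ↦ by rw [Matrix.toLin'_apply, Matrix.toLin'_apply, h]

theorem C3a_swap (hJ : Jᵀ = -J) (u v : ι → K) : om J u v = - om J v u := by
  rw [om_apply, om_apply, Matrix.dotProduct_mulVec, dotProduct_comm, ← Matrix.mulVec_transpose, hJ,
    Matrix.neg_mulVec, dotProduct_neg]

theorem C3a_alt (hJ : Jᵀ = -J) (v : ι → K) : om J v v = 0 := by
  have h1 := C3a_swap hJ v v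
  have h2 : (2 : K) * om J v v = 0 := by linear_combination h1
  exact (mul_eq_zero.1 h2).resolve_left (by norm_num)

/-- The isometries `1 + N`. -/
theorem C3a_iso (hJ : Jᵀ = -J) (hdet : J.det ≠ 0) {x : Matrix ι ι K} {q : K}
    (hsim : xᵀ * J * x = q • J) {v w : ι → K} {α β : K}
    (hv : x *ᵥ v = α • v) (hw : x *ᵥ w = β • w) (hαβ : α * β = q) (hq : q ≠ 0)
    (hvw : om J v w = 0) :
    (1 + C3a_N J v w).det ≠ 0 ∧
      (∃ c : K, (1 + C3a_N J v w)ᵀ * J * (1 + C3a_N J v w) = c • J) ∧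
      (1 + C3a_N J v w) * x = x * (1 + C3a_N J v w) := by
  have hy : ∀ u, (1 + C3a_N J v w) *ᵥ u = u + (om J w u • v + om J v u • w) := fun u ↦ by
    rw [Matrix.add_mulVec, Matrix.one_mulVec, C3a_N_mulVec]
  have hwv : om J w v = 0 := by rw [C3a_swap hJ, hvw, neg_zero]
  have hiso : (1 + C3a_N J v w)ᵀ * J * (1 + C3a_N J v w) = J := by
    refine C3a_ext fun u u' ↦ ?_
    rw [← om_mul, hy, hy]
    simp only [map_add, map_smul, LinearMap.add_apply, LinearMap.smul_apply, smul_eq_mul,
      C3a_alt hJ, hvw, hwv]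
    rw [C3a_swap hJ u v, C3a_swap hJ u w]
    ring
  have hα : α ≠ 0 := by
    rintro rfl
    rw [zero_mul] at hαβ
    exact hq hαβ.symm
  have hβ : β ≠ 0 := by
    rintro rfl
    rw [mul_zero] at hαβ
    exact hq hαβ.symm
  refine ⟨fun h0 ↦ ?_, ⟨1, by rw [hiso, one_smul]⟩, ?_⟩
  · have h1 := congrArg Matrix.det hiso
    rw [Matrix.det_mul, Matrix.det_mul, h0, mul_zero] at h1
    exact hdet h1.symm
  · refine C3a_ext' fun u ↦ ?_
    have h1 : ∀ a γ, x *ᵥ a = γ • a → γ * om J a (x *ᵥ u) = q * om J a u := by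
      intro a γ ha
      have h2 := om_mul J x a u
      rw [hsim, ha] at h2
      rw [← smul_eq_mul, ← LinearMap.smul_apply, ← map_smul]
      rw [h2, om_apply, om_apply, Matrix.smul_mulVec, dotProduct_smul, smul_eq_mul]
    have h2 : om J v (x *ᵥ u) = β * om J v u := by
      have h3 := h1 v α hv
      apply mul_left_cancel₀ hα
      rw [h3, ← hαβ]
      ring
    have h4 : om J w (x *ᵥ u) = α * om J w u := by
      have h3 := h1 w β hw
      apply mul_left_cancel₀ hβ
      rw [h3, ← hαβ]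
      ring
    rw [← Matrix.mulVec_mulVec, ← Matrix.mulVec_mulVec, hy, hy, Matrix.mulVec_add,
      Matrix.mulVec_add, Matrix.mulVec_smul, Matrix.mulVec_smul, hv, hw, h2, h4]
    simp only [smul_smul]
    rw [mul_comm α, mul_comm β]

/-- Similitudes commuting with `x` commute. -/
theorem C3a_comm {x : Matrix ι ι K} {y z : Matrix ι ι K}
    (hy : y ∈ zar {m | ∃ n : ℕ, m = x ^ n}) (hz : z * x = x * z) : y * z = z * y := by
  ext i j
  let f : MvPolynomial (ι × ι) K := ∑ k, MvPolynomial.X (i, k) * MvPolynomial.C (z k j) -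
    ∑ k, MvPolynomial.C (z i k) * MvPolynomial.X (k, j)
  have hf : ∀ m, ev m f = (m * z) i j - (z * m) i j := by
    intro m
    rw [map_sub, map_sum, map_sum, Matrix.mul_apply, Matrix.mul_apply]
    congr 1
    · refine Finset.sum_congr rfl fun k _ ↦ ?_
      rw [map_mul, ev_X, ev_C]
    · refine Finset.sum_congr rfl fun k _ ↦ ?_
      rw [map_mul, ev_X, ev_C]
  have h1 := hy f (by
    rintro _ ⟨n, rfl⟩
    have hc : Commute z x := hz
    rw [hf, sub_eq_zero, (hc.pow_right n).eq])
  rw [hf, sub_eq_zero] at h1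
  exact h1

/-- Basic facts on the eigenbasis. -/
theorem C3a_eig {x P Q : Matrix ι ι K} {d : ι → K} (hQP : Q * P = 1)
    (hx : x = P * Matrix.diagonal d * Q) (i : ι) : x *ᵥ (P *ᵥ Pi.single i 1) =
      d i • (P *ᵥ Pi.single i 1) := by
  rw [hx, Matrix.mulVec_mulVec, mul_assoc, hQP, mul_one, ← Matrix.mulVec_mulVec,
    Matrix.diagonal_mulVec_single, mul_one, ← Matrix.mulVec_smul]
  congr 1
  rw [← Pi.single_smul, smul_eq_mul, mul_one]

theorem C3a_pair {x : Matrix ι ι K} {q : K} (hsim : xᵀ * J * x = q • J) {v w : ι → K} {α β : K}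
    (hv : x *ᵥ v = α • v) (hw : x *ᵥ w = β • w) (h : om J v w ≠ 0) : α * β = q := by
  have h2 := om_mul J x v w
  rw [hsim, hv, hw] at h2
  simp only [map_smul, LinearMap.smul_apply, smul_eq_mul] at h2
  have h3 : om (q • J) v w = q * om J v w := by
    rw [om_apply, om_apply, Matrix.smul_mulVec, dotProduct_smul, smul_eq_mul]
  rw [h3] at h2
  apply mul_right_cancel₀ h
  rw [← h2]
  ring

theorem C3a_row (hdet : J.det ≠ 0) {P Q : Matrix ι ι K} (hPQ : P * Q = 1) (i : ι) :
    ∃ k, om J (P *ᵥ Pi.single i 1) (P *ᵥ Pi.single k 1) ≠ 0 := by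
  have hP : P.det ≠ 0 := by
    intro h
    have := congrArg Matrix.det hPQ
    rw [Matrix.det_mul, h, zero_mul, Matrix.det_one] at this
    exact zero_ne_one this
  have hMdet : (Pᵀ * J * P).det ≠ 0 := by
    rw [Matrix.det_mul, Matrix.det_mul, Matrix.det_transpose]
    exact mul_ne_zero (mul_ne_zero hP hdet) hP
  by_contra hcon
  push Not at hcon
  refine hMdet (Matrix.det_eq_zero_of_row_eq_zero i fun k ↦ ?_)
  have h1 := hcon k
  rw [om_mul, om_apply, Matrix.mulVec_single_one, single_one_dotProduct] at h1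
  exact h1

/-- The second case. -/
theorem C3a_sq (hJ : Jᵀ = -J) (hdet : J.det ≠ 0) {x P Q : Matrix ι ι K} {d : ι → K}
    (hPQ : P * Q = 1) (hQP : Q * P = 1) (hx : x = P * Matrix.diagonal d * Q) {q : K}
    (hq : q ≠ 0) (hsim : xᵀ * J * x = q • J)
    (htor : ∀ y : Matrix ι ι K, y.det ≠ 0 → (∃ c : K, yᵀ * J * y = c • J) → y * x = x * y →
      y ∈ zar {m | ∃ n : ℕ, m = x ^ n}) (i : ι) : d i * d i ≠ q := by
  intro hi
  obtain ⟨k, hk⟩ := C3a_row hdet hPQ (J := J) i
  set v := P *ᵥ Pi.single i 1 with hvdef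
  set w := P *ᵥ Pi.single k 1 with hwdef
  have hv : x *ᵥ v = d i • v := C3a_eig hQP hx i
  have hw : x *ᵥ w = d k • w := C3a_eig hQP hx k
  have hik : d i * d k = q := C3a_pair hsim hv hw hk
  have hdi : d i ≠ 0 := by
    intro h
    rw [h, zero_mul] at hi
    exact hq hi.symm
  have hkk : d k = d i := mul_left_cancel₀ hdi (hik.trans hi.symm)
  obtain ⟨a1, a2, a3⟩ := C3a_iso hJ hdet hsim hv hv hi hq (C3a_alt hJ v)
  obtain ⟨b1, b2, b3⟩ := C3a_iso hJ hdet hsim hw hw (by rw [hkk, hi]) hq (C3a_alt hJ w)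
  have h1 := C3a_comm (htor _ a1 a2 a3) b3
  have h2 := congrArg (fun m ↦ m *ᵥ v) h1
  simp only [← Matrix.mulVec_mulVec, Matrix.add_mulVec, Matrix.one_mulVec, C3a_N_mulVec,
    C3a_alt hJ, zero_smul, add_zero, Matrix.mulVec_add, Matrix.mulVec_smul] at h2
  have h3 : (om J v w * om J w v) • v = 0 := by
    have h4 : (4 : K) • ((om J v w * om J w v) • v) = 0 := by
      have h5 := sub_eq_zero.2 h2
      rw [← h5]
      module
    exact (smul_eq_zero.1 h4).resolve_left (by norm_num)
  have hv0 : v ≠ 0 := by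
    intro h
    rw [h] at hk
    simp at hk
  rcases smul_eq_zero.1 h3 with h4 | h4
  · rw [C3a_swap hJ w v] at h4
    rcases mul_eq_zero.1 h4 with h5 | h5
    · exact hk h5
    · exact hk (neg_eq_zero.1 h5)
  · exact hv0 h4

theorem C3a_omP (P : Matrix ι ι K) (k : ι) (w : ι → K) :
    om J (P *ᵥ Pi.single k 1) w = ((Pᵀ * J) *ᵥ w) k := by
  rw [om_apply, dotProduct_comm, Matrix.dotProduct_mulVec, ← Matrix.mulVec_transpose,
    dotProduct_comm, single_one_dotProduct, Matrix.mulVec_mulVec]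

/-- The dual basis. -/
theorem C3a_dual (hdet : J.det ≠ 0) {x P Q : Matrix ι ι K} {d : ι → K}
    (hPQ : P * Q = 1) (hQP : Q * P = 1) (hx : x = P * Matrix.diagonal d * Q) {q : K}
    (hq : q ≠ 0) (hsim : xᵀ * J * x = q • J) (j : ι) :
    ∃ w : ι → K, (∀ k, om J (P *ᵥ Pi.single k 1) w = if k = j then 1 else 0) ∧
      d j * (q / d j) = q ∧ x *ᵥ w = (q / d j) • w := by
  have hP : P.det ≠ 0 := by
    intro h
    have := congrArg Matrix.det hPQ
    rw [Matrix.det_mul, h, zero_mul, Matrix.det_one] at this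
    exact zero_ne_one this
  have hM : IsUnit (Pᵀ * J).det := by
    rw [Matrix.det_mul, Matrix.det_transpose]
    exact (mul_ne_zero hP hdet).isUnit
  have hd0 : ∀ k, d k ≠ 0 := by
    intro k hk
    obtain ⟨l, hl⟩ := C3a_row hdet hPQ (J := J) k
    have h1 := C3a_pair hsim (C3a_eig hQP hx k) (C3a_eig hQP hx l) hl
    rw [hk, zero_mul] at h1
    exact hq h1.symm
  have hw : ∀ k, om J (P *ᵥ Pi.single k 1) ((Pᵀ * J)⁻¹ *ᵥ Pi.single j 1) =
      if k = j then 1 else 0 := by
    intro k
    rw [C3a_omP, Matrix.mulVec_mulVec, Matrix.mul_nonsing_inv _ hM, Matrix.one_mulVec,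
      Pi.single_apply]
  refine ⟨(Pᵀ * J)⁻¹ *ᵥ Pi.single j 1, hw, mul_div_cancel₀ _ (hd0 j), ?_⟩
  set w := (Pᵀ * J)⁻¹ *ᵥ Pi.single j (1 : K) with hwdef
  have hsep : ∀ u : ι → K, (∀ k, om J (P *ᵥ Pi.single k 1) u = 0) → u = 0 := by
    intro u hu
    have h1 : (Pᵀ * J) *ᵥ u = 0 := by
      funext k
      rw [← C3a_omP, hu]
      rfl
    have h2 := congrArg (fun a ↦ (Pᵀ * J)⁻¹ *ᵥ a) h1
    simp only [Matrix.mulVec_mulVec, Matrix.nonsing_inv_mul _ hM, Matrix.one_mulVec,
      Matrix.mulVec_zero] at h2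
    exact h2
  rw [← sub_eq_zero]
  refine hsep _ fun k ↦ ?_
  rw [map_sub, map_smul, hw, sub_eq_zero]
  have h1 := om_mul J x (P *ᵥ Pi.single k 1) w
  rw [hsim, C3a_eig hQP hx k] at h1
  have h3 : om (q • J) (P *ᵥ Pi.single k 1) w = q * om J (P *ᵥ Pi.single k 1) w := by
    rw [om_apply, om_apply, Matrix.smul_mulVec, dotProduct_smul, smul_eq_mul]
  rw [h3, hw, map_smul, LinearMap.smul_apply, smul_eq_mul] at h1
  apply mul_left_cancel₀ (hd0 k)
  rw [h1]
  by_cases hk : k = j
  · rw [hk, if_pos rfl, smul_eq_mul, mul_one, mul_one, mul_div_cancel₀ _ (hd0 j)]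
  · rw [if_neg hk, smul_zero, mul_zero, mul_zero]

/-- Chunk C3a. The elements of `zar {x ^ n}` commute with everything that commutes with `x`, so
by `htor` any two similitudes commuting with `x` commute with each other. Let `v i = P e_i`
(eigenvectors: `x (v i) = d i • v i`) and `M = Pᵀ J P`, `M i j = ω (v i, v j)`, `M i j ≠ 0` implies
`d i d j = q` (`gram_entry` in H53Toric). Suppose `d i = d j`, `i ≠ j`, `α = d i`. `M` is
invertible, so the rows `i`, `j` of `M` are linearly independent, and they are supported on the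
columns `k` with `d k = q / α`. For vectors `v, w` with `x v = α v`, `x w = (q/α) w`, `ω(v, w) = 0` the matrix
`X = v ⊗ ω(·, w) + w ⊗ ω(·, v)` (`X u = ω(u, w) v + ω(u, v) w`) is skew, `X² = 0` (if
`α² ≠ q`, or take `w = v` when `α² = q`), commutes with `x`, and `1 + X` is an isometry. Case
`α² ≠ q`: by independence of the two functionals `ω (v i, ·)`, `ω (v j, ·)` on the eigenspace of
`q/α` choose `w, w'` there with `ω(v i, w) = 0`, `ω(v j, w) = 1`, `ω(v i, w') = 1`,
`ω(v j, w') = 0`; the elements `X (v i, w)` and `X (v j, w')` do not commute: contradiction. Case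
`α² = q` (here `i = j` is not needed): some `k` has `M i k ≠ 0`, then `d k = q/α = α`, and the
transvections `1 + v ω(·, v)` for `v = v i, v k` commute with `x` but not with each other. -/
theorem C3_distinct (hJ : Jᵀ = -J) (hdet : J.det ≠ 0) {x P Q : Matrix ι ι K} {d : ι → K}
    (hPQ : P * Q = 1) (hQP : Q * P = 1) (hx : x = P * Matrix.diagonal d * Q) {q : K}
    (hq : q ≠ 0) (hsim : xᵀ * J * x = q • J)
    (htor : ∀ y : Matrix ι ι K, y.det ≠ 0 → (∃ c : K, yᵀ * J * y = c • J) → y * x = x * y →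
      y ∈ zar {m | ∃ n : ℕ, m = x ^ n}) :
    Function.Injective d ∧ ∀ i, d i * d i ≠ q := by
  have hsq := C3a_sq hJ hdet hPQ hQP hx hq hsim htor
  refine ⟨fun i j hij ↦ ?_, hsq⟩
  by_contra hne
  obtain ⟨w, hw1, hw2, hw3⟩ := C3a_dual hdet hPQ hQP hx hq hsim j
  obtain ⟨w', hw1', hw2', hw3'⟩ := C3a_dual hdet hPQ hQP hx hq hsim i
  set v := P *ᵥ Pi.single i 1 with hvdef
  set v' := P *ᵥ Pi.single j 1 with hvdef'
  have hv : x *ᵥ v = d i • v := C3a_eig hQP hx i
  have hv' : x *ᵥ v' = d j • v' := C3a_eig hQP hx j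
  have e1 : om J v w = 0 := by rw [hvdef, hw1, if_neg hne]
  have e2 : om J v' w = 1 := by rw [hvdef', hw1, if_pos rfl]
  have e3 : om J v w' = 1 := by rw [hvdef, hw1', if_pos rfl]
  have e4 : om J v' w' = 0 := by rw [hvdef', hw1', if_neg (Ne.symm hne)]
  have e5 : om J v v' = 0 := by
    by_contra h
    have h1 := C3a_pair hsim hv hv' h
    rw [← hij] at h1
    exact hsq i h1
  have e6 : om J w w' = 0 := by
    by_contra h
    have h1 := C3a_pair hsim hw3 hw3' h
    rw [hij] at h1
    have hdj : d j ≠ 0 := by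
      intro h0
      rw [h0, zero_mul] at hw2
      exact hq hw2.symm
    apply hsq j
    have h2 : q * q = q * (d j * d j) := by
      calc q * q = (d j * (q / d j)) * (d j * (q / d j)) := by rw [hw2]
        _ = (q / d j * (q / d j)) * (d j * d j) := by ring
        _ = _ := by rw [h1]
    exact (mul_left_cancel₀ hq h2).symm
  have f1 : om J w v = 0 := by rw [C3a_swap hJ, e1, neg_zero]
  have f2 : om J w v' = -1 := by rw [C3a_swap hJ, e2]
  have f3 : om J w' v = -1 := by rw [C3a_swap hJ, e3]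
  have f4 : om J w' v' = 0 := by rw [C3a_swap hJ, e4, neg_zero]
  have f5 : om J v' v = 0 := by rw [C3a_swap hJ, e5, neg_zero]
  have f6 : om J w' w = 0 := by rw [C3a_swap hJ, e6, neg_zero]
  obtain ⟨a1, a2, a3⟩ := C3a_iso hJ hdet hsim hv hw3 (by rw [hij, hw2]) hq e1
  obtain ⟨b1, b2, b3⟩ := C3a_iso hJ hdet hsim hv' hw3' (by rw [← hij, hw2']) hq e4
  have h1 := C3a_comm (htor _ a1 a2 a3) b3
  have h2 := congrArg (fun m ↦ m *ᵥ v') h1
  simp only [← Matrix.mulVec_mulVec, Matrix.add_mulVec, Matrix.one_mulVec, C3a_N_mulVec,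
    Matrix.mulVec_add, Matrix.mulVec_neg, C3a_alt hJ, e5, f2, f3, f4, f5, zero_smul, add_zero,
    neg_smul, one_smul] at h2
  have hv0 : v' ≠ 0 := by
    intro h
    rw [h] at e2
    simp at e2
  apply hv0
  have h3 := sub_eq_zero.2 h2
  rw [← neg_eq_zero, ← h3]
  module

theorem C3b_ext {A B P Q : Matrix ι ι K} (hPQ : P * Q = 1)
    (h : ∀ k l, om A (P *ᵥ Pi.single k 1) (P *ᵥ Pi.single l 1) =
      om B (P *ᵥ Pi.single k 1) (P *ᵥ Pi.single l 1)) : A = B := by
  have h1 : Pᵀ * A * P = Pᵀ * B * P := by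
    ext k l
    have h2 := h k l
    rw [om_mul, om_mul, om_apply, om_apply, Matrix.mulVec_single_one, Matrix.mulVec_single_one,
      single_one_dotProduct, single_one_dotProduct] at h2
    exact h2
  have h2 : Qᵀ * Pᵀ = 1 := by rw [← Matrix.transpose_mul, hPQ, Matrix.transpose_one]
  calc A = (Qᵀ * Pᵀ) * A * (P * Q) := by rw [h2, hPQ, one_mul, mul_one]
    _ = Qᵀ * (Pᵀ * A * P) * Q := by noncomm_ring
    _ = (Qᵀ * Pᵀ) * B * (P * Q) := by rw [h1]; noncomm_ring
    _ = B := by rw [h2, hPQ, one_mul, mul_one]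

/-- The diagonal entries in the eigenbasis as polynomials. -/
theorem C3b_poly (P Q : Matrix ι ι K) (k : ι) : ∃ g : MvPolynomial (ι × ι) K,
    ∀ m : Matrix ι ι K, ev m g = (Q * m * P) k k := by
  refine ⟨∑ b, (∑ a, MvPolynomial.C (Q k a) * MvPolynomial.X (a, b)) * MvPolynomial.C (P b k),
    fun m ↦ ?_⟩
  rw [map_sum, Matrix.mul_apply]
  refine Finset.sum_congr rfl fun b _ ↦ ?_
  rw [map_mul, map_sum, ev_C, Matrix.mul_apply]
  congr 1
  refine Finset.sum_congr rfl fun a _ ↦ ?_
  rw [map_mul, ev_C, ev_X]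

theorem C3b_pow {P Q : Matrix ι ι K} {d : ι → K} (hPQ : P * Q = 1) (hQP : Q * P = 1) (n : ℕ)
    (k : ι) : (Q * (P * Matrix.diagonal d * Q) ^ n * P) k k = d k ^ n := by
  have h1 : (P * Matrix.diagonal d * Q) ^ n = P * (Matrix.diagonal d) ^ n * Q := by
    induction n with
    | zero => rw [pow_zero, pow_zero, mul_one, hPQ]
    | succ n ih =>
      rw [pow_succ, ih, pow_succ]
      calc P * Matrix.diagonal d ^ n * Q * (P * Matrix.diagonal d * Q) =
          P * Matrix.diagonal d ^ n * (Q * P) * Matrix.diagonal d * Q := by noncomm_ring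
        _ = _ := by rw [hQP]; noncomm_ring
  have h2 : Q * (P * (Matrix.diagonal d) ^ n * Q) * P = (Matrix.diagonal d) ^ n := by
    calc Q * (P * (Matrix.diagonal d) ^ n * Q) * P =
        (Q * P) * (Matrix.diagonal d) ^ n * (Q * P) := by noncomm_ring
      _ = _ := by rw [hQP, one_mul, mul_one]
  rw [h1, h2, Matrix.diagonal_pow, Matrix.diagonal_apply_eq, Pi.pow_apply]

/-- Powers with integral exponents. -/
theorem C3b_zpow {c : ι → K} (hc : ∀ k, c k ≠ 0) (n : ι → ℤ) :
    ∏ k, c k ^ (n k) = 1 ↔ ∏ k, c k ^ (n k).toNat = ∏ k, c k ^ (-n k).toNat := by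
  have h1 : ∀ k, c k ^ (n k) = c k ^ (n k).toNat / c k ^ (-n k).toNat := by
    intro k
    rw [← zpow_natCast, ← zpow_natCast, ← zpow_sub₀ (hc k)]
    congr 1
    omega
  rw [Finset.prod_congr rfl fun k _ ↦ h1 k, Finset.prod_div_distrib, div_eq_one_iff_eq]
  exact Finset.prod_ne_zero_iff.2 fun k _ ↦ pow_ne_zero _ (hc k)

/-- Chunk C3b. Relations. `M = Pᵀ J P` as in C3a; as `d` is injective and `M` invertible, for every
`i` there is exactly one `i'` with `M i i' ≠ 0`, `d i' = q / d i`, `i' ≠ i` (`d i² ≠ q`). For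
`s ≠ 0` the matrix `y = P diag (s at i, s⁻¹ at i', 1 elsewhere) Q` satisfies `yᵀ J y = J` and
commutes with `x`, so it is in `zar {x ^ n}`. Let `n k ∈ ℤ` with `∏ (d k) ^ (n k) = 1`. The
polynomial `∏_{n k > 0} (Q y P)_kk ^ (n k) - ∏_{n k < 0} (Q y P)_kk ^ (- n k)` vanishes at all powers
of `x`, so `s ^ (n i) s ^ (- n i') = 1` for all `s ≠ 0`; hence `n i = n i'` (take `s = 2`). -/
theorem C3_rel (hJ : Jᵀ = -J) (hdet : J.det ≠ 0) {x P Q : Matrix ι ι K} {d : ι → K}
    (hPQ : P * Q = 1) (hQP : Q * P = 1) (hx : x = P * Matrix.diagonal d * Q) {q : K}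
    (hq : q ≠ 0) (hsim : xᵀ * J * x = q • J)
    (htor : ∀ y : Matrix ι ι K, y.det ≠ 0 → (∃ c : K, yᵀ * J * y = c • J) → y * x = x * y →
      y ∈ zar {m | ∃ n : ℕ, m = x ^ n}) (i : ι) :
    ∃ i' : ι, i' ≠ i ∧ d i * d i' = q ∧
      ∀ n : ι → ℤ, ∏ k, (d k) ^ (n k) = 1 → n i = n i' := by
  classical
  obtain ⟨hinj, hsq⟩ := C3_distinct hJ hdet hPQ hQP hx hq hsim htor
  obtain ⟨i', hi'⟩ := C3a_row hdet hPQ (J := J) i
  have hpair : ∀ k l, om J (P *ᵥ Pi.single k 1) (P *ᵥ Pi.single l 1) ≠ 0 → d k * d l = q :=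
    fun k l h ↦ C3a_pair hsim (C3a_eig hQP hx k) (C3a_eig hQP hx l) h
  have hii' := hpair i i' hi'
  have hne : i' ≠ i := by
    rintro rfl
    exact hsq _ hii'
  have hd0 : ∀ k, d k ≠ 0 := by
    intro k hk
    obtain ⟨l, hl⟩ := C3a_row hdet hPQ (J := J) k
    have h1 := hpair k l hl
    rw [hk, zero_mul] at h1
    exact hq h1.symm
  refine ⟨i', hne, hii', fun n hn ↦ ?_⟩
  let δ : ι → K := fun k ↦ if k = i then 2 else if k = i' then 1 / 2 else 1
  have hδi : δ i = 2 := if_pos rfl
  have hδi' : δ i' = 1 / 2 := by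
    change (if i' = i then (2 : K) else if i' = i' then 1 / 2 else 1) = 1 / 2
    rw [if_neg hne, if_pos rfl]
  have hδ1 : ∀ k, k ≠ i → k ≠ i' → δ k = 1 := fun k h1 h2 ↦ by
    change (if k = i then (2 : K) else if k = i' then 1 / 2 else 1) = 1
    rw [if_neg h1, if_neg h2]
  have h2 : (2 : K) ≠ 0 := two_ne_zero
  have hδ0 : ∀ k, δ k ≠ 0 := by
    intro k
    by_cases h3 : k = i
    · rw [h3, hδi]
      exact h2
    · by_cases h4 : k = i'
      · rw [h4, hδi']
        exact one_div_ne_zero h2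
      · rw [hδ1 k h3 h4]
        exact one_ne_zero
  have hδδ : ∀ k l, om J (P *ᵥ Pi.single k 1) (P *ᵥ Pi.single l 1) ≠ 0 → δ k * δ l = 1 := by
    intro k l hkl
    have h3 := hpair k l hkl
    by_cases h4 : k = i
    · subst h4
      have h5 : l = i' := hinj (mul_left_cancel₀ (hd0 _) (h3.trans hii'.symm))
      rw [h5, hδi, hδi']
      field_simp
    · by_cases h5 : k = i'
      · subst h5
        have h6 : l = i := hinj (mul_left_cancel₀ (hd0 k) (h3.trans (by rw [← hii', mul_comm])))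
        rw [h6, hδi, hδi']
        field_simp
      · have h6 : l ≠ i := by
          rintro rfl
          exact h5 (hinj (mul_right_cancel₀ (hd0 _) (h3.trans (by rw [← hii', mul_comm]))))
        have h7 : l ≠ i' := by
          rintro rfl
          exact h4 (hinj (mul_right_cancel₀ (hd0 _) (h3.trans hii'.symm)))
        rw [hδ1 k h4 h5, hδ1 l h6 h7, mul_one]
  set y := P * Matrix.diagonal δ * Q with hy
  have hiso : yᵀ * J * y = J := by
    refine C3b_ext hPQ fun k l ↦ ?_
    rw [← om_mul, C3a_eig hQP hy k, C3a_eig hQP hy l]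
    simp only [map_smul, LinearMap.smul_apply, smul_eq_mul]
    by_cases h : om J (P *ᵥ Pi.single k 1) (P *ᵥ Pi.single l 1) = 0
    · rw [h, mul_zero, mul_zero]
    · rw [← mul_assoc, mul_comm (δ l), hδδ k l h, one_mul]
  have hdety : y.det ≠ 0 := by
    intro h0
    have h1 := congrArg Matrix.det hiso
    rw [Matrix.det_mul, Matrix.det_mul, h0, mul_zero] at h1
    exact hdet h1.symm
  have hcomm : y * x = x * y := by
    have h3 : Matrix.diagonal δ * Matrix.diagonal d = Matrix.diagonal d * Matrix.diagonal δ := by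
      rw [Matrix.diagonal_mul_diagonal, Matrix.diagonal_mul_diagonal]
      congr 1
      funext k
      exact mul_comm _ _
    rw [hy, hx]
    calc P * Matrix.diagonal δ * Q * (P * Matrix.diagonal d * Q) =
        P * (Matrix.diagonal δ * (Q * P) * Matrix.diagonal d) * Q := by noncomm_ring
      _ = P * (Matrix.diagonal d * (Q * P) * Matrix.diagonal δ) * Q := by
        rw [hQP, mul_one, mul_one, h3]
      _ = _ := by noncomm_ring
  have hzar := htor y hdety ⟨1, by rw [hiso, one_smul]⟩ hcomm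
  choose g hg using C3b_poly (ι := ι) P Q
  have h3 := hzar (∏ k, g k ^ (n k).toNat - ∏ k, g k ^ (-n k).toNat) (by
    rintro _ ⟨r, rfl⟩
    rw [map_sub, map_prod, map_prod, sub_eq_zero]
    simp only [map_pow, hg, hx, C3b_pow hPQ hQP]
    have h4 := (C3b_zpow hd0 n).1 hn
    have h5 : ∀ N : ι → ℕ, ∏ k, (d k ^ r) ^ N k = (∏ k, d k ^ N k) ^ r := by
      intro N
      rw [← Finset.prod_pow]
      exact Finset.prod_congr rfl fun k _ ↦ by rw [← pow_mul, ← pow_mul, mul_comm]
    rw [h5, h5, h4])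
  have h4 : ∀ k, (Q * y * P) k k = δ k := fun k ↦ by
    have h5 := C3b_pow (d := δ) hPQ hQP 1 k
    rw [pow_one, pow_one] at h5
    exact h5
  rw [map_sub, map_prod, map_prod, sub_eq_zero] at h3
  simp only [map_pow, hg, h4] at h3
  have h5 := (C3b_zpow hδ0 n).2 h3
  rw [Finset.prod_eq_mul i i' hne.symm (fun k _ hk ↦ by
      rw [hδ1 k hk.1 hk.2, _root_.one_zpow]) (fun h ↦ absurd (Finset.mem_univ _) h)
      (fun h ↦ absurd (Finset.mem_univ _) h), hδi, hδi', one_div, _root_.inv_zpow, ← _root_.zpow_neg,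
      ← zpow_add₀ h2] at h5
  have h6 : ((2 : ℚ) ^ (n i + -n i')) = 1 := by
    have h7 : (((2 : ℚ) ^ (n i + -n i') : ℚ) : K) = ((1 : ℚ) : K) := by
      push_cast
      exact h5
    exact_mod_cast h7
  have h8 : n i + -n i' = 0 := by
    have h9 : (2 : ℚ) ^ (n i + -n i') = 2 ^ (0 : ℤ) := by rw [h6, zpow_zero]
    exact zpow_right_injective₀ (by norm_num) (by norm_num) h9
  omega

/-- Chunk C3c. Write `x = (ρ σ).map = P diag d Q`, `htor` from `TorusCond` and `hsp`. As
`x.charpoly = ∏ (X - d k) = F.map` and the `d k` are distinct (`C3_distinct`), `F` over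
`AlgebraicClosure ℚ` has simple roots. Embed `f : AlgebraicClosure ℚ →ₐ[ℚ] K`; choose `i` and `α`
with `f α = d i`. If `α ^ n`, `n ≠ 0`, is in the subgroup generated by `q` and the roots other
than `α`, `q/α`, then (map by `f`) `d i ^ n = q ^ a ∏_{k ≠ i, i'} d k ^ (b k)`; with
`q = d i d i'` this is a relation `∏ d k ^ (n k) = 1` with `n i = n - a`, `n i' = - a`, so `n = 0`
by `C3_rel`. (For the closure: the set of `u` whose image is of the form
`q ^ a ∏_{k ≠ i, i'} d k ^ (b k)` is a subgroup containing the generators.) See `monodromy_weil` in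
H53Toric.Weil for the translation between `F` and `d`. -/
theorem C3_indep [IsAlgClosed K] {L : Type*} [Field L] [CharZero L] [Algebra L K] [Nonempty ι]
    {ψ : Matrix ι ι ℚ} (hψ : ψᵀ = -ψ) (hψ0 : ψ.det ≠ 0) {G : Type*} [Group G]
    (ρ : G →* Matrix.GeneralLinearGroup ι L) {σ : G} {q : ℚ}
    (hqσ : (ρ σ).1ᵀ * ψ.map (algebraMap ℚ L) * (ρ σ).1 =
      algebraMap ℚ L q • ψ.map (algebraMap ℚ L))
    {F : ℚ[X]} (hF : (ρ σ).1.charpoly = F.map (algebraMap ℚ L))
    (hss : Diagonalisable ((ρ σ).1.map (algebraMap L K)))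
    (hsp : simil K ψ ⊆ idc K ρ) (htor : TorusCond K ρ σ) :
    ∃ α : (AlgebraicClosure ℚ)ˣ, IndepRoot F q α := by
  classical
  obtain ⟨P, Q, d, hPQ, hQP, hσ⟩ := hss
  obtain ⟨hJ, hdet⟩ := gram_basic hψ hψ0 K
  set x := (ρ σ).1.map (algebraMap L K) with hx
  have hsim : xᵀ * ψ.map (algebraMap ℚ K) * x = algebraMap ℚ K q • ψ.map (algebraMap ℚ K) := by
    have := sim_map (K := K) hqσ
    rwa [show algebraMap L K (algebraMap ℚ L q) = algebraMap ℚ K q by simp] at this
  have hq0 : algebraMap ℚ K q ≠ 0 := by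
    intro h0
    rw [h0, zero_smul] at hsim
    have h3 := congrArg Matrix.det hsim
    rw [Matrix.det_mul, Matrix.det_mul, Matrix.det_transpose, Matrix.det_zero] at h3
    have hxdet : x.det ≠ 0 := by
      intro h4
      have h1 : x * (ρ σ⁻¹).1.map (algebraMap L K) = 1 := img_inv ρ σ
      have h5 := congrArg Matrix.det h1
      rw [Matrix.det_mul, h4, zero_mul, Matrix.det_one] at h5
      exact zero_ne_one h5
    exact (mul_ne_zero (mul_ne_zero hxdet hdet.ne_zero) hxdet) h3
  have htor' : ∀ y : Matrix ι ι K, y.det ≠ 0 →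
      (∃ c : K, yᵀ * ψ.map (algebraMap ℚ K) * y = c • ψ.map (algebraMap ℚ K)) → y * x = x * y →
      y ∈ zar {m | ∃ n : ℕ, m = x ^ n} := fun y h1 h2 h3 ↦ htor y (hsp ⟨h1, h2⟩) h3
  obtain ⟨hinj, hsq⟩ := C3_distinct hJ hdet.ne_zero hPQ hQP hσ hq0 hsim htor'
  obtain ⟨i⟩ : Nonempty ι := inferInstance
  obtain ⟨i', hne, hii', hrel⟩ := C3_rel hJ hdet.ne_zero hPQ hQP hσ hq0 hsim htor' i
  have hd0 : ∀ k, d k ≠ 0 := by
    intro k hk
    obtain ⟨l, -, hl, -⟩ := C3_rel hJ hdet.ne_zero hPQ hQP hσ hq0 hsim htor' k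
    rw [hk, zero_mul] at hl
    exact hq0 hl.symm
  -- the roots
  have hchar : F.map (algebraMap ℚ K) = ∏ k, (X - C (d k)) := by
    have h1 : x.charpoly = F.map (algebraMap ℚ K) := by
      rw [hx, Matrix.charpoly_map, hF, Polynomial.map_map]
      congr 1
      exact Subsingleton.elim _ _
    rw [← h1, hσ, Matrix.charpoly_mul_comm, ← mul_assoc, hQP, one_mul, Matrix.charpoly_diagonal]
  have halg : Algebra.IsAlgebraic ℚ (AlgebraicClosure ℚ) := by
    have e : (DivisionRing.toRatAlgebra : Algebra ℚ (AlgebraicClosure ℚ)) =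
      AlgebraicClosure.instAlgebra ℚ := Subsingleton.elim _ _
    rw [e]
    exact AlgebraicClosure.isAlgebraic ℚ
  let f : AlgebraicClosure ℚ →ₐ[ℚ] K := IsAlgClosed.lift
  have hfinj : Function.Injective f := f.toRingHom.injective
  have hmap : (F.map (algebraMap ℚ (AlgebraicClosure ℚ))).map f.toRingHom =
      F.map (algebraMap ℚ K) := by
    rw [Polynomial.map_map]
    congr 1
    exact Subsingleton.elim _ _
  have hroots : (F.map (algebraMap ℚ K)).roots = Finset.univ.val.map d := by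
    rw [hchar]
    have := Polynomial.roots_multiset_prod_X_sub_C (Finset.univ.val.map d)
    rw [Multiset.map_map] at this
    exact this
  have hpre : ∀ k, ∃ β : AlgebraicClosure ℚ, f β = d k := by
    intro k
    have hk : d k ∈ (F.map (algebraMap ℚ K)).roots := by
      rw [hroots]
      exact Multiset.mem_map_of_mem _ (Finset.mem_univ k)
    rw [← hmap, (IsAlgClosed.splits (F.map (algebraMap ℚ
      (AlgebraicClosure ℚ)))).roots_map] at hk
    obtain ⟨β, -, hβk⟩ := Multiset.mem_map.1 hk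
    exact ⟨β, hβk⟩
  obtain ⟨β, hβ⟩ := hpre i
  have hβ0 : β ≠ 0 := by
    rintro rfl
    rw [map_zero] at hβ
    exact hd0 i hβ.symm
  let α : (AlgebraicClosure ℚ)ˣ := Units.mk0 β hβ0
  have hα : f (α : AlgebraicClosure ℚ) = d i := hβ
  refine ⟨α, ?_, fun n hn hmem ↦ ?_⟩
  · have h1 : (F.map (algebraMap ℚ K)).rootMultiplicity (f α) = 1 := by
      rw [← Polynomial.count_roots, hroots, Multiset.count_map, hα]
      have h2 : Finset.univ.filter (fun k ↦ d i = d k) = {i} := by
        ext k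
        simp only [Finset.mem_filter, Finset.mem_univ, true_and, Finset.mem_singleton]
        exact ⟨fun h ↦ (hinj h).symm, fun h ↦ by rw [h]⟩
      have h3 := congrArg Finset.card h2
      rw [Finset.card_singleton, Finset.card_def, Finset.filter_val] at h3
      exact h3
    rw [← h1, ← hmap]
    exact Polynomial.eq_rootMultiplicity_map (f := f.toRingHom) hfinj
      (α : AlgebraicClosure ℚ)
  · have key : ∀ u ∈ Subgroup.closure {u : (AlgebraicClosure ℚ)ˣ |
        (u : AlgebraicClosure ℚ) = algebraMap ℚ (AlgebraicClosure ℚ) q ∨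
        (aeval (u : AlgebraicClosure ℚ) F = 0 ∧ u ≠ α ∧
          (u : AlgebraicClosure ℚ) * α ≠ algebraMap ℚ (AlgebraicClosure ℚ) q)},
        ∃ (a : ℤ) (b : ι → ℤ), b i = 0 ∧ b i' = 0 ∧
          f (u : AlgebraicClosure ℚ) = algebraMap ℚ K q ^ a * ∏ k, d k ^ b k := by
      intro u hu
      induction hu using Subgroup.closure_induction with
      | mem u hu =>
        rcases hu with hu | ⟨h1, h2, h3⟩
        · refine ⟨1, fun _ ↦ 0, rfl, rfl, ?_⟩
          rw [hu, AlgHom.commutes]
          simp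
        · have h4 : f (u : AlgebraicClosure ℚ) ∈ (F.map (algebraMap ℚ K)).roots := by
            rw [Polynomial.mem_roots', Polynomial.IsRoot, Polynomial.eval_map]
            refine ⟨fun h0 ↦ ?_, ?_⟩
            · rw [hchar] at h0
              exact Finset.prod_ne_zero_iff.2 (fun k _ ↦ X_sub_C_ne_zero (d k)) h0
            · have h5 := congrArg f h1
              rw [map_zero, aeval_def] at h5
              change f.toRingHom (eval₂ (algebraMap ℚ (AlgebraicClosure ℚ))
                (u : AlgebraicClosure ℚ) F) = 0 at h5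
              rw [Polynomial.hom_eval₂] at h5
              rw [← h5]
              congr 1
              exact Subsingleton.elim _ _
          rw [hroots] at h4
          obtain ⟨k, -, hk⟩ := Multiset.mem_map.1 h4
          have hki : k ≠ i := by
            rintro rfl
            apply h2
            apply Units.ext
            apply hfinj
            rw [← hk, hα]
          have hki' : k ≠ i' := by
            rintro rfl
            apply h3
            apply hfinj
            rw [map_mul, AlgHom.commutes, ← hk, hα, mul_comm, hii']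
          refine ⟨0, Pi.single k 1, by simp [hki.symm], by simp [hki'.symm], ?_⟩
          rw [_root_.zpow_zero, one_mul, Finset.prod_eq_single k]
          · rw [Pi.single_eq_same, zpow_one, hk]
          · intro l _ hl
            rw [Pi.single_eq_of_ne hl, _root_.zpow_zero]
          · intro h
            exact absurd (Finset.mem_univ _) h
      | one =>
        refine ⟨0, fun _ ↦ 0, rfl, rfl, ?_⟩
        simp
      | mul u v _ _ hu hv =>
        obtain ⟨a, b, h1, h2, h3⟩ := hu
        obtain ⟨a', b', h1', h2', h3'⟩ := hv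
        refine ⟨a + a', b + b', by simp [h1, h1'], by simp [h2, h2'], ?_⟩
        rw [Units.val_mul, map_mul, h3, h3', zpow_add₀ hq0]
        have h4 : ∏ k, d k ^ (b + b') k = (∏ k, d k ^ b k) * ∏ k, d k ^ b' k := by
          rw [← Finset.prod_mul_distrib]
          exact Finset.prod_congr rfl fun k _ ↦ by rw [Pi.add_apply, zpow_add₀ (hd0 k)]
        rw [h4]
        ring
      | inv u _ hu =>
        obtain ⟨a, b, h1, h2, h3⟩ := hu
        refine ⟨-a, -b, by simp [h1], by simp [h2], ?_⟩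
        have h4 : ∏ k, d k ^ (-b) k = (∏ k, d k ^ b k)⁻¹ := by
          rw [← Finset.prod_inv_distrib]
          exact Finset.prod_congr rfl fun k _ ↦ by rw [Pi.neg_apply, _root_.zpow_neg]
        rw [Units.val_inv_eq_inv_val, map_inv₀, h3, h4, mul_inv, _root_.zpow_neg]
    obtain ⟨a, b, h1, h2, h3⟩ := key _ hmem
    have h4 : d i ^ n = (d i * d i') ^ a * ∏ k, d k ^ b k := by
      rw [hii', ← h3, Units.val_zpow_eq_zpow_val, map_zpow₀, hα]
    let m : ι → ℤ := fun k ↦ (if k = i then n - a else if k = i' then -a else 0) - b k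
    have h5 : ∏ k, d k ^ (m k) = 1 := by
      have h6 : ∏ k, d k ^ (m k) =
          (∏ k, d k ^ (if k = i then n - a else if k = i' then -a else 0)) /
            ∏ k, d k ^ b k := by
        rw [← Finset.prod_div_distrib]
        exact Finset.prod_congr rfl fun k _ ↦ by rw [← zpow_sub₀ (hd0 k)]
      rw [h6, Finset.prod_eq_mul i i' hne.symm, if_pos rfl, if_neg hne, if_pos rfl]
      · have h7 : ∏ k, d k ^ b k ≠ 0 :=
          Finset.prod_ne_zero_iff.2 fun k _ ↦ zpow_ne_zero _ (hd0 k)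
        rw [div_eq_one_iff_eq h7, zpow_sub₀ (hd0 i), h4, mul_zpow, _root_.zpow_neg]
        have h8 := zpow_ne_zero a (hd0 i)
        have h9 := zpow_ne_zero a (hd0 i')
        field_simp
      · intro k _ hk
        rw [if_neg hk.1, if_neg hk.2, _root_.zpow_zero]
      · exact fun h ↦ absurd (Finset.mem_univ _) h
      · exact fun h ↦ absurd (Finset.mem_univ _) h
    have h6 := hrel m h5
    have h7 : m i = n - a := by
      change (if i = i then n - a else if i = i' then -a else 0) - b i = n - a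
      rw [if_pos rfl, h1, sub_zero]
    have h8 : m i' = -a := by
      change (if i' = i then n - a else if i' = i' then -a else 0) - b i' = -a
      rw [if_neg hne, if_pos rfl, h2, sub_zero]
    rw [h7, h8] at h6
    apply hn
    omega

end Pool.Agent.H49M
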