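import Pool.Agent.Lib.H53Toric.Core10

/-!
# Project H49M, part A: simple Lie algebras containing an involution (definitions)
-/

set_option autoImplicit false
set_option linter.unusedSectionVars false
namespace Pool.Agent.H49M
open Module Pool.Agent.H53Toric

variable {K : Type*} [Field K] {V : Type*} [AddCommGroup V] [Module K V]

/-- The standing assumptions: `L` is an irreducible simple Lie algebra of operators, skew for the
nondegenerate alternating form `ω`, and `adj` is the adjoint with respect to `ω`. -/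
structure Core (L : Submodule K (Module.End K V)) (ω : V →ₗ[K] V →ₗ[K] K)
    (adj : Module.End K V →ₗ[K] Module.End K V) : Prop where
  lie : IsLie L
  irr : Irr L
  simple : ∀ I : Submodule K (Module.End K V), I ≤ L →
    (∀ X ∈ L, ∀ Y ∈ I, X * Y - Y * X ∈ I) → I = ⊥ ∨ I = L
  alt : ∀ v, ω v v = 0
  nd : ∀ v, (∀ w, ω v w = 0) → v = 0
  spec : ∀ X v w, ω (X v) w = ω v (adj X w)
  skew : ∀ X ∈ L, adj X = -X

/-- The part of weight `1` with respect to an involution `s`. -/
def Lp (L : Submodule K (Module.End K V)) (s : Module.End K V) :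
    Submodule K (Module.End K V) where
  carrier := {X | X ∈ L ∧ s * X = X ∧ X * s = -X}
  add_mem' := by
    rintro a b ⟨h1, h2, h3⟩ ⟨h4, h5, h6⟩
    exact ⟨L.add_mem h1 h4, by rw [mul_add, h2, h5], by rw [add_mul, h3, h6]; abel⟩
  zero_mem' := by simp
  smul_mem' := by
    rintro c a ⟨h1, h2, h3⟩
    exact ⟨L.smul_mem c h1, by rw [mul_smul_comm, h2], by rw [smul_mul_assoc, h3, smul_neg]⟩

/-- The part of weight `-1` with respect to an involution `s`. -/
def Lm (L : Submodule K (Module.End K V)) (s : Module.End K V) :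
    Submodule K (Module.End K V) where
  carrier := {X | X ∈ L ∧ s * X = -X ∧ X * s = X}
  add_mem' := by
    rintro a b ⟨h1, h2, h3⟩ ⟨h4, h5, h6⟩
    exact ⟨L.add_mem h1 h4, by rw [mul_add, h2, h5]; abel, by rw [add_mul, h3, h6]⟩
  zero_mem' := by simp
  smul_mem' := by
    rintro c a ⟨h1, h2, h3⟩
    exact ⟨L.smul_mem c h1, by rw [mul_smul_comm, h2, smul_neg], by rw [smul_mul_assoc, h3]⟩

/-- The part of weight `0` with respect to an involution `s`. -/
def L0 (L : Submodule K (Module.End K V)) (s : Module.End K V) :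
    Submodule K (Module.End K V) where
  carrier := {X | X ∈ L ∧ s * X = X * s}
  add_mem' := by
    rintro a b ⟨h1, h2⟩ ⟨h4, h5⟩
    exact ⟨L.add_mem h1 h4, by rw [mul_add, add_mul, h2, h5]⟩
  zero_mem' := by simp
  smul_mem' := by
    rintro c a ⟨h1, h2⟩
    exact ⟨L.smul_mem c h1, by rw [mul_smul_comm, smul_mul_assoc, h2]⟩

/-- A frame: an involution `s` of `L` and an extremal pair `e`, `f` of weights `1` and `-1`. -/
structure Frame (L : Submodule K (Module.End K V)) (s e f : Module.End K V) : Prop where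
  s_mem : s ∈ L
  s_sq : s * s = 1
  e_mem : e ∈ Lp L s
  f_mem : f ∈ Lm L s
  e_ne : e ≠ 0
  efe : e * f * e = e
  fef : f * e * f = f
  ext : ∀ X ∈ L, ∃ c : K, e * X * e = c • e

/-- The Peirce one space of weight one: `u = p u + u q`, where `p = e f` and `q = f e`. -/
def J1 (L : Submodule K (Module.End K V)) (s e f : Module.End K V) :
    Submodule K (Module.End K V) where
  carrier := {u | u ∈ Lp L s ∧ e * f * u + u * (f * e) = u}
  add_mem' := by
    rintro a b ⟨h1, h2⟩ ⟨h4, h5⟩
    refine ⟨(Lp L s).add_mem h1 h4, ?_⟩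
    calc e * f * (a + b) + (a + b) * (f * e) = (e * f * a + a * (f * e)) +
          (e * f * b + b * (f * e)) := by noncomm_ring
      _ = a + b := by rw [h2, h5]
  zero_mem' := by simp
  smul_mem' := by
    rintro c a ⟨h1, h2⟩
    refine ⟨(Lp L s).smul_mem c h1, ?_⟩
    rw [mul_smul_comm, smul_mul_assoc, ← smul_add, h2]

/-- A Kemmer system. -/
structure Kemmer (s : Module.End K V) {n : ℕ} (x y : Fin n → Module.End K V) : Prop where
  s_sq : s * s = 1
  sx : ∀ i, s * x i = x i
  xs : ∀ i, x i * s = -x i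
  sy : ∀ i, s * y i = -y i
  ys : ∀ i, y i * s = y i
  r1 : ∀ i j k, x i * y j * x k + x k * y j * x i =
    (if i = j then x k else 0) + (if k = j then x i else 0)
  r2 : ∀ i j k, y i * x j * y k + y k * x j * y i =
    (if i = j then y k else 0) + (if k = j then y i else 0)
  irr : ∀ W : Submodule K V, (∀ i, ∀ w ∈ W, x i w ∈ W) → (∀ i, ∀ w ∈ W, y i w ∈ W) →
    (∀ w ∈ W, s w ∈ W) → W = ⊥ ∨ W = ⊤

/-- Two orthogonal connected frames for the same involution. -/
structure Grid (L : Submodule K (Module.End K V)) (s e f e' f' u : Module.End K V) : Prop where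
  F : Frame L s e f
  F' : Frame L s e' f'
  o1 : e * f' = 0
  o2 : f' * e = 0
  o3 : e' * f = 0
  o4 : f * e' = 0
  u_mem : u ∈ Lp L s
  ufu : u * f * u = e'
  ufu' : u * f' * u = e
  u1 : e * f * u + u * (f * e) = u
  u2 : e' * f' * u + u * (f' * e') = u

/-- The idempotents of `V₊`. -/
noncomputable def pp (s e f e' f' : Module.End K V) : Fin 3 → Module.End K V :=
  ![(1 / 2 : K) • (1 + s) - e * f - e' * f', e * f, e' * f']

/-- The idempotents of `V₋`. -/
noncomputable def qq (s e f e' f' : Module.End K V) : Fin 3 → Module.End K V :=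
  ![(1 / 2 : K) • (1 - s) - f * e - f' * e', f * e, f' * e']

/-- A system of idempotents compatible with `L`. -/
structure Blocks (L : Submodule K (Module.End K V))
    (adj : Module.End K V →ₗ[K] Module.End K V) (p q : Fin 3 → Module.End K V) : Prop where
  pp : ∀ i j, p i * p j = if i = j then p i else 0
  qq : ∀ i j, q i * q j = if i = j then q i else 0
  pq : ∀ i j, p i * q j = 0
  qp : ∀ i j, q i * p j = 0
  sum : p 0 + p 1 + p 2 + (q 0 + q 1 + q 2) = 1
  adjp : ∀ i, adj (p i) = q i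
  adjq : ∀ i, adj (q i) = p i
  mem : ∀ i, p i - q i ∈ L
  m0 : ∀ X ∈ L, ∀ i j, i ≠ j → p i * X * p j + q j * X * q i ∈ L
  mp : ∀ X ∈ L, ∀ i j, i ≠ j → p i * X * q j + p j * X * q i ∈ L
  mm : ∀ X ∈ L, ∀ i j, i ≠ j → q i * X * p j + q j * X * p i ∈ L
  mpp : ∀ X ∈ L, ∀ i, p i * X * q i ∈ L
  mmm : ∀ X ∈ L, ∀ i, q i * X * p i ∈ L
  md : ∀ X ∈ L, p 0 * X * p 0 + p 1 * X * p 1 + p 2 * X * p 2 +
    (q 0 * X * q 0 + q 1 * X * q 1 + q 2 * X * q 2) ∈ L

/-- The space of all `a X b`, `X ∈ L`. -/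
def LL (L : Submodule K (Module.End K V)) (a b : Module.End K V) :
    Submodule K (Module.End K V) where
  carrier := {T | ∃ X ∈ L, T = a * X * b}
  add_mem' := by
    rintro S T ⟨X, hX, rfl⟩ ⟨Y, hY, rfl⟩
    exact ⟨X + Y, L.add_mem hX hY, by noncomm_ring⟩
  zero_mem' := ⟨0, L.zero_mem, by simp⟩
  smul_mem' := by
    rintro c T ⟨X, hX, rfl⟩
    exact ⟨c • X, L.smul_mem c hX, by rw [mul_smul_comm, smul_mul_assoc]⟩

theorem mem_Lp {L : Submodule K (Module.End K V)} {s X : Module.End K V} :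
    X ∈ Lp L s ↔ X ∈ L ∧ s * X = X ∧ X * s = -X := Iff.rfl

theorem mem_Lm {L : Submodule K (Module.End K V)} {s X : Module.End K V} :
    X ∈ Lm L s ↔ X ∈ L ∧ s * X = -X ∧ X * s = X := Iff.rfl

theorem mem_L0 {L : Submodule K (Module.End K V)} {s X : Module.End K V} :
    X ∈ L0 L s ↔ X ∈ L ∧ s * X = X * s := Iff.rfl

theorem mem_J1 {L : Submodule K (Module.End K V)} {s e f u : Module.End K V} :
    u ∈ J1 L s e f ↔ u ∈ Lp L s ∧ e * f * u + u * (f * e) = u := Iff.rfl

theorem mem_LL {L : Submodule K (Module.End K V)} {a b T : Module.End K V} :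
    T ∈ LL L a b ↔ ∃ X ∈ L, T = a * X * b := Iff.rfl

end Pool.Agent.H49M
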