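import Pool.Agent.Lib.H49M.B4
import Pool.Agent.Lib.H49M.B7
import Pool.Agent.Lib.H49M.B8
import Pool.Agent.Lib.H49M.C1
import Pool.Agent.Lib.H49M.C2
import Pool.Agent.Lib.H49M.C3

/-!
# Assembly
-/

set_option autoImplicit false
set_option linter.unusedSectionVars false
namespace Pool.Agent.H49M
open Module Matrix Polynomial Pool.Agent.H53Toric

variable {ι : Type*} [Fintype ι] [DecidableEq ι]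

theorem trivCent_of {g : Submodule ℚ (Matrix ι ι ℚ)} (hg : QForm g) (hι : 2 ≤ Fintype.card ι)
    {G : Type*} [Group G] (ρ : ∀ (l : ℕ) [Fact l.Prime], G →* Matrix.GeneralLinearGroup ι ℚ_[l])
    (Λ₁ : Set ℕ)
    (cheb : ∀ f : ℚ[X], Irreducible f → 2 ≤ f.natDegree →
      (∃ m : ℕ, Fintype.card ι = m ^ f.natDegree) →
      ∃ (l : ℕ) (_ : Fact l.Prime), l ∈ Λ₁ ∧ ∀ x : ℚ_[l], aeval x f ≠ 0)
    (form : ∀ (l : ℕ) [Fact l.Prime], l ∈ Λ₁ → HasForm (AlgebraicClosure ℚ_[l]) (ρ l) g)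
    (point : ∀ (l : ℕ) [Fact l.Prime], l ∈ Λ₁ → HasPoint (AlgebraicClosure ℚ_[l]) (ρ l)) :
    TrivCent g := by
  intro T hT
  by_contra hns
  obtain ⟨f, hf, hd, hfT⟩ := B4_poly hg hι hT hns
  obtain ⟨l, hl, hlΛ, hroot⟩ := cheb f hf hd (B8_power hg hι hT hf hfT)
  obtain ⟨x, hx⟩ := B7_root (K := AlgebraicClosure ℚ_[l]) hg hι hT hf hfT (form l hlΛ)
    (point l hlΛ)
  exact hroot x hx

theorem final {ψ : Matrix ι ι ℚ} (hψ : ψᵀ = -ψ) (hψ0 : ψ.det ≠ 0)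
    (hι : 2 ≤ Fintype.card ι) {G : Type*} [Group G]
    (ρ : ∀ (l : ℕ) [Fact l.Prime], G →* Matrix.GeneralLinearGroup ι ℚ_[l]) (Λ Λ₁ : Set ℕ)
    (hΛ : Λ₁ ⊆ Λ)
    (sim : ∀ (l : ℕ) [Fact l.Prime], l ∈ Λ → ∀ σ : G, ∃ c : ℚ_[l],
      (ρ l σ).1ᵀ * ψ.map (algebraMap ℚ ℚ_[l]) * (ρ l σ).1 = c • ψ.map (algebraMap ℚ ℚ_[l]))
    (irr : ∀ (l : ℕ) [Fact l.Prime], l ∈ Λ → ∀ H : Subgroup G, H.FiniteIndex →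
      ∀ W : Submodule (AlgebraicClosure ℚ_[l]) (ι → AlgebraicClosure ℚ_[l]),
        (∀ s ∈ img (AlgebraicClosure ℚ_[l]) (ρ l) H, ∀ w ∈ W, s *ᵥ w ∈ W) → W = ⊥ ∨ W = ⊤)
    (σ : G) (q : ℚ) (hq : ∀ n : ℕ, n ≠ 0 → q ^ n ≠ 1) (F : ℚ[X])
    (mult : ∀ (l : ℕ) [Fact l.Prime], l ∈ Λ →
      (ρ l σ).1ᵀ * ψ.map (algebraMap ℚ ℚ_[l]) * (ρ l σ).1 =
        algebraMap ℚ ℚ_[l] q • ψ.map (algebraMap ℚ ℚ_[l]))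
    (char : ∀ (l : ℕ) [Fact l.Prime], l ∈ Λ →
      (ρ l σ).1.charpoly = F.map (algebraMap ℚ ℚ_[l]))
    (diag : ∀ (l : ℕ) [Fact l.Prime], l ∈ Λ →
      Diagonalisable ((ρ l σ).1.map (algebraMap ℚ_[l] (AlgebraicClosure ℚ_[l]))))
    (torus : ∀ (l : ℕ) [Fact l.Prime], l ∈ Λ₁ → TorusCond (AlgebraicClosure ℚ_[l]) (ρ l) σ)
    (g : Submodule ℚ (Matrix ι ι ℚ)) (hg : QForm g)
    (form : ∀ (l : ℕ) [Fact l.Prime], l ∈ Λ₁ → HasForm (AlgebraicClosure ℚ_[l]) (ρ l) g)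
    (hodge : ∀ (l : ℕ) [Fact l.Prime], l ∈ Λ₁ →
      ∃ h ∈ hodgeProj (img (AlgebraicClosure ℚ_[l]) (ρ l) ⊤), h ≠ 0 ∧ h ≠ 1)
    (point : ∀ (l : ℕ) [Fact l.Prime], l ∈ Λ₁ → HasPoint (AlgebraicClosure ℚ_[l]) (ρ l))
    (cheb : ∀ f : ℚ[X], Irreducible f → 2 ≤ f.natDegree →
      (∃ m : ℕ, Fintype.card ι = m ^ f.natDegree) →
      ∃ (l : ℕ) (_ : Fact l.Prime), l ∈ Λ₁ ∧ ∀ x : ℚ_[l], aeval x f ≠ 0)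
    (num : ∃ (l : ℕ) (_ : Fact l.Prime), l ∈ Λ₁ ∧
      ((∃ N ∈ zlie (img (AlgebraicClosure ℚ_[l]) (ρ l) ⊤), N * N = 0 ∧ N ≠ 0 ∧
        4 * N.rank < Fintype.card ι) ∨
      ((∀ m : ℕ, 4 ≤ m → Fintype.card ι ≠ 2 ^ m) ∧
        (∀ k : ℕ, 2 ≤ k → Fintype.card ι ≠ k.centralBinom)))) :
    ∀ (l : ℕ) [Fact l.Prime], l ∈ Λ → ∀ H : Subgroup G, H.FiniteIndex →
      monodromy (AlgebraicClosure ℚ_[l]) (ρ l) H = simil (AlgebraicClosure ℚ_[l]) ψ := by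
  have hc := trivCent_of hg hι ρ Λ₁ cheb form point
  have hne : Nonempty ι := Fintype.card_pos_iff.1 (by omega)
  obtain ⟨l₀, hl₀, hl₀Λ, hnum⟩ := num
  obtain ⟨h, hh, h0, h1⟩ := hodge l₀ hl₀Λ
  have hfull := fun {X : Matrix ι ι (AlgebraicClosure ℚ_[l₀])} hX =>
    C1_full (X := X) hψ hψ0 (ρ l₀) (sim l₀ (hΛ hl₀Λ)) hg hc (form l₀ hl₀Λ) hh h0 h1 hnum hX
  have hsp := C2_mem hψ hψ0 (ρ l₀) (sim l₀ (hΛ hl₀Λ)) hh h0 h1 fun X hX => hfull hX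
  obtain ⟨α, hα⟩ := C3_indep hψ hψ0 (ρ l₀) (mult l₀ (hΛ hl₀Λ)) (char l₀ (hΛ hl₀Λ))
    (diag l₀ (hΛ hl₀Λ)) hsp (torus l₀ hl₀Λ)
  intro l _ hl H hH
  exact monodromy_weil hψ hψ0 (ρ l) (sim l hl) (irr l hl) hq (mult l hl) (char l hl)
    (diag l hl) hα H hH

end Pool.Agent.H49M
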