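import Pool.Agent.Lib.H49M.A3
import Pool.Agent.Lib.H49M.K0

/-!
# K1: rank one Jordan pairs, first step
-/

set_option autoImplicit false
set_option linter.unusedSectionVars false
namespace Pool.Agent.H49M
open Module Pool.Agent.H53Toric

variable {K : Type*} [Field K] {V : Type*} [AddCommGroup V] [Module K V]

variable {L : Submodule K (Module.End K V)} {ω : V →ₗ[K] V →ₗ[K] K}
  {adj : Module.End K V →ₗ[K] Module.End K V}

/-- The Peirce one component. -/
theorem K1_comp [CharZero K] (hl : IsLie L) {s e f : Module.End K V} (F : Frame L s e f)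
    {W : Module.End K V} (hW : W ∈ Lp L s) :
    e * f * W + W * (f * e) - (2 : K) • (e * f * W * (f * e)) ∈ J1 L s e f := by
  have eW : e * W = 0 := A2_pp F.e_mem hW
  have We : W * e = 0 := A2_pp hW F.e_mem
  obtain ⟨c, hc⟩ := K0_ext hl F hW.1
  have h1 : e * f * W + W * (f * e) ∈ L := by
    have h2 := hl _ (K0_H hl F) W hW.1
    have e1 : (e * f - f * e) * W - W * (e * f - f * e) =
        e * f * W - f * (e * W) - (W * e) * f + W * (f * e) := by noncomm_ring
    rw [e1, eW, We, mul_zero, zero_mul, sub_zero, sub_zero] at h2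
    exact h2
  have hL : e * f * W + W * (f * e) - (2 : K) • (e * f * W * (f * e)) ∈ L := by
    refine L.sub_mem h1 (L.smul_mem _ ?_)
    rw [hc]
    exact L.smul_mem _ F.e_mem.1
  have s1 : s * (e * f * W) = e * f * W := by
    rw [← mul_assoc, ← mul_assoc, F.e_mem.2.1]
  have s2 : s * (W * (f * e)) = W * (f * e) := by
    rw [← mul_assoc, hW.2.1]
  have s3 : s * (e * f * W * (f * e)) = e * f * W * (f * e) := by
    rw [← mul_assoc, s1]
  have r1 : e * f * W * s = -(e * f * W) := by
    rw [mul_assoc, hW.2.2, mul_neg]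
  have r2 : W * (f * e) * s = -(W * (f * e)) := by
    rw [mul_assoc, mul_assoc, F.e_mem.2.2, mul_neg, mul_neg]
  have r3 : e * f * W * (f * e) * s = -(e * f * W * (f * e)) := by
    calc e * f * W * (f * e) * s = e * f * W * (f * (e * s)) := by noncomm_ring
      _ = _ := by rw [F.e_mem.2.2]; noncomm_ring
  refine ⟨⟨hL, ?_, ?_⟩, ?_⟩
  · rw [mul_sub, mul_add, mul_smul_comm, s1, s2, s3]
  · rw [sub_mul, add_mul, smul_mul_assoc, r1, r2, r3]
    module
  · have pp : (e * f) * (e * f * W) = e * f * W := by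
      calc (e * f) * (e * f * W) = (e * f * e) * (f * W) := by noncomm_ring
        _ = e * f * W := by rw [F.efe, mul_assoc]
    have qq : (W * (f * e)) * (f * e) = W * (f * e) := by
      calc (W * (f * e)) * (f * e) = W * (f * (e * f * e)) := by noncomm_ring
        _ = W * (f * e) := by rw [F.efe]
    have p3 : (e * f) * (e * f * W * (f * e)) = e * f * W * (f * e) := by
      rw [← mul_assoc, pp]
    have q3 : (e * f * W * (f * e)) * (f * e) = e * f * W * (f * e) := by
      calc (e * f * W * (f * e)) * (f * e) = e * f * ((W * (f * e)) * (f * e)) := by noncomm_ring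
        _ = _ := by rw [qq]; noncomm_ring
    have q1 : (e * f * W) * (f * e) = e * f * W * (f * e) := rfl
    have p2 : (e * f) * (W * (f * e)) = e * f * W * (f * e) := by rw [← mul_assoc]
    rw [mul_sub, mul_add, sub_mul, add_mul, mul_smul_comm, smul_mul_assoc, pp, p2, p3, qq, q3]
    module

/-- Chunk K1. Notation: `p = e f`, `q = f e` (idempotents: `e f e = e`, `f e f = f`),
`P = (1 + s)/2`, `Q = (1 - s)/2`, `p' = P - p`, `q' = Q - q`, `[X, Y] = X Y - Y X`,
`H = p - q = [e, f] ∈ L`. Facts: `e = p e = e q`, `f = q f = f p`, `p' e = 0`, `e q' = 0`,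
`f p' = 0`, `q' f = 0`, `e p = 0`, `q e = 0`...; elements of `Lp` are `X = P X Q`, of `L0` are
`P Z P + Q Z Q`; `Lp Lp = 0` (`A2_pp`); `u ∈ J1` means `u = p u q' + p' u q`.
(1) For `Z ∈ L0` put `Z₁ = (1/2)([H,[H,Z]] + [H,Z]) = p Z p' + q' Z q`,
`Z₂ = (1/2)([H,[H,Z]] - [H,Z]) = p' Z p + q Z q'` and `Z₀ = Z - [H,[H,Z]]` (block diagonal); all
are in `L`, and `Z = Z₀ + Z₁ + Z₂`.
(2) The space `X₀ = K e + J1` is stable under `L0`: by extremality `p X q ∈ K e` for `X ∈ L`
(`K0_ext`). `[Z₁, e] = 0`; `[Z₀, e] = p [Z₀, e] q ∈ K e`; `u' := [Z₂, e] = p' Z p e - e q Z q' ∈ J1`.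
For `A ∈ J1`: `[Z₀, A] ∈ J1`, `[Z₁, A] = p [Z₁, A] q ∈ K e`, and `[Z₂, A] = 0`: indeed
`Z₂ = u' f - f u' ` (as `u' f = p' Z p`, `f u' = - q Z q'`), so
`[Z₂, A] = u' f A - f u' A - A u' f + A f u' = u' f A + A f u' = 0` by polarising the hypothesis
(`u' + A, u', A ∈ J1`; `u' A = A u' = 0` by `A2_pp`).
(3) `X₀ ≠ 0` contains `e`, so `X₀ = Lp L s` by `A3_irr`.
(4) For `x = t e + u`, `u ∈ J1`: `p x q = t e` and
`x f x = t² e + t (e f u + u f e) + u f u = t² e + t u = t x`; and `t = c`. -/
theorem K1_quad [CharZero K] [IsAlgClosed K] [FiniteDimensional K V] [Nontrivial V]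
    (h : Core L ω adj) {s e f : Module.End K V} (F : Frame L s e f)
    (ha : ∀ u ∈ J1 L s e f, u * f * u = 0) {x : Module.End K V} (hx : x ∈ Lp L s) {c : K}
    (hc : e * f * x * (f * e) = c • e) : x * f * x = c • x := by
  have eK : ∀ W ∈ Lp L s, e * W = 0 := fun W hW => A2_pp F.e_mem hW
  have Ke : ∀ W ∈ Lp L s, W * e = 0 := fun W hW => A2_pp hW F.e_mem
  have hpol : ∀ u ∈ J1 L s e f, ∀ u' ∈ J1 L s e f, u' * f * u + u * f * u' = 0 := by
    intro u hu u' hu'
    have h1 := ha _ ((J1 L s e f).add_mem hu hu')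
    have e1 : (u + u') * f * (u + u') = u * f * u + u' * f * u' + (u' * f * u + u * f * u') := by
      noncomm_ring
    rwa [e1, ha u hu, ha u' hu', zero_add, zero_add] at h1
  have pe : (1 - e * f) * e = 0 := by rw [sub_mul, one_mul, F.efe, sub_self]
  have eq : e * (1 - f * e) = 0 := by rw [mul_sub, mul_one, ← mul_assoc, F.efe, sub_self]
  let X₀ : Submodule K (Module.End K V) :=
    { carrier := {x | x ∈ Lp L s ∧ (1 - e * f) * x * (1 - f * e) = 0}
      add_mem' := by
        rintro a b ⟨h1, h2⟩ ⟨h3, h4⟩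
        refine ⟨(Lp L s).add_mem h1 h3, ?_⟩
        rw [mul_add, add_mul, h2, h4, add_zero]
      zero_mem' := ⟨(Lp L s).zero_mem, by simp⟩
      smul_mem' := by
        rintro c a ⟨h1, h2⟩
        refine ⟨(Lp L s).smul_mem c h1, ?_⟩
        rw [mul_smul_comm, smul_mul_assoc, h2, smul_zero] }
  have hsplit : ∀ x ∈ X₀, ∀ c : K, e * f * x * (f * e) = c • e → x - c • e ∈ J1 L s e f := by
    intro x hx c hc
    have h1 := K1_comp h.lie F hx.1
    have h2 := hx.2
    have e1 : (1 - e * f) * x * (1 - f * e) =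
        x - (e * f * x + x * (f * e) - e * f * x * (f * e)) := by noncomm_ring
    rw [e1, hc, sub_eq_zero] at h2
    rw [hc] at h1
    have e2 : x - c • e = e * f * x + x * (f * e) - (2 : K) • c • e := by
      nth_rw 1 [h2]
      module
    rw [e2]
    exact h1
  have hst : ∀ Z ∈ L0 L s, ∀ X ∈ X₀, Z * X - X * Z ∈ X₀ := by
    intro Z hZ x hx
    refine ⟨A3_0p h hZ hx.1, ?_⟩
    obtain ⟨c, hc⟩ := K0_ext h.lie F hx.1.1
    have hu := hsplit x hx c hc
    set u := x - c • e with hud
    have hW := A3_0p h hZ F.e_mem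
    obtain ⟨W, hWd⟩ : ∃ W, W = Z * e - e * Z := ⟨_, rfl⟩
    rw [← hWd] at hW
    have hu' := K1_comp h.lie F hW
    obtain ⟨u', hu'd⟩ : ∃ u', u' = e * f * W + W * (f * e) - (2 : K) • (e * f * W * (f * e)) :=
      ⟨_, rfl⟩
    rw [← hu'd] at hu'
    have k1 : u' * f = (1 - e * f) * Z * (e * f) := by
      have e1 : e * f * W * (f * e) * f = e * f * W * f := by
        calc e * f * W * (f * e) * f = e * f * W * (f * e * f) := by noncomm_ring
          _ = _ := by rw [F.fef]
      have e2 : W * (f * e) * f = W * f := by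
        calc W * (f * e) * f = W * (f * e * f) := by noncomm_ring
          _ = _ := by rw [F.fef]
      have e3 : u' * f = (1 - e * f) * W * f := by
        have e4 : (1 - e * f) * W * f = W * f - e * f * W * f := by noncomm_ring
        rw [hu'd, sub_mul, add_mul, smul_mul_assoc, e1, e2, e4]
        module
      rw [e3, hWd]
      calc (1 - e * f) * (Z * e - e * Z) * f =
          (1 - e * f) * Z * (e * f) - ((1 - e * f) * e) * Z * f := by noncomm_ring
        _ = _ := by rw [pe, zero_mul, zero_mul, sub_zero]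
    have k2 : f * u' = -((f * e) * Z * (1 - f * e)) := by
      have e1 : f * (e * f * W * (f * e)) = f * W * (f * e) := by
        calc f * (e * f * W * (f * e)) = (f * e * f) * W * (f * e) := by noncomm_ring
          _ = _ := by rw [F.fef]
      have e2 : f * (e * f * W) = f * W := by
        calc f * (e * f * W) = (f * e * f) * W := by noncomm_ring
          _ = _ := by rw [F.fef]
      have e3 : f * u' = f * W * (1 - f * e) := by
        have e4 : f * W * (1 - f * e) = f * W - f * W * (f * e) := by noncomm_ring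
        rw [hu'd, mul_sub, mul_add, mul_smul_comm, e1, e2, e4, ← mul_assoc]
        module
      rw [e3, hWd]
      calc f * (Z * e - e * Z) * (1 - f * e) =
          f * Z * (e * (1 - f * e)) - (f * e) * Z * (1 - f * e) := by noncomm_ring
        _ = _ := by rw [eq, mul_zero, zero_sub]
    have k3 : (1 - e * f) * u = u * (f * e) := by
      rw [sub_mul, one_mul]
      nth_rw 1 [← hu.2]
      abel
    have k4 : u * (1 - f * e) = e * f * u := by
      rw [mul_sub, mul_one]
      nth_rw 1 [← hu.2]
      abel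
    have hx' : x = c • e + u := by rw [hud]; abel
    have e5 : (1 - e * f) * (Z * x - x * Z) * (1 - f * e) =
        (1 - e * f) * Z * (x * (1 - f * e)) - ((1 - e * f) * x) * Z * (1 - f * e) := by
      noncomm_ring
    have e6 : x * (1 - f * e) = e * f * u := by
      rw [hx', add_mul, smul_mul_assoc, eq, smul_zero, zero_add, k4]
    have e7 : (1 - e * f) * x = u * (f * e) := by
      rw [hx', mul_add, mul_smul_comm, pe, smul_zero, zero_add, k3]
    rw [e5, e6, e7]
    have h1 := hpol u hu u' hu'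
    calc (1 - e * f) * Z * (e * f * u) - u * (f * e) * Z * (1 - f * e) =
        ((1 - e * f) * Z * (e * f)) * u + u * -((f * e) * Z * (1 - f * e)) := by noncomm_ring
      _ = u' * f * u + u * f * u' := by rw [← k1, ← k2]; noncomm_ring
      _ = 0 := h1
  have heX : e ∈ X₀ := ⟨F.e_mem, by rw [pe, zero_mul]⟩
  have hX : X₀ = Lp L s := by
    refine A3_irr h F.s_mem F.s_sq (fun x hx => hx.1) ?_ hst
    intro h0
    rw [h0, Submodule.mem_bot] at heX
    exact F.e_ne heX
  have hxX : x ∈ X₀ := by rw [hX]; exact hx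
  have hu := hsplit x hxX c hc
  set u := x - c • e with hud
  have hx' : x = c • e + u := by rw [hud]; abel
  have e1 : x * f * x = (c * c) • (e * f * e) + c • (e * f * u + u * (f * e)) + u * f * u := by
    rw [hx']
    simp only [add_mul, mul_add, smul_mul_assoc, mul_smul_comm, smul_smul, mul_assoc, smul_add]
    abel
  rw [e1, F.efe, hu.2, ha u hu, hx']
  module

end Pool.Agent.H49M
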