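import Pool.Agent.Lib.H49M.P2
import Pool.Agent.Lib.H49M.A3s

/-!
# P3: products of blocks
-/

set_option autoImplicit false
set_option linter.unusedSectionVars false
namespace Pool.Agent.H49M
open Module Pool.Agent.H53Toric

variable {K : Type*} [Field K] {V : Type*} [AddCommGroup V] [Module K V]

variable {L : Submodule K (Module.End K V)} {ω : V →ₗ[K] V →ₗ[K] K}
  {adj : Module.End K V →ₗ[K] Module.End K V}

variable {p q : Fin 3 → Module.End K V}

/-- Chunk P3a. Lifts: `x = p i X p j`, `X ∈ L`; replace `X` by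
`X' = p i X p j + q j X q i ∈ L` (`m0`), similarly `y = p j Y' p k`; then
`p i (X' Y' - Y' X') p k = x y`, because `p i Y' = 0` (`i ≠ j`, and `p i q _ = 0`). -/
theorem P3_mul (hl : IsLie L) (B : Blocks L adj p q) {i j k : Fin 3} (hij : i ≠ j) (hjk : j ≠ k)
    (hik : i ≠ k) {x y : Module.End K V} (hx : x ∈ LL L (p i) (p j)) (hy : y ∈ LL L (p j) (p k)) :
    x * y ∈ LL L (p i) (p k) := by
  obtain ⟨X, hX, rfl⟩ := hx
  obtain ⟨Y, hY, rfl⟩ := hy
  have hX' := B.m0 X hX i j hij
  have hY' := B.m0 Y hY j k hjk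
  refine ⟨_, hl _ hX' _ hY', ?_⟩
  have e1 : p i * p j = 0 := by rw [B.pp, if_neg hij]
  have e2 : p i * p i = p i := by rw [B.pp, if_pos rfl]
  have e3 : p k * p k = p k := by rw [B.pp, if_pos rfl]
  have e4 : p j * p j = p j := by rw [B.pp, if_pos rfl]
  have e5 : p i * q j = 0 := B.pq i j
  have e6 : p i * q k = 0 := B.pq i k
  have e7 : q j * p k = 0 := B.qp j k
  have e8 : q i * p k = 0 := B.qp i k
  symm
  calc p i * ((p i * X * p j + q j * X * q i) * (p j * Y * p k + q k * Y * q j) -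
        (p j * Y * p k + q k * Y * q j) * (p i * X * p j + q j * X * q i)) * p k
      = ((p i * p i) * X * p j + (p i * q j) * X * q i) * (p j * Y * (p k * p k) +
          q k * Y * (q j * p k)) -
        ((p i * p j) * Y * p k + (p i * q k) * Y * q j) * (p i * X * p j + q j * X * q i) * p k := by
        noncomm_ring
    _ = p i * X * p j * (p j * Y * p k) := by
        rw [e1, e2, e3, e5, e6, e7]
        simp

/-- The operator `u f'` is in the block from `2` to `1`. -/
theorem P3_u1 [CharZero K] (h : Core L ω adj) {s e f e' f' u : Module.End K V}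
    (G : Grid L s e f e' f' u) : u * f' ∈ LL L (e * f) (e' * f') ∧ e * f * (u * f') = u * f' ∧
      u * f' * (e' * f') = u * f' ∧ e * f * (u * f' - f' * u) * (e' * f') = u * f' := by
  have hff' : f * f' = 0 := A2_mm G.F.f_mem G.F'.f_mem
  have h1 : e * f * (u * f') = u * f' := by
    calc e * f * (u * f') = (e * f * u + u * (f * e)) * f' - u * f * (e * f') := by noncomm_ring
      _ = u * f' := by rw [G.u1, G.o1, mul_zero, sub_zero]
  have h2 : u * f' * (e' * f') = u * f' := by
    calc u * f' * (e' * f') = u * (f' * e' * f') := by noncomm_ring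
      _ = u * f' := by rw [G.F'.fef]
  have h3 : e * f * (u * f' - f' * u) * (e' * f') = u * f' := by
    calc e * f * (u * f' - f' * u) * (e' * f') = e * f * (u * f') * (e' * f') -
          e * (f * f') * u * (e' * f') := by noncomm_ring
      _ = u * f' := by rw [h1, h2, hff']; simp
  exact ⟨⟨_, h.lie _ G.u_mem.1 _ G.F'.f_mem.1, h3.symm⟩, h1, h2, h3⟩

/-- The operator `u f` is in the block from `1` to `2`. -/
theorem P3_u2 [CharZero K] (h : Core L ω adj) {s e f e' f' u : Module.End K V}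
    (G : Grid L s e f e' f' u) : u * f ∈ LL L (e' * f') (e * f) ∧ e' * f' * (u * f) = u * f ∧
      u * f * (e * f) = u * f := by
  have hff' : f' * f = 0 := A2_mm G.F'.f_mem G.F.f_mem
  have h1 : e' * f' * (u * f) = u * f := by
    calc e' * f' * (u * f) = (e' * f' * u + u * (f' * e')) * f - u * f' * (e' * f) := by
          noncomm_ring
      _ = u * f := by rw [G.u2, G.o3, mul_zero, sub_zero]
  have h2 : u * f * (e * f) = u * f := by
    calc u * f * (e * f) = u * (f * e * f) := by noncomm_ring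
      _ = u * f := by rw [G.F.fef]
  refine ⟨⟨_, h.lie _ G.u_mem.1 _ G.F.f_mem.1, ?_⟩, h1, h2⟩
  symm
  calc e' * f' * (u * f - f * u) * (e * f) = e' * f' * (u * f) * (e * f) -
          e' * (f' * f) * u * (e * f) := by noncomm_ring
      _ = u * f := by rw [h1, h2, hff']; simp

theorem P3_u12 {s e f e' f' u : Module.End K V}
    (G : Grid L s e f e' f' u) : u * f' * (u * f) = e * f ∧ u * f * (u * f') = e' * f' := by
  constructor
  · rw [← mul_assoc, G.ufu']
  · rw [← mul_assoc, G.ufu]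

/-- Chunk P3b. The corners `p 1 X p 1`, `X ∈ L`, belong to the algebra generated by the products
`x y`, `x ∈ LL (p 1) (p 2)`, `y ∈ LL (p 2) (p 1)`. Write `p = pp ..`, `q = qq ..`, `u₁ = u f'`,
`u₂ = u f`. Then `u₁ = p 1 (u f' - f' u) p 2 ∈ LL (p 1) (p 2)`, `u₂ = p 2 (u f - f u) p 1 ∈
LL (p 2) (p 1)`, `u₁ u₂ = u f' u f = e f = p 1`, so `p 1` is in the algebra `C`.
By `A2_decomp` and `s p 1 = p 1` only the component in `L0` contributes, and by `A3_span` it is
enough to treat `p 1 (X Y - Y X) p 1 = p 1 X Y p 1`, `X ∈ Lp`, `Y ∈ Lm` (`X p 1 = X s p 1 = - X p 1`),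
which is the sum of `p 1 X q j Y p 1`, `j = 0, 1, 2` (as `Y = (q 0 + q 1 + q 2) Y`).
`j = 1`: `p 1 X q 1 = c e` and `q 1 Y p 1 = c' f` (`K0_ext` for the frame and its swap), product
`c c' p 1`. `j = 2`: `q 2 = f' e'`, `p 1 X f' = p 1 (X f' - f' X) p 2 ∈ LL (p 1) (p 2)`,
`e' Y p 1 = p 2 (e' Y - Y e') p 1 ∈ LL (p 2) (p 1)`.
`j = 0`: let `X' = p 1 X q 0 + p 0 X q 1`, `Y' = q 0 Y p 1 + q 1 Y p 0` (in `L`),
`Z = u f' - f' u`, `Y'' = Y' Z - Z Y' ∈ L`; `q 0 Y'' p 2 = q 0 Y p 1 u₁`, and with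
`Y₃ = q 0 Y'' p 2 + q 2 Y'' p 0 ∈ L`: `p 1 (X' Y₃ - Y₃ X') p 2 = p 1 X q 0 Y p 1 u₁ ∈ LL (p 1) (p 2)`;
multiply by `u₂ ∈ LL (p 2) (p 1)` on the right and use `u₁ u₂ = p 1`. -/
theorem P3_corner [CharZero K] [IsAlgClosed K] [FiniteDimensional K V] [Nontrivial V]
    (h : Core L ω adj) {s e f e' f' u : Module.End K V} (G : Grid L s e f e' f' u)
    {X : Module.End K V} (hX : X ∈ L) :
    e * f * X * (e * f) ∈ NonUnitalAlgebra.adjoin K {T : Module.End K V |
      ∃ x ∈ LL L (e * f) (e' * f'), ∃ y ∈ LL L (e' * f') (e * f), T = x * y} := by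
  set S : Set (Module.End K V) := {T : Module.End K V |
      ∃ x ∈ LL L (e * f) (e' * f'), ∃ y ∈ LL L (e' * f') (e * f), T = x * y} with hS
  have hl := h.lie
  have hSC : ∀ T ∈ S, T ∈ NonUnitalAlgebra.adjoin K S := fun T hT =>
    NonUnitalAlgebra.subset_adjoin K hT
  obtain ⟨hu1, hu1a, hu1b, hu1c⟩ := P3_u1 h G
  obtain ⟨hu2, hu2a, hu2b⟩ := P3_u2 h G
  obtain ⟨hu12, hu21⟩ := P3_u12 G
  have hp1 : e * f ∈ NonUnitalAlgebra.adjoin K S := hSC _ ⟨_, hu1, _, hu2, hu12.symm⟩
  have B := P2_blocks h G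
  have hff' : f * f' = 0 := A2_mm G.F.f_mem G.F'.f_mem
  have he'e : e' * e = 0 := A2_pp G.F'.e_mem G.F.e_mem
  -- brackets
  have key : ∀ X ∈ Lp L s, ∀ Y ∈ Lm L s,
      e * f * (X * Y - Y * X) * (e * f) ∈ NonUnitalAlgebra.adjoin K S := by
    intro X hX Y hY
    obtain ⟨p, hp⟩ : ∃ p, p = pp s e f e' f' := ⟨_, rfl⟩
    obtain ⟨q, hq⟩ : ∃ q, q = qq s e f e' f' := ⟨_, rfl⟩
    rw [← hp, ← hq] at B
    have p1 : p 1 = e * f := by rw [hp]; rfl
    have p2 : p 2 = e' * f' := by rw [hp]; rfl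
    have q1 : q 1 = f * e := by rw [hq]; rfl
    have q2 : q 2 = f' * e' := by rw [hq]; rfl
    have hXe : X * e = 0 := A2_pp hX G.F.e_mem
    have hsp : ∀ i, s * p i = p i := by
      intro i
      have hs2 := G.F.s_sq
      have t1 : s * (e * f) = e * f := by rw [← mul_assoc, G.F.e_mem.2.1]
      have t2 : s * (e' * f') = e' * f' := by rw [← mul_assoc, G.F'.e_mem.2.1]
      fin_cases i
      · change s * p 0 = p 0
        have : p 0 = (1 / 2 : K) • (1 + s) - e * f - e' * f' := by rw [hp]; rfl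
        rw [this, mul_sub, mul_sub, t1, t2, mul_smul_comm, mul_add, hs2, mul_one, add_comm s]
      · change s * p 1 = p 1
        rw [p1, t1]
      · change s * p 2 = p 2
        rw [p2, t2]
    have hXp : ∀ i, X * p i = 0 := by
      intro i
      have h1 : X * p i = -(X * p i) := by
        calc X * p i = X * (s * p i) := by rw [hsp]
          _ = (X * s) * p i := by rw [mul_assoc]
          _ = -(X * p i) := by rw [hX.2.2, neg_mul]
      have h2 : (2 : K) • (X * p i) = 0 := by
        rw [two_smul]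
        nth_rewrite 1 [h1]
        exact neg_add_cancel _
      exact (smul_eq_zero.mp h2).resolve_left two_ne_zero
    have hXY : X * Y = X * q 0 * Y + X * q 1 * Y + X * q 2 * Y := by
      calc X * Y = X * 1 * Y := by rw [mul_one]
        _ = X * (p 0 + p 1 + p 2 + (q 0 + q 1 + q 2)) * Y := by rw [B.sum]
        _ = (X * p 0 + X * p 1 + X * p 2) * Y + (X * q 0 * Y + X * q 1 * Y + X * q 2 * Y) := by
            noncomm_ring
        _ = _ := by rw [hXp, hXp, hXp]; simp
    have hsplit : e * f * (X * Y - Y * X) * (e * f) = e * f * (X * q 0 * Y) * (e * f) +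
        e * f * (X * q 1 * Y) * (e * f) + e * f * (X * q 2 * Y) * (e * f) := by
      calc e * f * (X * Y - Y * X) * (e * f) = e * f * (X * Y) * (e * f) -
            e * f * Y * (X * e) * f := by noncomm_ring
        _ = _ := by rw [hXe, hXY]; simp only [mul_zero, zero_mul, sub_zero]; noncomm_ring
    rw [hsplit]
    refine add_mem (add_mem ?_ ?_) ?_
    · -- the index zero
      have hX' := B.mp X hX.1 1 0 (by decide)
      have hY' := B.mm Y hY.1 0 1 (by decide)
      have hZ : u * f' - f' * u ∈ L := hl _ G.u_mem.1 _ G.F'.f_mem.1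
      have hY'' := hl _ hY' _ hZ
      obtain ⟨Y2, hY2⟩ : ∃ Y2, Y2 = (q 0 * Y * p 1 + q 1 * Y * p 0) * (u * f' - f' * u) -
        (u * f' - f' * u) * (q 0 * Y * p 1 + q 1 * Y * p 0) := ⟨_, rfl⟩
      rw [← hY2] at hY''
      have hY3 := B.mm Y2 hY'' 0 2 (by decide)
      have c1 : p 1 * p 2 = 0 := by rw [B.pp, if_neg (by decide)]
      have c2 : p 0 * p 2 = 0 := by rw [B.pp, if_neg (by decide)]
      have c3 : q 0 * q 0 = q 0 := by rw [B.qq, if_pos rfl]
      have c4 : q 0 * q 1 = 0 := by rw [B.qq, if_neg (by decide)]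
      have c5 : p 1 * p 1 = p 1 := by rw [B.pp, if_pos rfl]
      have c6 : p 1 * p 0 = 0 := by rw [B.pp, if_neg (by decide)]
      have c7 : p 2 * p 2 = p 2 := by rw [B.pp, if_pos rfl]
      have d1 : q 0 * Y2 * p 2 = q 0 * Y * (u * f') := by
        calc q 0 * Y2 * p 2 = ((q 0 * q 0) * Y * p 1 + (q 0 * q 1) * Y * p 0) *
              (u * f' - f' * u) * p 2 -
              q 0 * (u * f' - f' * u) * (q 0 * Y * (p 1 * p 2) + q 1 * Y * (p 0 * p 2)) := by
              rw [hY2]; noncomm_ring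
          _ = q 0 * Y * (p 1 * (u * f' - f' * u) * p 2) := by
              rw [c1, c2, c3, c4]; simp only [mul_zero, zero_mul, add_zero, sub_zero]
              noncomm_ring
          _ = _ := by rw [p1, p2, hu1c]
      have d2 : p 1 * ((p 1 * X * q 0 + p 0 * X * q 1) * (q 0 * Y2 * p 2 + q 2 * Y2 * p 0) -
          (q 0 * Y2 * p 2 + q 2 * Y2 * p 0) * (p 1 * X * q 0 + p 0 * X * q 1)) * p 2 =
          p 1 * X * q 0 * Y * (u * f') := by
        calc p 1 * ((p 1 * X * q 0 + p 0 * X * q 1) * (q 0 * Y2 * p 2 + q 2 * Y2 * p 0) -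
          (q 0 * Y2 * p 2 + q 2 * Y2 * p 0) * (p 1 * X * q 0 + p 0 * X * q 1)) * p 2
            = ((p 1 * p 1) * X * q 0 + (p 1 * p 0) * X * q 1) * (q 0 * Y2 * (p 2 * p 2) +
              q 2 * Y2 * (p 0 * p 2)) -
              p 1 * (q 0 * Y2 * p 2 + q 2 * Y2 * p 0) * (p 1 * X * (q 0 * p 2) +
              p 0 * X * (q 1 * p 2)) := by noncomm_ring
          _ = p 1 * X * q 0 * (q 0 * Y2 * p 2) := by
              rw [c5, c6, c7, c2, B.qp, B.qp]; simp
          _ = p 1 * X * (q 0 * q 0) * Y * (u * f') := by rw [d1]; noncomm_ring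
          _ = _ := by rw [c3]
      refine hSC _ ⟨_, ⟨_, hl _ hX' _ hY3, rfl⟩, _, hu2, ?_⟩
      rw [← p1, ← p2, d2, p1]
      calc e * f * (X * q 0 * Y) * (e * f) = e * f * X * q 0 * Y * (u * f' * (u * f)) := by
            rw [hu12]; noncomm_ring
        _ = _ := by noncomm_ring
    · -- the index one
      obtain ⟨a, ha⟩ := K0_ext hl G.F hX.1
      obtain ⟨b, hb⟩ := G.F.ext Y hY.1
      have : e * f * (X * q 1 * Y) * (e * f) = (a * b) • (e * f) := by
        calc e * f * (X * q 1 * Y) * (e * f) = e * f * X * (f * (e * f * e)) * Y * (e * f) := by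
              rw [q1, G.F.efe]; noncomm_ring
          _ = (e * f * X * (f * e)) * f * (e * Y * e) * f := by noncomm_ring
          _ = (a * b) • (e * (f * e * f)) := by
              rw [ha, hb]
              simp only [mul_smul_comm, smul_mul_assoc, smul_smul]
              rw [mul_comm b a]
              congr 1
          _ = _ := by rw [G.F.fef]
      rw [this]
      exact SMulMemClass.smul_mem _ hp1
    · -- the index two
      refine hSC _ ⟨_, ⟨_, hl _ hX.1 _ G.F'.f_mem.1, rfl⟩, _,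
        ⟨_, hl _ G.F'.e_mem.1 _ hY.1, rfl⟩, ?_⟩
      have d1 : e * f * (X * f' - f' * X) * (e' * f') = e * f * X * f' := by
        calc e * f * (X * f' - f' * X) * (e' * f') = e * f * X * (f' * e' * f') -
              e * (f * f') * X * (e' * f') := by noncomm_ring
          _ = _ := by rw [G.F'.fef, hff']; simp
      have d2 : e' * f' * (e' * Y - Y * e') * (e * f) = e' * Y * (e * f) := by
        calc e' * f' * (e' * Y - Y * e') * (e * f) = (e' * f' * e') * Y * (e * f) -
              e' * f' * Y * (e' * e) * f := by noncomm_ring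
          _ = _ := by rw [G.F'.efe, he'e]; simp
      rw [d1, d2, q2]
      noncomm_ring
  -- the general case
  obtain ⟨a, ha, b, hb, c, hc, hXabc⟩ := A2_decomp h G.F.s_mem G.F.s_sq hX
  have hX2 : e * f * X * (e * f) = e * f * b * (e * f) := by
    have h1 : a * e = 0 := A2_pp ha G.F.e_mem
    have h2 : f * c = 0 := A2_mm G.F.f_mem hc
    calc e * f * X * (e * f) = e * f * (a * e) * f + e * f * b * (e * f) +
          e * (f * c) * (e * f) := by rw [hXabc]; noncomm_ring
      _ = _ := by rw [h1, h2]; simp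
  rw [hX2]
  have hspan := A3_span h G.F.s_mem G.F.s_sq hb
  refine Submodule.span_induction (p := fun b _ => e * f * b * (e * f) ∈
    NonUnitalAlgebra.adjoin K S) ?_ ?_ ?_ ?_ hspan
  · rintro _ ⟨X, hX, Y, hY, rfl⟩
    exact key X hX Y hY
  · simp only [mul_zero, zero_mul]; exact zero_mem _
  · intro x y _ _ h1 h2
    rw [mul_add, add_mul]; exact add_mem h1 h2
  · intro t x _ h1
    rw [mul_smul_comm, smul_mul_assoc]
    exact SMulMemClass.smul_mem _ h1

end Pool.Agent.H49M
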