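import Pool.Agent.Lib.H49M.K0
import Pool.Agent.Lib.H49M.A1
import Pool.Agent.Lib.H49M.P0

/-!
# P4: the corner of a frame is irreducible; Burnside
-/

set_option autoImplicit false
set_option linter.unusedSectionVars false
namespace Pool.Agent.H49M
open Module Pool.Agent.H53Toric

variable {K : Type*} [Field K] {V : Type*} [AddCommGroup V] [Module K V]

variable {L : Submodule K (Module.End K V)} {ω : V →ₗ[K] V →ₗ[K] K}
  {adj : Module.End K V →ₗ[K] Module.End K V}

/-- Moving a lowering operator through a word. -/
theorem P4_move {g : Submodule K (Module.End K V)} (hg : IsLie g) {E : Module.End K V}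
    {U : Submodule K V} {n : ℕ}
    (hn : ∀ l : List (Module.End K V), l.length ≤ n → (∀ x ∈ l, x ∈ g) → ∀ u ∈ U,
      E (l.prod u) ∈ U) {w : Module.End K V} (hw : w ∈ g) (hw0 : E * w = 0)
    (l₁ : List (Module.End K V)) :
    ∀ l₂ : List (Module.End K V), l₁.length + l₂.length ≤ n → (∀ x ∈ l₁, x ∈ g) →
      (∀ x ∈ l₂, x ∈ g) → ∀ u ∈ U, E ((l₁.prod * w * l₂.prod) u) ∈ U := by
  induction l₁ using List.reverseRecOn with
  | nil =>
    intro l₂ _ _ _ u _
    rw [List.prod_nil, one_mul]
    change (E * (w * l₂.prod)) u ∈ U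
    rw [← mul_assoc, hw0, zero_mul]
    exact U.zero_mem
  | append_singleton l₁ x ih =>
    intro l₂ hlen h1 h2 u hu
    have hx : x ∈ g := h1 x (by simp)
    have h1' : ∀ x ∈ l₁, x ∈ g := fun y hy => h1 y (by simp [hy])
    have hlen' : l₁.length + 1 + l₂.length ≤ n := by
      rwa [List.length_append, List.length_singleton] at hlen
    have e : (l₁ ++ [x]).prod * w * l₂.prod = l₁.prod * w * (x :: l₂).prod +
        (l₁ ++ (x * w - w * x) :: l₂).prod := by
      simp only [List.prod_append, List.prod_cons, List.prod_nil]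
      noncomm_ring
    rw [e, LinearMap.add_apply, map_add]
    apply U.add_mem
    · exact ih (x :: l₂) (by simp only [List.length_cons]; omega) h1' (by
        intro y hy
        rcases List.mem_cons.1 hy with rfl | hy
        · exact hx
        · exact h2 y hy) u hu
    · apply hn _ _ _ u hu
      · simp only [List.length_append, List.length_cons]; omega
      · intro y hy
        rcases List.mem_append.1 hy with hy | hy
        · exact h1' y hy
        · rcases List.mem_cons.1 hy with rfl | hy
          · exact hg x hx w hw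
          · exact h2 y hy

theorem P4_words {g : Submodule K (Module.End K V)} (hg : IsLie g) {E : Module.End K V}
    (low : ∀ z ∈ g, ∃ w ∈ g, E * w = 0 ∧ z * E = E * z * E + w * E) {U : Submodule K V}
    (hU : ∀ u ∈ U, E u = u) (hst : ∀ C ∈ g, ∀ u ∈ U, E (C u) ∈ U) (n : ℕ) :
    ∀ l : List (Module.End K V), l.length ≤ n → (∀ x ∈ l, x ∈ g) → ∀ u ∈ U,
      E (l.prod u) ∈ U := by
  induction n with
  | zero =>
    intro l hl _ u hu
    have : l = [] := List.eq_nil_of_length_eq_zero (Nat.le_zero.1 hl)
    rw [this, List.prod_nil]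
    change E u ∈ U
    rw [hU u hu]; exact hu
  | succ n ih =>
    intro l hl hlg u hu
    rcases List.eq_nil_or_concat l with rfl | ⟨l', z, rfl⟩
    · rw [List.prod_nil]
      change E u ∈ U
      rw [hU u hu]; exact hu
    · rw [List.concat_eq_append] at hl hlg ⊢
      rw [List.length_append, List.length_singleton] at hl
      have hz : z ∈ g := hlg z (by simp)
      have hl' : ∀ x ∈ l', x ∈ g := fun y hy => hlg y (by simp [hy])
      obtain ⟨w, hw, hw0, hzw⟩ := low z hz
      have hzu : z u = E (z u) + w u := by
        have := LinearMap.congr_fun hzw u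
        change z (E u) = E (z (E u)) + w (E u) at this
        rwa [hU u hu] at this
      have e : (l' ++ [z]).prod u = l'.prod (z u) := by
        simp only [List.prod_append, List.prod_cons, List.prod_nil, mul_one]
        rfl
      rw [e, hzu, map_add, map_add]
      apply U.add_mem
      · exact ih l' (by omega) hl' _ (hst z hz u hu)
      · have h1 := P4_move hg ih hw hw0 l' [] (by simp; omega) hl' (by simp) u hu
        simpa using h1

theorem P4_irr_aux {g : Submodule K (Module.End K V)} (hg : IsLie g) (hirr : Irr g)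
    {E : Module.End K V}
    (low : ∀ z ∈ g, ∃ w ∈ g, E * w = 0 ∧ z * E = E * z * E + w * E) {U : Submodule K V}
    (hU : ∀ u ∈ U, E u = u) (hU0 : U ≠ ⊥) (hst : ∀ C ∈ g, ∀ u ∈ U, E (C u) ∈ U) (v : V) :
    E v ∈ U := by
  let W : Submodule K V :=
    { carrier := {v | ∀ l : List (Module.End K V), (∀ x ∈ l, x ∈ g) → E (l.prod v) ∈ U}
      add_mem' := by
        intro a b ha hb l hl
        rw [map_add, map_add]
        exact U.add_mem (ha l hl) (hb l hl)
      zero_mem' := by
        intro l _
        rw [map_zero, map_zero]; exact U.zero_mem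
      smul_mem' := by
        intro c a ha l hl
        rw [map_smul, map_smul]
        exact U.smul_mem c (ha l hl) }
  have hUW : U ≤ W := fun u hu l hl => P4_words hg low hU hst _ l le_rfl hl u hu
  have hWst : ∀ X ∈ g, ∀ w ∈ W, X w ∈ W := by
    intro X hX w hw l hl
    have := hw (l ++ [X]) (by
      intro x hx
      rcases List.mem_append.1 hx with hx | hx
      · exact hl x hx
      · rw [List.mem_singleton.1 hx]; exact hX)
    simpa using this
  rcases hirr W hWst with hW | hW
  · exact absurd (le_bot_iff.1 (hW ▸ hUW)) hU0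
  · have hv : v ∈ W := by rw [hW]; trivial
    simpa using hv [] (by simp)

/-- The lowering part. -/
theorem P4_low [CharZero K] (h : Core L ω adj) {s e f : Module.End K V} (F : Frame L s e f)
    {z : Module.End K V} (hz : z ∈ L) :
    ∃ w ∈ L, e * f * w = 0 ∧ z * (e * f) = e * f * z * (e * f) + w * (e * f) := by
  have hee : e * e = 0 := A2_pp F.e_mem F.e_mem
  have hff : f * f = 0 := A2_mm F.f_mem F.f_mem
  have pp : e * f * (e * f) = e * f := by rw [← mul_assoc, F.efe]
  have qq : f * e * (f * e) = f * e := by rw [← mul_assoc, F.fef]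
  have pq : e * f * (f * e) = 0 := by
    rw [mul_assoc, ← mul_assoc f f, hff, zero_mul, mul_zero]
  have qp : f * e * (e * f) = 0 := by
    rw [mul_assoc, ← mul_assoc e e, hee, zero_mul, mul_zero]
  have key := fun n => P0_block h.lie (c := ![e * f, 1 - e * f - f * e, f * e]) (w := ![1, 0, -1])
    (by
      intro i j
      fin_cases i <;> fin_cases j <;> simp [mul_sub, sub_mul, pp, qq, pq, qp])
    (by
      simp [Fin.sum_univ_succ])
    (by
      have := K0_H h.lie F
      simp [Fin.sum_univ_succ]
      rwa [← sub_eq_add_neg]) hz n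
  have k1 := key (-1)
  have k2 := key (-2)
  simp [Fin.sum_univ_succ] at k1 k2
  refine ⟨_, L.add_mem k1 k2, ?_, ?_⟩
  · simp only [mul_add, ← mul_assoc]
    have a1 : e * f * f = 0 := by rw [mul_assoc, hff, mul_zero]
    have a2 : e * f * (1 - e * f - f * e) = 0 := by
      rw [mul_sub, mul_sub, pp, pq]; simp
    rw [a1, a2]; simp
  · have e1 : z * (e * f) = (e * f + (1 - e * f - f * e) + f * e) * z * (e * f) := by
      have : e * f + (1 - e * f - f * e) + f * e = 1 := by abel
      rw [this, one_mul]
    have e2 : (1 - e * f - f * e) * (e * f) = 0 := by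
      rw [sub_mul, sub_mul, pp, qp]; simp
    rw [e1]
    simp only [add_mul, mul_assoc] at *
    rw [e2, pp]
    simp only [mul_zero, add_zero]
    abel

theorem P4_sub [IsAlgClosed K] {U : Type*} [AddCommGroup U] [Module K U]
    [FiniteDimensional K U] [Nontrivial U] (B : Subalgebra K (Module.End K U))
    (hirr : ∀ W : Submodule K U, (∀ b ∈ B, ∀ w ∈ W, b w ∈ W) → W = ⊥ ∨ W = ⊤)
    (f : Module.End K U) : f ∈ B := by
  classical
  have : IsSimpleModule B U := by
    have : Nontrivial (Submodule B U) := by
      refine ⟨⊥, ⊤, ?_⟩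
      intro h
      obtain ⟨u, hu⟩ := exists_ne (0 : U)
      have : u ∈ (⊥ : Submodule B U) := by rw [h]; trivial
      exact hu ((Submodule.mem_bot B).mp this)
    have : IsSimpleOrder (Submodule B U) := ⟨fun W => by
      have h1 := hirr (W.restrictScalars K) (fun b hb w hw => W.smul_mem ⟨b, hb⟩ hw)
      rcases h1 with h1 | h1
      · left
        rw [eq_bot_iff]
        intro w hw
        have : w ∈ W.restrictScalars K := hw
        rw [h1, Submodule.mem_bot] at this
        rw [this]; exact Submodule.zero_mem _
      · right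
        rw [eq_top_iff]
        intro w _
        have : w ∈ W.restrictScalars K := by rw [h1]; trivial
        exact this⟩
    exact IsSimpleModule.mk
  have hbij := IsSimpleModule.algebraMap_end_bijective_of_isAlgClosed (A := B) (V := U) K
  let f' : Module.End (Module.End B U) U :=
    { toFun := f
      map_add' := f.map_add
      map_smul' := by
        intro φ m
        obtain ⟨k, rfl⟩ := hbij.2 φ
        simp }
  let b := Module.finBasis K U
  obtain ⟨r, hr⟩ := jacobson_density f' (Finset.univ.image b)
  have : f = (r : Module.End K U) := by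
    apply b.ext
    intro i
    exact hr (b i) (Finset.mem_image_of_mem _ (Finset.mem_univ i))
  rw [this]; exact r.2

/-- Chunk P4a. The range of `p = e f` is irreducible under the corners `p X p`, `X ∈ L`. This is
`Peirce.irr` in H53Toric.Core4 (with `Peirce.words`, `Peirce.word_move`, `Peirce.lower`), whose proof
does not use the parity; either copy it, or argue with the grading by `H = e f - f e`:
`V = V₁ + V₀ + V₋₁` (ranges of `p`, of `1 - p - q`, of `q = f e`), `L = ⊕ L_n`, `-2 ≤ n ≤ 2`
(`P0_block` with `c = (p, 1 - p - q, q)`, `w = (1, 0, -1)`). For `W ≤ V₁` stable under `L_0` (whose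
elements act on `V₁` through `p X p`) the space
`W' = W + span L_{-1} W + span L_{-2} W + span L_{-1} L_{-1} W` is stable under `L`
(`L_1 W = L_2 W = 0`; move the raising operators to the right by brackets; degrees below `-1` vanish).
So `W' = V`, and taking the component in `V₁` (multiply by `p`) gives `W = V₁`. -/
theorem P4_irr [CharZero K] [IsAlgClosed K] [FiniteDimensional K V] [Nontrivial V]
    (h : Core L ω adj) {s e f : Module.End K V} (F : Frame L s e f) {W : Submodule K V}
    (hW : ∀ w ∈ W, (e * f) w = w) (hW0 : W ≠ ⊥) (hst : ∀ X ∈ L, ∀ w ∈ W, (e * f) (X w) ∈ W)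
    (v : V) : (e * f) v ∈ W :=
  P4_irr_aux h.lie h.irr (fun _ hz => P4_low h F hz) hW hW0 hst v

/-- Chunk P4b. Burnside's theorem in a corner. Let `U = range p`. The restrictions of the elements of
`A` to `U` form an algebra of operators of `U` containing the identity (`p ∈ A`) which is
irreducible, so it is everything (Burnside; e.g. from `jacobson_density` and
`IsSimpleModule.algebraMap_end_bijective_of_isAlgClosed`, see `burnside_surj` in
Pool/Agent/Lib/Helper71/Kolchin.lean). -/
theorem P4_burnside [IsAlgClosed K] [FiniteDimensional K V] {p : Module.End K V} (hp : p * p = p)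
    (hp0 : p ≠ 0) (A : NonUnitalSubalgebra K (Module.End K V)) (hpA : p ∈ A)
    (hA : ∀ a ∈ A, p * a = a ∧ a * p = a)
    (hirr : ∀ W : Submodule K V, (∀ w ∈ W, p w = w) → W ≠ ⊥ → (∀ a ∈ A, ∀ w ∈ W, a w ∈ W) →
      ∀ v, p v ∈ W) (T : Module.End K V) : p * T * p ∈ A := by
  set U := LinearMap.range p with hU
  have hpU : ∀ u ∈ U, p u = u := by
    rintro _ ⟨v, rfl⟩
    rw [← Module.End.mul_apply, hp]
  have haU : ∀ a ∈ A, ∀ u : V, a u ∈ U := fun a ha u => ⟨a u, by
    rw [← Module.End.mul_apply, (hA a ha).1]⟩
  have : Nontrivial U := by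
    rw [Submodule.nontrivial_iff_ne_bot]
    intro h
    exact hp0 (LinearMap.range_eq_bot.mp h)
  let B : Subalgebra K (Module.End K U) :=
    { carrier := {T | ∃ a ∈ A, ∀ u : U, ((T u : U) : V) = a u}
      mul_mem' := by
        rintro S T ⟨a, ha, h1⟩ ⟨b, hb, h2⟩
        exact ⟨a * b, A.mul_mem ha hb, fun u => by
          rw [Module.End.mul_apply, h1, h2, Module.End.mul_apply]⟩
      add_mem' := by
        rintro S T ⟨a, ha, h1⟩ ⟨b, hb, h2⟩
        exact ⟨a + b, A.add_mem ha hb, fun u => by
          rw [LinearMap.add_apply, LinearMap.add_apply, Submodule.coe_add, h1, h2]⟩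
      algebraMap_mem' := fun r => ⟨r • p, SMulMemClass.smul_mem r hpA, fun u => by
        rw [LinearMap.smul_apply, hpU u u.2]; rfl⟩ }
  have hT : ∀ v, (p * T * p) v ∈ U := fun v => ⟨T (p v), rfl⟩
  have hmem := P4_sub B (by
    intro W hW
    by_cases hW0 : W = ⊥
    · exact Or.inl hW0
    · right
      rw [eq_top_iff]
      rintro ⟨u, hu⟩ -
      have := hirr (W.map U.subtype) (by
        rintro _ ⟨w, _, rfl⟩
        exact hpU w w.2) (by
        intro h0
        apply hW0
        rw [eq_bot_iff]
        intro w hw
        have h4 : (w : V) ∈ W.map U.subtype := ⟨w, hw, rfl⟩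
        rw [h0, Submodule.mem_bot] at h4
        exact Subtype.ext h4) (by
        rintro a ha _ ⟨w, hw, rfl⟩
        exact ⟨_, hW (a.restrict (fun u _ => haU a ha u) : Module.End K U)
          ⟨a, ha, fun u => rfl⟩ w hw, rfl⟩) u
      rw [hpU u hu] at this
      obtain ⟨w, hw, hwv⟩ := this
      have : w = ⟨u, hu⟩ := Subtype.ext hwv
      rwa [← this])
    ((p * T * p).restrict (p := U) (q := U) (fun u _ => hT u))
  obtain ⟨a, ha, h1⟩ := hmem
  have : p * T * p = a := by
    ext v
    have h2 := h1 ⟨p v, v, rfl⟩
    have h3 : (p * T * p) (p v) = a (p v) := h2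
    rw [← Module.End.mul_apply, ← Module.End.mul_apply, mul_assoc _ p p, hp, (hA a ha).2] at h3
    exact h3
  rw [this]; exact ha

end Pool.Agent.H49M
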