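import Pool.Agent.Lib.H49M.P3
import Pool.Agent.Lib.H49M.P4
import Pool.Agent.Lib.H49M.A3v

/-!
# P5: the dichotomy
-/

set_option autoImplicit false
set_option linter.unusedSectionVars false
namespace Pool.Agent.H49M
open Module Pool.Agent.H53Toric

variable {K : Type*} [Field K] {V : Type*} [AddCommGroup V] [Module K V]

variable {L : Submodule K (Module.End K V)} {ω : V →ₗ[K] V →ₗ[K] K}
  {adj : Module.End K V →ₗ[K] Module.End K V}

/-- Chunk P5a. Every corner operator is in the algebra generated by the products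
`x y`, `x ∈ LL (p 1) (p 2)`, `y ∈ LL (p 2) (p 1)`: `P4_burnside` with `P4_irr`, `P3_corner`
(`p 1 = u₁ u₂` is in the algebra, see `P3_corner`). -/
theorem P5_all [CharZero K] [IsAlgClosed K] [FiniteDimensional K V] [Nontrivial V]
    (h : Core L ω adj) {s e f e' f' u : Module.End K V} (G : Grid L s e f e' f' u)
    (T : Module.End K V) :
    e * f * T * (e * f) ∈ NonUnitalAlgebra.adjoin K {T : Module.End K V |
      ∃ x ∈ LL L (e * f) (e' * f'), ∃ y ∈ LL L (e' * f') (e * f), T = x * y} := by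
  set S : Set (Module.End K V) := {T : Module.End K V |
      ∃ x ∈ LL L (e * f) (e' * f'), ∃ y ∈ LL L (e' * f') (e * f), T = x * y} with hS
  obtain ⟨hu1, -, -, -⟩ := P3_u1 h G
  obtain ⟨hu2, -, -⟩ := P3_u2 h G
  obtain ⟨hu12, -⟩ := P3_u12 G
  have hp1 : e * f ∈ NonUnitalAlgebra.adjoin K S :=
    NonUnitalAlgebra.subset_adjoin K ⟨_, hu1, _, hu2, hu12.symm⟩
  have pp : e * f * (e * f) = e * f := by rw [← mul_assoc, G.F.efe]
  have hp0 : e * f ≠ 0 := by
    intro h0
    apply G.F.e_ne
    rw [← G.F.efe, h0, zero_mul]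
  refine P4_burnside pp hp0 _ hp1 ?_ ?_ T
  · intro a ha
    induction ha using NonUnitalAlgebra.adjoin_induction with
    | mem a ha =>
      obtain ⟨_, ⟨X, hX, rfl⟩, _, ⟨Y, hY, rfl⟩, rfl⟩ := ha
      constructor
      · calc e * f * (e * f * X * (e' * f') * (e' * f' * Y * (e * f))) =
            e * f * (e * f) * X * (e' * f') * (e' * f' * Y * (e * f)) := by noncomm_ring
          _ = _ := by rw [pp]
      · calc e * f * X * (e' * f') * (e' * f' * Y * (e * f)) * (e * f) =
            e * f * X * (e' * f') * (e' * f' * Y * (e * f * (e * f))) := by noncomm_ring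
          _ = _ := by rw [pp]
    | add a b _ _ h1 h2 => exact ⟨by rw [mul_add, h1.1, h2.1], by rw [add_mul, h1.2, h2.2]⟩
    | zero => simp
    | mul a b _ _ h1 h2 =>
      exact ⟨by rw [← mul_assoc, h1.1], by rw [mul_assoc, h2.2]⟩
    | smul r a _ h1 =>
      exact ⟨by rw [mul_smul_comm, h1.1], by rw [smul_mul_assoc, h1.2]⟩
  · intro W hW hW0 hst v
    refine P4_irr h G.F hW hW0 ?_ v
    intro X hX w hw
    have h1 := hst _ (P3_corner h G hX) w hw
    rw [Module.End.mul_apply, Module.End.mul_apply, hW w hw] at h1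
    exact h1

/-- A nonzero two-sided ideal of the corner algebra is everything. -/
theorem P5_ideal [FiniteDimensional K V] {p : Module.End K V} (hp : p * p = p)
    (M : Submodule K (Module.End K V)) (hM : ∀ m ∈ M, p * m = m ∧ m * p = m)
    (hl : ∀ T : Module.End K V, ∀ m ∈ M, p * T * p * m ∈ M)
    (hr : ∀ T : Module.End K V, ∀ m ∈ M, m * (p * T * p) ∈ M) (h0 : M ≠ ⊥)
    (T : Module.End K V) : p * T * p ∈ M := by
  obtain ⟨m, hm, hm0⟩ := Submodule.exists_mem_ne_zero_of_ne_bot h0
  obtain ⟨v₀, hv₀⟩ : ∃ v, m v ≠ 0 := by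
    by_contra hcon
    push Not at hcon
    exact hm0 (LinearMap.ext hcon)
  obtain ⟨φ, hφ⟩ := Module.Projective.exists_dual_ne_zero (R := K) hv₀
  -- rank one operators
  have key : ∀ (ψ : V →ₗ[K] K) (z : V), p * (ψ.smulRight z : Module.End K V) * p ∈ M := by
    intro ψ z
    have h1 := hl ((φ.smulRight z : Module.End K V)) _ (hr (ψ.smulRight v₀ : Module.End K V) m hm)
    have h2 : p * (φ.smulRight z : Module.End K V) * p * (m * (p * (ψ.smulRight v₀ : Module.End K V)
        * p)) = (φ (m v₀)) • (p * (ψ.smulRight z : Module.End K V) * p) := by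
      have e1 : p * (φ.smulRight z : Module.End K V) * p * (m * (p * (ψ.smulRight v₀ :
          Module.End K V) * p)) = p * (φ.smulRight z : Module.End K V) * (p * m * p) *
          (ψ.smulRight v₀ : Module.End K V) * p := by noncomm_ring
      rw [e1, (hM m hm).1, (hM m hm).2]
      ext v
      simp only [Module.End.mul_apply, LinearMap.smulRight_apply, LinearMap.smul_apply, map_smul,
        smul_smul, smul_eq_mul]
      rw [mul_comm]
    rw [h2] at h1
    have h3 := M.smul_mem (φ (m v₀))⁻¹ h1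
    rwa [smul_smul, inv_mul_cancel₀ hφ, one_smul] at h3
  have hT : T = ∑ i, ((Module.finBasis K V).coord i).smulRight (T (Module.finBasis K V i)) := by
    ext v
    rw [LinearMap.sum_apply]
    conv_lhs => rw [← (Module.finBasis K V).sum_repr v]
    rw [map_sum]
    refine Finset.sum_congr rfl fun i _ => ?_
    rw [map_smul]; rfl
  rw [hT, Finset.mul_sum, Finset.sum_mul]
  exact M.sum_mem fun i _ => key _ _

/-- Chunk P5b. Let `p = pp ..`, `u₁ = u f' ∈ LL (p 1) (p 2)`, `u₂ = u f ∈ LL (p 2) (p 1)`,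
`u₁ u₂ = p 1`, `u₂ u₁ = p 2`, `M` the span of the products `x y`, `x ∈ LL (p 1) (p 0)`,
`y ∈ LL (p 0) (p 1)`, `C` the algebra of `P5_all`. By `P3_mul` (distinct indices)
`LL (p 1)(p 2) · LL (p 2)(p 1) · LL (p 1)(p 0) ⊆ LL (p 1)(p 0)` and
`LL (p 0)(p 1) · LL (p 1)(p 2) · LL (p 2)(p 1) ⊆ LL (p 0)(p 1)`, so `C M ⊆ M`, `M C ⊆ M`; by
`P5_all` `M` is a two-sided ideal of the algebra of all `T = p 1 T p 1`. If `M ≠ 0`, then `M` is
everything (for `m = p 1 m p 1 ≠ 0` every rank one corner operator is `a m b` with corner operators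
`a, b`). For `x y ∈ M`: `x (y u₁) ∈ LL (p 1) (p 2)` by `P3_mul` twice, so `T u₁ ∈ LL (p 1) (p 2)`
for all `T ∈ M`: first alternative.
If `M = 0`: show `p 0 = 0`. Let `W` be the span of `range (p 1)`, `range (p 2)`,
`y v` (`y ∈ LL (p 0)(p 1)` or `LL (p 0)(p 2)`). It is stable under `L0`: for `Z ∈ L0`
(commutes with `s`, so `Z = ∑ p i Z p j + ∑ q i Z q j`) and `y = p 0 Y p 1`: `p 1 Z y = (p 1 Z p 0) y`
is in `M = 0`; `p 2 Z y = u₂ (u₁ (p 2 Z p 0)) y` with `u₁ (p 2 Z p 0) ∈ LL (p 1)(p 0)`, so zero;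
`p 0 Z y`: with `Z₀` the block diagonal part of `Z` (`md`) and `Y' = p 0 Y p 1 + q 1 Y q 0`,
`p 0 (Z₀ Y' - Y' Z₀) p 1 = p 0 Z y - y (p 1 Z p 1)`, so `p 0 Z y v ∈ LL(p 0)(p 1) v + y V ⊆ W`. For
`y ∈ LL (p 0)(p 2)` write `y = (y u₂) u₁` with `y u₂ ∈ LL (p 0)(p 1)`: same vectors. By `A3_vec`
`W = V₊` (`e ≠ 0` so `p 1 ≠ 0`). Hence `p 0 V = span LL(p 0)(p 1) V`, on which all
`p 1 Z p 0` and `p 2 Z p 0`, `Z ∈ L`, vanish: so these operators are zero and `range (p 0)` is
stable under `L0`; if it were nonzero it would be `V₊` by `A3_vec`, contradicting `p 1 ≠ 0`. -/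
theorem P5_dich [CharZero K] [IsAlgClosed K] [FiniteDimensional K V] [Nontrivial V]
    (h : Core L ω adj) {s e f e' f' u : Module.End K V} (G : Grid L s e f e' f' u) :
    (∀ T : Module.End K V, e * f * T * (e * f) * (u * f') ∈ LL L (e * f) (e' * f')) ∨
    (1 / 2 : K) • (1 + s) = e * f + e' * f' := by
  have hl := h.lie
  have B := P2_blocks h G
  obtain ⟨hu1, -, -, -⟩ := P3_u1 h G
  obtain ⟨hu2, -, -⟩ := P3_u2 h G
  obtain ⟨hu12, hu21⟩ := P3_u12 G
  have hall := P5_all h G
  obtain ⟨p, hp⟩ : ∃ p, p = pp s e f e' f' := ⟨_, rfl⟩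
  obtain ⟨q, hq⟩ : ∃ q, q = qq s e f e' f' := ⟨_, rfl⟩
  rw [← hp, ← hq] at B
  have p0 : p 0 = (1 / 2 : K) • (1 + s) - e * f - e' * f' := by rw [hp]; rfl
  have p1 : p 1 = e * f := by rw [hp]; rfl
  have p2 : p 2 = e' * f' := by rw [hp]; rfl
  rw [← p1, ← p2] at hu1 hu2
  rw [← p1] at hu12
  rw [← p2] at hu21
  simp only [← p1, ← p2] at hall ⊢
  have n10 : (1 : Fin 3) ≠ 0 := by decide
  have n12 : (1 : Fin 3) ≠ 2 := by decide
  have n20 : (2 : Fin 3) ≠ 0 := by decide
  have c11 : p 1 * p 1 = p 1 := by rw [B.pp, if_pos rfl]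
  have c22 : p 2 * p 2 = p 2 := by rw [B.pp, if_pos rfl]
  have c00 : p 0 * p 0 = p 0 := by rw [B.pp, if_pos rfl]
  have c01 : p 0 * p 1 = 0 := by rw [B.pp, if_neg n10.symm]
  have c02 : p 0 * p 2 = 0 := by rw [B.pp, if_neg n20.symm]
  obtain ⟨M, hMdef⟩ : ∃ M : Submodule K (Module.End K V), M = Submodule.span K
    {T | ∃ x ∈ LL L (p 1) (p 0), ∃ y ∈ LL L (p 0) (p 1), T = x * y} := ⟨_, rfl⟩
  have hMgen : ∀ x ∈ LL L (p 1) (p 0), ∀ y ∈ LL L (p 0) (p 1), x * y ∈ M := fun x hx y hy => by
    rw [hMdef]; exact Submodule.subset_span ⟨x, hx, y, hy, rfl⟩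
  -- the algebra acts on `M`
  have hCM : ∀ c ∈ NonUnitalAlgebra.adjoin K {T : Module.End K V |
      ∃ x ∈ LL L (p 1) (p 2), ∃ y ∈ LL L (p 2) (p 1), T = x * y}, ∀ m ∈ M,
      c * m ∈ M ∧ m * c ∈ M := by
    intro c hc
    induction hc using NonUnitalAlgebra.adjoin_induction with
    | mem a ha =>
      obtain ⟨x, hx, y, hy, rfl⟩ := ha
      intro m hm
      rw [hMdef] at hm
      induction hm using Submodule.span_induction with
      | mem m hm =>
        obtain ⟨x', hx', y', hy', rfl⟩ := hm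
        constructor
        · have h1 := P3_mul hl B n12 n20 n10 hx (P3_mul hl B n12.symm n10 n20 hy hx')
          have h2 := hMgen _ h1 _ hy'
          convert h2 using 1
          noncomm_ring
        · have h1 := P3_mul hl B n20.symm n12.symm n10.symm
            (P3_mul hl B n10.symm n12 n20.symm hy' hx) hy
          have h2 := hMgen _ hx' _ h1
          convert h2 using 1
          noncomm_ring
      | zero => simp
      | add a b _ _ h1 h2 =>
        exact ⟨by rw [mul_add]; exact M.add_mem h1.1 h2.1,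
          by rw [add_mul]; exact M.add_mem h1.2 h2.2⟩
      | smul r a _ h1 =>
        exact ⟨by rw [mul_smul_comm]; exact M.smul_mem _ h1.1,
          by rw [smul_mul_assoc]; exact M.smul_mem _ h1.2⟩
    | add a b _ _ h1 h2 =>
      intro m hm
      exact ⟨by rw [add_mul]; exact M.add_mem (h1 m hm).1 (h2 m hm).1,
        by rw [mul_add]; exact M.add_mem (h1 m hm).2 (h2 m hm).2⟩
    | zero => intro m _; simp
    | mul a b _ _ h1 h2 =>
      intro m hm
      exact ⟨by rw [mul_assoc]; exact (h1 _ (h2 m hm).1).1,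
        by rw [← mul_assoc]; exact (h2 _ (h1 m hm).2).2⟩
    | smul r a _ h1 =>
      intro m hm
      exact ⟨by rw [smul_mul_assoc]; exact M.smul_mem _ (h1 m hm).1,
        by rw [mul_smul_comm]; exact M.smul_mem _ (h1 m hm).2⟩
  by_cases hM0 : M = ⊥
  · -- the second alternative
    right
    have hMz : ∀ x ∈ LL L (p 1) (p 0), ∀ y ∈ LL L (p 0) (p 1), x * y = 0 := fun x hx y hy => by
      have h1 := hMgen x hx y hy
      rwa [hM0, Submodule.mem_bot] at h1
    have hPsum : ∀ v, s v = v → p 0 v + p 1 v + p 2 v = v := by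
      intro v hv
      rw [p0, p1, p2]
      simp only [LinearMap.sub_apply, LinearMap.smul_apply, LinearMap.add_apply,
        Module.End.one_apply, hv]
      rw [← two_smul K, smul_smul]
      norm_num
      abel
    have hs1 : s * p 1 = p 1 := by rw [p1, ← mul_assoc, G.F.e_mem.2.1]
    have hs2 : s * p 2 = p 2 := by rw [p2, ← mul_assoc, G.F'.e_mem.2.1]
    have hs0 : s * p 0 = p 0 := by
      rw [p1] at hs1
      rw [p2] at hs2
      rw [p0, mul_sub, mul_sub, hs1, hs2, mul_smul_comm, mul_add, G.F.s_sq, mul_one, add_comm s]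
    have p1ne : p 1 ≠ 0 := by
      intro h0
      apply G.F.e_ne
      rw [← G.F.efe, ← p1, h0, zero_mul]
    obtain ⟨x₀, hx₀⟩ : ∃ x, p 1 x ≠ 0 := by
      by_contra hcon
      push Not at hcon
      exact p1ne (LinearMap.ext hcon)
    have hs1v : ∀ x, s (p 1 x) = p 1 x := fun x => by rw [← Module.End.mul_apply, hs1]
    have hs0v : ∀ x, s (p 0 x) = p 0 x := fun x => by rw [← Module.End.mul_apply, hs0]
    have ap : ∀ {A B : Module.End K V} (w : V), A = B → A w = B w := by
      intro A B w hAB; rw [hAB]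
    -- the annihilated vectors
    let N : Submodule K V :=
      { carrier := {v | p 0 v = v ∧ ∀ Z ∈ L, p 1 (Z v) = 0 ∧ p 2 (Z v) = 0}
        add_mem' := by
          rintro a b ⟨h1, h2⟩ ⟨h3, h4⟩
          refine ⟨by rw [map_add, h1, h3], fun Z hZ => ?_⟩
          rw [map_add, map_add, map_add, (h2 Z hZ).1, (h2 Z hZ).2, (h4 Z hZ).1, (h4 Z hZ).2]
          simp
        zero_mem' := by simp
        smul_mem' := by
          rintro c a ⟨h1, h2⟩
          refine ⟨by rw [map_smul, h1], fun Z hZ => ?_⟩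
          rw [map_smul, map_smul, map_smul, (h2 Z hZ).1, (h2 Z hZ).2]
          simp }
    have hNs : ∀ v ∈ N, s v = v := by
      rintro v ⟨h1, -⟩
      rw [← h1, hs0v]
    have hN : N = ⊥ := by
      by_contra hN0
      have h1 : p 1 x₀ ∈ N := by
        refine A3_vec h G.F.s_mem G.F.s_sq hNs hN0 ?_ (hs1v x₀)
        rintro Z ⟨hZ, hsZ⟩ w hw
        have hsw := hNs w hw
        obtain ⟨hw1, hw2⟩ := hw
        have hZw : s (Z w) = Z w := by
          rw [← Module.End.mul_apply, hsZ, Module.End.mul_apply, hsw]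
        have hZw0 : p 0 (Z w) = Z w := by
          have h3 := hPsum _ hZw
          rwa [(hw2 Z hZ).1, (hw2 Z hZ).2, add_zero, add_zero] at h3
        refine ⟨hZw0, fun Z' hZ' => ?_⟩
        have gen : ∀ i : Fin 3, i ≠ 0 → (∀ Z ∈ L, p i (Z w) = 0) → p i (Z' (Z w)) = 0 := by
          intro i hi hiw
          have hA := B.m0 Z' hZ' i 0 hi
          obtain ⟨A, hAdef⟩ : ∃ A, A = p i * Z' * p 0 + q 0 * Z' * q i := ⟨_, rfl⟩
          rw [← hAdef] at hA
          have hAw : A w = 0 := by
            have e1 : A * p 0 = p i * Z' * p 0 := by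
              rw [hAdef, add_mul, mul_assoc _ (p 0), c00, mul_assoc _ (q i), B.qp, mul_zero,
                add_zero]
            have e2 := ap w e1
            rw [Module.End.mul_apply, Module.End.mul_apply, Module.End.mul_apply, hw1] at e2
            rw [e2, hiw Z' hZ']
          have e3 : p i (Z' (Z w)) = p i (A (Z w)) := by
            have e1 : p i * A * p 0 = p i * Z' * p 0 := by
              have e4 : p i * p i = p i := by rw [B.pp, if_pos rfl]
              rw [hAdef, mul_add, add_mul, ← mul_assoc, ← mul_assoc, e4, mul_assoc _ (p 0), c00,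
                ← mul_assoc, ← mul_assoc, B.pq, zero_mul, zero_mul, zero_mul, add_zero]
            have e2 := ap (Z w) e1
            simp only [Module.End.mul_apply] at e2
            rw [hZw0] at e2
            exact e2.symm
          have h4 := hiw _ (hl A hA Z hZ)
          rw [LinearMap.sub_apply, Module.End.mul_apply, Module.End.mul_apply, hAw, map_zero,
            sub_zero] at h4
          rw [e3, h4]
        exact ⟨gen 1 n10 fun Z hZ => (hw2 Z hZ).1, gen 2 n20 fun Z hZ => (hw2 Z hZ).2⟩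
      have h2 := h1.1
      rw [← Module.End.mul_apply, c01, LinearMap.zero_apply] at h2
      exact hx₀ h2.symm
    have hLL01 : ∀ y ∈ LL L (p 0) (p 1), y = 0 := by
      rintro y hy
      ext v
      have hyv : y v ∈ N := by
        have hp0y : p 0 * y = y := by
          obtain ⟨Y, hY, rfl⟩ := hy
          rw [← mul_assoc, ← mul_assoc, c00]
        have h0y : p 0 (y v) = y v := by rw [← Module.End.mul_apply, hp0y]
        refine ⟨h0y, fun Z hZ => ⟨?_, ?_⟩⟩
        · have h1 := hMz _ ⟨Z, hZ, rfl⟩ y hy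
          have h2 := ap v h1
          simp only [Module.End.mul_apply, LinearMap.zero_apply] at h2
          rwa [h0y] at h2
        · have h1 := hMz _ (P3_mul hl B n12 n20 n10 hu1 ⟨Z, hZ, rfl⟩) y hy
          have h2 : p 2 * Z * y = 0 := by
            calc p 2 * Z * y = (p 2 * p 2) * Z * (p 0 * y) := by rw [c22, hp0y]
              _ = (u * f * (u * f')) * p 2 * Z * (p 0 * y) := by rw [hu21]
              _ = u * f * (u * f' * (p 2 * Z * p 0) * y) := by noncomm_ring
              _ = 0 := by rw [h1, mul_zero]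
          have h3 := ap v h2
          simpa only [Module.End.mul_apply, LinearMap.zero_apply] using h3
      rw [hN, Submodule.mem_bot] at hyv
      rw [hyv]; rfl
    have hLL02 : ∀ y ∈ LL L (p 0) (p 2), y = 0 := by
      intro y hy
      have h1 := hLL01 _ (P3_mul hl B n20.symm n12.symm n10.symm hy hu2)
      have hy2 : y * p 2 = y := by
        obtain ⟨Y, hY, rfl⟩ := hy
        rw [mul_assoc, c22]
      calc y = y * (u * f * (u * f')) := by rw [hu21, hy2]
        _ = y * (u * f) * (u * f') := by noncomm_ring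
        _ = 0 := by rw [h1, zero_mul]
    -- the complement
    have hp00 : p 0 = 0 := by
      ext v
      let W : Submodule K V :=
        { carrier := {v | s v = v ∧ p 0 v = 0}
          add_mem' := by
            rintro a b ⟨h1, h2⟩ ⟨h3, h4⟩
            exact ⟨by rw [map_add, h1, h3], by rw [map_add, h2, h4, add_zero]⟩
          zero_mem' := by simp
          smul_mem' := by
            rintro c a ⟨h1, h2⟩
            exact ⟨by rw [map_smul, h1], by rw [map_smul, h2, smul_zero]⟩ }
      have h1 : p 0 v ∈ W := by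
        refine A3_vec h G.F.s_mem G.F.s_sq (W := W) (fun w hw => hw.1) ?_ ?_ (hs0v v)
        · intro h0
          have h2 : p 1 x₀ ∈ W := ⟨hs1v x₀, by
            rw [← Module.End.mul_apply, c01, LinearMap.zero_apply]⟩
          rw [h0, Submodule.mem_bot] at h2
          exact hx₀ h2
        · rintro Z ⟨hZ, hsZ⟩ w ⟨hw1, hw2⟩
          refine ⟨by rw [← Module.End.mul_apply, hsZ, Module.End.mul_apply, hw1], ?_⟩
          have h3 := hPsum w hw1
          rw [hw2, zero_add] at h3
          rw [← h3, map_add, map_add]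
          have h4 := ap w (hLL01 _ ⟨Z, hZ, rfl⟩)
          have h5 := ap w (hLL02 _ ⟨Z, hZ, rfl⟩)
          simp only [Module.End.mul_apply, LinearMap.zero_apply] at h4 h5
          rw [h4, h5, add_zero]
      have h2 := h1.2
      rw [← Module.End.mul_apply, c00] at h2
      rw [h2]; rfl
    rw [p0] at hp00
    rw [p1, p2]
    rw [sub_sub, sub_eq_zero] at hp00
    exact hp00
  · left
    intro T
    have hMp : ∀ m ∈ M, p 1 * m = m ∧ m * p 1 = m := by
      intro m hm
      rw [hMdef] at hm
      induction hm using Submodule.span_induction with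
      | mem m hm =>
        obtain ⟨_, ⟨X, hX, rfl⟩, _, ⟨Y, hY, rfl⟩, rfl⟩ := hm
        constructor
        · simp only [← mul_assoc]; rw [c11]
        · simp only [mul_assoc]; rw [c11]
      | zero => simp
      | add a b _ _ h1 h2 => exact ⟨by rw [mul_add, h1.1, h2.1], by rw [add_mul, h1.2, h2.2]⟩
      | smul r a _ h1 => exact ⟨by rw [mul_smul_comm, h1.1], by rw [smul_mul_assoc, h1.2]⟩
    have hT := P5_ideal c11 M hMp (fun T m hm => (hCM _ (hall T) m hm).1)
      (fun T m hm => (hCM _ (hall T) m hm).2) hM0 T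
    have hfin : ∀ m ∈ M, m * (u * f') ∈ LL L (p 1) (p 2) := by
      intro m hm
      rw [hMdef] at hm
      induction hm using Submodule.span_induction with
      | mem m hm =>
        obtain ⟨x, hx, y, hy, rfl⟩ := hm
        rw [mul_assoc]
        exact P3_mul hl B n10 n20.symm n12 hx (P3_mul hl B n10.symm n12 n20.symm hy hu1)
      | zero => rw [zero_mul]; exact (LL L (p 1) (p 2)).zero_mem
      | add a b _ _ h1 h2 => rw [add_mul]; exact (LL L (p 1) (p 2)).add_mem h1 h2
      | smul r a _ h1 => rw [smul_mul_assoc]; exact (LL L (p 1) (p 2)).smul_mem r h1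
    exact hfin _ hT

end Pool.Agent.H49M
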