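import Pool.Agent.Lib.H49M.P2

/-!
# P6: the norm relation and the case of a full corner
-/

set_option autoImplicit false
set_option linter.unusedSectionVars false
namespace Pool.Agent.H49M
open Module Pool.Agent.H53Toric

variable {K : Type*} [Field K] {V : Type*} [AddCommGroup V] [Module K V]

variable {L : Submodule K (Module.End K V)} {ω : V →ₗ[K] V →ₗ[K] K}
  {adj : Module.End K V →ₗ[K] Module.End K V}

/-- Chunk P6a. Let `a = p 1 a p 1` with `a u₁ ∈ LL (p 1)(p 2)`, `u₁ = u f'`, `p = pp ..`. Then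
`a e adj(a) = c e`. Proof: `Z = a u₁ - adj (a u₁) ∈ L`: if `a u₁ = p 1 X p 2` with `X ∈ L`, then
`p 1 X p 2 + q 2 X q 1 ∈ L` (`m0`) and `adj (p 1 X p 2) = q 2 adj X q 1 = - q 2 X q 1`. With
`b = a u₁` (`= p 1 b p 2`) and `b' = adj b` (`= q 2 b' q 1`), `e' = p 2 e' q 2`:
`[Z, e'] = b e' + e' b'` and `[Z, [Z, e']] = 2 b e' b'`, so `b e' b' ∈ L`, and it equals
`p 1 (b e' b') q 1 ∈ K e` (`K0_ext`). Finally `u₁ e' adj u₁ = u f' e' f' u = u f' u = e`
(`adj (u f') = adj f' adj u = f' u`), and `b e' b' = a (u₁ e' adj u₁) adj a = a e adj a`. -/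
theorem P6_norm [CharZero K] (h : Core L ω adj) {s e f e' f' u : Module.End K V}
    (G : Grid L s e f e' f' u) {a : Module.End K V} (ha1 : e * f * a = a) (ha2 : a * (e * f) = a)
    (ha : a * (u * f') ∈ LL L (e * f) (e' * f')) : ∃ c : K, a * e * adj a = c • e := by
  have hl := h.lie
  have B := P2_blocks h G
  obtain ⟨p, hp⟩ : ∃ p, p = pp s e f e' f' := ⟨_, rfl⟩
  obtain ⟨q, hq⟩ : ∃ q, q = qq s e f e' f' := ⟨_, rfl⟩
  rw [← hp, ← hq] at B
  have p1 : p 1 = e * f := by rw [hp]; rfl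
  have p2 : p 2 = e' * f' := by rw [hp]; rfl
  have q1 : q 1 = f * e := by rw [hq]; rfl
  have q2 : q 2 = f' * e' := by rw [hq]; rfl
  obtain ⟨X, hX, hb⟩ := ha
  rw [← p1, ← p2] at hb
  have hb' : adj (p 1 * X * p 2) = -(q 2 * X * q 1) := by
    rw [A0_mul h, A0_mul h, B.adjp, B.adjp, h.skew X hX]
    noncomm_ring
  have hZ := B.m0 X hX 1 2 (by decide)
  have he'L := G.F'.e_mem.1
  have h1 := hl _ hZ _ he'L
  have h2 := hl _ hZ _ h1
  have hee' : e * e' = 0 := A2_pp G.F.e_mem G.F'.e_mem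
  have he'e : e' * e = 0 := A2_pp G.F'.e_mem G.F.e_mem
  have c1 : q 1 * e' = 0 := by rw [q1, mul_assoc, hee', mul_zero]
  have c2 : e' * p 1 = 0 := by rw [p1, ← mul_assoc, he'e, zero_mul]
  have c3 : p 2 * p 1 = 0 := by rw [B.pp, if_neg (by decide)]
  have c4 : q 1 * q 2 = 0 := by rw [B.qq, if_neg (by decide)]
  have c5 : q 1 * p 1 = 0 := B.qp 1 1
  have e1 : (p 1 * X * p 2 + q 2 * X * q 1) * e' - e' * (p 1 * X * p 2 + q 2 * X * q 1) =
      p 1 * X * p 2 * e' - e' * (q 2 * X * q 1) := by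
    calc (p 1 * X * p 2 + q 2 * X * q 1) * e' - e' * (p 1 * X * p 2 + q 2 * X * q 1)
        = p 1 * X * p 2 * e' + q 2 * X * (q 1 * e') - ((e' * p 1) * X * p 2 +
          e' * (q 2 * X * q 1)) := by noncomm_ring
      _ = _ := by rw [c1, c2]; simp
  have e2 : (p 1 * X * p 2 + q 2 * X * q 1) * (p 1 * X * p 2 * e' - e' * (q 2 * X * q 1)) -
      (p 1 * X * p 2 * e' - e' * (q 2 * X * q 1)) * (p 1 * X * p 2 + q 2 * X * q 1) =
      (-2 : K) • (p 1 * X * p 2 * e' * (q 2 * X * q 1)) := by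
    calc (p 1 * X * p 2 + q 2 * X * q 1) * (p 1 * X * p 2 * e' - e' * (q 2 * X * q 1)) -
      (p 1 * X * p 2 * e' - e' * (q 2 * X * q 1)) * (p 1 * X * p 2 + q 2 * X * q 1)
        = p 1 * X * (p 2 * p 1) * X * p 2 * e' + q 2 * X * (q 1 * p 1) * X * p 2 * e'
          - q 2 * X * (q 1 * e') * (q 2 * X * q 1)
          - p 1 * X * p 2 * (e' * p 1) * X * p 2
          + e' * q 2 * X * (q 1 * p 1) * X * p 2 + e' * q 2 * X * (q 1 * q 2) * X * q 1
          - (p 1 * X * p 2 * e' * (q 2 * X * q 1) + p 1 * X * p 2 * e' * (q 2 * X * q 1)) := by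
          noncomm_ring
      _ = -(p 1 * X * p 2 * e' * (q 2 * X * q 1) + p 1 * X * p 2 * e' * (q 2 * X * q 1)) := by
          rw [c1, c2, c3, c4, c5]; simp
      _ = _ := by module
  rw [e1, e2] at h2
  obtain ⟨c, hc⟩ := K0_ext hl G.F h2
  have e3 : e * f * ((-2 : K) • (p 1 * X * p 2 * e' * (q 2 * X * q 1))) * (f * e) =
      (-2 : K) • (p 1 * X * p 2 * e' * (q 2 * X * q 1)) := by
    rw [mul_smul_comm, smul_mul_assoc, ← p1, ← q1]
    congr 1
    calc p 1 * (p 1 * X * p 2 * e' * (q 2 * X * q 1)) * q 1 =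
        (p 1 * p 1) * X * p 2 * e' * (q 2 * X * (q 1 * q 1)) := by noncomm_ring
      _ = _ := by rw [B.pp, if_pos rfl, B.qq, if_pos rfl]
  rw [e3] at hc
  have e4 : a * e * adj a = p 1 * X * p 2 * e' * adj (p 1 * X * p 2) := by
    rw [← hb, A0_mul h, A0_mul h, h.skew f' G.F'.f_mem.1, h.skew u G.u_mem.1, neg_mul_neg]
    calc a * e * adj a = a * (u * f' * u) * adj a := by rw [G.ufu']
      _ = a * (u * (f' * e' * f') * u) * adj a := by rw [G.F'.fef]
      _ = _ := by noncomm_ring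
  refine ⟨(1 / 2 : K) * c, ?_⟩
  rw [e4, hb', mul_smul, ← hc, smul_smul, mul_neg, ← neg_one_smul K]
  norm_num

/-- Chunk P6b. If the conclusion of `P6_norm` holds for all corner operators, the rank is one. The
bilinear form `β(v, w) = ω (v, e w)` on `V` is symmetric (`ω(v, e w) = -ω(e v, w) = ω(w, e v)` since
`adj e = -e`) and nonzero, so there is `v₀` with `ω (v₀, e v₀) ≠ 0`. Let `g = (e v₀) ⊗ ω(·, v₀)`... :
take the rank one operator `a v = ω (v, v₀) • (e v₀)`; it satisfies `p a = a` (`p e = e`), but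
`a p = a` may fail: use `a' = a p`: `a' v = ω (p v, v₀) • e v₀ = ω (v, q v₀) • e v₀` with
`q = adj p = f e`, and `e q = e`: so replace `v₀` by `q v₀` (same values `e v₀`, `ω(v₀, e v₀)`:
`ω(q v₀, e q v₀) = ω(q v₀, e v₀) = ω (v₀, p e v₀)`). Then `a e adj a` is, by
`adj a : w ↦ - ω (w, e v₀)... • v₀` up to sign, the operator `w ↦ ± ω(e v₀, v₀) ω(w, e v₀) e v₀`, which
is not zero and has rank one; being `c e` with `c ≠ 0`, `e` has rank one. -/
theorem P6_one [CharZero K] [FiniteDimensional K V] (h : Core L ω adj)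
    {s e f e' f' u : Module.End K V} (G : Grid L s e f e' f' u)
    (hall : ∀ T : Module.End K V, e * f * T * (e * f) * (u * f') ∈ LL L (e * f) (e' * f')) :
    finrank K (LinearMap.range e) = 1 := by
  have hskew : ∀ v w, ω v w = -ω w v := by
    intro v w
    have h1 := h.alt (v + w)
    simp only [map_add, LinearMap.add_apply] at h1
    rw [h.alt v, h.alt w, zero_add, add_zero] at h1
    exact eq_neg_of_add_eq_zero_right h1
  have hae : adj e = -e := h.skew e G.F.e_mem.1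
  have hsym : ∀ v w, ω v (e w) = ω w (e v) := by
    intro v w
    rw [hskew, h.spec, hae, LinearMap.neg_apply, map_neg, neg_neg]
  -- a vector with nonzero value
  obtain ⟨v₀, hv₀⟩ : ∃ v, ω v (e v) ≠ 0 := by
    by_contra hcon
    push Not at hcon
    apply G.F.e_ne
    ext w
    apply h.nd
    intro v
    have h1 := hcon (v + w)
    simp only [map_add, LinearMap.add_apply] at h1
    rw [hcon v, hcon w, zero_add, add_zero, hsym w v, ← two_mul] at h1
    have h2 := (mul_eq_zero.mp h1).resolve_left two_ne_zero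
    rw [hskew, h2, neg_zero]
  have hev : e v₀ ≠ 0 := by
    intro h0; rw [h0, map_zero] at hv₀; exact hv₀ rfl
  -- the rank one operator
  obtain ⟨T, hT⟩ : ∃ T : Module.End K V, ∀ v, T v = ω v v₀ • e v₀ :=
    ⟨(ω.flip v₀).smulRight (e v₀), fun v => rfl⟩
  have hpe : ∀ v, (e * f) (e v) = e v := by
    intro v
    rw [← Module.End.mul_apply, G.F.efe]
  have hTe : ∀ v, (e * f * T * (e * f)) (e v) = ω (e v) v₀ • e v₀ := by
    intro v
    rw [Module.End.mul_apply, Module.End.mul_apply, hpe, hT, map_smul, hpe]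
  obtain ⟨a, ha⟩ : ∃ a, a = e * f * T * (e * f) := ⟨_, rfl⟩
  have t1 : e * f * (e * f) = e * f := by rw [← mul_assoc, G.F.efe]
  obtain ⟨c, hc⟩ := P6_norm h G (a := a) (by rw [ha, mul_assoc (e * f) T, ← mul_assoc (e * f), t1])
    (by rw [ha, mul_assoc _ (e * f) (e * f), t1]) (by rw [ha]; exact hall T)
  rw [← ha] at hTe
  have hval : ∀ w, c • e w = (ω v₀ (e v₀) * ω w (e v₀)) • e v₀ := by
    intro w
    have h1 := LinearMap.congr_fun hc w
    rw [Module.End.mul_apply, Module.End.mul_apply, hTe, LinearMap.smul_apply] at h1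
    rw [← h1]
    congr 1
    have h2 : ω (adj a w) (e v₀) = ω w (a (e v₀)) := by
      rw [h.spec, A0_adj h]
    rw [h.spec, hae, LinearMap.neg_apply, map_neg, h2, hTe, map_smul, smul_eq_mul, hskew (e v₀) v₀]
    ring
  have hc0 : c ≠ 0 := by
    intro h0
    have h1 := hval v₀
    rw [h0, zero_smul] at h1
    rcases smul_eq_zero.mp h1.symm with h2 | h2
    · exact hv₀ (mul_self_eq_zero.mp h2)
    · exact hev h2
  have hrange : LinearMap.range e = Submodule.span K {e v₀} := by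
    apply le_antisymm
    · rintro _ ⟨w, rfl⟩
      rw [Submodule.mem_span_singleton]
      refine ⟨c⁻¹ * (ω v₀ (e v₀) * ω w (e v₀)), ?_⟩
      rw [mul_smul, ← hval w, smul_smul, inv_mul_cancel₀ hc0, one_smul]
    · rw [Submodule.span_singleton_le_iff_mem]
      exact ⟨v₀, rfl⟩
  rw [hrange]
  exact finrank_span_singleton hev

end Pool.Agent.H49M
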