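import Mathlib

/-!
# P7: irreducible Clifford modules
-/

set_option autoImplicit false
set_option linter.unusedSectionVars false
namespace Pool.Agent.H49M
open Module

variable {K : Type*} [Field K]

/-- A square zero operator anticommuting with everything vanishes. -/
theorem P7_zero [CharZero K] {W : Type*} [AddCommGroup W] [Module K W] [Nontrivial W]
    {J : Submodule K (Module.End K W)}
    (hirr : ∀ U : Submodule K W, (∀ w ∈ J, ∀ u ∈ U, w u ∈ U) → U = ⊥ ∨ U = ⊤)
    {w₀ : Module.End K W} (h0 : w₀ * w₀ = 0) (ha : ∀ w ∈ J, ∃ T : Module.End K W, w * w₀ = w₀ * T) :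
    w₀ = 0 := by
  rcases hirr (LinearMap.range w₀) (by
    rintro w hw _ ⟨v, rfl⟩
    obtain ⟨T, hT⟩ := ha w hw
    rw [← Module.End.mul_apply, hT]
    exact ⟨T v, rfl⟩) with h1 | h1
  · exact LinearMap.range_eq_bot.mp h1
  · exfalso
    obtain ⟨v, hv⟩ := exists_ne (0 : W)
    have hv1 : v ∈ LinearMap.range w₀ := by rw [h1]; trivial
    obtain ⟨x, rfl⟩ := hv1
    have hx1 : x ∈ LinearMap.range w₀ := by rw [h1]; trivial
    obtain ⟨y, rfl⟩ := hx1
    apply hv
    rw [← Module.End.mul_apply, h0, LinearMap.zero_apply]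

/-- The case without two anticommuting involutions. -/
theorem P7_line [IsAlgClosed K] {W : Type*} [AddCommGroup W] [Module K W]
    [FiniteDimensional K W] [Nontrivial W] {J : Submodule K (Module.End K W)}
    (hirr : ∀ U : Submodule K W, (∀ w ∈ J, ∀ u ∈ U, w u ∈ U) → U = ⊥ ∨ U = ⊤)
    {w₁ : Module.End K W} (hJ : ∀ w ∈ J, ∃ c : K, w = c • w₁) : finrank K W = 1 := by
  obtain ⟨l, hl⟩ := Module.End.exists_eigenvalue w₁
  obtain ⟨v, hv⟩ := hl.exists_hasEigenvector
  have h1 : Submodule.span K {v} = ⊤ := by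
    refine (hirr _ ?_).resolve_left ?_
    · intro w hw u hu
      obtain ⟨c, rfl⟩ := hJ w hw
      rw [Submodule.mem_span_singleton] at hu ⊢
      obtain ⟨a, rfl⟩ := hu
      refine ⟨a * c * l, ?_⟩
      rw [LinearMap.smul_apply, map_smul, Module.End.mem_eigenspace_iff.mp hv.1, smul_smul,
        smul_smul]
      ring_nf
    · rw [Submodule.span_singleton_eq_bot]; exact hv.2
  have h2 := finrank_span_singleton (K := K) hv.2
  rw [h1, finrank_top] at h2
  exact h2

theorem P7_polar [CharZero K] {W : Type*} [AddCommGroup W] [Module K W]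
    {J : Submodule K (Module.End K W)} (hJ : ∀ w ∈ J, ∃ c : K, w * w = c • 1)
    {a b : Module.End K W} (ha : a ∈ J) (hb : b ∈ J) : ∃ c : K, a * b + b * a = c • 1 := by
  obtain ⟨x, hx⟩ := hJ a ha
  obtain ⟨y, hy⟩ := hJ b hb
  obtain ⟨z, hz⟩ := hJ (a + b) (J.add_mem ha hb)
  refine ⟨z - x - y, ?_⟩
  rw [sub_smul, sub_smul, ← hz, ← hx, ← hy]
  noncomm_ring

/-- An operator with nonzero scalar square can be scaled to an involution. -/
theorem P7_scale [IsAlgClosed K] {W : Type*} [AddCommGroup W] [Module K W]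
    {a : Module.End K W} {c : K} (hc : a * a = c • 1) (hc0 : c ≠ 0) :
    ∃ t : K, t ≠ 0 ∧ (t • a) * (t • a) = 1 := by
  obtain ⟨z, hz⟩ := IsAlgClosed.exists_pow_nat_eq c (n := 2) (by norm_num)
  have hz0 : z ≠ 0 := by
    rintro rfl
    apply hc0
    rw [← hz]; norm_num
  refine ⟨z⁻¹, inv_ne_zero hz0, ?_⟩
  rw [smul_mul_smul_comm, hc, smul_smul, ← hz]
  field_simp
  simp

/-- Chunk P7. An irreducible space `J` of operators all of whose squares are scalar acts on a space
whose dimension is a power of two. Strong induction on `dim W`. Polarising, `w w' + w' w` is scalar,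
`= 2 β(w, w')`. `β` is nondegenerate: if `β(w₀, ·) = 0`, the range of `w₀` is `J`-stable and
proper (`w₀² = 0`), so `w₀ = 0`. If `dim J ≤ 1` the algebra generated is commutative and
`dim W = 1` (an eigenvector of the generator spans a stable line). Otherwise choose
`w₁, w₂ ∈ J` with `w₁² = w₂² = 1`, `w₁ w₂ = - w₂ w₁` (algebraically closed, char ≠ 2), `θ = w₁ w₂`,
`θ² = -1`, `i² = -1`, `W₁ = ker (θ - i)`; `w₁` maps `W₁` isomorphically onto `ker (θ + i)`, so
`dim W = 2 dim W₁`. Let `J' = {w ∈ J : β(w, w₁) = β(w, w₂) = 0}`; its elements anticommute with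
`w₁, w₂`, commute with `θ`, act on `W₁`; `J = K w₁ + K w₂ + J'`. `W₁` is irreducible under `J'`:
for `0 ≠ Y ≤ W₁` stable, `Y + w₁ Y` is stable under `J'`, `w₁` and `w₂ = w₁ θ`, so it is `W` and
`Y = W₁`. Apply the induction hypothesis to the restrictions of `J'` to `W₁`. -/
theorem P7_cliff [CharZero K] [IsAlgClosed K] (n : ℕ) : ∀ (W : Type*) [AddCommGroup W]
    [Module K W] [FiniteDimensional K W] [Nontrivial W] (J : Submodule K (Module.End K W)),
    finrank K W = n → (∀ w ∈ J, ∃ c : K, w * w = c • 1) →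
    (∀ U : Submodule K W, (∀ w ∈ J, ∀ u ∈ U, w u ∈ U) → U = ⊥ ∨ U = ⊤) →
    ∃ t : ℕ, finrank K W = 2 ^ t := by
  induction n using Nat.strong_induction_on with
  | _ n ih =>
  intro W _ _ _ _ J hn hJ hirr
  by_cases hA : ∃ w₁ ∈ J, ∃ w₂ ∈ J, w₁ * w₁ = 1 ∧ w₂ * w₂ = 1 ∧ w₁ * w₂ = -(w₂ * w₁)
  · obtain ⟨w₁, hw₁, w₂, hw₂, h11, h22, h12⟩ := hA
    obtain ⟨i, hi⟩ := IsAlgClosed.exists_pow_nat_eq (-1 : K) (n := 2) (by norm_num)
    have hi0 : i ≠ 0 := by rintro rfl; norm_num at hi
    obtain ⟨θ, hθ⟩ : ∃ θ, θ = w₁ * w₂ := ⟨_, rfl⟩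
    have h21 : w₂ * w₁ = -(w₁ * w₂) := by rw [h12, neg_neg]
    have hθθ : θ * θ = -1 := by
      rw [hθ]
      calc w₁ * w₂ * (w₁ * w₂) = w₁ * (w₂ * w₁) * w₂ := by noncomm_ring
        _ = -((w₁ * w₁) * (w₂ * w₂)) := by rw [h21]; noncomm_ring
        _ = -1 := by rw [h11, h22, one_mul]
    have hw1θ : w₁ * θ = w₂ := by rw [hθ, ← mul_assoc, h11, one_mul]
    have hθw1 : θ * w₁ = -w₂ := by
      rw [hθ, mul_assoc, h21, mul_neg, ← mul_assoc, h11, one_mul]
    obtain ⟨W₁, hW₁⟩ : ∃ W₁ : Submodule K W, W₁ = LinearMap.ker (θ - i • 1) := ⟨_, rfl⟩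
    obtain ⟨W₂, hW₂⟩ : ∃ W₂ : Submodule K W, W₂ = LinearMap.ker (θ + i • 1) := ⟨_, rfl⟩
    have m1 : ∀ {v : W}, v ∈ W₁ ↔ θ v = i • v := by
      intro v
      rw [hW₁, LinearMap.mem_ker, LinearMap.sub_apply, LinearMap.smul_apply,
        Module.End.one_apply, sub_eq_zero]
    have m2 : ∀ {v : W}, v ∈ W₂ ↔ θ v = -(i • v) := by
      intro v
      rw [hW₂, LinearMap.mem_ker, LinearMap.add_apply, LinearMap.smul_apply,
        Module.End.one_apply]
      constructor
      · intro h; exact eq_neg_of_add_eq_zero_left h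
      · intro h; rw [h]; simp
    have hθv : ∀ v, θ (θ v) = -v := by
      intro v
      rw [← Module.End.mul_apply, hθθ]; rfl
    have h1v : ∀ v, w₁ (w₁ v) = v := by
      intro v
      rw [← Module.End.mul_apply, h11]; rfl
    have hθ1 : ∀ v, θ (w₁ v) = -(w₁ (θ v)) := by
      intro v
      rw [← Module.End.mul_apply, hθw1, ← Module.End.mul_apply, hw1θ]; rfl
    have hinj : Function.Injective w₁ := by
      intro a b hab
      rw [← h1v a, hab, h1v]
    have hmap : W₁.map w₁ = W₂ := by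
      ext v
      constructor
      · rintro ⟨u, hu, rfl⟩
        rw [m2, hθ1, m1.mp hu, map_smul]
      · intro hv
        refine ⟨w₁ v, ?_, h1v v⟩
        rw [SetLike.mem_coe, m1, hθ1, m2.mp hv, map_neg, neg_neg, map_smul]
    have hfin : finrank K W₁ = finrank K W₂ := by
      rw [← hmap]
      exact (Submodule.equivMapOfInjective w₁ hinj W₁).finrank_eq
    have hinf : W₁ ⊓ W₂ = ⊥ := by
      rw [eq_bot_iff]
      rintro v ⟨hv1, hv2⟩
      have e1 := m1.mp hv1
      have e2 := m2.mp hv2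
      rw [e1] at e2
      have e3 : (2 * i) • v = 0 := by
        rw [two_mul, add_smul]
        nth_rewrite 1 [e2]
        exact neg_add_cancel _
      rw [Submodule.mem_bot]
      exact (smul_eq_zero.mp e3).resolve_left (mul_ne_zero two_ne_zero hi0)
    have hsup : W₁ ⊔ W₂ = ⊤ := by
      rw [eq_top_iff]
      intro v _
      rw [Submodule.mem_sup]
      have hii : i * i = -1 := by rw [← hi]; ring
      refine ⟨(1 / 2 : K) • (v - i • θ v), ?_, (1 / 2 : K) • (v + i • θ v), ?_, ?_⟩
      · have e1 : i • (v - i • θ v) = i • v + θ v := by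
          rw [smul_sub, smul_smul, hii, neg_one_smul, sub_neg_eq_add]
        rw [m1, map_smul, map_sub, map_smul, hθv, smul_comm i, e1, smul_neg, sub_neg_eq_add,
          add_comm]
      · have e1 : i • (v + i • θ v) = i • v - θ v := by
          rw [smul_add, smul_smul, hii, neg_one_smul, ← sub_eq_add_neg]
        rw [m2, map_smul, map_add, map_smul, hθv, smul_comm i, e1]
        module
      · rw [← smul_add]
        have : v - i • θ v + (v + i • θ v) = (2 : K) • v := by rw [two_smul]; abel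
        rw [this, smul_smul]; norm_num
    have hdim : finrank K W = 2 * finrank K W₁ := by
      have := Submodule.finrank_sup_add_finrank_inf_eq W₁ W₂
      rw [hinf, hsup, finrank_bot, finrank_top, ← hfin] at this
      omega
    have hpos : 0 < finrank K W := finrank_pos
    have hW₁pos : 0 < finrank K W₁ := by omega
    have : Nontrivial W₁ := finrank_pos_iff.mp hW₁pos
    -- the smaller space of operators
    let J' : Submodule K (Module.End K W₁) :=
      { carrier := {T | ∃ w ∈ J, w * w₁ = -(w₁ * w) ∧ w * w₂ = -(w₂ * w) ∧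
          ∀ u : W₁, ((T u : W₁) : W) = w u}
        add_mem' := by
          rintro S T ⟨a, ha, a1, a2, a3⟩ ⟨b, hb, b1, b2, b3⟩
          refine ⟨a + b, J.add_mem ha hb, ?_, ?_, ?_⟩
          · rw [add_mul, a1, b1, mul_add]; abel
          · rw [add_mul, a2, b2, mul_add]; abel
          · intro u
            rw [LinearMap.add_apply, LinearMap.add_apply, Submodule.coe_add, a3, b3]
        zero_mem' := ⟨0, J.zero_mem, by simp, by simp, by simp⟩
        smul_mem' := by
          rintro c T ⟨a, ha, a1, a2, a3⟩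
          refine ⟨c • a, J.smul_mem c ha, ?_, ?_, ?_⟩
          · rw [smul_mul_assoc, a1, mul_smul_comm, smul_neg]
          · rw [smul_mul_assoc, a2, mul_smul_comm, smul_neg]
          · intro u
            rw [LinearMap.smul_apply, LinearMap.smul_apply, Submodule.coe_smul, a3] }
    have hstab : ∀ w : Module.End K W, w * w₁ = -(w₁ * w) → w * w₂ = -(w₂ * w) →
        ∀ u ∈ W₁, w u ∈ W₁ := by
      intro w a1 a2 u hu
      have : w * θ = θ * w := by
        rw [hθ, ← mul_assoc, a1, neg_mul, mul_assoc w₁ w, a2, mul_neg, neg_neg, mul_assoc]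
      rw [m1] at hu ⊢
      rw [← Module.End.mul_apply, ← this, Module.End.mul_apply, hu, map_smul]
    have hsq : ∀ w ∈ J', ∃ c : K, w * w = c • 1 := by
      rintro T ⟨w, hw, a1, a2, a3⟩
      obtain ⟨c, hc⟩ := hJ w hw
      refine ⟨c, ?_⟩
      ext u
      have : w (w u) = c • (u : W) := by
        rw [← Module.End.mul_apply, hc]; rfl
      rw [Module.End.mul_apply, a3, a3, this]; rfl
    have hirr' : ∀ U : Submodule K W₁, (∀ w ∈ J', ∀ u ∈ U, w u ∈ U) → U = ⊥ ∨ U = ⊤ := by
      intro Y hY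
      by_cases hY0 : Y = ⊥
      · exact Or.inl hY0
      right
      obtain ⟨Z, hZ⟩ : ∃ Z : Submodule K W, Z = Y.map W₁.subtype := ⟨_, rfl⟩
      have hZW : ∀ z ∈ Z, z ∈ W₁ := by
        rw [hZ]; rintro _ ⟨y, _, rfl⟩; exact y.2
      have hZst : ∀ w ∈ J, w * w₁ = -(w₁ * w) → w * w₂ = -(w₂ * w) → ∀ z ∈ Z, w z ∈ Z := by
        intro w hw a1 a2
        rw [hZ]
        rintro _ ⟨y, hy, rfl⟩
        refine ⟨_, hY (w.restrict (hstab w a1 a2)) ⟨w, hw, a1, a2, fun u => rfl⟩ y hy, rfl⟩
      have htop : Z ⊔ Z.map w₁ = ⊤ := by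
        refine (hirr _ ?_).resolve_left ?_
        · intro w hw u hu
          obtain ⟨c1, hc1⟩ := P7_polar hJ hw hw₁
          obtain ⟨c2, hc2⟩ := P7_polar hJ hw hw₂
          obtain ⟨w', hw'⟩ : ∃ w', w' = w - (c1 / 2) • w₁ - (c2 / 2) • w₂ := ⟨_, rfl⟩
          have hw'J : w' ∈ J := by
            rw [hw']
            exact J.sub_mem (J.sub_mem hw (J.smul_mem _ hw₁)) (J.smul_mem _ hw₂)
          have a1 : w' * w₁ = -(w₁ * w') := by
            rw [eq_neg_iff_add_eq_zero, hw']
            have : (w - (c1 / 2) • w₁ - (c2 / 2) • w₂) * w₁ +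
                w₁ * (w - (c1 / 2) • w₁ - (c2 / 2) • w₂) = (w * w₁ + w₁ * w) -
                (c1 / 2) • (w₁ * w₁ + w₁ * w₁) - (c2 / 2) • (w₂ * w₁ + w₁ * w₂) := by
              simp only [sub_mul, mul_sub, smul_mul_assoc, mul_smul_comm, smul_add]
              abel
            rw [this, hc1, h11, h21, neg_add_cancel, smul_zero, sub_zero, ← two_smul K, smul_smul,
              ← sub_smul]
            rw [div_mul_cancel₀ c1 two_ne_zero, sub_self, zero_smul]
          have a2 : w' * w₂ = -(w₂ * w') := by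
            rw [eq_neg_iff_add_eq_zero, hw']
            have : (w - (c1 / 2) • w₁ - (c2 / 2) • w₂) * w₂ +
                w₂ * (w - (c1 / 2) • w₁ - (c2 / 2) • w₂) = (w * w₂ + w₂ * w) -
                (c2 / 2) • (w₂ * w₂ + w₂ * w₂) - (c1 / 2) • (w₂ * w₁ + w₁ * w₂) := by
              simp only [sub_mul, mul_sub, smul_mul_assoc, mul_smul_comm, smul_add]
              abel
            rw [this, hc2, h22, h21, neg_add_cancel, smul_zero, sub_zero, ← two_smul K, smul_smul,
              ← sub_smul]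
            rw [div_mul_cancel₀ c2 two_ne_zero, sub_self, zero_smul]
          have hwe : w = w' + (c1 / 2) • w₁ + (c2 / 2) • w₂ := by rw [hw']; abel
          have s1 : ∀ z ∈ Z ⊔ Z.map w₁, w₁ z ∈ Z ⊔ Z.map w₁ := by
            intro z hz
            rw [Submodule.mem_sup] at hz
            obtain ⟨y, hy, _, ⟨x, hx, rfl⟩, rfl⟩ := hz
            rw [map_add, h1v]
            exact add_mem (Submodule.mem_sup_right ⟨y, hy, rfl⟩) (Submodule.mem_sup_left hx)
          have s2 : ∀ z ∈ Z ⊔ Z.map w₁, θ z ∈ Z ⊔ Z.map w₁ := by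
            intro z hz
            rw [Submodule.mem_sup] at hz
            obtain ⟨y, hy, _, ⟨x, hx, rfl⟩, rfl⟩ := hz
            rw [map_add, hθ1, m1.mp (hZW y hy), m1.mp (hZW x hx), map_smul]
            exact add_mem (Submodule.mem_sup_left (Z.smul_mem _ hy))
              (neg_mem (Submodule.smul_mem _ _ (Submodule.mem_sup_right ⟨x, hx, rfl⟩)))
          have s3 : ∀ z ∈ Z ⊔ Z.map w₁, w' z ∈ Z ⊔ Z.map w₁ := by
            intro z hz
            rw [Submodule.mem_sup] at hz
            obtain ⟨y, hy, _, ⟨x, hx, rfl⟩, rfl⟩ := hz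
            have e1 : w' (w₁ x) = -(w₁ (w' x)) := by
              rw [← Module.End.mul_apply, a1]; rfl
            rw [map_add, e1]
            exact add_mem (Submodule.mem_sup_left (hZst w' hw'J a1 a2 y hy))
              (neg_mem (Submodule.mem_sup_right ⟨_, hZst w' hw'J a1 a2 x hx, rfl⟩))
          rw [hwe]
          have e2 : (w' + (c1 / 2) • w₁ + (c2 / 2) • w₂) u =
              w' u + (c1 / 2) • w₁ u + (c2 / 2) • w₁ (θ u) := by
            rw [← Module.End.mul_apply w₁ θ, hw1θ]; rfl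
          rw [e2]
          exact add_mem (add_mem (s3 u hu) (Submodule.smul_mem _ _ (s1 u hu)))
            (Submodule.smul_mem _ _ (s1 _ (s2 u hu)))
        · intro h0
          apply hY0
          rw [eq_bot_iff]
          intro y hy
          have h4 : (y : W) ∈ Z ⊔ Z.map w₁ := Submodule.mem_sup_left (by rw [hZ]; exact ⟨y, hy, rfl⟩)
          rw [h0, Submodule.mem_bot] at h4
          exact Subtype.ext h4
      rw [eq_top_iff]
      rintro ⟨u, hu⟩ -
      have hu1 : u ∈ Z ⊔ Z.map w₁ := by rw [htop]; trivial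
      rw [Submodule.mem_sup] at hu1
      obtain ⟨y, hy, _, ⟨x, hx, rfl⟩, hyx⟩ := hu1
      have hx2 : w₁ x ∈ W₁ ⊓ W₂ := by
        constructor
        · have : w₁ x = u - y := by rw [← hyx]; abel
          rw [SetLike.mem_coe, this]
          exact W₁.sub_mem hu (hZW y hy)
        · rw [SetLike.mem_coe, m2, hθ1, m1.mp (hZW x hx), map_smul]
      rw [hinf, Submodule.mem_bot] at hx2
      rw [hx2, add_zero] at hyx
      rw [hZ] at hy
      obtain ⟨y', hy', hyy⟩ := hy
      have : y' = ⟨u, hu⟩ := Subtype.ext (hyy.trans hyx)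
      rwa [← this]
    obtain ⟨t, ht⟩ := ih (finrank K W₁) (by omega) W₁ J' rfl hsq hirr'
    exact ⟨t + 1, by rw [hdim, ht, pow_succ]; ring⟩
  · -- no pair
    refine ⟨0, ?_⟩
    rw [pow_zero]
    push Not at hA
    by_cases hB : ∃ w₁ ∈ J, w₁ * w₁ = 1
    · obtain ⟨w₁, hw₁, h11⟩ := hB
      refine P7_line (w₁ := w₁) hirr fun w hw => ?_
      obtain ⟨c1, hc1⟩ := P7_polar hJ hw hw₁
      refine ⟨c1 / 2, ?_⟩
      rw [← sub_eq_zero]
      obtain ⟨w₀, hw₀⟩ : ∃ w₀, w₀ = w - (c1 / 2) • w₁ := ⟨_, rfl⟩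
      have hJ₁ : ∀ v ∈ J, v * w₁ + w₁ * v = 0 → v * v = 0 := by
        intro v hv h1
        obtain ⟨c, hc⟩ := hJ v hv
        by_cases hc0 : c = 0
        · rw [hc, hc0, zero_smul]
        · exfalso
          obtain ⟨t, ht, htt⟩ := P7_scale hc hc0
          apply hA w₁ hw₁ (t • v) (J.smul_mem t hv) h11 htt
          rw [mul_smul_comm, smul_mul_assoc, ← smul_neg]
          congr 1
          exact eq_neg_of_add_eq_zero_right h1
      have hw₀J : w₀ ∈ J := by rw [hw₀]; exact J.sub_mem hw (J.smul_mem _ hw₁)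
      have hw₀1 : w₀ * w₁ + w₁ * w₀ = 0 := by
        rw [hw₀]
        have : (w - (c1 / 2) • w₁) * w₁ + w₁ * (w - (c1 / 2) • w₁) = (w * w₁ + w₁ * w) -
            (c1 / 2) • (w₁ * w₁ + w₁ * w₁) := by
          simp only [sub_mul, mul_sub, smul_mul_assoc, mul_smul_comm, smul_add]
          abel
        rw [this, hc1, h11, ← two_smul K, smul_smul, ← sub_smul, div_mul_cancel₀ c1 two_ne_zero,
          sub_self, zero_smul]
      rw [← hw₀]
      refine P7_zero hirr (hJ₁ w₀ hw₀J hw₀1) fun v hv => ?_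
      obtain ⟨c2, hc2⟩ := P7_polar hJ hv hw₁
      obtain ⟨v', hv'⟩ : ∃ v', v' = v - (c2 / 2) • w₁ := ⟨_, rfl⟩
      have hv'J : v' ∈ J := by rw [hv']; exact J.sub_mem hv (J.smul_mem _ hw₁)
      have hv'1 : v' * w₁ + w₁ * v' = 0 := by
        rw [hv']
        have : (v - (c2 / 2) • w₁) * w₁ + w₁ * (v - (c2 / 2) • w₁) = (v * w₁ + w₁ * v) -
            (c2 / 2) • (w₁ * w₁ + w₁ * w₁) := by
          simp only [sub_mul, mul_sub, smul_mul_assoc, mul_smul_comm, smul_add]
          abel
        rw [this, hc2, h11, ← two_smul K, smul_smul, ← sub_smul, div_mul_cancel₀ c2 two_ne_zero,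
          sub_self, zero_smul]
      have h3 := hJ₁ v' hv'J hv'1
      have h4 := hJ₁ w₀ hw₀J hw₀1
      have h5 := hJ₁ (v' + w₀) (J.add_mem hv'J hw₀J) (by
        rw [add_mul, mul_add]
        calc v' * w₁ + w₀ * w₁ + (w₁ * v' + w₁ * w₀) = (v' * w₁ + w₁ * v') +
              (w₀ * w₁ + w₁ * w₀) := by abel
          _ = 0 := by rw [hv'1, hw₀1, add_zero])
      have h6 : v' * w₀ = -(w₀ * v') := by
        have : (v' + w₀) * (v' + w₀) = v' * v' + w₀ * w₀ + (v' * w₀ + w₀ * v') := by noncomm_ring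
        rw [this, h3, h4, zero_add, zero_add] at h5
        exact eq_neg_of_add_eq_zero_left h5
      refine ⟨-v' - (c2 / 2) • w₁, ?_⟩
      have h7 : v = v' + (c2 / 2) • w₁ := by rw [hv']; abel
      rw [h7, add_mul, h6, smul_mul_assoc, eq_neg_of_add_eq_zero_right hw₀1, mul_sub, mul_neg,
        mul_smul_comm, smul_neg, sub_eq_add_neg]
    · push Not at hB
      have h0 : ∀ v ∈ J, v * v = 0 := by
        intro v hv
        obtain ⟨c, hc⟩ := hJ v hv
        by_cases hc0 : c = 0
        · rw [hc, hc0, zero_smul]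
        · exfalso
          obtain ⟨t, ht, htt⟩ := P7_scale hc hc0
          exact hB _ (J.smul_mem t hv) htt
      refine P7_line (w₁ := 0) hirr fun w hw => ⟨0, ?_⟩
      rw [smul_zero]
      refine P7_zero hirr (h0 w hw) fun v hv => ⟨-v, ?_⟩
      have h5 := h0 _ (J.add_mem hv hw)
      have : (v + w) * (v + w) = v * v + w * w + (v * w + w * v) := by noncomm_ring
      rw [this, h0 v hv, h0 w hw, zero_add, zero_add] at h5
      rw [mul_neg]
      exact eq_neg_of_add_eq_zero_left h5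

end Pool.Agent.H49M
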