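import Pool.Agent.Lib.H49M.P2
import Pool.Agent.Lib.H49M.P6
import Pool.Agent.Lib.H49M.P7
import Pool.Agent.Lib.H49M.K5
import Pool.Agent.Lib.H49M.P5

/-!
# P8: the case where two frames fill everything
-/

set_option autoImplicit false
set_option linter.unusedSectionVars false
namespace Pool.Agent.H49M
open Module Pool.Agent.H53Toric

variable {K : Type*} [Field K] {V : Type*} [AddCommGroup V] [Module K V]

variable {L : Submodule K (Module.End K V)} {ω : V →ₗ[K] V →ₗ[K] K}
  {adj : Module.End K V →ₗ[K] Module.End K V}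

/-- Chunk P8a. The dimension of `V₊` is twice the rank of `e`: `p 1 = e f`, `p 2 = e' f'` have the
same rank because `u₁ u₂ = p 1`, `u₂ u₁ = p 2` for `u₁ = u f'`, `u₂ = u f`; use `K0_rank`, `K5_eig`. -/
theorem P8_four [CharZero K] [IsAlgClosed K] [FiniteDimensional K V] [Nontrivial V]
    (h : Core L ω adj) {s e f e' f' u : Module.End K V} (G : Grid L s e f e' f' u)
    (h0 : (1 / 2 : K) • (1 + s) = e * f + e' * f') :
    finrank K V = 4 * finrank K (LinearMap.range e) := by
  obtain ⟨hu12, hu21⟩ := P3_u12 G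
  have t1 := (K0_rank G.F).2.2
  have t2 : LinearMap.trace K V (e' * f') = LinearMap.trace K V (e * f) := by
    rw [← hu12, ← hu21, LinearMap.trace_mul_comm]
  have t3 := (A1_setup h G.F.s_mem G.F.s_sq).tr s G.F.s_mem
  have h1 := congrArg (LinearMap.trace K V) h0
  rw [map_smul, map_add, map_add, t2, t1, t3, LinearMap.trace_one, add_zero, smul_eq_mul] at h1
  have h2 : (finrank K V : K) = ((4 * finrank K (LinearMap.range e) : ℕ) : K) := by
    push_cast
    linear_combination 2 * h1
  exact Nat.cast_injective h2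

/-- Chunk P8b. `j = f + f'`, `g = e + e'` satisfy `g j = (1+s)/2 =: P`, `j g = (1-s)/2 =: Q` (apply
`adj` to the hypothesis for the second). For `x ∈ Lp`: `p 1 x q 1 = c₁ e` (`K0_ext`),
`p 2 x q 2 = c₂ e'` (`K0_ext` for the frame `e', f'`), `x' = p 1 x q 2 + p 2 x q 1 ∈ L`. Put
`w = x j - (1/2)(c₁ + c₂) P = (1/2)(c₁ - c₂)(p 1 - p 2) + x' j`, an operator of `V₊ = range P`.
`w² ∈ K P`: `x' j` is off-diagonal: `x' j = p 1 x' f' + p 2 x' f` and anticommutes with
`p 1 - p 2`; `(x' j)² = p 1 x' f' x' f + p 2 x' f x' f'`, where `x' f' x' ∈ L` is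
`p 1 (x' f' x') q 1 = c e`, `x' f x' = c' e'`, so `(x' j)² = c p 1 + c' p 2`; `c = c'` because
`(x' j)² (x' j) = (x' j)(x' j)²` if `x' ≠ 0` (if `p 1 x' f' = 0` then `p 1 x' q 2 = 0`, hence
`x' = 0` by `adj`), and `c = c' = 0` if `x' = 0`. Let `J` be the space of these `w` restricted to
`V₊ = eig s 1`. `J` is irreducible on `V₊`: a `J`-stable subspace `W` is stable under all `x j`,
`x ∈ Lp`, hence under `x y = (x j)(g y g j)` on `V₊` for `x ∈ Lp`, `y ∈ Lm` (`g y g ∈ Lp`,
`IsLie.sandwich`, `y = y P = y g j`), hence under `x y - y x` (`y x = 0` on `V₊`), hence under `L0`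
(`A3_span`); so `W = 0` or `W = V₊` by `A3_vec`. Now `P7_cliff`. -/
theorem P8_pow [CharZero K] [IsAlgClosed K] [FiniteDimensional K V] [Nontrivial V]
    (h : Core L ω adj) {s e f e' f' u : Module.End K V} (G : Grid L s e f e' f' u)
    (h0 : (1 / 2 : K) • (1 + s) = e * f + e' * f') :
    ∃ t : ℕ, finrank K (eig s 1) = 2 ^ t := by
  have hl := h.lie
  obtain ⟨P, hP⟩ : ∃ P : Module.End K V, P = (1 / 2 : K) • (1 + s) := ⟨_, rfl⟩
  obtain ⟨Q, hQ⟩ : ∃ Q : Module.End K V, Q = (1 / 2 : K) • (1 - s) := ⟨_, rfl⟩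
  have hPe : P = e * f + e' * f' := by rw [hP, h0]
  have hs2 := G.F.s_sq
  have a1 : adj 1 = 1 := by
    rw [← hs2, A0_mul h, h.skew s G.F.s_mem, neg_mul_neg]
  have hQe : Q = f * e + f' * e' := by
    have h1 := congrArg adj h0
    rw [map_smul, map_add, map_add, a1, A0_mul h, A0_mul h, h.skew s G.F.s_mem,
      h.skew e G.F.e_mem.1, h.skew f G.F.f_mem.1, h.skew e' G.F'.e_mem.1,
      h.skew f' G.F'.f_mem.1, neg_mul_neg, neg_mul_neg, ← sub_eq_add_neg] at h1
    rw [hQ, h1]
  have ePx : ∀ X ∈ Lp L s, P * X = X := by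
    intro X hX
    rw [hP, smul_mul_assoc, add_mul, one_mul, hX.2.1, ← two_smul K, smul_smul]; norm_num
  have eXQ : ∀ X ∈ Lp L s, X * Q = X := by
    intro X hX
    rw [hQ, mul_smul_comm, mul_sub, mul_one, hX.2.2, sub_neg_eq_add, ← two_smul K, smul_smul]
    norm_num
  have eYP : ∀ Y ∈ Lm L s, Y * P = Y := by
    intro X hX
    rw [hP, mul_smul_comm, mul_add, mul_one, hX.2.2, ← two_smul K, smul_smul]; norm_num
  have hPv : ∀ v, s v = v → P v = v := by
    intro v hv
    rw [hP, LinearMap.smul_apply, LinearMap.add_apply, hv, Module.End.one_apply, ← two_smul K,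
      smul_smul]
    norm_num
  have m1 : ∀ {v : V}, v ∈ eig s 1 ↔ s v = v := by
    intro v
    rw [eig, LinearMap.mem_ker, LinearMap.sub_apply, sub_eq_zero, one_smul, Module.End.one_apply]
  have ff' : f * f' = 0 := A2_mm G.F.f_mem G.F'.f_mem
  have f'f : f' * f = 0 := A2_mm G.F'.f_mem G.F.f_mem
  have efe := G.F.efe
  have fef := G.F.fef
  have efe' := G.F'.efe
  have fef' := G.F'.fef
  have e'f := G.o3
  have ef' := G.o1
  have hgj : (e + e') * (f + f') = P := by
    rw [hPe, add_mul, mul_add, mul_add, ef', e'f]; simp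
  have hjg : (f + f') * (e + e') = Q := by
    rw [hQe, add_mul, mul_add, mul_add, G.o4, G.o2]; simp
  have p1ne : e * f ≠ 0 := by
    intro h1
    apply G.F.e_ne
    rw [← efe, h1, zero_mul]
  -- the space of operators
  let J : Submodule K (Module.End K (eig s 1)) :=
    { carrier := {T | ∃ x ∈ Lp L s, ∃ c₁ c₂ : K, e * f * x * (f * e) = c₁ • e ∧
        e' * f' * x * (f' * e') = c₂ • e' ∧
        ∀ v : eig s 1, ((T v : eig s 1) : V) = x ((f + f') (v : V)) - ((c₁ + c₂) / 2) • (v : V)}
      add_mem' := by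
        rintro S T ⟨x, hx, c₁, c₂, h1, h2, h3⟩ ⟨y, hy, d₁, d₂, h4, h5, h6⟩
        refine ⟨x + y, (Lp L s).add_mem hx hy, c₁ + d₁, c₂ + d₂, ?_, ?_, ?_⟩
        · rw [mul_add, add_mul, h1, h4, add_smul]
        · rw [mul_add, add_mul, h2, h5, add_smul]
        · intro v
          have e1 : (x + y) ((f + f') (v : V)) = x ((f + f') (v : V)) + y ((f + f') (v : V)) := rfl
          rw [LinearMap.add_apply, Submodule.coe_add, h3, h6, e1]
          module
      zero_mem' := ⟨0, (Lp L s).zero_mem, 0, 0, by simp, by simp, by simp⟩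
      smul_mem' := by
        rintro c T ⟨x, hx, c₁, c₂, h1, h2, h3⟩
        refine ⟨c • x, (Lp L s).smul_mem c hx, c * c₁, c * c₂, ?_, ?_, ?_⟩
        · rw [mul_smul_comm, smul_mul_assoc, h1, smul_smul]
        · rw [mul_smul_comm, smul_mul_assoc, h2, smul_smul]
        · intro v
          have e1 : (c • x) ((f + f') (v : V)) = c • x ((f + f') (v : V)) := rfl
          rw [LinearMap.smul_apply, Submodule.coe_smul, h3, e1]
          module }
  have hsq : ∀ w ∈ J, ∃ c : K, w * w = c • 1 := by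
    rintro T ⟨x, hx, c₁, c₂, h1, h2, h3⟩
    have hxx : x * x = 0 := A2_pp hx hx
    obtain ⟨A, hA⟩ : ∃ A, A = e * f * x * f' := ⟨_, rfl⟩
    obtain ⟨B, hB⟩ : ∃ B, B = e' * f' * x * f := ⟨_, rfl⟩
    -- the operator
    have hxj : x * (f + f') = c₁ • (e * f) + c₂ • (e' * f') + A + B := by
      have e1 : e * f * x * f = c₁ • (e * f) := by
        calc e * f * x * f = e * f * x * (f * e) * f := by rw [mul_assoc _ (f * e) f, fef]
          _ = c₁ • (e * f) := by rw [h1, smul_mul_assoc]
      have e2 : e' * f' * x * f' = c₂ • (e' * f') := by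
        calc e' * f' * x * f' = e' * f' * x * (f' * e') * f' := by
              rw [mul_assoc _ (f' * e') f', fef']
          _ = c₂ • (e' * f') := by rw [h2, smul_mul_assoc]
      calc x * (f + f') = P * x * (f + f') := by rw [ePx x hx]
        _ = e * f * x * f + e' * f' * x * f' + e * f * x * f' + e' * f' * x * f := by
            rw [hPe]; noncomm_ring
        _ = _ := by rw [e1, e2, hA, hB]
    obtain ⟨a, ha⟩ := K0_ext hl G.F (hl.sandwich hx.1 hxx G.F'.f_mem.1)
    obtain ⟨b, hb⟩ := K0_ext hl G.F' (hl.sandwich hx.1 hxx G.F.f_mem.1)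
    have hAB : A * B = a • (e * f) := by
      calc A * B = e * f * x * (f' * e' * f') * x * f := by rw [hA, hB]; noncomm_ring
        _ = e * f * (x * f' * x) * (f * e) * f := by
          rw [fef', mul_assoc _ (f * e) f, fef]; noncomm_ring
        _ = _ := by rw [ha, smul_mul_assoc]
    have hBA : B * A = b • (e' * f') := by
      calc B * A = e' * f' * x * (f * e * f) * x * f' := by rw [hA, hB]; noncomm_ring
        _ = e' * f' * (x * f * x) * (f' * e') * f' := by
          rw [fef, mul_assoc _ (f' * e') f', fef']; noncomm_ring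
        _ = _ := by rw [hb, smul_mul_assoc]
    have hp1A : e * f * A = A := by rw [hA]; simp only [← mul_assoc]; rw [efe]
    have hAp2 : A * (e' * f') = A := by rw [hA, mul_assoc, ← mul_assoc f', fef']
    have hp2B : e' * f' * B = B := by rw [hB]; simp only [← mul_assoc]; rw [efe']
    have hBp1 : B * (e * f) = B := by rw [hB, mul_assoc, ← mul_assoc f, fef]
    have hAA : A * A = 0 := by
      calc A * A = e * f * x * (f' * e) * f * x * f' := by rw [hA]; noncomm_ring
        _ = 0 := by rw [G.o2]; simp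
    have hBB : B * B = 0 := by
      calc B * B = e' * f' * x * (f * e') * f' * x * f := by rw [hB]; noncomm_ring
        _ = 0 := by rw [G.o4]; simp
    have hab : a = b := by
      by_cases hA0 : A = 0
      · rw [hA0, zero_mul] at hAB
        rw [hA0, mul_zero] at hBA
        have ha0 := (smul_eq_zero.mp hAB.symm).resolve_right p1ne
        have p2ne : e' * f' ≠ 0 := by
          intro h1
          apply G.F'.e_ne
          rw [← efe', h1, zero_mul]
        have hb0 := (smul_eq_zero.mp hBA.symm).resolve_right p2ne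
        rw [ha0, hb0]
      · have e1 : (a - b) • A = 0 := by
          have e2 : A * B * A = a • A := by rw [hAB, smul_mul_assoc, hp1A]
          have e3 : A * B * A = b • A := by rw [mul_assoc, hBA, mul_smul_comm, hAp2]
          rw [sub_smul, ← e2, ← e3, sub_self]
        exact sub_eq_zero.mp ((smul_eq_zero.mp e1).resolve_right hA0)
    -- the square
    obtain ⟨D, hD⟩ : ∃ D : Module.End K V, D = x * (f + f') - ((c₁ + c₂) / 2) • P := ⟨_, rfl⟩
    obtain ⟨d, hd⟩ : ∃ d : K, d = (c₁ - c₂) / 2 := ⟨_, rfl⟩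
    have hD2 : D = d • (e * f - e' * f') + (A + B) := by
      rw [hD, hxj, hPe, hd]; module
    have t12 : e * f * (e' * f') = 0 := by
      rw [mul_assoc, ← mul_assoc f, G.o4, zero_mul, mul_zero]
    have t21 : e' * f' * (e * f) = 0 := by
      rw [mul_assoc, ← mul_assoc f', G.o2, zero_mul, mul_zero]
    have t11 : e * f * (e * f) = e * f := by rw [← mul_assoc, efe]
    have t22 : e' * f' * (e' * f') = e' * f' := by rw [← mul_assoc, efe']
    have hp2A : e' * f' * A = 0 := by rw [← hp1A, ← mul_assoc, t21, zero_mul]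
    have hp1B : e * f * B = 0 := by rw [← hp2B, ← mul_assoc, t12, zero_mul]
    have hAp1 : A * (e * f) = 0 := by rw [← hAp2, mul_assoc, t21, mul_zero]
    have hBp2 : B * (e' * f') = 0 := by rw [← hBp1, mul_assoc, t12, mul_zero]
    have hDD : D * D = (d * d + a) • P := by
      rw [hD2]
      simp only [add_mul, mul_add, sub_mul, mul_sub, smul_mul_assoc, mul_smul_comm, smul_sub,
        t11, t12, t21, t22, hp1A, hAp2, hp2B, hBp1, hp2A, hp1B, hAp1, hBp2, hAA, hBB, hAB, hBA,
        ← hab, hPe]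
      module
    refine ⟨d * d + a, ?_⟩
    have hTD : ∀ v : eig s 1, ((T v : eig s 1) : V) = D v := by
      intro v
      rw [h3, hD, LinearMap.sub_apply, LinearMap.smul_apply, hPv v (m1.mp v.2)]
      rfl
    ext v
    rw [Module.End.mul_apply, hTD, hTD, ← Module.End.mul_apply, hDD, LinearMap.smul_apply,
      hPv v (m1.mp v.2)]
    rfl
  have hfin := (K5_eig h G.F.s_mem G.F.s_sq).2
  have hpos : 0 < finrank K V := finrank_pos
  have hpos1 : 0 < finrank K (eig s 1) := by omega
  have : Nontrivial (eig s 1) := (Module.finrank_pos_iff (R := K)).mp hpos1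
  refine P7_cliff (finrank K (eig s 1)) (eig s 1) J rfl hsq ?_
  intro U hU
  by_cases hU0 : U = ⊥
  · exact Or.inl hU0
  right
  obtain ⟨W, hW⟩ : ∃ W : Submodule K V, W = U.map (eig s 1).subtype := ⟨_, rfl⟩
  have hWs : ∀ w ∈ W, s w = w := by
    rw [hW]; rintro _ ⟨u, _, rfl⟩; exact m1.mp u.2
  have hW0 : W ≠ ⊥ := by
    intro h1
    apply hU0
    rw [eq_bot_iff]
    intro y hy
    have h4 : (y : V) ∈ W := by rw [hW]; exact ⟨y, hy, rfl⟩
    rw [h1, Submodule.mem_bot] at h4
    exact Subtype.ext h4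
  have hst1 : ∀ x ∈ Lp L s, ∀ w ∈ W, (x * (f + f')) w ∈ W := by
    intro x hx w hw
    obtain ⟨c₁, h1⟩ := K0_ext hl G.F hx.1
    obtain ⟨c₂, h2⟩ := K0_ext hl G.F' hx.1
    have hstab : ∀ v ∈ eig s 1, (x * (f + f') - ((c₁ + c₂) / 2) • 1) v ∈ eig s 1 := by
      intro v hv
      rw [m1] at hv ⊢
      rw [LinearMap.sub_apply, map_sub, ← Module.End.mul_apply, ← mul_assoc, hx.2.1,
        LinearMap.smul_apply, map_smul, Module.End.one_apply, hv]
    rw [hW] at hw ⊢
    obtain ⟨u, hu, rfl⟩ := hw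
    have h5 := hU ((x * (f + f') - ((c₁ + c₂) / 2) • 1).restrict hstab)
      ⟨x, hx, c₁, c₂, h1, h2, fun v => rfl⟩ u hu
    have h6 : (x * (f + f')) (u : V) = (((x * (f + f') - ((c₁ + c₂) / 2) • 1).restrict hstab u +
        ((c₁ + c₂) / 2) • u : eig s 1) : V) := by
      rw [Submodule.coe_add, Submodule.coe_smul, LinearMap.coe_restrict_apply]
      simp
    change (x * (f + f')) (u : V) ∈ _
    rw [h6]
    exact ⟨_, U.add_mem h5 (U.smul_mem _ hu), rfl⟩
  rw [eq_top_iff]
  rintro ⟨u, hu⟩ -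
  have huW : u ∈ W := by
    refine A3_vec h G.F.s_mem G.F.s_sq hWs hW0 ?_ (m1.mp hu)
    intro Z hZ
    have hsp := A3_span h G.F.s_mem G.F.s_sq hZ
    refine Submodule.span_induction (p := fun Z _ => ∀ w ∈ W, Z w ∈ W) ?_ ?_ ?_ ?_ hsp
    · rintro _ ⟨X, hX, Y, hY, rfl⟩ w hw
      have hXw : X w = 0 := by
        have e1 : X w = -(X w) := by
          conv_lhs => rw [← hWs w hw, ← Module.End.mul_apply, hX.2.2]
          rfl
        have e2 : (2 : K) • X w = 0 := by
          rw [two_smul]
          nth_rewrite 1 [e1]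
          exact neg_add_cancel _
        exact (smul_eq_zero.mp e2).resolve_left two_ne_zero
      have hgL : e + e' ∈ Lp L s := (Lp L s).add_mem G.F.e_mem G.F'.e_mem
      have hgg : (e + e') * (e + e') = 0 := A2_pp hgL hgL
      have hgYg : (e + e') * Y * (e + e') ∈ Lp L s := by
        refine ⟨hl.sandwich hgL.1 hgg hY.1, ?_, ?_⟩
        · rw [← mul_assoc, ← mul_assoc, hgL.2.1]
        · rw [mul_assoc, hgL.2.2, mul_neg]
      have e3 : X * Y = (X * (f + f')) * (((e + e') * Y * (e + e')) * (f + f')) := by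
        calc X * Y = (X * Q) * (Y * P) := by rw [eXQ X hX, eYP Y hY]
          _ = (X * ((f + f') * (e + e'))) * (Y * ((e + e') * (f + f'))) := by rw [hgj, hjg]
          _ = _ := by noncomm_ring
      rw [LinearMap.sub_apply, Module.End.mul_apply Y X, hXw, map_zero, sub_zero, e3,
        Module.End.mul_apply]
      exact hst1 X hX _ (hst1 _ hgYg w hw)
    · intro w _; rw [LinearMap.zero_apply]; exact W.zero_mem
    · intro a b _ _ h1 h2 w hw
      rw [LinearMap.add_apply]
      exact W.add_mem (h1 w hw) (h2 w hw)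
    · intro c a _ h1 w hw
      rw [LinearMap.smul_apply]
      exact W.smul_mem _ (h1 w hw)
  rw [hW] at huW
  obtain ⟨y, hy, hyu⟩ := huW
  have : y = ⟨u, hu⟩ := Subtype.ext hyu
  rwa [← this]

/-- Chunk P8c. The rank of `e` is not two. Suppose it is. Let `p = e f`,
`D` the space of `a = p a p` with `a u₁ ∈ LL (e f)(e' f')`, `u₁ = u f'`. By `P6_norm`
`a e adj a = c e` for `a ∈ D`; write `a° = e (adj a) f` (an anti-automorphism of the corner algebra,
`a°° = a`): `a a° = c p`, and `p ∈ D`, so polarising with `p`: `a + a° = t p`. The map `a ↦ a°` is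
the adjoint for the symmetric form `(v, w) ↦ ω (v, f w)` on the plane `U = range p` (nondegenerate),
so an element with `a° = - a` is skew for a symmetric form on a plane: these form a line
`K κ`. Hence `D ⊆ K p + K κ` is commutative. The algebra of `P5_all` is generated by
products `x y` with `x = a u₁`, `a = x u₂ ∈ D` (`u₂ = u f`), and `y ∈ LL (e' f')(e f)`: `y = u₂ b`,
`b = u₁ y`, where `b° ∈ D`: from `y = p 2 Y p 1`, `Y' = p 2 Y p 1 + q 1 Y q 2 ∈ L`,
`b° = e adj(u₁ y) f = e adj(y) adj(u₁) f`, `adj y = - q 1 Y q 2`, `adj u₁ = f' u`, and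
`b° u₁ = - e (q 1 Y q 2) f' u f u f' = - e Y' f' (u f u f') = - e Y' f' e' f' = - e Y' f'`
`= - p 1 [e, [Y', f']] p 2`, which is in `LL (p 1)(p 2)`. So `b = (b°)° = t p - b° ∈ D`
(note `p u₁ = u₁ ∈ LL`). So the
algebra is generated by elements `x y = a u₁ u₂ b = a b` with `a, b ∈ D`, it is commutative; but it
contains all `p T p` (`P5_all`), and these do not commute when `rank p = 2`. -/
theorem P8_two [CharZero K] [IsAlgClosed K] [FiniteDimensional K V] [Nontrivial V]
    (h : Core L ω adj) {s e f e' f' u : Module.End K V} (G : Grid L s e f e' f' u) :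
    finrank K (LinearMap.range e) ≠ 2 := by
  intro hr
  have hl := h.lie
  have efe := G.F.efe
  have fef := G.F.fef
  have pp : e * f * (e * f) = e * f := by rw [← mul_assoc, efe]
  have ae := h.skew e G.F.e_mem.1
  have af := h.skew f G.F.f_mem.1
  have hskew : ∀ v w, ω v w = -ω w v := by
    intro v w
    have h1 := h.alt (v + w)
    simp only [map_add, LinearMap.add_apply] at h1
    rw [h.alt v, h.alt w, zero_add, add_zero] at h1
    exact eq_neg_of_add_eq_zero_right h1
  obtain ⟨hu1, hu1a, hu1b, -⟩ := P3_u1 h G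
  obtain ⟨hu2, hu2a, hu2b⟩ := P3_u2 h G
  obtain ⟨hu12, hu21⟩ := P3_u12 G
  -- the involution of the corner
  obtain ⟨inv, hinv⟩ : ∃ inv : Module.End K V → Module.End K V, ∀ a, inv a = e * adj a * f :=
    ⟨_, fun _ => rfl⟩
  have aef : adj (e * f) = f * e := by rw [A0_mul h, ae, af, neg_mul_neg]
  have inv_inv : ∀ a, e * f * a = a → a * (e * f) = a → inv (inv a) = a := by
    intro a h1 h2
    rw [hinv, hinv, A0_mul h, A0_mul h, A0_adj h, ae, af]
    calc e * (-f * (a * -e)) * f = (e * f * a) * (e * f) := by noncomm_ring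
      _ = a := by rw [h1, h2]
  have inv_p : inv (e * f) = e * f := by
    rw [hinv, aef]
    calc e * (f * e) * f = e * f * e * f := by noncomm_ring
      _ = e * f := by rw [efe]
  have inv_sub : ∀ (a : Module.End K V) (t : K), inv (a - t • (e * f)) = inv a - t • (e * f) := by
    intro a t
    have h1 := inv_p
    rw [hinv] at h1
    rw [hinv, hinv, map_sub, map_smul, mul_sub, sub_mul, mul_smul_comm, smul_mul_assoc, h1]
  -- the set `D`
  obtain ⟨D, hD⟩ : ∃ D : Set (Module.End K V), D = {a | e * f * a = a ∧ a * (e * f) = a ∧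
    a * (u * f') ∈ LL L (e * f) (e' * f')} := ⟨_, rfl⟩
  have hDinv : ∀ a ∈ D, ∃ t : K, inv a = t • (e * f) - a := by
    rintro a ha
    rw [hD] at ha
    obtain ⟨h1, h2, h3⟩ := ha
    obtain ⟨c, hc⟩ := P6_norm h G h1 h2 h3
    obtain ⟨c', hc'⟩ := P6_norm h G (a := a + e * f) (by rw [mul_add, h1, pp])
      (by rw [add_mul, h2, pp]) (by
        rw [add_mul, hu1a]
        exact (LL L (e * f) (e' * f')).add_mem h3 hu1)
    refine ⟨c' - c - 1, ?_⟩
    have e1 : a * inv a = c • (e * f) := by
      rw [hinv, ← mul_assoc, ← mul_assoc, hc, smul_mul_assoc]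
    have e2 : (a + e * f) * inv (a + e * f) = c' • (e * f) := by
      rw [hinv, ← mul_assoc, ← mul_assoc, hc', smul_mul_assoc]
    have e3 : inv (a + e * f) = inv a + e * f := by
      have := inv_sub a (-1)
      rw [neg_one_smul, sub_neg_eq_add, sub_neg_eq_add] at this
      exact this
    have e4 : e * f * inv a = inv a := by
      rw [hinv]; simp only [← mul_assoc]; rw [efe]
    rw [e3, add_mul, mul_add, mul_add, e1, h2, e4, pp] at e2
    have e5 : inv a = c' • (e * f) - c • (e * f) - a - e * f := by rw [← e2]; abel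
    rw [e5, sub_smul, sub_smul, one_smul]; abel
  -- the plane
  have hfr := (K0_rank G.F).1
  rw [hr] at hfr
  obtain ⟨x₁, x₂, hx₁, hx₂, hspan⟩ : ∃ x₁ x₂ : V, (e * f) x₁ = x₁ ∧ (e * f) x₂ = x₂ ∧
      ∀ v, ∃ a b : K, (e * f) v = a • x₁ + b • x₂ := by
    have B := finBasisOfFinrankEq K (LinearMap.range (e * f)) hfr
    have hfix : ∀ y : LinearMap.range (e * f), (e * f) (y : V) = y := by
      rintro ⟨_, ⟨v, rfl⟩⟩
      rw [← Module.End.mul_apply, pp]
    refine ⟨B 0, B 1, hfix _, hfix _, fun v => ?_⟩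
    have h1 := B.sum_repr ⟨(e * f) v, v, rfl⟩
    rw [Fin.sum_univ_two] at h1
    exact ⟨_, _, (congrArg Subtype.val h1).symm⟩
  -- the symmetric form
  have hadj : ∀ a, a * (e * f) = a → ∀ v w, ω (a v) (f w) = ω v (f (inv a w)) := by
    intro a ha v w
    rw [h.spec]
    have h1 : adj a = f * e * adj a := by
      conv_lhs => rw [← ha, A0_mul h, aef]
    rw [hinv]
    have h2 : adj a (f w) = f ((e * adj a * f) w) := by
      conv_lhs => rw [h1]
      rfl
    rw [h2]
  have hsym : ∀ v w, ω v (f w) = ω w (f v) := by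
    intro v w
    rw [hskew, h.spec, af, LinearMap.neg_apply, map_neg, neg_neg]
  have hE0 : ∀ a, e * f * a = a → a * (e * f) = a → inv a = -a → ω (a x₁) (f x₂) = 0 → a = 0 := by
    intro a h1 h2 h3 h4
    have hsk : ∀ v w, ω (a v) (f w) = -ω (a w) (f v) := by
      intro v w
      rw [hadj a h2, h3, LinearMap.neg_apply, map_neg, map_neg, hsym v (a w)]
    have hself : ∀ v, ω (a v) (f v) = 0 := by
      intro v
      have h5 := hsk v v
      have h6 : (2 : K) * ω (a v) (f v) = 0 := by linear_combination h5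
      exact (mul_eq_zero.mp h6).resolve_left two_ne_zero
    have hall : ∀ v w, ω (a v) (f w) = 0 := by
      intro v w
      obtain ⟨α, β, hv⟩ := hspan v
      obtain ⟨γ, δ, hw⟩ := hspan w
      have e1 : a v = a ((e * f) v) := by rw [← Module.End.mul_apply, h2]
      have e2 : f w = f ((e * f) w) := by
        rw [← Module.End.mul_apply, ← mul_assoc, fef]
      have h21 : ω (a x₂) (f x₁) = 0 := by rw [hsk, h4, neg_zero]
      rw [e1, e2, hv, hw]
      simp only [map_add, map_smul, LinearMap.add_apply, LinearMap.smul_apply, hself, h4, h21,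
        smul_zero, add_zero]
    have hfa : ∀ v, f (a v) = 0 := by
      intro v
      apply h.nd
      intro w
      rw [h.spec, af, LinearMap.neg_apply, map_neg, hall, neg_zero]
    ext v
    have e1 : (e * f) (a v) = a v := by rw [← Module.End.mul_apply, h1]
    rw [← e1, Module.End.mul_apply, hfa, map_zero]; rfl
  -- `D` is commutative
  have hskewcomm : ∀ a, e * f * a = a → a * (e * f) = a → inv a = -a →
      ∀ b, e * f * b = b → b * (e * f) = b → inv b = -b → a * b = b * a := by
    intro a a1 a2 a3 b b1 b2 b3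
    obtain ⟨φ, hφ⟩ : ∃ φ : Module.End K V → K, ∀ a, φ a = ω (a x₁) (f x₂) := ⟨_, fun _ => rfl⟩
    have hinvlin : inv (φ b • a - φ a • b) = φ b • inv a - φ a • inv b := by
      rw [hinv, hinv, hinv, map_sub, map_smul, map_smul, mul_sub, sub_mul, mul_smul_comm,
        mul_smul_comm, smul_mul_assoc, smul_mul_assoc]
    have h0 : φ b • a - φ a • b = 0 := by
      apply hE0
      · rw [mul_sub, mul_smul_comm, mul_smul_comm, a1, b1]
      · rw [sub_mul, smul_mul_assoc, smul_mul_assoc, a2, b2]
      · rw [hinvlin, a3, b3]; module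
      · rw [LinearMap.sub_apply, LinearMap.smul_apply, LinearMap.smul_apply, map_sub, map_smul,
          map_smul, LinearMap.sub_apply, LinearMap.smul_apply, LinearMap.smul_apply, ← hφ, ← hφ,
          smul_eq_mul, smul_eq_mul]
        ring
    by_cases hφa : φ a = 0
    · have : a = 0 := hE0 a a1 a2 a3 (by rw [← hφ, hφa])
      rw [this, zero_mul, mul_zero]
    · have e1 : b = ((φ a)⁻¹ * φ b) • a := by
        have e2 : φ a • b = φ b • a := (sub_eq_zero.mp h0).symm
        rw [mul_smul, ← e2, smul_smul, inv_mul_cancel₀ hφa, one_smul]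
      rw [e1, mul_smul_comm, smul_mul_assoc]
  have hDcomm : ∀ a ∈ D, ∀ b ∈ D, a * b = b * a := by
    intro a ha b hb
    obtain ⟨t, ht⟩ := hDinv a ha
    obtain ⟨r, hr'⟩ := hDinv b hb
    rw [hD] at ha hb
    have key : ∀ (a : Module.End K V) (t : K), e * f * a = a → a * (e * f) = a →
        inv a = t • (e * f) - a → e * f * (a - (t / 2) • (e * f)) = a - (t / 2) • (e * f) ∧
        (a - (t / 2) • (e * f)) * (e * f) = a - (t / 2) • (e * f) ∧
        inv (a - (t / 2) • (e * f)) = -(a - (t / 2) • (e * f)) := by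
      intro a t h1 h2 h3
      refine ⟨by rw [mul_sub, mul_smul_comm, h1, pp], by rw [sub_mul, smul_mul_assoc, h2, pp], ?_⟩
      rw [inv_sub, h3]; module
    obtain ⟨a1, a2, a3⟩ := key a t ha.1 ha.2.1 ht
    obtain ⟨b1, b2, b3⟩ := key b r hb.1 hb.2.1 hr'
    have h1 := hskewcomm _ a1 a2 a3 _ b1 b2 b3
    simp only [sub_mul, mul_sub, mul_smul_comm, smul_mul_assoc, ha.1, ha.2.1, hb.1, hb.2.1, pp]
      at h1
    have h2 : a * b - b * a = (a * b - (t / 2) • b - (r / 2) • (a - (t / 2) • (e * f))) -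
        (b * a - (r / 2) • a - (t / 2) • (b - (r / 2) • (e * f))) := by module
    rw [← sub_eq_zero, h2, sub_eq_zero]
    exact h1
  -- generators of the corner algebra
  have hgen1 : ∀ x ∈ LL L (e * f) (e' * f'), x * (u * f) ∈ D := by
    intro x hx
    rw [hD]
    obtain ⟨X, hX, rfl⟩ := id hx
    have t22 : e' * f' * (e' * f') = e' * f' := by rw [← mul_assoc, G.F'.efe]
    refine ⟨?_, ?_, ?_⟩
    · simp only [← mul_assoc]; rw [efe]
    · rw [mul_assoc, hu2b]
    · rw [mul_assoc, hu21, mul_assoc, t22]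
      exact hx
  have hgen2 : ∀ y ∈ LL L (e' * f') (e * f), u * f' * y ∈ D := by
    rintro y ⟨Y, hY, rfl⟩
    obtain ⟨b, hb⟩ : ∃ b, b = u * f' * (e' * f' * Y * (e * f)) := ⟨_, rfl⟩
    rw [← hb]
    have b1 : e * f * b = b := by rw [hb, ← mul_assoc, hu1a]
    have b2 : b * (e * f) = b := by
      rw [hb]
      calc u * f' * (e' * f' * Y * (e * f)) * (e * f) = u * f' * (e' * f' * Y * (e * f * (e * f)))
            := by noncomm_ring
        _ = _ := by rw [pp]
    have hbinv : inv b ∈ D := by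
      rw [hD]
      have c1 : inv b = -(e * Y * f' * u * f) := by
        rw [hinv, hb]
        simp only [A0_mul h, h.skew Y hY, ae, af, h.skew e' G.F'.e_mem.1, h.skew f' G.F'.f_mem.1,
          h.skew u G.u_mem.1]
        calc e * (-f * -e * (-Y * (-f' * -e')) * (-f' * -u)) * f =
            -((e * f * e) * Y * (f' * e' * f') * u * f) := by noncomm_ring
          _ = _ := by rw [efe, G.F'.fef]
      refine ⟨?_, ?_, ?_⟩
      · rw [c1, mul_neg]; simp only [← mul_assoc]; rw [efe]
      · rw [c1, neg_mul]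
        calc -(e * Y * f' * u * f * (e * f)) = -(e * Y * f' * u * (f * e * f)) := by noncomm_ring
          _ = _ := by rw [fef]
      · have c2 : inv b * (u * f') = -(e * Y * f') := by
          rw [c1]
          calc -(e * Y * f' * u * f) * (u * f') = -(e * Y * f' * (u * f * u) * f') := by
                noncomm_ring
            _ = -(e * Y * (f' * e' * f')) := by rw [G.ufu]; noncomm_ring
            _ = _ := by rw [G.F'.fef]
        rw [c2]
        apply (LL L (e * f) (e' * f')).neg_mem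
        refine ⟨_, hl _ G.F.e_mem.1 _ (hl _ hY _ G.F'.f_mem.1), ?_⟩
        symm
        calc e * f * (e * (Y * f' - f' * Y) - (Y * f' - f' * Y) * e) * (e' * f')
            = (e * f * e) * Y * (f' * e' * f') - e * f * (e * f') * Y * (e' * f') -
              e * f * Y * (f' * e) * (e' * f') + e * (f * f') * Y * e * (e' * f') := by
              noncomm_ring
          _ = _ := by
              rw [efe, G.F'.fef, G.o1, G.o2, A2_mm G.F.f_mem G.F'.f_mem]; simp
    obtain ⟨t, ht⟩ := hDinv _ hbinv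
    rw [inv_inv b b1 b2] at ht
    have hb3 : b = t • (e * f) - inv b := ht
    rw [hD] at hbinv ⊢
    refine ⟨b1, b2, ?_⟩
    rw [hb3, sub_mul, smul_mul_assoc, hu1a]
    exact (LL L (e * f) (e' * f')).sub_mem ((LL L (e * f) (e' * f')).smul_mem t hu1) hbinv.2.2
  have hgen : ∀ T ∈ {T : Module.End K V | ∃ x ∈ LL L (e * f) (e' * f'),
      ∃ y ∈ LL L (e' * f') (e * f), T = x * y}, ∃ a ∈ D, ∃ b ∈ D, T = a * b := by
    rintro _ ⟨x, hx, y, hy, rfl⟩
    refine ⟨_, hgen1 x hx, _, hgen2 y hy, ?_⟩
    have hx2 : x * (e' * f') = x := by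
      obtain ⟨X, hX, rfl⟩ := hx
      rw [mul_assoc, ← mul_assoc (e' * f'), G.F'.efe]
    calc x * y = x * (u * f * (u * f')) * y := by rw [hu21, hx2]
      _ = _ := by noncomm_ring
  have hC1 : ∀ c ∈ NonUnitalAlgebra.adjoin K {T : Module.End K V | ∃ x ∈ LL L (e * f) (e' * f'),
      ∃ y ∈ LL L (e' * f') (e * f), T = x * y}, ∀ a ∈ D, c * a = a * c := by
    intro c hc
    induction hc using NonUnitalAlgebra.adjoin_induction with
    | mem T hT =>
      intro d hd
      obtain ⟨a, ha, b, hb, rfl⟩ := hgen T hT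
      rw [mul_assoc, hDcomm b hb d hd, ← mul_assoc, hDcomm a ha d hd, mul_assoc]
    | add a b _ _ h1 h2 => intro d hd; rw [add_mul, mul_add, h1 d hd, h2 d hd]
    | zero => intro d _; simp
    | mul a b _ _ h1 h2 =>
      intro d hd
      rw [mul_assoc, h2 d hd, ← mul_assoc, h1 d hd, mul_assoc]
    | smul r a _ h1 => intro d hd; rw [smul_mul_assoc, mul_smul_comm, h1 d hd]
  have hC2 : ∀ c' ∈ NonUnitalAlgebra.adjoin K {T : Module.End K V | ∃ x ∈ LL L (e * f) (e' * f'),
      ∃ y ∈ LL L (e' * f') (e * f), T = x * y}, ∀ c ∈ NonUnitalAlgebra.adjoin K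
      {T : Module.End K V | ∃ x ∈ LL L (e * f) (e' * f'),
      ∃ y ∈ LL L (e' * f') (e * f), T = x * y}, c * c' = c' * c := by
    intro c' hc'
    induction hc' using NonUnitalAlgebra.adjoin_induction with
    | mem T hT =>
      intro c hc
      obtain ⟨a, ha, b, hb, rfl⟩ := hgen T hT
      rw [← mul_assoc, hC1 c hc a ha, mul_assoc, hC1 c hc b hb, ← mul_assoc]
    | add a b _ _ h1 h2 => intro c hc; rw [add_mul, mul_add, h1 c hc, h2 c hc]
    | zero => intro c _; simp
    | mul a b _ _ h1 h2 =>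
      intro c hc
      rw [← mul_assoc, h1 c hc, mul_assoc, h2 c hc, ← mul_assoc]
    | smul r a _ h1 => intro c hc; rw [smul_mul_assoc, mul_smul_comm, h1 c hc]
  -- the contradiction
  have hcomm := fun S T => hC2 _ (P5_all h G S) _ (P5_all h G T)
  have hx₁0 : x₁ ≠ 0 := by
    rintro rfl
    have hle : LinearMap.range (e * f) ≤ Submodule.span K {x₂} := by
      rintro _ ⟨v, rfl⟩
      obtain ⟨a, b, hab⟩ := hspan v
      rw [hab, smul_zero, zero_add, Submodule.mem_span_singleton]
      exact ⟨b, rfl⟩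
    have h1 := Submodule.finrank_mono hle
    have h2 := finrank_span_le_card (R := K) ({x₂} : Set V)
    rw [hfr] at h1
    simp at h2
    omega
  obtain ⟨φ, hφ⟩ := Module.Projective.exists_dual_ne_zero (R := K) hx₁0
  have hline : LinearMap.range (e * f) ≤ Submodule.span K {x₁} := by
    rintro _ ⟨v, rfl⟩
    obtain ⟨z, hz⟩ : ∃ z, z = (e * f) v := ⟨_, rfl⟩
    rw [← hz]
    have hpz : (e * f) z = z := by rw [hz, ← Module.End.mul_apply, pp]
    obtain ⟨S, hS⟩ : ∃ S : Module.End K V, ∀ v, S v = φ v • x₁ := ⟨φ.smulRight x₁, fun _ => rfl⟩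
    obtain ⟨T, hT⟩ : ∃ T : Module.End K V, ∀ v, T v = φ v • z := ⟨φ.smulRight z, fun _ => rfl⟩
    have hS2 : ∀ v, (e * f * S * (e * f)) v = φ ((e * f) v) • x₁ := by
      intro v
      rw [Module.End.mul_apply, Module.End.mul_apply, hS, map_smul, hx₁]
    have hT2 : ∀ v, (e * f * T * (e * f)) v = φ ((e * f) v) • z := by
      intro v
      rw [Module.End.mul_apply, Module.End.mul_apply, hT, map_smul, hpz]
    have h1 := LinearMap.congr_fun (hcomm S T) x₁
    rw [Module.End.mul_apply (e * f * T * (e * f)), Module.End.mul_apply (e * f * S * (e * f)),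
      hS2, hT2, hT2, hS2] at h1
    simp only [hx₁, hpz, map_smul, smul_eq_mul] at h1
    rw [Submodule.mem_span_singleton]
    refine ⟨(φ x₁ * φ x₁)⁻¹ * (φ x₁ * φ z), ?_⟩
    rw [mul_smul, ← h1, smul_smul, inv_mul_cancel₀ (mul_ne_zero hφ hφ), one_smul]
  have h1 := Submodule.finrank_mono hline
  have h2 := finrank_span_le_card (R := K) ({x₁} : Set V)
  rw [hfr] at h1
  simp at h2
  omega

end Pool.Agent.H49M
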